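import Pool.Agent.Work.MP_369e59_al.LinLaw

/-!
# The number of generators of the elementary abelian quotients
-/

namespace Pool.Agent.Work.MP_369e59_al

open scoped commutatorElement

/-! ### Quotients of operator groups -/

section quot

variable {Ω : Type*} [Group Ω] {K : Type*} [Group K] [MulDistribMulAction Ω K]

/-- The action on the quotient by an invariant normal subgroup. -/
abbrev quotAct (B : Subgroup K) [B.Normal] (hB : ∀ ω : Ω, ∀ x ∈ B, ω • x ∈ B) :
    MulDistribMulAction Ω (K ⧸ B) where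
  smul ω v := QuotientGroup.map B B (MulDistribMulAction.toMonoidHom K ω) (fun x hx => hB ω x hx) v
  one_smul v := by
    induction v using QuotientGroup.induction_on with
    | H x => exact congrArg QuotientGroup.mk (one_smul Ω x)
  mul_smul a b v := by
    induction v using QuotientGroup.induction_on with
    | H x => exact congrArg QuotientGroup.mk (mul_smul a b x)
  smul_mul a v w := map_mul _ v w
  smul_one a := map_one _

/-- A quotient in which commutators vanish is commutative. -/
abbrev quotComm (p : ℕ) (B : Subgroup K) [B.Normal] (hB : Phi K p ≤ B) : CommGroup (K ⧸ B) :=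
  { (inferInstance : Group (K ⧸ B)) with
    mul_comm := fun v w => by
      induction v using QuotientGroup.induction_on with
      | H x =>
        induction w using QuotientGroup.induction_on with
        | H y =>
          rw [← QuotientGroup.mk_mul, ← QuotientGroup.mk_mul, QuotientGroup.eq]
          have e : (x * y)⁻¹ * (y * x) = ⁅y⁻¹, x⁻¹⁆ := by
            simp only [commutatorElement_def]; group
          rw [e]
          exact hB (comm_le_Phi p (Subgroup.commutator_mem_commutator (Subgroup.mem_top _)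
            (Subgroup.mem_top _))) }

theorem quot_pow (p : ℕ) (B : Subgroup K) [B.Normal] (hB : Phi K p ≤ B) (v : K ⧸ B) :
    v ^ p = 1 := by
  induction v using QuotientGroup.induction_on with
  | H x =>
    rw [← QuotientGroup.mk_pow, QuotientGroup.eq_one_iff]
    exact hB (pow_mem_Phi p x)

theorem InVO.quot {W : Set (FreeGroup (ℕ × Ω))} (hW : InVO W K) (B : Subgroup K) [B.Normal]
    (hB : ∀ ω : Ω, ∀ x ∈ B, ω • x ∈ B) : @InVO Ω _ W (K ⧸ B) _ (quotAct B hB) := by
  let inst := quotAct B hB
  intro w hw θ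
  have hθ : ∀ i, ∃ x : K, (QuotientGroup.mk x : K ⧸ B) = θ i := fun i =>
    QuotientGroup.mk_surjective (θ i)
  choose θ' hθ' using hθ
  have h1 : (QuotientGroup.mk' B).comp (evalO (Ω := Ω) θ') = evalO (Ω := Ω) θ := by
    apply FreeGroup.ext_hom
    intro x
    simp only [evalO, MonoidHom.comp_apply, FreeGroup.lift_apply_of]
    rw [← hθ' x.1]
    rfl
  have h2 := DFunLike.congr_fun h1 w
  rw [← h2, MonoidHom.comp_apply, hW w hw θ', map_one]

theorem LocNilp.of_surjective {X Y : Type*} [Group X] [Group Y] (φ : X →* Y)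
    (hφ : Function.Surjective φ) (hX : LocNilp X) : LocNilp Y := by
  classical
  intro S
  choose s hs using hφ
  obtain ⟨m, hm⟩ := (Subgroup.isNilpotent_iff_lowerCentralSeries _).1 (hX (S.image s))
  refine (Subgroup.isNilpotent_iff_lowerCentralSeries _).2 ⟨m, ?_⟩
  have h1 : (Subgroup.closure ((S.image s : Finset X) : Set X)).map φ =
      Subgroup.closure (S : Set Y) := by
    rw [MonoidHom.map_closure, Finset.coe_image, ← Set.image_comp]
    congr 1
    ext y
    simp [hs]
  rw [← h1, ← Subgroup.map_lowerCentralSeries, hm, Subgroup.map_bot]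

theorem LocNilp.quot (hLN : LocNilp (K ⋊[MulDistribMulAction.toMulAut Ω K] Ω)) (B : Subgroup K)
    [B.Normal] (hB : ∀ ω : Ω, ∀ x ∈ B, ω • x ∈ B) :
    let _ := quotAct B hB
    LocNilp ((K ⧸ B) ⋊[MulDistribMulAction.toMulAut Ω (K ⧸ B)] Ω) := by
  intro inst
  refine LocNilp.of_surjective (X := K ⋊[MulDistribMulAction.toMulAut Ω K] Ω)
    (SemidirectProduct.map (QuotientGroup.mk' B) (MonoidHom.id Ω) (fun _ => rfl)) ?_ hLN
  rintro ⟨v, ω⟩
  obtain ⟨x, rfl⟩ := QuotientGroup.mk_surjective v
  exact ⟨⟨x, ω⟩, rfl⟩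

end quot

/-! ### Counting -/

/-- A finite commutative group generated by subgroups of order at most `q`. -/
theorem card_le_of_iSup {V : Type*} [CommGroup V] [Finite V] {J : Type*} [Fintype J]
    (X : J → Subgroup V) (q : ℕ) (hX : ∀ j, Nat.card (X j) ≤ q)
    (htop : Subgroup.closure (⋃ j, (X j : Set V)) = ⊤) : Nat.card V ≤ q ^ Fintype.card J := by
  classical
  let φ : (∀ j, X j) → V := fun v => ∏ j, (v j : V)
  have hφ : Function.Surjective φ := by
    intro v
    have hv : v ∈ Subgroup.closure (⋃ j, (X j : Set V)) := by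
      rw [htop]; exact Subgroup.mem_top v
    induction hv using Subgroup.closure_induction with
    | mem v hv =>
      obtain ⟨j, hj⟩ := Set.mem_iUnion.1 hv
      refine ⟨Pi.mulSingle j ⟨v, hj⟩, ?_⟩
      change ∏ i, ((Pi.mulSingle j (⟨v, hj⟩ : X j) : ∀ j, X j) i : V) = v
      rw [Finset.prod_eq_single j]
      · simp
      · intro i _ hi
        rw [Pi.mulSingle_eq_of_ne hi]
        rfl
      · intro h
        exact absurd (Finset.mem_univ j) h
    | one => exact ⟨1, by simp [φ]⟩
    | mul a b _ _ ha hb =>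
      obtain ⟨a', rfl⟩ := ha
      obtain ⟨b', rfl⟩ := hb
      exact ⟨a' * b', by simp [φ, Finset.prod_mul_distrib]⟩
    | inv a _ ha =>
      obtain ⟨a', rfl⟩ := ha
      exact ⟨a'⁻¹, by simp [φ]⟩
  refine (Nat.card_le_card_of_surjective φ hφ).trans ?_
  rw [Nat.card_pi]
  refine (Finset.prod_le_prod' (fun j _ => hX j)).trans ?_
  simp

/-! ### The reduction -/

/-- The reduction to a bound for the number of generators of the elementary abelian quotients
modulo `A` of the group generated by the orbits of finitely many elements. -/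
theorem thmE.{u, v} {Ω : Type*} [Group Ω] {G : Type u} [Group G] [MulDistribMulAction Ω G]
    {W : Set (FreeGroup (ℕ × Ω))} (hW : InVO W G) {U : Set MultId}
    (hU : ∀ u ∈ U, Generic (proj Ω '' W) u) {f : ℕ → ℕ} (hf : ClassBound.{v} U f)
    (hLN : LocNilp (G ⋊[MulDistribMulAction.toMulAut Ω G] Ω))
    (A : Subgroup G) [A.Normal] {c0 : ℕ} (hA : NilSol (f 2) A c0) (S : Finset G) {c M : ℕ}
    (r : ℕ → ℕ) (hr : ∀ p : ℕ, p.Prime → r p ≤ M)
    (hc : ∀ p : ℕ, p.Prime → f (r p + c0) ≤ c)
    (hrk : ∀ T₀ : Finset Ω, ∃ T : Finset Ω, T₀ ⊆ T ∧ ∀ p : ℕ, p.Prime →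
      (A.comap (K1 (Subgroup.closure (T : Set Ω)) (S : Set G)).subtype ⊔
        Phi (K1 (Subgroup.closure (T : Set Ω)) (S : Set G)) p).index ≤ p ^ r p) :
    (Subgroup.closure (S : Set G)).lowerCentralSeries c = ⊥ := by
  classical
  let Rs : Finset ℕ := (Finset.range (M + c0 + 1)).filter fun R => f R ≤ c
  obtain ⟨T₀, hT₀⟩ := reduce hW hU hLN Rs c (by
    intro R hR
    rw [Finset.mem_filter] at hR
    exact hf.vanishAt hR.2) (f 2) (hf.vanishAt le_rfl)
  obtain ⟨T, hT, hind⟩ := hrk T₀
  let Ω₁ : Subgroup Ω := Subgroup.closure (T : Set Ω)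
  let K₁ : Subgroup G := K1 Ω₁ (S : Set G)
  let act := subAct K₁ (fun ω x hx => smul_mem_K1 Ω₁ (S : Set G) ω x hx)
  let A₁ : Subgroup K₁ := A.comap K₁.subtype
  have hA₁ : NilSol (f 2) A₁ c0 :=
    hA.of_injective K₁.subtype K₁.subtype_injective (Subgroup.map_comap_le _ _)
  have hbot := hT₀ T hT S A₁ inferInstance c0 hA₁ (by
    intro p hp
    refine ⟨r p, r p + c0, ?_, hind p hp, le_rfl⟩
    rw [Finset.mem_filter]
    refine ⟨Finset.mem_range.2 ?_, hc p hp⟩
    have := hr p hp
    omega)
  have h2 : Subgroup.closure (S : Set G) ≤ (⊤ : Subgroup K₁).map K₁.subtype := by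
    rw [Subgroup.closure_le]
    intro s hs
    exact ⟨⟨s, subset_K1 _ _ hs⟩, Subgroup.mem_top _, rfl⟩
  have h3 := Subgroup.lowerCentralSeries_mono c h2
  have h4 := Subgroup.map_lowerCentralSeries (⊤ : Subgroup K₁) K₁.subtype c
  rw [hbot, Subgroup.map_bot] at h4
  simp only [← h4] at h3
  exact le_bot_iff.1 h3

end Pool.Agent.Work.MP_369e59_al
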