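import Pool.Agent.Work.MP_369e59_al.AbMem

/-!
# Two conditions which bound the number of generators
-/

namespace Pool.Agent.Work.MP_369e59_al

open scoped commutatorElement

open Polynomial

/-- The ranks of the one-generator Ω-subgroups modulo `A`: for every finite set of elements `g` and
every finite set of operators there is a larger finite set of operators `T'` such that the group `K`
generated by the orbit of `g` under the group generated by `T'` satisfies
`|K / (K ∩ A) K^p K'| ≤ p ^ r p` for all primes `p`. (These groups `K` are finitely generated when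
`G ⋊ Ω` is locally nilpotent, so the index is not zero.) -/
def RankBound (Ω : Type*) [Group Ω] {G : Type*} [Group G] [MulDistribMulAction Ω G]
    (A : Subgroup G) (r : ℕ → ℕ) : Prop :=
  ∀ (S : Finset G) (T : Finset Ω), ∃ T' : Finset Ω, T ⊆ T' ∧ ∀ g ∈ S, ∀ p : ℕ, p.Prime →
    (A.comap (K1 (Subgroup.closure (T' : Set Ω)) ({g} : Set G)).subtype ⊔
      Phi (K1 (Subgroup.closure (T' : Set Ω)) ({g} : Set G)) p).index ≤ p ^ r p

/-- One-generator abelian members. For a cofinal family of finitely generated subgroups `Ω₁` of the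
operator group: in every finite elementary abelian `p`-group `V` in the class defined by the words
of `W` with operators in `Ω₁` such that `V ⋊ Ω₁` is locally nilpotent and the operators which act
trivially on `G / A` act trivially on `V`, every element lies in an invariant subgroup of order at
most `p ^ m p`. -/
def OneGen.{w, x, u} {Ω : Type w} [Group Ω] {G : Type x} [Group G] [MulDistribMulAction Ω G]
    (W : Set (FreeGroup (ℕ × Ω))) (A : Subgroup G) (m : ℕ → ℕ) : Prop :=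
  ∀ T : Finset Ω, ∃ T' : Finset Ω, T ⊆ T' ∧ ∀ p : ℕ, p.Prime →
    ∀ (V : Type u) [CommGroup V] [Finite V]
      [MulDistribMulAction (Subgroup.closure (T' : Set Ω)) V],
      (∀ v : V, v ^ p = 1) → InVO (resW W (Subgroup.closure (T' : Set Ω))) V →
      LocNilp (V ⋊[MulDistribMulAction.toMulAut (Subgroup.closure (T' : Set Ω)) V]
        (Subgroup.closure (T' : Set Ω))) →
      (∀ ω : Subgroup.closure (T' : Set Ω), (∀ g : G, g⁻¹ * (ω • g) ∈ A) →
        ∀ v : V, ω • v = v) →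
      ∀ v : V, Nat.card (Subgroup.closure
        (Set.range fun ω : Subgroup.closure (T' : Set Ω) => ω • v)) ≤ p ^ m p

/-- Every `Ω`-orbit on `G / A` is contained in the union of at most `n` orbits of the cyclic group
generated by `t`. -/
def OrbitCover {Ω : Type*} [Group Ω] {G : Type*} [Group G] [MulDistribMulAction Ω G]
    (t : Ω) (n : ℕ) (A : Subgroup G) : Prop :=
  ∀ g : G, ∃ F : Finset Ω, F.card ≤ n ∧ ∀ ω : Ω, ∃ τ ∈ F, ∃ i : ℤ,
    (t ^ i • τ • g)⁻¹ * (ω • g) ∈ A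

/-- For every prime `p` there is a word in `W` (all these words having their operators in one
finitely generated subgroup) whose linear part with respect to some variable is `t ^ k * q(t)` with
a polynomial `q` whose reduction modulo `p` is not divisible by `(X - 1) ^ (s p + 1)`. -/
def LinLaw {Ω : Type*} [Group Ω] (W : Set (FreeGroup (ℕ × Ω))) (t : Ω) (s : ℕ → ℕ) : Prop :=
  ∃ T : Finset Ω, ∀ p : ℕ, p.Prime →
    ∃ (w : FreeGroup (ℕ × Subgroup.closure (T : Set Ω))) (j : ℕ) (k : ℤ) (q : ℤ[X]),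
      inclW (Subgroup.closure (T : Set Ω)) w ∈ W ∧
      linPart j (inclW (Subgroup.closure (T : Set Ω)) w) = atT t k q ∧
      ¬ (X - 1 : (ZMod p)[X]) ^ (s p + 1) ∣ q.map (Int.castRingHom (ZMod p))

section rank

variable {Ω : Type*} [Group Ω]

/-- The invariance of `A ⊔ Φ_p`. -/
theorem smul_mem_sup {K : Type*} [Group K] {Ω' : Type*} [Group Ω'] [MulDistribMulAction Ω' K]
    (A₁ : Subgroup K) (p : ℕ) (hA : ∀ ω : Ω', ∀ x ∈ A₁, ω • x ∈ A₁) :
    ∀ ω : Ω', ∀ x ∈ A₁ ⊔ Phi K p, ω • x ∈ A₁ ⊔ Phi K p := by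
  intro ω x hx
  have h1 : (A₁ ⊔ Phi K p).map (MulDistribMulAction.toMonoidHom K ω) ≤ A₁ ⊔ Phi K p := by
    rw [Subgroup.map_sup]
    refine sup_le_sup ?_ ?_
    · rintro _ ⟨y, hy, rfl⟩
      exact hA ω _ hy
    · rintro _ ⟨y, hy, rfl⟩
      exact smul_mem_Phi ω hy
  exact h1 ⟨x, hx, rfl⟩

theorem map_Phi_le {K K' : Type*} [Group K] [Group K'] (φ : K →* K') (p : ℕ) :
    (Phi K p).map φ ≤ Phi K' p := by
  unfold Phi
  rw [Subgroup.map_sup, Subgroup.map_commutator]
  refine sup_le ?_ ((Subgroup.commutator_mono le_top le_top).trans le_sup_right)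
  rw [MonoidHom.map_closure]
  refine le_trans ?_ le_sup_left
  apply Subgroup.closure_mono
  rintro _ ⟨_, ⟨x, rfl⟩, rfl⟩
  exact ⟨φ x, by simp⟩

/-- The quotient `K₁ / B` is generated by the orbits of the classes of the elements of `S`. -/
theorem closure_orbits {G : Type*} [Group G] [MulDistribMulAction Ω G] (Ω₁ : Subgroup Ω) (S : Set G)
    (B : Subgroup (K1 Ω₁ S)) [B.Normal] (Q : Set (K1 Ω₁ S ⧸ B))
    (hQ : ∀ (ω : Ω) (hω : ω ∈ Ω₁) (s : G) (hs : s ∈ S), (QuotientGroup.mk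
      ⟨(⟨ω, hω⟩ : Ω₁) • s, smul_mem_K1 Ω₁ S ⟨ω, hω⟩ s (subset_K1 Ω₁ S hs)⟩ : K1 Ω₁ S ⧸ B) ∈
        Subgroup.closure Q) :
    Subgroup.closure Q = ⊤ := by
  have h1 : (⊤ : Subgroup (K1 Ω₁ S)) = Subgroup.closure
      (((↑) : K1 Ω₁ S → G) ⁻¹' {x | ∃ ω ∈ Ω₁, ∃ s ∈ S, x = ω • s}) :=
    Subgroup.closure_closure_coe_preimage.symm
  have h2 : (⊤ : Subgroup (K1 Ω₁ S)).map (QuotientGroup.mk' B) = ⊤ := by
    rw [← MonoidHom.range_eq_map]
    exact MonoidHom.range_eq_top.2 (QuotientGroup.mk'_surjective B)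
  rw [eq_top_iff, ← h2, h1, MonoidHom.map_closure, Subgroup.closure_le]
  rintro _ ⟨x, ⟨ω, hω, s, hs, hx⟩, rfl⟩
  have h3 := hQ ω hω s hs
  have h4 : x = ⟨(⟨ω, hω⟩ : Ω₁) • s, smul_mem_K1 Ω₁ S ⟨ω, hω⟩ s (subset_K1 Ω₁ S hs)⟩ :=
    Subtype.ext hx
  rw [h4]
  exact h3

variable {G : Type*} [Group G] [MulDistribMulAction Ω G]

theorem finite_quot (hLN : LocNilp (G ⋊[MulDistribMulAction.toMulAut Ω G] Ω)) (T : Finset Ω)
    (S : Finset G) {p : ℕ} (hp : p.Prime)
    (B : Subgroup (K1 (Subgroup.closure (T : Set Ω)) (S : Set G))) [B.Normal]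
    (hB : Phi (K1 (Subgroup.closure (T : Set Ω)) (S : Set G)) p ≤ B) :
    Finite (K1 (Subgroup.closure (T : Set Ω)) (S : Set G) ⧸ B) := by
  obtain ⟨m', k, hk⟩ := K1_fg hLN T S
  refine (card_quot_le' p hp B hB k ?_).1
  intro g
  rw [hk]
  exact Subgroup.mem_sup_left (Subgroup.mem_top g)

/-- From one generator to `d` generators. -/
theorem rank_of_rankBound (hLN : LocNilp (G ⋊[MulDistribMulAction.toMulAut Ω G] Ω))
    (A : Subgroup G) [A.Normal] {r : ℕ → ℕ} (hr : RankBound Ω A r) {d : ℕ} (h : Fin d → G)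
    (S : Finset G) (hS : (S : Set G) = Set.range h) (T₀ : Finset Ω) :
    ∃ T : Finset Ω, T₀ ⊆ T ∧ ∀ p : ℕ, p.Prime →
      (A.comap (K1 (Subgroup.closure (T : Set Ω)) (S : Set G)).subtype ⊔
        Phi (K1 (Subgroup.closure (T : Set Ω)) (S : Set G)) p).index ≤ p ^ (d * r p) := by
  classical
  obtain ⟨T, hT, hV⟩ := hr S T₀
  refine ⟨T, hT, fun p hp => ?_⟩
  let Ω₁ : Subgroup Ω := Subgroup.closure (T : Set Ω)
  let K₁ : Subgroup G := K1 Ω₁ (S : Set G)
  let A₁ : Subgroup K₁ := A.comap K₁.subtype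
  let B : Subgroup K₁ := A₁ ⊔ Phi K₁ p
  have hBn : B.Normal := inferInstance
  have hBP : Phi K₁ p ≤ B := le_sup_right
  have hfin : Finite (K₁ ⧸ B) := finite_quot hLN T S hp B hBP
  let cg : CommGroup (K₁ ⧸ B) := quotComm p B hBP
  have hhS : ∀ i, h i ∈ S := fun i => by
    rw [← Finset.mem_coe, hS]; exact ⟨i, rfl⟩
  have hle : ∀ i, K1 Ω₁ ({h i} : Set G) ≤ K₁ := by
    intro i
    refine K1_le (fun ω hω x hx => smul_mem_K1 Ω₁ (S : Set G) ⟨ω, hω⟩ x hx) ?_
    rintro _ rfl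
    exact subset_K1 _ _ (Finset.mem_coe.2 (hhS i))
  let φ : ∀ i, K1 Ω₁ ({h i} : Set G) →* K₁ ⧸ B := fun i =>
    (QuotientGroup.mk' B).comp (Subgroup.inclusion (hle i))
  have hcard : ∀ i, Nat.card (φ i).range ≤ p ^ r p := by
    intro i
    refine le_trans ?_ (hV (h i) (hhS i) p hp)
    have h1 : Nat.card (φ i).range = (φ i).ker.index := by
      rw [Subgroup.index_ker]
    rw [h1]
    have hker : A.comap (K1 Ω₁ ({h i} : Set G)).subtype ⊔ Phi (K1 Ω₁ ({h i} : Set G)) p ≤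
        (φ i).ker := by
      refine sup_le ?_ ?_
      · intro x hx
        rw [MonoidHom.mem_ker]
        exact (QuotientGroup.eq_one_iff _).2 (Subgroup.mem_sup_left hx)
      · intro x hx
        rw [MonoidHom.mem_ker]
        exact (QuotientGroup.eq_one_iff _).2
          (hBP (map_Phi_le (Subgroup.inclusion (hle i)) p ⟨x, hx, rfl⟩))
    have hfg : ∃ (n : ℕ) (k : Fin n → K1 Ω₁ ({h i} : Set G)),
        Subgroup.closure (Set.range k) = ⊤ := by
      have h2 := K1_fg hLN T {h i}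
      rwa [Finset.coe_singleton] at h2
    obtain ⟨n', k, hk⟩ := hfg
    have hne : (A.comap (K1 Ω₁ ({h i} : Set G)).subtype ⊔
        Phi (K1 Ω₁ ({h i} : Set G)) p).index ≠ 0 := by
      have h3 := (card_quot_le' p hp (A.comap (K1 Ω₁ ({h i} : Set G)).subtype ⊔
        Phi (K1 Ω₁ ({h i} : Set G)) p) le_sup_right k (fun g => by
          rw [hk]; exact Subgroup.mem_sup_left (Subgroup.mem_top g))).1
      exact Nat.card_pos.ne'
    exact Nat.le_of_dvd (Nat.pos_of_ne_zero hne) (Subgroup.index_dvd_of_le hker)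
  have h1 := card_le_of_iSup (V := K₁ ⧸ B) (fun i : Fin d => (φ i).range) (p ^ r p) hcard (by
      refine closure_orbits Ω₁ (S : Set G) B _ ?_
      intro ω hω s hs
      have hs' := hs
      rw [hS] at hs'
      obtain ⟨i, rfl⟩ := hs'
      refine Subgroup.subset_closure (Set.mem_iUnion.2 ⟨i, ?_⟩)
      refine ⟨⟨ω • h i, smul_mem_K1 Ω₁ _ ⟨ω, hω⟩ (h i) (subset_K1 Ω₁ _ rfl)⟩, ?_⟩
      rfl)
  rw [Fintype.card_fin, ← pow_mul, mul_comm (r p) d] at h1
  exact h1

/-- The bound in terms of the one-generator abelian members. -/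
theorem rankBound_of_oneGen.{u} {G : Type u} [Group G] [MulDistribMulAction Ω G]
    {W : Set (FreeGroup (ℕ × Ω))} (hW : InVO W G)
    (hLN : LocNilp (G ⋊[MulDistribMulAction.toMulAut Ω G] Ω))
    (A : Subgroup G) [A.Normal] (hAΩ : ∀ ω : Ω, ∀ x ∈ A, ω • x ∈ A) {m : ℕ → ℕ}
    (hm : OneGen.{_, _, u} W A m) : RankBound Ω A m := by
  classical
  intro S T₀
  obtain ⟨T, hT, hV⟩ := hm T₀
  refine ⟨T, hT, fun g _ p hp => ?_⟩
  let Ω₁ : Subgroup Ω := Subgroup.closure (T : Set Ω)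
  let K₁ : Subgroup G := K1 Ω₁ ({g} : Set G)
  let act := subAct K₁ (fun ω x hx => smul_mem_K1 Ω₁ ({g} : Set G) ω x hx)
  let A₁ : Subgroup K₁ := A.comap K₁.subtype
  let B : Subgroup K₁ := A₁ ⊔ Phi K₁ p
  have hBn : B.Normal := inferInstance
  have hBP : Phi K₁ p ≤ B := le_sup_right
  have hBΩ : ∀ ω : Ω₁, ∀ x ∈ B, ω • x ∈ B :=
    smul_mem_sup A₁ p (fun ω x hx => hAΩ ω _ hx)
  have hfg : ∃ (n : ℕ) (k : Fin n → K₁), Subgroup.closure (Set.range k) = ⊤ := by
    have h2 := K1_fg hLN T {g}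
    rwa [Finset.coe_singleton] at h2
  obtain ⟨m', k, hk⟩ := hfg
  have hfin : Finite (K₁ ⧸ B) := by
    refine (card_quot_le' p hp B hBP k ?_).1
    intro g
    rw [hk]
    exact Subgroup.mem_sup_left (Subgroup.mem_top g)
  have hLN₁ := locNilp_sub hLN Ω₁ K₁ (fun ω x hx => smul_mem_K1 Ω₁ ({g} : Set G) ω x hx)
  have hW₁ := (hW.restrict Ω₁).sub K₁ (fun ω x hx => smul_mem_K1 Ω₁ ({g} : Set G) ω x hx)
  have hW₂ := hW₁.quot B hBΩ
  have hLN₂ := LocNilp.quot hLN₁ B hBΩ
  let cg : CommGroup (K₁ ⧸ B) := quotComm p B hBP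
  let qa : MulDistribMulAction Ω₁ (K₁ ⧸ B) := quotAct B hBΩ
  have key := hV p hp (K₁ ⧸ B) (quot_pow p B hBP) hW₂ hLN₂ (by
    intro ω hω v
    induction v using QuotientGroup.induction_on with
    | H x =>
      change (QuotientGroup.mk (ω • x) : K₁ ⧸ B) = QuotientGroup.mk x
      rw [eq_comm, QuotientGroup.eq]
      exact Subgroup.mem_sup_left (hω x))
  let v : K₁ ⧸ B := QuotientGroup.mk ⟨g, subset_K1 Ω₁ _ rfl⟩
  have htop : Subgroup.closure (Set.range fun ω : Ω₁ => ω • v) = ⊤ := by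
    refine closure_orbits Ω₁ ({g} : Set G) B _ ?_
    intro ω hω s hs
    obtain rfl : s = g := hs
    exact Subgroup.subset_closure ⟨⟨ω, hω⟩, rfl⟩
  have h1 := key v
  rw [htop, Subgroup.card_top] at h1
  exact h1

end rank

end Pool.Agent.Work.MP_369e59_al
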