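import Pool.Agent.Work.MP_369e59_al.AbMemB

/-!
# The bound given by the linear parts of the laws
-/

namespace Pool.Agent.Work.MP_369e59_al

open scoped commutatorElement

open Polynomial

section cyc

variable {Ω : Type*} [Group Ω] {V : Type*} [CommGroup V] [MulDistribMulAction Ω V]

/-- The orbit of `x` under the cyclic group generated by `t` lies in the subgroup generated by the
elements `(t - 1) ^ a x`, `a < m`, if `(t - 1) ^ m = 0`. -/
theorem zpow_smul_mem [Finite V] (t : Ω) {p : ℕ} [Fact p.Prime] [Module (ZMod p) (Additive V)]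
    {m : ℕ} (hm : ((actEnd (V := V) t).toZModLinearMap p - 1 : Module.End (ZMod p) (Additive V)) ^ m
      = 0) (x : V) (i : ℤ) :
    t ^ i • x ∈ Subgroup.closure (Set.range fun a : Fin m => Additive.toMul
      ((((actEnd (V := V) t).toZModLinearMap p - 1 : Module.End (ZMod p) (Additive V)) ^ (a : ℕ))
        (Additive.ofMul x))) := by
  set σ : Module.End (ZMod p) (Additive V) := (actEnd (V := V) t).toZModLinearMap p with hσ
  set P : Subgroup V := Subgroup.closure (Set.range fun a : Fin m => Additive.toMul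
      (((σ - 1) ^ (a : ℕ)) (Additive.ofMul x))) with hP
  have hpow : ∀ a : ℕ, Additive.toMul (((σ - 1) ^ a) (Additive.ofMul x)) ∈ P := by
    intro a
    rcases lt_or_ge a m with ha | ha
    · exact Subgroup.subset_closure ⟨⟨a, ha⟩, rfl⟩
    · have h1 : (σ - 1) ^ a = 0 := by
        rw [← Nat.sub_add_cancel ha, pow_add, hm, mul_zero]
      rw [h1, LinearMap.zero_apply]
      exact one_mem _
  have hx : x ∈ P := hpow 0
  have hσP : ∀ y ∈ P, t • y ∈ P := by
    intro y hy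
    induction hy using Subgroup.closure_induction with
    | mem y hy =>
      obtain ⟨a, rfl⟩ := hy
      have h1 : t • Additive.toMul (((σ - 1) ^ (a : ℕ)) (Additive.ofMul x)) =
          Additive.toMul (((σ - 1) ^ ((a : ℕ) + 1)) (Additive.ofMul x)) *
            Additive.toMul (((σ - 1) ^ (a : ℕ)) (Additive.ofMul x)) := by
        rw [pow_succ', Module.End.mul_apply, LinearMap.sub_apply, Module.End.one_apply,
          ← toMul_add, sub_add_cancel]
        rfl
      simp only [h1]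
      exact mul_mem (hpow _) (hpow _)
    | one => rw [smul_one]; exact one_mem _
    | mul a b _ _ ha hb => rw [smul_mul']; exact mul_mem ha hb
    | inv a _ ha => rw [smul_inv']; exact inv_mem ha
  have hinv : ∀ y ∈ P, t⁻¹ • y ∈ P := by
    intro y hy
    let φ : P → P := fun z => ⟨t • (z : V), hσP z z.2⟩
    have hφ : Function.Injective φ := by
      intro a b hab
      exact Subtype.ext (smul_left_cancel t (congrArg Subtype.val hab))
    obtain ⟨z, hz⟩ := (Finite.injective_iff_surjective.1 hφ) ⟨y, hy⟩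
    have h1 : t • (z : V) = y := congrArg Subtype.val hz
    rw [← h1, inv_smul_smul]
    exact z.2
  induction i using Int.induction_on with
  | zero => rw [zpow_zero, one_smul]; exact hx
  | succ i ih =>
    rw [add_comm, zpow_add, zpow_one, mul_smul]
    exact hσP _ ih
  | pred i ih =>
    have h1 : t ^ (-(i : ℤ) - 1) = t⁻¹ * t ^ (-(i : ℤ)) := by
      rw [sub_eq_add_neg, add_comm, zpow_add, zpow_neg_one]
    rw [h1, mul_smul]
    exact hinv _ ih

/-- The operator `y ↦ y⁻¹ (t y)`. -/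
def dop {G : Type*} [Group G] [MulDistribMulAction Ω G] (t : Ω) (y : G) : G := y⁻¹ * (t • y)

theorem dop_iterate (t : Ω) (p : ℕ) [Module (ZMod p) (Additive V)] (b : ℕ) (y : V) :
    (((actEnd (V := V) t).toZModLinearMap p - 1 : Module.End (ZMod p) (Additive V)) ^ b)
      (Additive.ofMul y) = Additive.ofMul ((dop t)^[b] y) := by
  induction b with
  | zero => rfl
  | succ b ih =>
    rw [pow_succ', Module.End.mul_apply, ih, LinearMap.sub_apply, Module.End.one_apply,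
      Function.iterate_succ_apply']
    change Additive.ofMul (t • (dop t)^[b] y) - Additive.ofMul ((dop t)^[b] y) = _
    rw [sub_eq_neg_add]
    rfl

theorem zpow_smul_mem_of_law_aux [Finite V] (t : Ω) {p : ℕ} [Fact p.Prime]
    [Module (ZMod p) (Additive V)]
    {N : ℕ} (hN : ∀ v : V, (dop t)^[N] v = 1) {w : FreeGroup (ℕ × Ω)}
    (hw : ∀ θ : ℕ → V, evalO θ w = 1) {j : ℕ} {k : ℤ} {q : ℤ[X]} (hq : linPart j w = atT t k q)
    {m : ℕ} (hnd : ¬ (X - 1 : (ZMod p)[X]) ^ (m + 1) ∣ q.map (Int.castRingHom (ZMod p)))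
    (x : V) (e : ℤ) :
    t ^ e • x ∈ Subgroup.closure (Set.range fun a : Fin m => (dop t)^[(a : ℕ)] x) := by
  have hnil : ((actEnd (V := V) t).toZModLinearMap p - 1 : Module.End (ZMod p) (Additive V)) ^ N
      = 0 := by
    apply LinearMap.ext
    intro v
    obtain ⟨v, rfl⟩ := Additive.ofMul.surjective v
    rw [dop_iterate, hN]
    rfl
  have hlaw : aeval ((actEnd (V := V) t).toZModLinearMap p : Module.End (ZMod p) (Additive V))
      (q.map (Int.castRingHom (ZMod p))) = 0 := by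
    apply LinearMap.ext
    intro v
    obtain ⟨v, rfl⟩ := Additive.ofMul.surjective v
    have h2 := evalO_eq_linPart (V := V) p j v w
    rw [hw (fun j' => if j' = j then v else 1), hq, lift_atT, Module.End.mul_apply] at h2
    have h3 := congrArg Additive.toMul h2.symm
    change t ^ k • (Additive.toMul (aeval ((actEnd (V := V) t).toZModLinearMap p :
      Module.End (ZMod p) (Additive V)) (q.map (Int.castRingHom (ZMod p))) (Additive.ofMul v))) = 1
      at h3
    rw [smul_eq_iff_eq_inv_smul, smul_one] at h3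
    exact congrArg Additive.ofMul h3
  have hs := pow_eq_zero_of_aeval _ hnil _ hlaw hnd
  have h1 := zpow_smul_mem (V := V) t hs x e
  refine (Subgroup.closure_mono ?_) h1
  rintro _ ⟨a, rfl⟩
  refine ⟨a, ?_⟩
  simp only [dop_iterate]
  rfl

/-- The orbit of `x` under the cyclic group generated by `t` lies in the subgroup generated by the
elements `D ^ a x`, `a < m`, `D = t - 1`, if `V` satisfies a law whose linear part is not divisible
by `(X - 1) ^ (m + 1)`. -/
theorem zpow_smul_mem_of_law [Finite V] (t : Ω) {p : ℕ} (hp : p.Prime) (hV : ∀ v : V, v ^ p = 1)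
    {N : ℕ} (hN : ∀ v : V, (dop t)^[N] v = 1) {w : FreeGroup (ℕ × Ω)}
    (hw : ∀ θ : ℕ → V, evalO θ w = 1) {j : ℕ} {k : ℤ} {q : ℤ[X]} (hq : linPart j w = atT t k q)
    {m : ℕ} (hnd : ¬ (X - 1 : (ZMod p)[X]) ^ (m + 1) ∣ q.map (Int.castRingHom (ZMod p)))
    (x : V) (e : ℤ) :
    t ^ e • x ∈ Subgroup.closure (Set.range fun a : Fin m => (dop t)^[(a : ℕ)] x) :=
  @zpow_smul_mem_of_law_aux Ω _ V _ _ _ t p ⟨hp⟩ (AddCommGroup.zmodModule (fun v =>
    congrArg Additive.ofMul (hV (Additive.toMul v)))) N hN w hw j k q hq m hnd x e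

end cyc

/-- The inclusion of the words with operators in a smaller subgroup. -/
theorem exists_inclW_of_le {Ω : Type*} [Group Ω] {Ω₁ Ω₂ : Subgroup Ω} (h : Ω₁ ≤ Ω₂)
    (w : FreeGroup (ℕ × Ω₁)) : ∃ w₂ : FreeGroup (ℕ × Ω₂), inclW Ω₂ w₂ = inclW Ω₁ w := by
  refine ⟨FreeGroup.map (Prod.map id (Subgroup.inclusion h)) w, ?_⟩
  have h1 : (inclW Ω₂).comp (FreeGroup.map (Prod.map id (Subgroup.inclusion h))) = inclW Ω₁ := by
    apply FreeGroup.ext_hom
    intro x
    simp only [inclW, MonoidHom.comp_apply, FreeGroup.map.of]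
    rfl
  exact DFunLike.congr_fun h1 w

section rank

variable {Ω : Type*} [Group Ω]

/-- The bound in terms of the linear parts of the laws. -/
theorem rankBound_of_lin {G : Type*} [Group G] [MulDistribMulAction Ω G]
    {W : Set (FreeGroup (ℕ × Ω))} (hW : InVO W G)
    (hLN : LocNilp (G ⋊[MulDistribMulAction.toMulAut Ω G] Ω))
    (A : Subgroup G) [A.Normal] (hAΩ : ∀ ω : Ω, ∀ x ∈ A, ω • x ∈ A) {t : Ω} {n : ℕ}
    (hcov : OrbitCover t n A) {s : ℕ → ℕ} (hlin : LinLaw W t s) :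
    RankBound Ω A (fun p => n * s p) := by
  classical
  intro S T₀
  choose F hFc hF using hcov
  obtain ⟨T₁, hT₁⟩ := hlin
  let T : Finset Ω := T₀ ∪ ((T₁ ∪ {t}) ∪ S.biUnion fun g => F g)
  refine ⟨T, Finset.subset_union_left, fun g hg p hp => ?_⟩
  let Ω₁ : Subgroup Ω := Subgroup.closure (T : Set Ω)
  let K₁ : Subgroup G := K1 Ω₁ ({g} : Set G)
  have htΩ : t ∈ Ω₁ := Subgroup.subset_closure (by simp [T])
  have hFΩ : ∀ τ ∈ F g, τ ∈ Ω₁ := by
    intro τ hτ
    refine Subgroup.subset_closure ?_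
    simp only [T, Finset.coe_union, Set.mem_union, Finset.mem_coe, Finset.mem_biUnion]
    exact Or.inr (Or.inr ⟨g, hg, hτ⟩)
  let t₁ : Ω₁ := ⟨t, htΩ⟩
  let act := subAct K₁ (fun ω x hx => smul_mem_K1 Ω₁ ({g} : Set G) ω x hx)
  let A₁ : Subgroup K₁ := A.comap K₁.subtype
  let B : Subgroup K₁ := A₁ ⊔ Phi K₁ p
  have hBn : B.Normal := inferInstance
  have hBP : Phi K₁ p ≤ B := le_sup_right
  have hBΩ : ∀ ω : Ω₁, ∀ x ∈ B, ω • x ∈ B :=
    smul_mem_sup A₁ p (fun ω x hx => hAΩ ω _ hx)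
  have hfg : ∃ (n : ℕ) (k : Fin n → K₁), Subgroup.closure (Set.range k) = ⊤ := by
    have h2 := K1_fg hLN T {g}
    rwa [Finset.coe_singleton] at h2
  obtain ⟨m', k', hk'⟩ := hfg
  have hgen : ∀ (C : Subgroup K₁) (g : K₁), g ∈ Subgroup.closure (Set.range k') ⊔ C := by
    intro C g
    rw [hk']
    exact Subgroup.mem_sup_left (Subgroup.mem_top g)
  have hfin : Finite (K₁ ⧸ B) := (card_quot_le' p hp B hBP k' (hgen B)).1
  have hfinP : Finite (K₁ ⧸ Phi K₁ p) :=
    (card_quot_le' p hp (Phi K₁ p) le_rfl k' (hgen _)).1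
  have hLN₁ := locNilp_sub hLN Ω₁ K₁ (fun ω x hx => smul_mem_K1 Ω₁ ({g} : Set G) ω x hx)
  obtain ⟨N, hN⟩ := exists_Mch_le (Ω := Ω₁) k' hk' hLN₁ p hfinP
  have hW₁ := (hW.restrict Ω₁).sub K₁ (fun ω x hx => smul_mem_K1 Ω₁ ({g} : Set G) ω x hx)
  have hW₂ := hW₁.quot B hBΩ
  let cg : CommGroup (K₁ ⧸ B) := quotComm p B hBP
  let qa : MulDistribMulAction Ω₁ (K₁ ⧸ B) := quotAct B hBΩ
  -- unipotence
  have hD : ∀ (b : ℕ) (x : K₁), ∃ y ∈ Mch Ω₁ K₁ p b,
      (dop t₁)^[b] (QuotientGroup.mk x : K₁ ⧸ B) = QuotientGroup.mk y := by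
    intro b x
    induction b with
    | zero => exact ⟨x, Subgroup.mem_top x, rfl⟩
    | succ b ih =>
      obtain ⟨y, hy, hxy⟩ := ih
      refine ⟨y⁻¹ * (t₁ • y), isOpChn_Mch Ω₁ K₁ p b y hy t₁, ?_⟩
      rw [Function.iterate_succ_apply', hxy]
      rfl
  have hnil : ∀ v : K₁ ⧸ B, (dop t₁)^[N] v = 1 := by
    intro v
    induction v using QuotientGroup.induction_on with
    | H x =>
      obtain ⟨y, hy, hxy⟩ := hD N x
      rw [hxy]
      exact (QuotientGroup.eq_one_iff y).2 (hBP (hN N le_rfl hy))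
  -- the law
  obtain ⟨w₁, j, k, q, hw, hq, hnd⟩ := hT₁ p hp
  have hle : Subgroup.closure (T₁ : Set Ω) ≤ Ω₁ := by
    refine Subgroup.closure_mono (Finset.coe_subset.2 ?_)
    exact (Finset.subset_union_left.trans Finset.subset_union_left).trans
      Finset.subset_union_right
  obtain ⟨w, hww⟩ := exists_inclW_of_le hle w₁
  have hlaw : ∀ θ : ℕ → K₁ ⧸ B, evalO θ w = 1 := by
    intro θ
    refine hW₂ _ ?_ θ
    change inclW Ω₁ w ∈ W
    rw [hww]
    exact hw
  have hq' : linPart j w = atT t₁ k q := by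
    apply inclR_injective
    rw [inclR_linPart, inclR_atT, hww]
    exact hq
  -- the generators
  have hgK : g ∈ K₁ := subset_K1 _ _ rfl
  let v : K₁ ⧸ B := QuotientGroup.mk ⟨g, hgK⟩
  let y : Ω → K₁ ⧸ B := fun τ => if hτ : τ ∈ Ω₁ then (⟨τ, hτ⟩ : Ω₁) • v else 1
  let O : Finset (K₁ ⧸ B) := (F g).biUnion fun τ =>
    Finset.univ.image fun a : Fin (s p) => (dop t₁)^[(a : ℕ)] (y τ)
  have hOcard : O.card ≤ n * s p := by
    refine (Finset.card_biUnion_le_card_mul _ _ (s p) ?_).trans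
      (Nat.mul_le_mul_right _ (hFc g))
    intro τ _
    exact Finset.card_image_le.trans (by simp)
  have hOtop : Subgroup.closure (O : Set (K₁ ⧸ B)) = ⊤ := by
    refine closure_orbits Ω₁ ({g} : Set G) B _ ?_
    intro ω hω g' hg'
    obtain rfl : g' = g := hg'
    obtain ⟨τ, hτ, e, he⟩ := hF g' ω
    have hτΩ := hFΩ τ hτ
    have h1 : (QuotientGroup.mk ⟨(⟨ω, hω⟩ : Ω₁) • g',
        smul_mem_K1 Ω₁ ({g'} : Set G) ⟨ω, hω⟩ g' (subset_K1 Ω₁ ({g'} : Set G) rfl)⟩ : K₁ ⧸ B) =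
          t₁ ^ e • y τ := by
      simp only [y, dif_pos hτΩ]
      change _ = (QuotientGroup.mk (t₁ ^ e • (⟨τ, hτΩ⟩ : Ω₁) • (⟨g', hgK⟩ : K₁)) : K₁ ⧸ B)
      rw [eq_comm, QuotientGroup.eq]
      refine Subgroup.mem_sup_left ?_
      exact he
    rw [h1]
    have h2 := zpow_smul_mem_of_law (V := K₁ ⧸ B) t₁ hp (quot_pow p B hBP) hnil hlaw hq' hnd
      (y τ) e
    refine (Subgroup.closure_mono ?_) h2
    rintro _ ⟨a, rfl⟩
    simp only [O, Finset.coe_biUnion, Set.mem_iUnion, Finset.coe_image, Finset.coe_univ,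
      Set.image_univ]
    exact ⟨τ, Finset.mem_coe.2 hτ, a, rfl⟩
  have h1 := card_quot_le p hp B hBP O hOtop
  exact h1.2.trans (Nat.pow_le_pow_right hp.pos hOcard)

/-! ### Operators acting nilpotently modulo `A` -/

/-- `[g, ω₁, ..., ω_k] ∈ A` for all `g` and all `ω₁, ..., ω_k` in the set `T` of operators. -/
def NilAct {G : Type*} [Group G] [MulDistribMulAction Ω G] (T : Finset Ω) (k : ℕ)
    (A : Subgroup G) : Prop :=
  ∀ l : List Ω, l.length = k → (∀ ω ∈ l, ω ∈ T) → ∀ g : G, l.foldr dop g ∈ A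

/-- A finitely generated group of operators which acts nilpotently modulo `A`. -/
theorem rankBound_of_nilAct {G : Type*} [Group G] [MulDistribMulAction Ω G]
    (hLN : LocNilp (G ⋊[MulDistribMulAction.toMulAut Ω G] Ω))
    (A : Subgroup G) [A.Normal] (hAΩ : ∀ ω : Ω, ∀ x ∈ A, ω • x ∈ A) {T : Finset Ω}
    (hT : Subgroup.closure (T : Set Ω) = ⊤) {k : ℕ} (hk : NilAct T k A) :
    RankBound Ω A (fun _ => ∑ i ∈ Finset.range k, T.card ^ i) := by
  classical
  intro S T₀
  refine ⟨T₀ ∪ T, Finset.subset_union_left, fun g hg p hp => ?_⟩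
  let Ω₁ : Subgroup Ω := Subgroup.closure ((T₀ ∪ T : Finset Ω) : Set Ω)
  have hΩ₁ : ∀ ω : Ω, ω ∈ Ω₁ := by
    intro ω
    have h1 : ω ∈ Subgroup.closure (T : Set Ω) := by rw [hT]; exact Subgroup.mem_top ω
    exact Subgroup.closure_mono (Finset.coe_subset.2 Finset.subset_union_right) h1
  let K₁ : Subgroup G := K1 Ω₁ ({g} : Set G)
  let act := subAct K₁ (fun ω x hx => smul_mem_K1 Ω₁ ({g} : Set G) ω x hx)
  let A₁ : Subgroup K₁ := A.comap K₁.subtype
  let B : Subgroup K₁ := A₁ ⊔ Phi K₁ p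
  have hBn : B.Normal := inferInstance
  have hBP : Phi K₁ p ≤ B := le_sup_right
  have hBΩ : ∀ ω : Ω₁, ∀ x ∈ B, ω • x ∈ B :=
    smul_mem_sup A₁ p (fun ω x hx => hAΩ ω _ hx)
  have hfg : ∃ (n : ℕ) (k : Fin n → K₁), Subgroup.closure (Set.range k) = ⊤ := by
    have h2 := K1_fg hLN (T₀ ∪ T) {g}
    rwa [Finset.coe_singleton] at h2
  obtain ⟨m', k', hk'⟩ := hfg
  have hgen : ∀ (C : Subgroup K₁) (g : K₁), g ∈ Subgroup.closure (Set.range k') ⊔ C := by
    intro C g
    rw [hk']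
    exact Subgroup.mem_sup_left (Subgroup.mem_top g)
  have hfin : Finite (K₁ ⧸ B) := (card_quot_le' p hp B hBP k' (hgen B)).1
  let qa : MulDistribMulAction Ω₁ (K₁ ⧸ B) := quotAct B hBΩ
  have hgK : g ∈ K₁ := subset_K1 _ _ rfl
  let v : K₁ ⧸ B := QuotientGroup.mk ⟨g, hgK⟩
  -- the generators
  let L : ℕ → Finset (K₁ ⧸ B) := fun i =>
    Nat.rec {v} (fun _ Q => Q.biUnion fun y => T.image fun τ => dop (⟨τ, hΩ₁ τ⟩ : Ω₁) y) i
  have hL0 : L 0 = {v} := rfl
  have hLs : ∀ i, L (i + 1) = (L i).biUnion fun y => T.image fun τ =>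
    dop (⟨τ, hΩ₁ τ⟩ : Ω₁) y := fun _ => rfl
  have hLcard : ∀ i, (L i).card ≤ T.card ^ i := by
    intro i
    induction i with
    | zero => simp [hL0]
    | succ i ih =>
      rw [hLs, pow_succ]
      refine (Finset.card_biUnion_le_card_mul _ _ T.card ?_).trans (Nat.mul_le_mul_right _ ih)
      intro y _
      exact Finset.card_image_le
  have hLmem : ∀ i, ∀ y ∈ L i, ∃ (l : List Ω) (x : K₁), l.length = i ∧ (∀ ω ∈ l, ω ∈ T) ∧
      (x : G) = l.foldr dop g ∧ y = QuotientGroup.mk x := by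
    intro i
    induction i with
    | zero =>
      intro y hy
      rw [hL0, Finset.mem_singleton] at hy
      exact ⟨[], ⟨g, hgK⟩, rfl, by simp, rfl, hy⟩
    | succ i ih =>
      intro y hy
      rw [hLs, Finset.mem_biUnion] at hy
      obtain ⟨z, hz, hy⟩ := hy
      rw [Finset.mem_image] at hy
      obtain ⟨τ, hτ, rfl⟩ := hy
      obtain ⟨l, x, hl, hlT, hx, rfl⟩ := ih z hz
      refine ⟨τ :: l, dop (⟨τ, hΩ₁ τ⟩ : Ω₁) x, by simp [hl], ?_, ?_, rfl⟩
      · intro ω hω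
        rcases List.mem_cons.1 hω with rfl | hω
        · exact hτ
        · exact hlT ω hω
      · rw [List.foldr_cons, ← hx]
        rfl
  have hLk : ∀ y ∈ L k, y = 1 := by
    intro y hy
    obtain ⟨l, x, hl, hlT, hx, rfl⟩ := hLmem k y hy
    refine (QuotientGroup.eq_one_iff x).2 (Subgroup.mem_sup_left ?_)
    change (x : G) ∈ A
    rw [hx]
    exact hk l hl hlT g
  let O : Finset (K₁ ⧸ B) := (Finset.range k).biUnion L
  have hOcard : O.card ≤ ∑ i ∈ Finset.range k, T.card ^ i :=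
    Finset.card_biUnion_le.trans (Finset.sum_le_sum fun i _ => hLcard i)
  let P : Subgroup (K₁ ⧸ B) := Subgroup.closure (O : Set (K₁ ⧸ B))
  have hLP : ∀ i, i ≤ k → ∀ y ∈ L i, y ∈ P := by
    intro i hi y hy
    rcases hi.lt_or_eq with hi | rfl
    · refine Subgroup.subset_closure ?_
      exact Finset.mem_coe.2 (Finset.mem_biUnion.2 ⟨i, Finset.mem_range.2 hi, hy⟩)
    · rw [hLk y hy]
      exact one_mem _
  have hτP : ∀ τ ∈ T, ∀ y ∈ P, (⟨τ, hΩ₁ τ⟩ : Ω₁) • y ∈ P := by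
    intro τ hτ y hy
    induction hy using Subgroup.closure_induction with
    | mem y hy =>
      obtain ⟨i, hi, hy⟩ := Finset.mem_biUnion.1 (Finset.mem_coe.1 hy)
      have hi' := Finset.mem_range.1 hi
      have h1 : dop (⟨τ, hΩ₁ τ⟩ : Ω₁) y ∈ P := by
        refine hLP (i + 1) hi' _ ?_
        rw [hLs]
        exact Finset.mem_biUnion.2 ⟨y, hy, Finset.mem_image.2 ⟨τ, hτ, rfl⟩⟩
      have h2 := mul_mem (hLP i hi'.le y hy) h1
      unfold dop at h2
      rwa [mul_inv_cancel_left] at h2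
    | one => rw [smul_one]; exact one_mem _
    | mul a b _ _ ha hb => rw [smul_mul']; exact mul_mem ha hb
    | inv a _ ha => rw [smul_inv']; exact inv_mem ha
  have hωP : ∀ ω : Ω, ∀ y ∈ P, (⟨ω, hΩ₁ ω⟩ : Ω₁) • y ∈ P := by
    intro ω
    have h1 : ω ∈ Subgroup.closure (T : Set Ω) := by rw [hT]; exact Subgroup.mem_top ω
    induction h1 using Subgroup.closure_induction with
    | mem τ hτ => exact hτP τ (Finset.mem_coe.1 hτ)
    | one =>
      intro y hy
      have h2 : (⟨1, hΩ₁ 1⟩ : Ω₁) = 1 := rfl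
      rw [h2, one_smul]
      exact hy
    | mul a b _ _ ha hb =>
      intro y hy
      have h2 : (⟨a * b, hΩ₁ (a * b)⟩ : Ω₁) = ⟨a, hΩ₁ a⟩ * ⟨b, hΩ₁ b⟩ := rfl
      rw [h2, mul_smul]
      exact ha _ (hb _ hy)
    | inv a _ ha =>
      intro y hy
      let φ : P → P := fun z => ⟨(⟨a, hΩ₁ a⟩ : Ω₁) • (z : K₁ ⧸ B), ha z z.2⟩
      have hφ : Function.Injective φ := by
        intro x y hxy
        exact Subtype.ext (smul_left_cancel (⟨a, hΩ₁ a⟩ : Ω₁) (congrArg Subtype.val hxy))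
      obtain ⟨z, hz⟩ := (Finite.injective_iff_surjective.1 hφ) ⟨y, hy⟩
      have h1 : (⟨a, hΩ₁ a⟩ : Ω₁) • (z : K₁ ⧸ B) = y := congrArg Subtype.val hz
      have h2 : (⟨a⁻¹, hΩ₁ a⁻¹⟩ : Ω₁) = (⟨a, hΩ₁ a⟩ : Ω₁)⁻¹ := rfl
      rw [h2, ← h1, inv_smul_smul]
      exact z.2
  have hPtop : P = ⊤ := by
    refine closure_orbits Ω₁ ({g} : Set G) B _ ?_
    intro ω hω g' hg'
    obtain rfl : g' = g := hg'
    exact hωP ω v (hLP 0 (Nat.zero_le k) v (by rw [hL0]; exact Finset.mem_singleton_self v))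
  have h1 := card_quot_le p hp B hBP O hPtop
  exact h1.2.trans (Nat.pow_le_pow_right hp.pos hOcard)

end rank

end Pool.Agent.Work.MP_369e59_al
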