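import Pool.Agent.Work.MP_369e59_al.AbMemC

/-!
# Criteria for the linear parts
-/

namespace Pool.Agent.Work.MP_369e59_al

open Polynomial

theorem linLaw_of_word {Ω : Type*} [Group Ω] {W : Set (FreeGroup (ℕ × Ω))} {t : Ω}
    {w : FreeGroup (ℕ × Ω)} (hw : w ∈ W) {j : ℕ} {k : ℤ} {q : ℤ[X]} (hq : linPart j w = atT t k q)
    {s : ℕ → ℕ} (hnd : ∀ p : ℕ, p.Prime →
      ¬ (X - 1 : (ZMod p)[X]) ^ (s p + 1) ∣ q.map (Int.castRingHom (ZMod p))) :
    LinLaw W t s := by
  obtain ⟨T, hT⟩ := exists_inclW w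
  obtain ⟨w₁, hw₁⟩ := hT (Subgroup.closure (T : Set Ω)) Subgroup.subset_closure
  refine ⟨T, fun p hp => ⟨w₁, j, k, q, ?_, ?_, hnd p hp⟩⟩
  · rw [hw₁]; exact hw
  · rw [hw₁]; exact hq

/-- A law whose linear part has content one and degree at most `s`. -/
theorem linLaw_of_content {Ω : Type*} [Group Ω] {W : Set (FreeGroup (ℕ × Ω))} {t : Ω}
    {w : FreeGroup (ℕ × Ω)} (hw : w ∈ W) {j : ℕ} {k : ℤ} {q : ℤ[X]} (hq : linPart j w = atT t k q)
    {s : ℕ} (hdeg : q.natDegree ≤ s)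
    (hcont : ∀ p : ℕ, p.Prime → ∃ i, ¬ (p : ℤ) ∣ q.coeff i) :
    LinLaw W t (fun _ => s) := by
  refine linLaw_of_word hw hq fun p hp hdvd => ?_
  have hfp : Fact p.Prime := ⟨hp⟩
  have h0 : q.map (Int.castRingHom (ZMod p)) ≠ 0 := by
    intro h
    obtain ⟨i, hi⟩ := hcont p hp
    have h1 := congrArg (fun q => Polynomial.coeff q i) h
    simp only [coeff_map, coeff_zero] at h1
    apply hi
    rw [← ZMod.intCast_zmod_eq_zero_iff_dvd]
    exact h1
  have h1 := Polynomial.natDegree_le_of_dvd hdvd h0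
  have hX : (X - 1 : (ZMod p)[X]) = X - C 1 := by rw [C_1]
  rw [hX, natDegree_pow, natDegree_X_sub_C, mul_one] at h1
  change s + 1 ≤ _ at h1
  have h2 := Polynomial.natDegree_map_le (p := q) (f := Int.castRingHom (ZMod p))
  omega

/-- Integer exponents. -/
theorem exists_atT {Ω : Type*} [Group Ω] (t : Ω) {n : ℕ} (a : Fin n → ℤ) :
    ∃ (k : ℤ) (b : Fin n → ℕ), (∀ i, a i = b i + k) ∧
      ∑ i, MonoidAlgebra.of ℤ Ω (t ^ a i) = atT t k (∑ i, X ^ b i) := by
  have h1 : ∀ i, 0 ≤ a i + ∑ j, |a j| := by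
    intro i
    have h2 : |a i| ≤ ∑ j, |a j| :=
      Finset.single_le_sum (f := fun j => |a j|) (fun j _ => abs_nonneg _) (Finset.mem_univ i)
    have h3 := neg_abs_le (a i)
    omega
  have h2 : ∀ i, a i = ((a i + ∑ j, |a j|).toNat : ℤ) + (-∑ j, |a j|) := by
    intro i
    rw [Int.toNat_of_nonneg (h1 i)]
    ring
  refine ⟨-∑ j, |a j|, fun i => (a i + ∑ j, |a j|).toNat, h2, ?_⟩
  unfold atT
  rw [map_sum, Finset.mul_sum]
  refine Finset.sum_congr rfl fun i _ => ?_
  rw [map_pow, aeval_X, ← map_pow, ← map_mul]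
  congr 1
  rw [← zpow_natCast, ← zpow_add, add_comm]
  congr 1
  exact h2 i

/-- A law whose linear part is a sum of `q` powers of `t`, `q` a prime, with exponents not all
congruent modulo `q`. -/
theorem linLaw_of_prime {Ω : Type*} [Group Ω] {W : Set (FreeGroup (ℕ × Ω))} {t : Ω}
    {w : FreeGroup (ℕ × Ω)} (hw : w ∈ W) {j : ℕ} {q : ℕ} (hq : q.Prime)
    (a' : Fin q → ℤ) (ha : linPart j w = ∑ i, MonoidAlgebra.of ℤ Ω (t ^ a' i)) (i₀ i₁ : Fin q)
    (hne' : ¬ (q : ℤ) ∣ a' i₀ - a' i₁) :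
    LinLaw W t (fun p => if p = q then q - 1 else 0) := by
  obtain ⟨k, a, hk, hsum⟩ := exists_atT t a'
  rw [hsum] at ha
  have hne : ¬ a i₀ ≡ a i₁ [MOD q] := by
    intro h
    apply hne'
    rw [hk, hk, add_sub_add_right_eq_sub]
    exact (Nat.modEq_iff_dvd.1 h.symm)
  refine linLaw_of_word hw ha fun p hp hdvd => ?_
  have hfp : Fact p.Prime := ⟨hp⟩
  rw [Polynomial.map_sum] at hdvd
  simp only [Polynomial.map_pow, map_X] at hdvd
  by_cases hpq : p = q
  · subst hpq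
    rw [if_pos rfl, Nat.sub_add_cancel hp.one_le, sub_pow_char, one_pow] at hdvd
    -- reduce the exponents modulo `p`
    have h1 : ∀ b : ℕ, (X ^ p - 1 : (ZMod p)[X]) ∣ X ^ b - X ^ (b % p) := by
      intro b
      have h2 : (X ^ p - 1 : (ZMod p)[X]) ∣ (X ^ p) ^ (b / p) - 1 := by
        have h3 := sub_dvd_pow_sub_pow (X ^ p : (ZMod p)[X]) 1 (b / p)
        rwa [one_pow] at h3
      have h4 : (X ^ b - X ^ (b % p) : (ZMod p)[X]) = X ^ (b % p) * ((X ^ p) ^ (b / p) - 1) := by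
        rw [mul_sub, mul_one, ← pow_mul, ← pow_add, Nat.mod_add_div]
      rw [h4]
      exact h2.mul_left _
    have h2 : (X ^ p - 1 : (ZMod p)[X]) ∣ ∑ i, X ^ (a i % p) := by
      have h3 : (X ^ p - 1 : (ZMod p)[X]) ∣ ∑ i, (X ^ a i - X ^ (a i % p)) :=
        Finset.dvd_sum fun i _ => h1 (a i)
      rw [Finset.sum_sub_distrib] at h3
      exact (dvd_sub_right hdvd).1 h3
    have h3 : (∑ i, X ^ (a i % p) : (ZMod p)[X]) = 0 := by
      refine Polynomial.eq_zero_of_dvd_of_natDegree_lt h2 ?_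
      have h4 : (X ^ p - 1 : (ZMod p)[X]).natDegree = p := by
        have h5 : (X ^ p - 1 : (ZMod p)[X]) = X ^ p - C 1 := by rw [C_1]
        rw [h5, natDegree_X_pow_sub_C]
      rw [h4]
      refine lt_of_le_of_lt (Polynomial.natDegree_sum_le_of_forall_le (n := p - 1) _ _ ?_)
        (Nat.sub_lt hp.pos Nat.one_pos)
      intro i _
      rw [natDegree_X_pow]
      have := Nat.mod_lt (a i) hp.pos
      omega
    have h4 := congrArg (fun z : (ZMod p)[X] => z.coeff (a i₀ % p)) h3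
    simp only [finsetSum_coeff, coeff_X_pow, coeff_zero, Finset.sum_boole] at h4
    rw [ZMod.natCast_eq_zero_iff] at h4
    have h5 : 0 < (Finset.univ.filter fun i => a i₀ % p = a i % p).card :=
      Finset.card_pos.2 ⟨i₀, by simp⟩
    have h6 : (Finset.univ.filter fun i => a i₀ % p = a i % p).card < p := by
      have h7 : (Finset.univ.filter fun i => a i₀ % p = a i % p) ⊂ Finset.univ := by
        rw [Finset.ssubset_univ_iff]
        intro h8
        have h9 : i₁ ∈ (Finset.univ.filter fun i => a i₀ % p = a i % p) := by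
          rw [h8]; exact Finset.mem_univ _
        exact hne (Finset.mem_filter.1 h9).2
      have h8 := Finset.card_lt_card h7
      rwa [Finset.card_univ, Fintype.card_fin] at h8
    exact absurd (Nat.le_of_dvd h5 h4) (by omega)
  · rw [if_neg hpq, zero_add, pow_one] at hdvd
    have hX : (X - 1 : (ZMod p)[X]) = X - C 1 := by rw [C_1]
    rw [hX, dvd_iff_isRoot, IsRoot.def, eval_finsetSum] at hdvd
    simp only [eval_pow, eval_X, one_pow, Finset.sum_const, Finset.card_univ, Fintype.card_fin,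
      nsmul_eq_mul, mul_one] at hdvd
    rw [ZMod.natCast_eq_zero_iff] at hdvd
    exact hpq ((Nat.prime_dvd_prime_iff_eq hp hq).1 hdvd)

end Pool.Agent.Work.MP_369e59_al
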