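import Pool.Agent.Work.MP_369e59_al.GrLie

/-!
# Commutator calculus modulo a normal subgroup
-/

namespace Pool.Agent.Work.MP_369e59_al

open scoped commutatorElement

variable {K : Type*} [Group K]

/-- The centralizer of `A` modulo the normal subgroup `N`. -/
def centMod (A N : Subgroup K) [hN : N.Normal] : Subgroup K where
  carrier := {b | ∀ a ∈ A, ⁅a, b⁆ ∈ N}
  mul_mem' := by
    intro b c hb hc a ha
    have : ⁅a, b * c⁆ = ⁅a, b⁆ * (b * ⁅a, c⁆ * b⁻¹) := by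
      simp only [commutatorElement_def]; group
    rw [this]
    exact mul_mem (hb a ha) (hN.conj_mem _ (hc a ha) b)
  one_mem' := by intro a _; simp
  inv_mem' := by
    intro b hb a ha
    have : ⁅a, b⁻¹⁆ = b⁻¹ * ⁅a, b⁆⁻¹ * b⁻¹⁻¹ := by
      simp only [commutatorElement_def]; group
    rw [this]
    exact hN.conj_mem _ (inv_mem (hb a ha)) _

theorem mem_centMod {A N : Subgroup K} [N.Normal] {b : K} :
    b ∈ centMod A N ↔ ∀ a ∈ A, ⁅a, b⁆ ∈ N := Iff.rfl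

theorem comm_le_iff_centMod {A B N : Subgroup K} [N.Normal] :
    ⁅A, B⁆ ≤ N ↔ B ≤ centMod A N := by
  rw [Subgroup.commutator_le]
  exact ⟨fun h b hb a ha => h a ha b hb, fun h a ha b hb => h hb a ha⟩

theorem comm_iSup_le {ι : Sort*} {A : Subgroup K} {B : ι → Subgroup K} {N : Subgroup K} [N.Normal]
    (h : ∀ i, ⁅A, B i⁆ ≤ N) : ⁅A, ⨆ i, B i⁆ ≤ N := by
  rw [comm_le_iff_centMod]
  exact iSup_le fun i => comm_le_iff_centMod.1 (h i)

theorem iSup_comm_le {ι : Sort*} {A : Subgroup K} {B : ι → Subgroup K} {N : Subgroup K} [N.Normal]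
    (h : ∀ i, ⁅B i, A⁆ ≤ N) : ⁅⨆ i, B i, A⁆ ≤ N := by
  rw [Subgroup.commutator_comm]
  refine comm_iSup_le fun i => ?_
  rw [Subgroup.commutator_comm]
  exact h i

theorem comm_sup_le {A B C N : Subgroup K} [N.Normal] (h : ⁅A, B⁆ ≤ N) (h' : ⁅A, C⁆ ≤ N) :
    ⁅A, B ⊔ C⁆ ≤ N := by
  rw [comm_le_iff_centMod]
  exact sup_le (comm_le_iff_centMod.1 h) (comm_le_iff_centMod.1 h')

theorem map_mk'_eq_bot {A N : Subgroup K} [N.Normal] :
    A.map (QuotientGroup.mk' N) = ⊥ ↔ A ≤ N := by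
  rw [Subgroup.map_eq_bot_iff, QuotientGroup.ker_mk']

/-- The three subgroups lemma modulo a normal subgroup. -/
theorem three_subgroups {A B C N : Subgroup K} [N.Normal] (h1 : ⁅⁅A, B⁆, C⁆ ≤ N)
    (h2 : ⁅⁅A, C⁆, B⁆ ≤ N) : ⁅A, ⁅B, C⁆⁆ ≤ N := by
  rw [← map_mk'_eq_bot] at *
  simp only [Subgroup.map_commutator] at *
  rw [Subgroup.commutator_comm]
  apply Subgroup.commutator_commutator_eq_bot_of_rotate
  · rw [Subgroup.commutator_comm (C.map _) (A.map _)]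
    exact h2
  · exact h1

/-- The subgroup of elements on which an operator group acts trivially modulo `N`. -/
def fixMod (Ω : Type*) [Group Ω] [MulDistribMulAction Ω K] (N : Subgroup K) [hN : N.Normal] :
    Subgroup K where
  carrier := {x | ∀ ω : Ω, x⁻¹ * (ω • x) ∈ N}
  mul_mem' := by
    intro x y hx hy ω
    have : (x * y)⁻¹ * (ω • (x * y)) = (y⁻¹ * (x⁻¹ * ω • x) * y⁻¹⁻¹) * (y⁻¹ * ω • y) := by
      rw [smul_mul']; group
    rw [this]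
    exact mul_mem (hN.conj_mem _ (hx ω) _) (hy ω)
  one_mem' := by intro ω; simp
  inv_mem' := by
    intro x hx ω
    have : x⁻¹⁻¹ * (ω • x⁻¹) = x * (x⁻¹ * ω • x)⁻¹ * x⁻¹ := by
      rw [smul_inv']; group
    rw [this]
    exact hN.conj_mem _ (inv_mem (hx ω)) _

theorem mem_fixMod {Ω : Type*} [Group Ω] [MulDistribMulAction Ω K] {N : Subgroup K} [N.Normal]
    {x : K} : x ∈ fixMod Ω N ↔ ∀ ω : Ω, x⁻¹ * (ω • x) ∈ N := Iff.rfl

theorem comm_change {N : Subgroup K} [hN : N.Normal] {g h u v : K} (h1 : ⁅u, h * v⁆ ∈ N)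
    (h2 : ⁅g, v⁆ ∈ N) : ⁅g, h⁆⁻¹ * ⁅g * u, h * v⁆ ∈ N := by
  have e3 : ⁅g, h⁆⁻¹ * ⁅g * u, h * v⁆ =
      (⁅g, h⁆⁻¹ * (g * ⁅u, h * v⁆ * g⁻¹) * ⁅g, h⁆⁻¹⁻¹) * (h * ⁅g, v⁆ * h⁻¹) := by
    simp only [commutatorElement_def]; group
  rw [e3]
  exact mul_mem (hN.conj_mem _ (hN.conj_mem _ h1 _) _) (hN.conj_mem _ h2 _)

end Pool.Agent.Work.MP_369e59_al
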