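import Pool.Agent.Work.MP_369e59_al.PPow

/-!
# Counting generators of elementary abelian quotients
-/

namespace Pool.Agent.Work.MP_369e59_al

open scoped commutatorElement

theorem lcs_eq_bot_of_injective {A B : Type*} [Group A] [Group B] (φ : A →* B)
    (hφ : Function.Injective φ) {S : Subgroup A} {T : Subgroup B} (hST : S.map φ ≤ T) {n : ℕ}
    (h : T.lowerCentralSeries n = ⊥) : S.lowerCentralSeries n = ⊥ := by
  have h1 : (S.lowerCentralSeries n).map φ ≤ T.lowerCentralSeries n := by
    rw [Subgroup.map_lowerCentralSeries]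
    exact Subgroup.lowerCentralSeries_mono n hST
  rw [h, le_bot_iff, Subgroup.map_eq_bot_iff_of_injective _ hφ] at h1
  exact h1

section card

theorem card_le_pow_aux (V : Type*) [AddCommGroup V] (p : ℕ) [Fact p.Prime] [Module (ZMod p) V]
    (S : Finset V) (hS : AddSubgroup.closure (S : Set V) = ⊤) :
    Finite V ∧ Nat.card V ≤ p ^ S.card := by
  have h : Submodule.span (ZMod p) (S : Set V) = ⊤ := by
    rw [eq_top_iff]
    intro x _
    have h1 : AddSubgroup.closure (S : Set V) ≤
        (Submodule.span (ZMod p) (S : Set V)).toAddSubgroup := by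
      rw [AddSubgroup.closure_le]
      exact Submodule.subset_span
    rw [hS] at h1
    exact h1 (AddSubgroup.mem_top x)
  have hfin : Module.Finite (ZMod p) V := ⟨⟨S, h⟩⟩
  have hfin' : Finite V := Module.finite_of_finite (ZMod p)
  refine ⟨hfin', ?_⟩
  rw [Module.natCard_eq_pow_finrank (K := ZMod p), Nat.card_zmod]
  refine Nat.pow_le_pow_right (Fact.out : p.Prime).pos ?_
  have h2 := finrank_span_finset_le_card (R := ZMod p) S
  rwa [Set.finrank, h, finrank_top] at h2

/-- An elementary abelian `p`-group generated by `m` elements has at most `p ^ m` elements. -/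
theorem card_le_pow (V : Type*) [AddCommGroup V] (p : ℕ) [Fact p.Prime]
    (hp : ∀ v : V, p • v = 0) (S : Finset V) (hS : AddSubgroup.closure (S : Set V) = ⊤) :
    Finite V ∧ Nat.card V ≤ p ^ S.card :=
  @card_le_pow_aux V _ p _ (AddCommGroup.zmodModule hp) S hS

/-- If the normal subgroup `B` contains `Φ_p(K)` then `K / B` is finite with at most `p ^ m`
elements if it is generated by `m` elements. -/
theorem card_quot_le {K : Type*} [Group K] (p : ℕ) (hp : p.Prime) (B : Subgroup K) [B.Normal]
    (hB : Phi K p ≤ B) (S : Finset (K ⧸ B)) (hS : Subgroup.closure (S : Set (K ⧸ B)) = ⊤) :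
    Finite (K ⧸ B) ∧ Nat.card (K ⧸ B) ≤ p ^ S.card := by
  classical
  have : Fact p.Prime := ⟨hp⟩
  have hcomm : ∀ v w : K ⧸ B, v * w = w * v := by
    intro v w
    induction v using QuotientGroup.induction_on with
    | H x =>
      induction w using QuotientGroup.induction_on with
      | H y =>
        rw [← QuotientGroup.mk_mul, ← QuotientGroup.mk_mul, QuotientGroup.eq]
        have e : (x * y)⁻¹ * (y * x) = ⁅y⁻¹, x⁻¹⁆ := by
          simp only [commutatorElement_def]; group
        rw [e]
        exact hB (comm_le_Phi p (Subgroup.commutator_mem_commutator (Subgroup.mem_top _)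
          (Subgroup.mem_top _)))
  let _ : CommGroup (K ⧸ B) :=
    { (inferInstance : Group (K ⧸ B)) with mul_comm := hcomm }
  have h := card_le_pow (Additive (K ⧸ B)) p
    (fun v => by
      obtain ⟨x, rfl⟩ := Additive.ofMul.surjective v
      induction x using QuotientGroup.induction_on with
      | H x =>
        have h1 : (QuotientGroup.mk x : K ⧸ B) ^ p = 1 := by
          rw [← QuotientGroup.mk_pow, QuotientGroup.eq_one_iff]
          exact hB (pow_mem_Phi p x)
        rw [← ofMul_pow, h1]; rfl)
    (S.map Additive.ofMul.toEmbedding) (by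
      rw [eq_top_iff]
      intro v _
      obtain ⟨x, rfl⟩ := Additive.ofMul.surjective v
      have hx : x ∈ Subgroup.closure (S : Set (K ⧸ B)) := by rw [hS]; exact Subgroup.mem_top x
      induction hx using Subgroup.closure_induction with
      | mem x hx => exact AddSubgroup.subset_closure (by simpa using hx)
      | one => exact zero_mem _
      | mul x y _ _ hx hy => exact add_mem (hx trivial) (hy trivial)
      | inv x _ hx => exact neg_mem (hx trivial))
  rw [Finset.card_map] at h
  exact h

/-- A version with a family of elements of `K` which generates `K` modulo `B`. -/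
theorem card_quot_le' {K : Type*} [Group K] (p : ℕ) (hp : p.Prime) (B : Subgroup K) [B.Normal]
    (hB : Phi K p ≤ B) {J : Type*} [Fintype J] (x : J → K)
    (hx : ∀ g : K, g ∈ Subgroup.closure (Set.range x) ⊔ B) :
    Finite (K ⧸ B) ∧ Nat.card (K ⧸ B) ≤ p ^ Fintype.card J := by
  classical
  let S : Finset (K ⧸ B) := Finset.univ.image fun j => QuotientGroup.mk (x j)
  have hS : Subgroup.closure (S : Set (K ⧸ B)) = ⊤ := by
    rw [eq_top_iff]
    intro v _
    induction v using QuotientGroup.induction_on with
    | H g =>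
      have h1 := hx g
      rw [Subgroup.mem_sup_of_normal_right] at h1
      obtain ⟨y, hy, z, hz, rfl⟩ := h1
      have h2 : (QuotientGroup.mk (y * z) : K ⧸ B) = QuotientGroup.mk y := by
        rw [QuotientGroup.eq]
        have e : (y * z)⁻¹ * y = z⁻¹ := by group
        rw [e]
        exact inv_mem hz
      rw [h2]
      have h3 : Subgroup.closure (Set.range x) ≤
          (Subgroup.closure (S : Set (K ⧸ B))).comap (QuotientGroup.mk' B) := by
        rw [Subgroup.closure_le]
        rintro _ ⟨j, rfl⟩
        exact Subgroup.subset_closure (by simp [S])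
      exact h3 hy
  have h := card_quot_le p hp B hB S hS
  refine ⟨h.1, h.2.trans (Nat.pow_le_pow_right hp.pos ?_)⟩
  exact Finset.card_image_le.trans (by simp)

theorem exists_gen_aux (V : Type*) [AddCommGroup V] (p : ℕ) [Fact p.Prime] [Module (ZMod p) V]
    [Finite V] : ∃ (n : ℕ) (b : Fin n → V), p ^ n = Nat.card V ∧
      AddSubgroup.closure (Set.range b) = ⊤ := by
  have hfin : Module.Finite (ZMod p) V := Module.Finite.of_finite
  refine ⟨_, Module.finBasis (ZMod p) V, ?_, ?_⟩
  · rw [Module.natCard_eq_pow_finrank (K := ZMod p), Nat.card_zmod]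
  · let P : Submodule (ZMod p) V :=
      { AddSubgroup.closure (Set.range (Module.finBasis (ZMod p) V)) with
        smul_mem' := by
          intro c v hv
          have h1 : c • v = c.val • v := by
            conv_lhs => rw [← ZMod.natCast_zmod_val c]
            rw [Nat.cast_smul_eq_nsmul]
          rw [h1]
          have hv' : v ∈ AddSubgroup.closure (Set.range (Module.finBasis (ZMod p) V)) := hv
          exact nsmul_mem hv' _ }
    have hP : P = ⊤ := by
      rw [eq_top_iff, ← (Module.finBasis (ZMod p) V).span_eq, Submodule.span_le]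
      exact AddSubgroup.subset_closure
    rw [eq_top_iff]
    intro v _
    have : v ∈ P := by rw [hP]; exact Submodule.mem_top
    exact this

theorem exists_gen (V : Type*) [AddCommGroup V] (p : ℕ) [Fact p.Prime] (hp : ∀ v : V, p • v = 0)
    [Finite V] : ∃ (n : ℕ) (b : Fin n → V), p ^ n = Nat.card V ∧
      AddSubgroup.closure (Set.range b) = ⊤ :=
  @exists_gen_aux V _ p _ (AddCommGroup.zmodModule hp) _

/-- Generators of an elementary abelian section. -/
theorem exists_family {K : Type*} [Group K] {p : ℕ} (hp : p.Prime) (H B : Subgroup K) [B.Normal]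
    (hB : Phi K p ≤ B) (h0 : B.relIndex H ≠ 0) :
    ∃ (n : ℕ) (g : Fin n → K), (∀ j, g j ∈ H) ∧ p ^ n = B.relIndex H ∧
      ∀ x ∈ H, ∃ y ∈ Subgroup.closure (Set.range g), y⁻¹ * x ∈ B := by
  classical
  have : Fact p.Prime := ⟨hp⟩
  let Q := H ⧸ B.subgroupOf H
  have hcomm : ∀ v w : Q, v * w = w * v := by
    intro v w
    induction v using QuotientGroup.induction_on with
    | H x =>
      induction w using QuotientGroup.induction_on with
      | H y =>
        rw [← QuotientGroup.mk_mul, ← QuotientGroup.mk_mul, QuotientGroup.eq,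
          Subgroup.mem_subgroupOf]
        have e : (((x * y)⁻¹ * (y * x) : H) : K) = ⁅(y : K)⁻¹, (x : K)⁻¹⁆ := by
          simp [commutatorElement_def, mul_assoc]
        rw [e]
        exact hB (comm_le_Phi p (Subgroup.commutator_mem_commutator (Subgroup.mem_top _)
          (Subgroup.mem_top _)))
  let _ : CommGroup Q :=
    { (inferInstance : Group Q) with mul_comm := hcomm }
  have hpow : ∀ v : Additive Q, p • v = 0 := by
    intro v
    obtain ⟨x, rfl⟩ := Additive.ofMul.surjective v
    induction x using QuotientGroup.induction_on with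
    | H x =>
      have h1 : (QuotientGroup.mk x : Q) ^ p = 1 := by
        rw [← QuotientGroup.mk_pow, QuotientGroup.eq_one_iff, Subgroup.mem_subgroupOf]
        exact hB (pow_mem_Phi p (x : K))
      rw [← ofMul_pow, h1]; rfl
  have hcard : Nat.card (Additive Q) = B.relIndex H := rfl
  have hfin : Finite (Additive Q) := Nat.finite_of_card_ne_zero (by rw [hcard]; exact h0)
  obtain ⟨n, b, hn, hb⟩ := exists_gen (Additive Q) p hpow
  have hlift : ∀ v : Additive Q, ∃ y : H, Additive.ofMul (QuotientGroup.mk y : Q) = v := by
    intro v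
    obtain ⟨x, rfl⟩ := Additive.ofMul.surjective v
    induction x using QuotientGroup.induction_on with
    | H x => exact ⟨x, rfl⟩
  choose g hg using fun j => hlift (b j)
  refine ⟨n, fun j => (g j : K), fun j => (g j).2, by rw [hn, hcard], ?_⟩
  intro x hx
  have key : ∀ v ∈ AddSubgroup.closure (Set.range b), ∃ y : H,
      (y : K) ∈ Subgroup.closure (Set.range fun j => (g j : K)) ∧
        Additive.ofMul (QuotientGroup.mk y : Q) = v := by
    intro v hv
    induction hv using AddSubgroup.closure_induction with
    | mem v hv =>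
      obtain ⟨j, rfl⟩ := hv
      exact ⟨g j, Subgroup.subset_closure ⟨j, rfl⟩, hg j⟩
    | zero => exact ⟨1, one_mem _, rfl⟩
    | add v w _ _ hv hw =>
      obtain ⟨y, hy, rfl⟩ := hv
      obtain ⟨z, hz, rfl⟩ := hw
      exact ⟨y * z, mul_mem hy hz, rfl⟩
    | neg v _ hv =>
      obtain ⟨y, hy, rfl⟩ := hv
      exact ⟨y⁻¹, inv_mem hy, rfl⟩
  obtain ⟨y, hy, hyx⟩ := key (Additive.ofMul (QuotientGroup.mk (⟨x, hx⟩ : H) : Q))
    (by rw [hb]; exact AddSubgroup.mem_top _)
  refine ⟨y, hy, ?_⟩
  have h3 : (QuotientGroup.mk y : Q) = QuotientGroup.mk ⟨x, hx⟩ := Additive.ofMul.injective hyx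
  rw [QuotientGroup.eq, Subgroup.mem_subgroupOf] at h3
  exact h3

end card

end Pool.Agent.Work.MP_369e59_al
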