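import Pool.Agent.Work.MP_369e59_al.Vanish

/-!
# Compactness for the identities of Lie rings
-/

namespace Pool.Agent.Work.MP_369e59_al

open scoped commutatorElement

section maps

variable {L L' : Type*} [LieRing L] [LieRing L']

theorem map_lComm (φ : L →+ L') (hφ : ∀ x y, φ ⁅x, y⁆ = ⁅φ x, φ y⁆) (n : ℕ)
    (a : Fin (n + 1) → L) : φ (lComm n a) = lComm n (fun i => φ (a i)) := by
  induction n with
  | zero => rfl
  | succ n ih =>
    simp only [lComm]
    rw [hφ, ih]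

theorem map_eval (φ : L →+ L') (hφ : ∀ x y, φ ⁅x, y⁆ = ⁅φ x, φ y⁆) (u : MultId)
    (a : Fin (u.n + 1) → L) : φ (u.eval a) = u.eval (fun i => φ (a i)) := by
  unfold MultId.eval
  rw [map_sum]
  refine Finset.sum_congr rfl fun σ _ => ?_
  rw [map_zsmul, map_lComm φ hφ]

end maps

section free

variable (X : Type*)

/-- The ideal of the free Lie ring generated by the values of the polynomials in `U`. -/
noncomputable def vid (U : Set MultId) : LieSubmodule ℤ (FreeLieAlgebra ℤ X) (FreeLieAlgebra ℤ X) :=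
  LieSubmodule.lieSpan ℤ (FreeLieAlgebra ℤ X)
    {v | ∃ u ∈ U, ∃ a : Fin (u.n + 1) → FreeLieAlgebra ℤ X, v = u.eval a}

theorem vid_mono {U V : Set MultId} (h : U ⊆ V) : vid X U ≤ vid X V := by
  apply LieSubmodule.lieSpan_mono
  rintro _ ⟨u, hu, a, rfl⟩
  exact ⟨u, h hu, a, rfl⟩

theorem sat_quot (U : Set MultId) : Sat U (FreeLieAlgebra ℤ X ⧸ vid X U) := by
  intro u hu a
  let φ : FreeLieAlgebra ℤ X →+ FreeLieAlgebra ℤ X ⧸ vid X U :=
    (LieSubmodule.Quotient.mk' (vid X U) : _ →ₗ[ℤ] _).toAddMonoidHom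
  have hφ : ∀ x y, φ ⁅x, y⁆ = ⁅φ x, φ y⁆ := fun x y => LieSubmodule.Quotient.mk_bracket (vid X U) x y
  have hsurj : Function.Surjective φ := fun x => Quotient.inductionOn' x fun y => ⟨y, rfl⟩
  choose b hb using fun i => hsurj (a i)
  have h1 : a = fun i => φ (b i) := funext fun i => (hb i).symm
  rw [h1, ← map_eval φ hφ]
  change LieSubmodule.Quotient.mk' (vid X U) (u.eval b) = 0
  rw [LieSubmodule.Quotient.mk_eq_zero]
  exact LieSubmodule.subset_lieSpan ⟨u, hu, b, rfl⟩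

theorem mem_vid_finite {U : Set MultId} {x : FreeLieAlgebra ℤ X} (hx : x ∈ vid X U) :
    ∃ U₀ ⊆ U, U₀.Finite ∧ x ∈ vid X U₀ := by
  induction hx using LieSubmodule.lieSpan_induction with
  | mem x h =>
    obtain ⟨u, hu, a, rfl⟩ := h
    exact ⟨{u}, by simpa using hu, Set.finite_singleton u,
      LieSubmodule.subset_lieSpan ⟨u, rfl, a, rfl⟩⟩
  | zero => exact ⟨∅, Set.empty_subset _, Set.finite_empty, zero_mem _⟩
  | add x y _ _ hx hy =>
    obtain ⟨U₁, h1, h2, h3⟩ := hx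
    obtain ⟨U₂, h4, h5, h6⟩ := hy
    exact ⟨U₁ ∪ U₂, Set.union_subset h1 h4, h2.union h5,
      add_mem (vid_mono X Set.subset_union_left h3) (vid_mono X Set.subset_union_right h6)⟩
  | smul c x _ hx =>
    obtain ⟨U₁, h1, h2, h3⟩ := hx
    exact ⟨U₁, h1, h2, (vid X U₁).smul_mem c h3⟩
  | lie y x _ hx =>
    obtain ⟨U₁, h1, h2, h3⟩ := hx
    exact ⟨U₁, h1, h2, (vid X U₁).lie_mem h3⟩

end free

/-- Finitely many identities suffice. -/
theorem VanishAt.exists_finite.{u, v} {U : Set MultId} {R c : ℕ} (h : VanishAt.{u} U R c) :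
    ∃ U₀ ⊆ U, U₀.Finite ∧ VanishAt.{v} U₀ R c := by
  classical
  let X : Type u := ULift.{u} (Fin R)
  let y : Fin R → FreeLieAlgebra ℤ X := fun i => FreeLieAlgebra.of ℤ (ULift.up i)
  have h1 : ∀ τ : Fin (c + 1) → Fin R, lComm c (fun i => y (τ i)) ∈ vid X U := by
    intro τ
    have h2 := h (FreeLieAlgebra ℤ X ⧸ vid X U) (sat_quot X U)
      (fun i => LieSubmodule.Quotient.mk' (vid X U) (y i)) τ
    let φ : FreeLieAlgebra ℤ X →+ FreeLieAlgebra ℤ X ⧸ vid X U :=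
      (LieSubmodule.Quotient.mk' (vid X U) : _ →ₗ[ℤ] _).toAddMonoidHom
    have hφ : ∀ x y, φ ⁅x, y⁆ = ⁅φ x, φ y⁆ := fun x y => LieSubmodule.Quotient.mk_bracket (vid X U) x y
    have h3 := map_lComm φ hφ c (fun i => y (τ i))
    have h4 : φ (lComm c (fun i => y (τ i))) = 0 := h3.trans h2
    change LieSubmodule.Quotient.mk' (vid X U) _ = 0 at h4
    rwa [LieSubmodule.Quotient.mk_eq_zero] at h4
  choose V hV hVf hVm using fun τ => mem_vid_finite X (h1 τ)
  refine ⟨⋃ τ, V τ, Set.iUnion_subset hV, Set.finite_iUnion hVf, ?_⟩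
  intro L _ hL z τ
  let ψ : FreeLieAlgebra ℤ X →ₗ⁅ℤ⁆ L := FreeLieAlgebra.lift ℤ (fun i => z i.down)
  let φ : FreeLieAlgebra ℤ X →+ L := (ψ : FreeLieAlgebra ℤ X →ₗ[ℤ] L).toAddMonoidHom
  have hφ : ∀ x y, φ ⁅x, y⁆ = ⁅φ x, φ y⁆ := fun x y => ψ.map_lie x y
  have hy : ∀ i, φ (y i) = z i := fun i => FreeLieAlgebra.lift_of_apply _ _
  have h5 : vid X (⋃ τ, V τ) ≤ ψ.ker := by
    apply LieSubmodule.lieSpan_le.2
    rintro _ ⟨u, hu, a, rfl⟩
    change _ ∈ ψ.ker
    rw [LieHom.mem_ker]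
    have h6 := map_eval φ hφ u a
    rw [hL u hu] at h6
    exact h6
  have h6 := h5 (vid_mono X (Set.subset_iUnion V τ) (hVm τ))
  rw [LieHom.mem_ker] at h6
  have h7 := map_lComm φ hφ c (fun i => y (τ i))
  simp only [hy] at h7
  rw [← h7]
  exact h6

end Pool.Agent.Work.MP_369e59_al
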