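import Pool.Agent.Work.MP_369e59_al.LieSol

/-!
# The ideal of the graded Lie ring defined by a normal subgroup
-/

namespace Pool.Agent.Work.MP_369e59_al

open scoped commutatorElement

section AA

variable {ι : Type*} [AddCommSemigroup ι] [DecidableEq ι] {K : Type*} [Group K] (D : GrData ι K)

/-- The additive subgroup generated by the homogeneous classes of elements of `A`. -/
def AA (A : Subgroup K) : AddSubgroup D.L :=
  AddSubgroup.closure {v | ∃ i g, ∃ hg : g ∈ D.A i, g ∈ A ∧ v = D.el i g hg}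

theorem AA_mono {A B : Subgroup K} (h : A ≤ B) : AA D A ≤ AA D B := by
  apply AddSubgroup.closure_mono
  rintro _ ⟨i, g, hg, hA, rfl⟩
  exact ⟨i, g, hg, h hA, rfl⟩

theorem AA_bot : AA D (⊥ : Subgroup K) = ⊥ := by
  rw [eq_bot_iff]
  unfold AA
  rw [AddSubgroup.closure_le]
  rintro _ ⟨i, g, hg, hA, rfl⟩
  rw [Subgroup.mem_bot] at hA
  subst hA
  rw [SetLike.mem_coe, AddSubgroup.mem_bot, D.el_one]

theorem brk_AA_le {A B C : Subgroup K} (h : ⁅A, B⁆ ≤ C) : brk (AA D A) (AA D B) ≤ AA D C := by
  rw [brk_le]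
  intro x hx y hy
  unfold AA at hx hy
  induction hx using AddSubgroup.closure_induction with
  | zero => rw [zero_lie]; exact zero_mem _
  | neg x _ hx => rw [neg_lie]; exact neg_mem hx
  | add x x' _ _ hx hx' => rw [add_lie]; exact add_mem hx hx'
  | mem x hx =>
    induction hy using AddSubgroup.closure_induction with
    | zero => rw [lie_zero]; exact zero_mem _
    | neg y _ hy => rw [lie_neg]; exact neg_mem hy
    | add y y' _ _ hy hy' => rw [lie_add]; exact add_mem hy hy'
    | mem y hy =>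
      obtain ⟨i, g, hg, hgA, rfl⟩ := hx
      obtain ⟨j, h', hh, hhB, rfl⟩ := hy
      rw [D.lie_el]
      exact AddSubgroup.subset_closure ⟨_, _, _, h (Subgroup.commutator_mem_commutator hgA hhB), rfl⟩

theorem AA_top : AA D (⊤ : Subgroup K) = ⊤ := by
  rw [eq_top_iff]
  intro x _
  induction x using D.L_ind with
  | h0 => exact zero_mem _
  | h1 i g hg => exact AddSubgroup.subset_closure ⟨i, g, hg, Subgroup.mem_top _, rfl⟩
  | h2 x y hx hy => exact add_mem (hx trivial) (hy trivial)

theorem AA_ideal (A : Subgroup K) [A.Normal] : brk (AA D A) ⊤ ≤ AA D A := by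
  rw [← AA_top D]
  exact brk_AA_le D (Subgroup.commutator_le_left _ _)

theorem actn_AA_le (A : Subgroup K) (q : ℕ) :
    actn (AA D A) (AA D A) q ≤ AA D (A.lowerCentralSeries q) := by
  induction q with
  | zero => exact le_rfl
  | succ q ih => exact (brk_mono ih le_rfl).trans (brk_AA_le D le_rfl)

/-- The derived series of a subgroup. -/
def dsub (A : Subgroup K) : ℕ → Subgroup K
  | 0 => A
  | i + 1 => ⁅dsub A i, dsub A i⁆

theorem Dser_AA_le (A : Subgroup K) (i : ℕ) : Dser (AA D A) i ≤ AA D (dsub A i) := by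
  induction i with
  | zero => exact le_rfl
  | succ i ih => exact (brk_mono ih ih).trans (brk_AA_le D le_rfl)

end AA

/-- `A` is nilpotent of class at most `c0`, or soluble of derived length at most `ℓ` where
`solBound k ℓ ≤ c0`. -/
def NilSol {K : Type*} [Group K] (k : ℕ) (A : Subgroup K) (c0 : ℕ) : Prop :=
  A.lowerCentralSeries c0 = ⊥ ∨ ∃ ℓ, dsub A ℓ = ⊥ ∧ solBound k ℓ ≤ c0

theorem map_dsub {K K' : Type*} [Group K] [Group K'] (φ : K →* K') (A : Subgroup K) (i : ℕ) :
    (dsub A i).map φ = dsub (A.map φ) i := by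
  induction i with
  | zero => rfl
  | succ i ih =>
    simp only [dsub]
    rw [Subgroup.map_commutator, ih]

theorem dsub_mono {K : Type*} [Group K] {A B : Subgroup K} (h : A ≤ B) (i : ℕ) :
    dsub A i ≤ dsub B i := by
  induction i with
  | zero => exact h
  | succ i ih => exact Subgroup.commutator_mono ih ih

theorem dsub_top_eq {K : Type*} [Group K] (i : ℕ) : dsub (⊤ : Subgroup K) i = derivedSeries K i := by
  induction i with
  | zero => rfl
  | succ i ih =>
    simp only [dsub]
    rw [ih]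
    rfl

theorem lcs_eq_bot_of_injective' {A B : Type*} [Group A] [Group B] (φ : A →* B)
    (hφ : Function.Injective φ) {S : Subgroup A} {T : Subgroup B} (hST : S.map φ ≤ T) {n : ℕ}
    (h : T.lowerCentralSeries n = ⊥) : S.lowerCentralSeries n = ⊥ := by
  have h1 : (S.lowerCentralSeries n).map φ ≤ T.lowerCentralSeries n := by
    rw [Subgroup.map_lowerCentralSeries]
    exact Subgroup.lowerCentralSeries_mono n hST
  rw [h, le_bot_iff, Subgroup.map_eq_bot_iff_of_injective _ hφ] at h1
  exact h1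

theorem NilSol.of_injective {K K' : Type*} [Group K] [Group K'] (φ : K →* K')
    (hφ : Function.Injective φ) {k : ℕ} {S : Subgroup K} {T : Subgroup K'} (hST : S.map φ ≤ T)
    {c0 : ℕ} (h : NilSol k T c0) : NilSol k S c0 := by
  rcases h with h | ⟨ℓ, h, h'⟩
  · exact Or.inl (lcs_eq_bot_of_injective' φ hφ hST h)
  · refine Or.inr ⟨ℓ, ?_, h'⟩
    have h1 : (dsub S ℓ).map φ ≤ dsub T ℓ := by
      rw [map_dsub]
      exact dsub_mono hST ℓ
    rw [h, le_bot_iff, Subgroup.map_eq_bot_iff_of_injective _ hφ] at h1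
    exact h1

theorem gI_AA_eq_bot {ι : Type*} [AddCommSemigroup ι] [DecidableEq ι] {K : Type*} [Group K]
    (D : GrData ι K) {U : Set MultId} (hL : Sat U D.L) {k : ℕ}
    (hC : ∀ p : ℕ, p.Prime → ∃ u ∈ U, u.n ≤ k ∧ ∃ j, ¬ (p : ℤ) ∣ u.coef j)
    (A : Subgroup K) [A.Normal] {c0 : ℕ} (h : NilSol k A c0) : gI (AA D A) (c0 + 1) = ⊥ := by
  change actn (AA D A) (AA D A) c0 = ⊥
  rw [eq_bot_iff, ← AA_bot D]
  rcases h with h | ⟨ℓ, h, h'⟩
  · rw [← h]
    exact actn_AA_le D A c0
  · have hP : brk (AA D A) (AA D A) ≤ AA D A := (brk_mono le_rfl le_top).trans (AA_ideal D A)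
    rw [← h]
    exact (actn_anti hP h').trans ((actn_le_Dser hL hC hP ℓ).trans (Dser_AA_le D A ℓ))

theorem lComm_XY_eq_zero.{u} {K : Type u} [Group K] {M : ℕ → Subgroup K} (hM : IsChn M)
    {U : Set MultId} (hL : Sat U (dData hM).L) {R c : ℕ} (hvan : VanishAt.{u} U R c)
    {k : ℕ} (hC : ∀ p : ℕ, p.Prime → ∃ u ∈ U, u.n ≤ k ∧ ∃ j, ¬ (p : ℤ) ∣ u.coef j)
    (A : Subgroup K) [A.Normal] {c0 : ℕ} (hA : NilSol k A c0)
    {J : Type*} [Fintype J] (hJ : Fintype.card J + c0 ≤ R) (x : J → (dData hM).L)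
    (z : Fin (c + 1) → (dData hM).L) (hz : ∀ i, z i ∈ XY hM A (Set.range x)) :
    lComm c z = 0 := by
  classical
  choose s g hg hzg hor using hz
  let b : Fin (c + 1) → Bool := fun i => decide (g i ∈ A)
  have hb : ∀ i, b i = true → z i ∈ AA (dData hM) A := fun i hi =>
    AddSubgroup.subset_closure ⟨(1, s i), g i, hg i, of_decide_eq_true hi, hzg i⟩
  have hideal := AA_ideal (dData hM) A
  have hmem := lComm_mem_gI hideal c z b hb
  rcases Nat.lt_or_ge c0 (∑ i, (b i).toNat) with h | h
  · have h2 := gI_anti hideal (Nat.succ_le_of_lt h) hmem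
    rw [Nat.succ_eq_add_one, gI_AA_eq_bot (dData hM) hL hC A hA] at h2
    exact h2
  · have hcard : Fintype.card (J ⊕ {i // b i = true}) ≤ R := by
      rw [Fintype.card_sum, Fintype.card_subtype]
      have h2 : (∑ i, (b i).toNat) = (Finset.univ.filter fun i => b i = true).card := by
        rw [Finset.card_filter]
        refine Finset.sum_congr rfl fun i _ => ?_
        cases b i <;> rfl
      omega
    have hx : ∀ i, b i ≠ true → ∃ j, x j = z i := by
      intro i hi
      rcases hor i with h3 | h3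
      · exact absurd (decide_eq_true h3) hi
      · exact h3
    let τ : Fin (c + 1) → J ⊕ {i // b i = true} := fun i =>
      if h : b i = true then Sum.inr ⟨i, h⟩ else Sum.inl (hx i h).choose
    have h4 := hvan.apply hL hcard (Sum.elim x (fun i => z i.1)) τ
    have h5 : (fun i => Sum.elim x (fun i : {i // b i = true} => z i.1) (τ i)) = z := by
      funext i
      simp only [τ]
      split_ifs with h
      · rfl
      · exact (hx i h).choose_spec
    rwa [h5] at h4

end Pool.Agent.Work.MP_369e59_al
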