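import Pool.Agent.Work.MP_369e59_al.Card
import Pool.Agent.Work.MP_369e59_al.VanishA

/-!
# The core theorem for finitely generated operator groups
-/

namespace Pool.Agent.Work.MP_369e59_al

open scoped commutatorElement

section count

variable {K : Type*} [Group K] {M : ℕ → Subgroup K}

theorem prod_relIndex (hM : IsChn M) (A : Subgroup K) [A.Normal] (N : ℕ) :
    ∏ s ∈ Finset.range N, (A ⊔ M (s + 1)).relIndex (M s) = (A ⊔ M N).index := by
  induction N with
  | zero => simp [hM.zero]
  | succ N ih =>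
    have hn1 := hM.normal (N + 1)
    have hn : (A ⊔ M (N + 1)).Normal := inferInstance
    rw [Finset.prod_range_succ, ih, ← Subgroup.relIndex_sup_right (H := M N)]
    have e : M N ⊔ (A ⊔ M (N + 1)) = A ⊔ M N := by
      apply le_antisymm
      · exact sup_le le_sup_right (sup_le le_sup_left ((hM.anti N).trans le_sup_right))
      · exact sup_le (le_sup_left.trans le_sup_right) le_sup_left
    rw [e, mul_comm]
    exact Subgroup.relIndex_mul_index (sup_le_sup_left (hM.anti N) A)

/-- There is a family of at most `r` homogeneous classes of weight one which together with the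
classes of elements of `A` span the component of weight one. -/
theorem exists_XY (hM : IsChn M) {p : ℕ} (hp : p.Prime) (hPhi : ∀ a, Phi K p ≤ M a) {N : ℕ}
    (hN : ∀ b, N ≤ b → M b ≤ Phi K p) (A : Subgroup K) [A.Normal] {r : ℕ}
    (h0 : (A ⊔ Phi K p).index ≠ 0) (hr : (A ⊔ Phi K p).index ≤ p ^ r) :
    ∃ (m : ℕ) (x : Fin m → (dData hM).L), m ≤ r ∧
      ∀ s g (hg : g ∈ (dData hM).A (1, s)),
        (dData hM).el (1, s) g hg ∈ AddSubgroup.closure (XY hM A (Set.range x)) := by
  classical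
  have hMN : M N = Phi K p := le_antisymm (hN N le_rfl) (hPhi N)
  have hprod := prod_relIndex hM A N
  rw [hMN] at hprod
  have hnz : ∀ s, s < N → (A ⊔ M (s + 1)).relIndex (M s) ≠ 0 := by
    intro s hs h
    rw [Finset.prod_eq_zero (Finset.mem_range.2 hs) h] at hprod
    exact h0 hprod.symm
  have hB : ∀ s, Phi K p ≤ A ⊔ M (s + 1) := fun s => (hPhi _).trans le_sup_right
  have hBn : ∀ s, (A ⊔ M (s + 1)).Normal := fun s =>
    have := hM.normal (s + 1)
    inferInstance
  have hfam : ∀ s : Fin N, ∃ (n : ℕ) (g : Fin n → K), (∀ j, g j ∈ M s) ∧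
      p ^ n = (A ⊔ M ((s : ℕ) + 1)).relIndex (M s) ∧
      ∀ x ∈ M s, ∃ y ∈ Subgroup.closure (Set.range g), y⁻¹ * x ∈ A ⊔ M ((s : ℕ) + 1) := fun s =>
    have := hBn s
    exists_family hp (M s) (A ⊔ M ((s : ℕ) + 1)) (hB s) (hnz s s.2)
  choose n g hgM hgn hgx using hfam
  have hsum : ∑ s, n s ≤ r := by
    rw [← Nat.pow_le_pow_iff_right hp.one_lt, ← Finset.prod_pow_eq_pow_sum]
    have h1 : ∏ s : Fin N, p ^ n s = ∏ s ∈ Finset.range N, (A ⊔ M (s + 1)).relIndex (M s) := by
      rw [Finset.prod_range]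
      exact Finset.prod_congr rfl fun s _ => hgn s
    rw [h1, hprod]
    exact hr
  let J := Σ s : Fin N, Fin (n s)
  have hJ : Fintype.card J = ∑ s, n s := by simp [J]
  let e := Fintype.equivFin J
  let x' : J → (dData hM).L := fun j =>
    (dData hM).el (1, (j.1 : ℕ)) (g j.1 j.2) (hgM j.1 j.2)
  refine ⟨Fintype.card J, fun i => x' (e.symm i), by rw [hJ]; exact hsum, ?_⟩
  have hX : ∀ j : J, x' j ∈ Set.range fun i => x' (e.symm i) := fun j => ⟨e j, by simp⟩
  intro s k hk
  by_cases hs : s < N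
  · obtain ⟨y, hy, hyk⟩ := hgx ⟨s, hs⟩ k hk
    have hy' : y ∈ clsIn (dData hM) (1, s)
        (AddSubgroup.closure (XY hM A (Set.range fun i => x' (e.symm i)))) := by
      have h1 : Subgroup.closure (Set.range (g ⟨s, hs⟩)) ≤ clsIn (dData hM) (1, s)
        (AddSubgroup.closure (XY hM A (Set.range fun i => x' (e.symm i)))) := by
        rw [Subgroup.closure_le]
        rintro _ ⟨j, rfl⟩
        exact ⟨hgM ⟨s, hs⟩ j, AddSubgroup.subset_closure
          ⟨s, g ⟨s, hs⟩ j, hgM ⟨s, hs⟩ j, rfl, Or.inr (hX ⟨⟨s, hs⟩, j⟩)⟩⟩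
      exact h1 hy
    obtain ⟨hyM, hyP⟩ := hy'
    have hMn := hM.normal (s + 1)
    have hyk' : y⁻¹ * k ∈ A ⊔ M (s + 1) := hyk
    rw [Subgroup.mem_sup_of_normal_right] at hyk'
    obtain ⟨a, ha, m, hm, hamk⟩ := hyk'
    have hmM : m ∈ M s := hM.anti s hm
    have hyMs : y ∈ M s := hyM
    have hkMs : k ∈ M s := hk
    have haM : a ∈ M s := by
      have : a = y⁻¹ * k * m⁻¹ := by rw [← hamk]; group
      rw [this]
      exact mul_mem (mul_mem (inv_mem hyMs) hkMs) (inv_mem hmM)
    have hk2 : k = y * (a * m) := by rw [hamk]; group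
    have h1 : (dData hM).el (1, s) k hk = (dData hM).el (1, s) y hyM +
        ((dData hM).el (1, s) a haM + (dData hM).el (1, s) m hmM) := by
      rw [← (dData hM).el_mul haM hmM, ← (dData hM).el_mul hyM (mul_mem haM hmM)]
      exact (dData hM).el_congr rfl hk2 _ _
    have h2 : (dData hM).el (1, s) m hmM = 0 := by
      rw [GrData.el_eq_zero]
      exact hm
    rw [h1, h2, add_zero]
    refine add_mem hyP (AddSubgroup.subset_closure ⟨s, a, haM, rfl, Or.inl ha⟩)
  · have h0 : (dData hM).el (1, s) k hk = 0 := by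
      rw [GrData.el_eq_zero]
      exact hPhi (s + 1) (hN s (not_lt.1 hs) hk)
    rw [h0]
    exact zero_mem _

end count

/-- **Core theorem.** Let `K` be a finitely generated Ω-group in `𝔙_W` with `K ⋊ Ω` locally
nilpotent and let `A` be a normal subgroup of `K`, nilpotent of class at most `c0` or soluble of
derived length at most `ℓ` with `solBound q ℓ ≤ c0`. If for every
prime `p` we have `|K / A K^p K'| ≤ p ^ r` and the left-normed brackets of length `c + 1` in `R`
elements vanish in all Lie rings satisfying `U`, where `r + c0 ≤ R`, then `K` has class at most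
`c`. -/
theorem coreA.{u} {Ω : Type*} [Group Ω] {K : Type u} [Group K] [MulDistribMulAction Ω K]
    {W : Set (FreeGroup (ℕ × Ω))} (hW : InVO W K) {U : Set MultId}
    (hU : ∀ u ∈ U, Generic (proj Ω '' W) u)
    (hLN : LocNilp (K ⋊[MulDistribMulAction.toMulAut Ω K] Ω))
    {n : ℕ} (k : Fin n → K) (hk : Subgroup.closure (Set.range k) = ⊤)
    {q : ℕ} (hC : ∀ p : ℕ, p.Prime → ∃ u ∈ U, u.n ≤ q ∧ ∃ j, ¬ (p : ℤ) ∣ u.coef j)
    (A : Subgroup K) [A.Normal] {c0 : ℕ} (hA : NilSol q A c0) (c : ℕ)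
    (hr : ∀ p : ℕ, p.Prime → ∃ r R, (A ⊔ Phi K p).index ≤ p ^ r ∧ r + c0 ≤ R ∧
      VanishAt.{u} U R c) :
    (⊤ : Subgroup K).lowerCentralSeries c = ⊥ := by
  classical
  have hnil : Group.IsNilpotent K := by
    have h1 := hLN ((Finset.univ.image fun i => SemidirectProduct.inl (k i)) :
      Finset (K ⋊[MulDistribMulAction.toMulAut Ω K] Ω))
    let φ : K →* K ⋊[MulDistribMulAction.toMulAut Ω K] Ω := SemidirectProduct.inl
    have h2 : ∀ x : K, φ x ∈ Subgroup.closure
        (((Finset.univ.image fun i => SemidirectProduct.inl (k i)) :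
          Finset (K ⋊[MulDistribMulAction.toMulAut Ω K] Ω)) : Set _) := by
      intro x
      have h3 : (⊤ : Subgroup K) ≤ (Subgroup.closure
        (((Finset.univ.image fun i => SemidirectProduct.inl (k i)) :
          Finset (K ⋊[MulDistribMulAction.toMulAut Ω K] Ω)) : Set _)).comap φ := by
        rw [← hk, Subgroup.closure_le]
        rintro _ ⟨i, rfl⟩
        exact Subgroup.subset_closure (by simp [φ])
      exact h3 (Subgroup.mem_top x)
    obtain ⟨m, hm⟩ := (Subgroup.isNilpotent_iff_lowerCentralSeries _).1 h1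
    refine Subgroup.nilpotent_iff_lowerCentralSeries.2 ⟨m, ?_⟩
    refine lcs_eq_bot_of_injective φ SemidirectProduct.inl_injective ?_ hm
    rintro _ ⟨x, _, rfl⟩
    exact h2 x
  refine lcs_eq_bot_of_le hnil (lcs_le_of_ZZ k hk c ?_)
  intro p hp
  obtain ⟨r, R, hr1, hr2, hvan⟩ := hr p hp
  -- finiteness of `K / Φ_p(K)`
  have hfin : Finite (K ⧸ Phi K p) := by
    refine (card_quot_le' p hp (Phi K p) le_rfl k ?_).1
    intro g
    rw [hk]
    exact Subgroup.mem_sup_left (Subgroup.mem_top g)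
  have hind : (Phi K p).index ≠ 0 := by
    have : (Phi K p).index = Nat.card (K ⧸ Phi K p) := rfl
    rw [this]
    exact Nat.card_pos.ne'
  have hind' : (A ⊔ Phi K p).index ≠ 0 := by
    intro h
    have h1 := Subgroup.index_dvd_of_le (le_sup_right : Phi K p ≤ A ⊔ Phi K p)
    rw [h, zero_dvd_iff] at h1
    exact hind h1
  obtain ⟨N, hN⟩ := exists_Mch_le k hk hLN p hfin
  have hM := isChn_Mch Ω K p
  have hO := isOpChn_Mch Ω K p
  have hL := sat_dData hM hO hW hU
  obtain ⟨m, x, hm, hspan⟩ := exists_XY hM hp (Phi_le_Mch Ω K p) hN A hind' hr1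
  have hzero := el_eq_zero_of_XY hM A (Set.range x) c hspan
    (fun z hz => lComm_XY_eq_zero hM hL hvan hC A hA (J := Fin m)
      (by rw [Fintype.card_fin]; omega) x z hz)
  have hstep : ∀ s, E (Mch Ω K p) c s ≤ E (Mch Ω K p) c (s + 1) := by
    intro s g hg
    have h1 := hzero s g hg
    rw [GrData.el_eq_zero] at h1
    exact h1
  have hall : ∀ s, E (Mch Ω K p) c 0 ≤ E (Mch Ω K p) c s := by
    intro s
    induction s with
    | zero => exact le_rfl
    | succ s ih => exact ih.trans (hstep s)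
  rw [← hM.E_zero_right c]
  exact (hall ((c + 1) * N)).trans (E_le_ZZ hM hN c _ le_rfl)

end Pool.Agent.Work.MP_369e59_al
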