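import Mathlib

/-!
# Cube groups

For a family `A` of subgroups of a group `K`, indexed by finite sets of natural numbers, we
consider the cubes `k : Finset ℕ → K` (only the vertices `S ⊆ {0, ..., m-1}` matter) which are
products of face elements with values in the `A T`.
-/

namespace Pool.Agent.Work.MP_369e59_al

open scoped commutatorElement

variable {K : Type*} [Group K]

/-- `⁅A T, B T'⁆ ≤ C (T ∪ T')` for all `T`, `T'`. -/
def Cross (A B C : Finset ℕ → Subgroup K) : Prop :=
  ∀ T T' : Finset ℕ, ⁅A T, B T'⁆ ≤ C (T ∪ T')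

/-- the family `T ↦ A (T ∪ {m})`. -/
def sh (m : ℕ) (A : Finset ℕ → Subgroup K) : Finset ℕ → Subgroup K := fun T => A (insert m T)

/-- the derivative of a cube in direction `m`. -/
def dl (m : ℕ) (k : Finset ℕ → K) : Finset ℕ → K := fun S => (k S)⁻¹ * k (insert m S)

/-- the cube predicate. -/
def InC : ℕ → (Finset ℕ → Subgroup K) → (Finset ℕ → K) → Prop
  | 0, A, k => k ∅ ∈ A ∅
  | m + 1, A, k => InC m A k ∧ InC m (sh m A) (dl m k)

theorem Cross.comm {A B C : Finset ℕ → Subgroup K} (h : Cross A B C) : Cross B A C := by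
  intro T T'
  rw [Subgroup.commutator_comm, Finset.union_comm]
  exact h T' T

theorem Cross.sh_left {A B C : Finset ℕ → Subgroup K} (h : Cross A B C) (m : ℕ) :
    Cross (sh m A) B (sh m C) := by
  intro T T'
  have := h (insert m T) T'
  rwa [Finset.insert_union] at this

theorem Cross.sh_right {A B C : Finset ℕ → Subgroup K} (h : Cross A B C) (m : ℕ) :
    Cross A (sh m B) (sh m C) := (h.comm.sh_left m).comm

theorem Cross.sh_both {A B C : Finset ℕ → Subgroup K} (h : Cross A B C) (m : ℕ) :
    Cross (sh m A) (sh m B) (sh m C) := by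
  intro T T'
  have := h (insert m T) (insert m T')
  rwa [Finset.insert_union, Finset.union_insert, Finset.insert_idem] at this

theorem InC.one : ∀ (m : ℕ) (A : Finset ℕ → Subgroup K), InC m A 1
  | 0, A => (A ∅).one_mem
  | m + 1, A => by
    refine ⟨InC.one m A, ?_⟩
    have : dl m (1 : Finset ℕ → K) = 1 := by
      funext S; simp [dl]
    rw [this]
    exact InC.one m _

theorem dl_mul (m : ℕ) (k l : Finset ℕ → K) :
    dl m (k * l) = (l⁻¹ * dl m k * l) * dl m l := by
  funext S
  simp only [dl, Pi.mul_apply, Pi.inv_apply]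
  group

theorem dl_inv (m : ℕ) (k : Finset ℕ → K) :
    dl m k⁻¹ = k * (dl m k)⁻¹ * k⁻¹ := by
  funext S
  simp only [dl, Pi.mul_apply, Pi.inv_apply]
  group

theorem dl_comm (m : ℕ) (k l : Finset ℕ → K) :
    dl m ⁅k, l⁆ = (⁅k, l⁆⁻¹ * ((k * ⁅dl m k, l⁆ * k⁻¹) * (k * (l * ⁅dl m k, dl m l⁆ * l⁻¹) * k⁻¹))
      * ⁅k, l⁆) * (l * ⁅k, dl m l⁆ * l⁻¹) := by
  funext S
  simp only [dl, Pi.mul_apply, Pi.inv_apply, commutatorElement_def]
  group

/-- The three closure properties, proved together by induction on the dimension. -/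
theorem InC.closure_props (m : ℕ) :
    (∀ A : Finset ℕ → Subgroup K, Cross A A A → ∀ k l, InC m A k → InC m A l → InC m A (k * l)) ∧
    (∀ A : Finset ℕ → Subgroup K, Cross A A A → ∀ k, InC m A k → InC m A k⁻¹) ∧
    (∀ A B C : Finset ℕ → Subgroup K, Cross A B C → Cross C C C → Cross C A C → Cross C B C →
      ∀ k l, InC m A k → InC m B l → InC m C ⁅k, l⁆) := by
  induction m with
  | zero =>
    refine ⟨?_, ?_, ?_⟩
    · intro A _ k l hk hl
      exact (A ∅).mul_mem hk hl
    · intro A _ k hk
      exact (A ∅).inv_mem hk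
    · intro A B C h _ _ _ k l hk hl
      exact h ∅ ∅ (Subgroup.commutator_mem_commutator hk hl)
  | succ m ih =>
    obtain ⟨ihm, ihi, ihc⟩ := ih
    -- conjugation
    have conj : ∀ A D : Finset ℕ → Subgroup K, Cross D A D → Cross D D D →
        ∀ k x, InC m A k → InC m D x → InC m D (k * x * k⁻¹) := by
      intro A D h1 h2 k x hk hx
      have h3 := ihc A D D h1.comm h2 h1 h2 k x hk hx
      have h4 := ihm D h2 _ _ h3 hx
      have : ⁅k, x⁆ * x = k * x * k⁻¹ := by rw [commutatorElement_def]; group
      rwa [this] at h4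
    have conj' : ∀ A D : Finset ℕ → Subgroup K, Cross A A A → Cross D A D → Cross D D D →
        ∀ k x, InC m A k → InC m D x → InC m D (k⁻¹ * x * k) := by
      intro A D h0 h1 h2 k x hk hx
      have := conj A D h1 h2 k⁻¹ x (ihi A h0 k hk) hx
      rwa [inv_inv] at this
    refine ⟨?_, ?_, ?_⟩
    · rintro A hA k l ⟨hk, hk'⟩ ⟨hl, hl'⟩
      refine ⟨ihm A hA k l hk hl, ?_⟩
      rw [dl_mul]
      refine ihm _ (hA.sh_both m) _ _ ?_ hl'
      exact conj' A _ hA (hA.sh_left m) (hA.sh_both m) l _ hl hk'
    · rintro A hA k ⟨hk, hk'⟩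
      refine ⟨ihi A hA k hk, ?_⟩
      rw [dl_inv]
      exact conj A _ (hA.sh_left m) (hA.sh_both m) k _ hk (ihi _ (hA.sh_both m) _ hk')
    · rintro A B C h hC hCA hCB k l ⟨hk, hk'⟩ ⟨hl, hl'⟩
      have hkl := ihc A B C h hC hCA hCB k l hk hl
      refine ⟨hkl, ?_⟩
      rw [dl_comm]
      have hD := hC.sh_both m
      have hDA := hCA.sh_left m
      have hDB := hCB.sh_left m
      have hDA' := hCA.sh_both m
      have hDB' := hCB.sh_both m
      have e1 : InC m (sh m C) ⁅dl m k, l⁆ := ihc (sh m A) B (sh m C) (h.sh_left m) hD hDA' hDB _ _ hk' hl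
      have e2 : InC m (sh m C) ⁅dl m k, dl m l⁆ :=
        ihc (sh m A) (sh m B) (sh m C) (h.sh_both m) hD hDA' hDB' _ _ hk' hl'
      have e3 : InC m (sh m C) ⁅k, dl m l⁆ :=
        ihc A (sh m B) (sh m C) (h.sh_right m) hD hDA hDB' _ _ hk hl'
      refine ihm _ hD _ _ ?_ (conj B _ hDB hD l _ hl e3)
      refine conj' C _ hC (hC.sh_left m) hD _ _ hkl ?_
      refine ihm _ hD _ _ (conj A _ hDA hD k _ hk e1) ?_
      exact conj A _ hDA hD k _ hk (conj B _ hDB hD l _ hl e2)

/-- The cube group of a closed family. -/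
def CG (m : ℕ) (A : Finset ℕ → Subgroup K) (hA : Cross A A A) : Subgroup (Finset ℕ → K) where
  carrier := {k | InC m A k}
  mul_mem' := fun {a b} ha hb => (InC.closure_props m).1 A hA a b ha hb
  one_mem' := InC.one m A
  inv_mem' := fun {a} ha => (InC.closure_props m).2.1 A hA a ha

theorem mem_CG {m : ℕ} {A : Finset ℕ → Subgroup K} {hA : Cross A A A} {k : Finset ℕ → K} :
    k ∈ CG m A hA ↔ InC m A k := Iff.rfl

/-- The cube predicate only looks at the vertices `S ⊆ {0, ..., m-1}` and is monotone in the
family on these sets. -/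
theorem InC.mono : ∀ (m : ℕ) (A B : Finset ℕ → Subgroup K) (k l : Finset ℕ → K),
    (∀ T ⊆ Finset.range m, A T ≤ B T) → (∀ S ⊆ Finset.range m, k S = l S) →
    InC m A k → InC m B l
  | 0, A, B, k, l, hAB, hkl, h => by
    have h1 := hAB ∅ (by simp)
    have h2 := hkl ∅ (by simp)
    change l ∅ ∈ B ∅
    rw [← h2]
    exact h1 h
  | m + 1, A, B, k, l, hAB, hkl, h => by
    have sub1 : ∀ T ⊆ Finset.range m, T ⊆ Finset.range (m + 1) := fun T hT =>
      hT.trans (Finset.range_subset_range.2 (Nat.le_succ m))
    have sub2 : ∀ T ⊆ Finset.range m, insert m T ⊆ Finset.range (m + 1) := fun T hT => by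
      rw [Finset.range_add_one]
      exact Finset.insert_subset_insert m hT
    refine ⟨InC.mono m A B k l (fun T hT => hAB T (sub1 T hT)) (fun S hS => hkl S (sub1 S hS)) h.1,
      InC.mono m _ _ _ _ (fun T hT => hAB _ (sub2 T hT)) (fun S hS => ?_) h.2⟩
    simp only [dl]
    rw [hkl S (sub1 S hS), hkl _ (sub2 S hS)]

theorem InC.const (m : ℕ) (A : Finset ℕ → Subgroup K) (g : K) (hg : g ∈ A ∅) :
    InC m A (fun _ => g) := by
  induction m with
  | zero => exact hg
  | succ m ih =>
    refine ⟨ih, ?_⟩
    have : dl m (fun _ : Finset ℕ => g) = 1 := by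
      funext S; simp [dl]
    rw [this]
    exact InC.one m _

/-- The face element in direction `j` with value `g`. -/
def face (j : ℕ) (g : K) : Finset ℕ → K := fun S => if j ∈ S then g else 1

theorem InC.face : ∀ (m : ℕ) (A : Finset ℕ → Subgroup K) (j : ℕ) (g : K), j < m → g ∈ A {j} →
    InC m A (face j g)
  | 0, _, _, _, hj, _ => absurd hj (Nat.not_lt_zero _)
  | m + 1, A, j, g, hj, hg => by
    rcases Nat.lt_succ_iff_lt_or_eq.1 hj with hj | rfl
    · refine ⟨InC.face m A j g hj hg, ?_⟩
      have : dl m (MP_369e59_al.face j g) = 1 := by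
        funext S
        have hne : j ≠ m := hj.ne
        by_cases h : j ∈ S <;> simp [dl, MP_369e59_al.face, hne, h]
      rw [this]
      exact InC.one m _
    · refine ⟨?_, ?_⟩
      · refine InC.mono j A A 1 _ (fun _ _ => le_rfl) (fun S hS => ?_) (InC.one j A)
        have : j ∉ S := fun h => by simpa using hS h
        simp [MP_369e59_al.face, this]
      · refine InC.mono j _ _ (fun _ => g) _ (fun _ _ => le_rfl) (fun S hS => ?_)
          (InC.const j (sh j A) g (by simpa [sh] using hg))
        have : j ∉ S := fun h => by simpa using hS h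
        simp [MP_369e59_al.face, dl, this]

/-- A cube which is trivial at all vertices but the top one has its top value in the smallest
group. -/
theorem InC.top : ∀ (m : ℕ) (A : Finset ℕ → Subgroup K) (k : Finset ℕ → K),
    InC m A k → (∀ S ⊆ Finset.range m, S ≠ Finset.range m → k S = 1) →
    k (Finset.range m) ∈ A (Finset.range m)
  | 0, _, _, h, _ => h
  | m + 1, A, k, h, hk => by
    have key := InC.top m (sh m A) (dl m k) h.2 (fun S hS hne => ?_)
    · have h1 : k (Finset.range m) = 1 := by
        refine hk _ (Finset.range_subset_range.2 (Nat.le_succ m)) ?_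
        intro h2
        have := congrArg Finset.card h2
        simp at this
      have h2 : dl m k (Finset.range m) = k (Finset.range (m + 1)) := by
        simp only [dl]
        rw [h1, ← Finset.range_add_one]
        simp
      rw [h2] at key
      simp only [sh] at key
      rwa [← Finset.range_add_one] at key
    · have h1 : k S = 1 := by
        refine hk S (hS.trans (Finset.range_subset_range.2 (Nat.le_succ m))) ?_
        intro h2
        have h3 : m ∈ S := by rw [h2]; simp
        have := hS h3
        simp at this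
      have h2 : k (insert m S) = 1 := by
        refine hk _ ?_ ?_
        · rw [Finset.range_add_one]
          exact Finset.insert_subset_insert m hS
        · intro h2
          apply hne
          have hmS : m ∉ S := fun h3 => by simpa using hS h3
          rw [Finset.range_add_one] at h2
          have := congrArg (fun X => Finset.erase X m) h2
          simpa [Finset.erase_insert hmS] using this
      simp [dl, h1, h2]

end Pool.Agent.Work.MP_369e59_al
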