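import Pool.Agent.Work.MP_369e59_al.Basics

/-!
# The two-parameter filtration

Let `M 0 = K ≥ M 1 ≥ ...` be a chain of subgroups containing the derived subgroup such that
`x⁻¹ * (ω • x) ∈ M (a + 1)` for `x ∈ M a`. We put `E M 0 s = M s` and let `E M (w + 1) s` be
generated by the commutators of `E M w a` and `M b`, `a + b = s`.
-/

namespace Pool.Agent.Work.MP_369e59_al

open scoped commutatorElement

variable {K : Type*} [Group K]

/-- A chain of subgroups above the derived subgroup. -/
structure IsChn (M : ℕ → Subgroup K) : Prop where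
  zero : M 0 = ⊤
  anti : ∀ a, M (a + 1) ≤ M a
  comm_le : ∀ a, ⁅(⊤ : Subgroup K), ⊤⁆ ≤ M a

theorem normal_of_comm_le {N : Subgroup K} (h : ⁅(⊤ : Subgroup K), ⊤⁆ ≤ N) : N.Normal where
  conj_mem n hn g := by
    have e : g * n * g⁻¹ = ⁅g, n⁆ * n := by simp only [commutatorElement_def]; group
    rw [e]
    exact mul_mem (h (Subgroup.commutator_mem_commutator (Subgroup.mem_top _)
      (Subgroup.mem_top _))) hn

/-- The left-normed filtration defined by a chain. -/
def E (M : ℕ → Subgroup K) : ℕ → ℕ → Subgroup K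
  | 0, s => M s
  | w + 1, s => ⨆ x : {x : ℕ × ℕ // x.1 + x.2 = s}, ⁅E M w x.1.1, M x.1.2⁆

theorem E_zero (M : ℕ → Subgroup K) (s : ℕ) : E M 0 s = M s := rfl

theorem E_succ (M : ℕ → Subgroup K) (w s : ℕ) :
    E M (w + 1) s = ⨆ x : {x : ℕ × ℕ // x.1 + x.2 = s}, ⁅E M w x.1.1, M x.1.2⁆ := rfl

theorem le_E_succ (M : ℕ → Subgroup K) (w a b : ℕ) : ⁅E M w a, M b⁆ ≤ E M (w + 1) (a + b) := by
  rw [E_succ]
  exact le_iSup (fun x : {x : ℕ × ℕ // x.1 + x.2 = a + b} => ⁅E M w x.1.1, M x.1.2⁆)
    ⟨(a, b), rfl⟩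

namespace IsChn

variable {M : ℕ → Subgroup K} (hM : IsChn M)

include hM

theorem normal (a : ℕ) : (M a).Normal := normal_of_comm_le (hM.comm_le a)

theorem E_normal (w s : ℕ) : (E M w s).Normal := by
  induction w generalizing s with
  | zero => exact hM.normal s
  | succ w ih =>
    rw [E_succ]
    have : ∀ x : {x : ℕ × ℕ // x.1 + x.2 = s}, (⁅E M w x.1.1, M x.1.2⁆).Normal := by
      intro x
      have h1 := ih x.1.1
      have h2 := hM.normal x.1.2
      infer_instance
    infer_instance

theorem E_anti (w s : ℕ) : E M w (s + 1) ≤ E M w s := by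
  induction w generalizing s with
  | zero => exact hM.anti s
  | succ w ih =>
    conv_lhs => rw [E_succ]
    refine iSup_le ?_
    rintro ⟨⟨a, b⟩, hab⟩
    change a + b = s + 1 at hab
    change ⁅E M w a, M b⁆ ≤ _
    rcases a with _ | a
    · obtain rfl : b = s + 1 := by omega
      have h1 := (Subgroup.commutator_mono (le_refl (E M w 0)) (hM.anti s)).trans (le_E_succ M w 0 s)
      rwa [zero_add] at h1
    · have h1 := (Subgroup.commutator_mono (ih a) (le_refl (M b))).trans (le_E_succ M w a b)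
      have h2 : a + b = s := by omega
      rwa [h2] at h1

theorem E_antitone (w : ℕ) : Antitone (E M w) := antitone_nat_of_succ_le (hM.E_anti w)

theorem E_zero_right (w : ℕ) : E M w 0 = (⊤ : Subgroup K).lowerCentralSeries w := by
  induction w with
  | zero => exact hM.zero
  | succ w ih =>
    rw [Subgroup.lowerCentralSeries_succ, ← ih]
    apply le_antisymm
    · rw [E_succ]
      refine iSup_le ?_
      rintro ⟨⟨a, b⟩, hab⟩
      change a + b = 0 at hab
      obtain ⟨rfl, rfl⟩ : a = 0 ∧ b = 0 := by omega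
      exact Subgroup.commutator_mono le_rfl le_top
    · have := le_E_succ M w 0 0
      rwa [hM.zero] at this

theorem E_le_lcs (w s : ℕ) : E M w s ≤ (⊤ : Subgroup K).lowerCentralSeries w := by
  rw [← hM.E_zero_right w]
  exact hM.E_antitone w (Nat.zero_le s)

theorem lcs_le_E (w s : ℕ) : (⊤ : Subgroup K).lowerCentralSeries (w + 1) ≤ E M w s := by
  induction w with
  | zero => exact hM.comm_le s
  | succ w ih =>
    rw [Subgroup.lowerCentralSeries_succ]
    have h := (Subgroup.commutator_mono ih (le_refl (⊤ : Subgroup K)))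
    rw [← hM.zero] at h
    have h2 := h.trans (le_E_succ M w s 0)
    rw [hM.zero] at h2
    exact h2

theorem E_weight_le (w s t : ℕ) : E M (w + 1) s ≤ E M w t :=
  (hM.E_le_lcs (w + 1) s).trans (hM.lcs_le_E w t)

theorem E_comm (w w' s s' : ℕ) : ⁅E M w s, E M w' s'⁆ ≤ E M (w + w' + 1) (s + s') := by
  induction w' generalizing w s s' with
  | zero => exact le_E_succ M w s s'
  | succ w' ih =>
    conv_lhs => rw [E_succ]
    have hN := hM.E_normal (w + (w' + 1) + 1) (s + s')
    refine comm_iSup_le ?_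
    rintro ⟨⟨a, b⟩, hab⟩
    change a + b = s' at hab
    change ⁅E M w s, ⁅E M w' a, M b⁆⁆ ≤ _
    refine three_subgroups ?_ ?_
    · have h1 := (Subgroup.commutator_mono (ih w s a) (le_refl (M b))).trans
        (le_E_succ M (w + w' + 1) (s + a) b)
      have h2 : s + a + b = s + s' := by omega
      rw [h2] at h1
      exact h1
    · have h1 := (Subgroup.commutator_mono (le_E_succ M w s b) (le_refl (E M w' a))).trans
        (ih (w + 1) (s + b) a)
      have h2 : s + b + a = s + s' := by omega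
      have h3 : w + 1 + w' + 1 = w + (w' + 1) + 1 := by omega
      rw [h2, h3] at h1
      exact h1

end IsChn

/-- The filtration indexed by the weight, with the whole group in weight zero. -/
def DD (M : ℕ → Subgroup K) : ℕ → ℕ → Subgroup K
  | 0, _ => ⊤
  | w + 1, s => E M w s

namespace IsChn

variable {M : ℕ → Subgroup K} (hM : IsChn M)

include hM

theorem DD_normal (w s : ℕ) : (DD M w s).Normal := by
  cases w with
  | zero => exact (inferInstance : (⊤ : Subgroup K).Normal)
  | succ w => exact hM.E_normal w s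

theorem DD_mono {w w' s s' : ℕ} (h : w' < w ∨ (w' ≤ w ∧ s' ≤ s)) : DD M w s ≤ DD M w' s' := by
  rcases w' with _ | w'
  · exact le_top
  rcases w with _ | w
  · omega
  change E M w s ≤ E M w' s'
  have key : ∀ k s s', E M (w' + k + 1) s ≤ E M w' s' := by
    intro k
    induction k with
    | zero => intro s s'; exact hM.E_weight_le w' s s'
    | succ k ih => intro s s'; exact (hM.E_weight_le (w' + k + 1) s 0).trans (ih 0 s')
  rcases Nat.lt_or_ge w' w with h1 | h1
  · obtain ⟨k, rfl⟩ := Nat.exists_eq_add_of_lt h1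
    exact key k s s'
  · obtain rfl : w = w' := by omega
    exact hM.E_antitone w (by omega)

theorem DD_comm {w w' s s' : ℕ} (hw : 0 < w) (hw' : 0 < w') :
    ⁅DD M w s, DD M w' s'⁆ ≤ DD M (w + w') (s + s') := by
  obtain ⟨w, rfl⟩ := Nat.exists_eq_succ_of_ne_zero hw.ne'
  obtain ⟨w', rfl⟩ := Nat.exists_eq_succ_of_ne_zero hw'.ne'
  have := hM.E_comm w w' s s'
  have e : w.succ + w'.succ = (w + w' + 1) + 1 := by omega
  rw [e]
  exact this

theorem DD_comm_top (w s t : ℕ) (hw : 0 < w) : ⁅DD M w s, (⊤ : Subgroup K)⁆ ≤ DD M w t := by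
  have h : (⊤ : Subgroup K) = DD M 1 0 := by
    change ⊤ = M 0
    rw [hM.zero]
  conv_lhs => rw [h]
  exact (hM.DD_comm hw Nat.one_pos).trans (hM.DD_mono (Or.inl (Nat.lt_succ_self w)))

end IsChn

/-- The operators act on the chain by shifting it. -/
def IsOpChn (Ω : Type*) [Group Ω] [MulDistribMulAction Ω K] (M : ℕ → Subgroup K) : Prop :=
  ∀ a, ∀ x ∈ M a, ∀ ω : Ω, x⁻¹ * (ω • x) ∈ M (a + 1)

theorem isOpChn_E {Ω : Type*} [Group Ω] [MulDistribMulAction Ω K] {M : ℕ → Subgroup K}
    (hM : IsChn M) (hO : IsOpChn Ω M) (w : ℕ) : IsOpChn Ω (E M w) := by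
  induction w with
  | zero => exact hO
  | succ w ih =>
    intro s
    have hN := hM.E_normal (w + 1) (s + 1)
    suffices h : E M (w + 1) s ≤ fixMod Ω (E M (w + 1) (s + 1)) from fun x hx => h hx
    rw [E_succ]
    refine iSup_le ?_
    rintro ⟨⟨a, b⟩, hab⟩
    change a + b = s at hab
    change ⁅E M w a, M b⁆ ≤ _
    rw [Subgroup.commutator_le]
    intro x hx y hy ω
    have h1 := ih a x hx ω
    have h2 := hO b y hy ω
    have e1 : ω • x = x * (x⁻¹ * ω • x) := by group
    have e2 : ω • y = y * (y⁻¹ * ω • y) := by group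
    have hy' : y * (y⁻¹ * ω • y) ∈ M b := mul_mem hy (hM.anti b h2)
    have e3 : ω • ⁅x, y⁆ = ⁅ω • x, ω • y⁆ := by
      simp only [commutatorElement_def, smul_mul', smul_inv']
    rw [e3, e1, e2]
    refine comm_change ?_ ?_
    · have := le_E_succ M w (a + 1) b (Subgroup.commutator_mem_commutator h1 hy')
      have e : a + 1 + b = s + 1 := by omega
      rwa [e] at this
    · have := le_E_succ M w a (b + 1) (Subgroup.commutator_mem_commutator hx h2)
      have e : a + (b + 1) = s + 1 := by omega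
      rwa [e] at this

theorem isOpChn_DD {Ω : Type*} [Group Ω] [MulDistribMulAction Ω K] {M : ℕ → Subgroup K}
    (hM : IsChn M) (hO : IsOpChn Ω M) (w : ℕ) : IsOpChn Ω (DD M w) := by
  cases w with
  | zero => intro a x _ ω; exact Subgroup.mem_top _
  | succ w => exact isOpChn_E hM hO w

/-- The graded data of the two-parameter filtration. -/
def dData {M : ℕ → Subgroup K} (hM : IsChn M) : GrData (ℕ+ × ℕ) K where
  A i := DD M i.1 i.2
  B i := DD M i.1 (i.2 + 1)
  A_normal i := hM.DD_normal _ _
  B_normal i := hM.DD_normal _ _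
  B_le i := hM.DD_mono (Or.inr ⟨le_rfl, Nat.le_succ _⟩)
  comm_A i j := hM.DD_comm i.1.pos j.1.pos
  comm_B i j := by
    have := hM.DD_comm (s := i.2 + 1) (s' := j.2) i.1.pos j.1.pos
    refine this.trans ?_
    have e : i.2 + 1 + j.2 = i.2 + j.2 + 1 := by omega
    rw [e]
    exact le_rfl
  add_le i j := by
    refine hM.DD_mono (Or.inl ?_)
    have := j.1.pos
    change (i.1 : ℕ) < (i.1 + j.1 : ℕ+)
    rw [PNat.add_coe]
    omega

/-- The lower central series as a chain. -/
theorem isChn_const_top : IsChn (fun _ : ℕ => (⊤ : Subgroup K)) := ⟨rfl, fun _ => le_rfl, fun _ => le_top⟩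

theorem lcs_comm (m n : ℕ) : ⁅(⊤ : Subgroup K).lowerCentralSeries m,
    (⊤ : Subgroup K).lowerCentralSeries n⁆ ≤ (⊤ : Subgroup K).lowerCentralSeries (m + n + 1) := by
  have h := (isChn_const_top (K := K)).E_comm m n 0 0
  rwa [isChn_const_top.E_zero_right, isChn_const_top.E_zero_right,
    isChn_const_top.E_zero_right] at h

theorem lcs_comm_A (H : Type*) [Group H] (i j : ℕ+) :
    ⁅(⊤ : Subgroup H).lowerCentralSeries i.natPred,
      (⊤ : Subgroup H).lowerCentralSeries j.natPred⁆ ≤
      (⊤ : Subgroup H).lowerCentralSeries (i + j).natPred := by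
  refine (lcs_comm _ _).trans (le_of_eq ?_)
  congr 1
  have := i.pos
  have := j.pos
  simp only [PNat.natPred, PNat.add_coe]
  omega

theorem lcs_comm_B (H : Type*) [Group H] (i j : ℕ+) :
    ⁅(⊤ : Subgroup H).lowerCentralSeries i,
      (⊤ : Subgroup H).lowerCentralSeries j.natPred⁆ ≤
      (⊤ : Subgroup H).lowerCentralSeries ((i + j : ℕ+) : ℕ) := by
  refine (lcs_comm _ _).trans (le_of_eq ?_)
  congr 1
  have := i.pos
  have := j.pos
  simp only [PNat.natPred, PNat.add_coe]
  omega

theorem lcs_B_le (H : Type*) [Group H] (i : ℕ+) :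
    (⊤ : Subgroup H).lowerCentralSeries i ≤ (⊤ : Subgroup H).lowerCentralSeries i.natPred :=
  Subgroup.lowerCentralSeries_antitone _ (by
    rw [PNat.natPred]; exact Nat.sub_le _ _)

theorem lcs_add_le (H : Type*) [Group H] (i j : ℕ+) :
    (⊤ : Subgroup H).lowerCentralSeries (i + j).natPred ≤
      (⊤ : Subgroup H).lowerCentralSeries i :=
  Subgroup.lowerCentralSeries_antitone _ (by
    have := i.pos
    have := j.pos
    simp only [PNat.natPred, PNat.add_coe]
    omega)

/-- The graded data of the associated Lie ring `L(H) = ⨁ γ_i(H) / γ_{i+1}(H)`. -/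
def lcsData (H : Type*) [Group H] : GrData ℕ+ H where
  A i := (⊤ : Subgroup H).lowerCentralSeries i.natPred
  B i := (⊤ : Subgroup H).lowerCentralSeries i
  A_normal i := Subgroup.lowerCentralSeries_normal _ _
  B_normal i := Subgroup.lowerCentralSeries_normal _ _
  B_le i := lcs_B_le H i
  comm_A i j := lcs_comm_A H i j
  comm_B i j := lcs_comm_B H i j
  add_le i j := lcs_add_le H i j

end Pool.Agent.Work.MP_369e59_al
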