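import Pool.Agent.Work.MP_369e59_al.Gen

/-!
# Factors of the lower central series of a finitely generated group
-/

namespace Pool.Agent.Work.MP_369e59_al

open scoped commutatorElement

/-! ### A finitely generated abelian group which is divisible by every prime is trivial -/

theorem subsingleton_of_divisible (A : Type*) [AddCommGroup A] [Module.Finite ℤ A]
    (h : ∀ p : ℕ, p.Prime → ∀ a : A, ∃ b : A, a = p • b) : Subsingleton A := by
  have h2 : (⊤ : Submodule ℤ A) ≤ (Ideal.span {(2 : ℤ)}) • (⊤ : Submodule ℤ A) := by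
    intro a _
    obtain ⟨b, hb⟩ := h 2 Nat.prime_two a
    have : a = (2 : ℤ) • b := by rw [hb]; norm_cast
    rw [this]
    exact Submodule.smul_mem_smul (Ideal.mem_span_singleton_self _) Submodule.mem_top
  obtain ⟨r, hr, hr0⟩ := Submodule.exists_sub_one_mem_and_smul_eq_zero_of_fg_of_le_smul
    (Ideal.span {(2 : ℤ)}) (⊤ : Submodule ℤ A) Module.Finite.fg_top h2
  have hr1 : r ≠ 0 := by
    rintro rfl
    rw [Ideal.mem_span_singleton] at hr
    omega
  have hdiv : ∀ n : ℕ, n ≠ 0 → ∀ a : A, ∃ b : A, a = n • b := by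
    intro n
    induction n using Nat.recOnMul with
    | zero => intro h; exact absurd rfl h
    | one => intro _ a; exact ⟨a, (one_smul _ _).symm⟩
    | prime p hp => intro _ a; exact h p hp a
    | mul m n hm hn =>
      intro hmn a
      obtain ⟨hm0, hn0⟩ := Nat.mul_ne_zero_iff.1 hmn
      obtain ⟨b, hb⟩ := hm hm0 a
      obtain ⟨c, hc⟩ := hn hn0 b
      exact ⟨c, by rw [hb, hc, mul_smul]⟩
  refine ⟨fun a b => ?_⟩
  have h0 : ∀ a : A, a = 0 := by
    intro a
    obtain ⟨b, hb⟩ := hdiv r.natAbs (Int.natAbs_ne_zero.2 hr1) a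
    have h3 : (r.natAbs : ℤ) • b = 0 := by
      rcases Int.natAbs_eq r with h4 | h4
      · rw [← h4]; exact hr0 b Submodule.mem_top
      · have h5 : (r.natAbs : ℤ) = -r := by omega
        rw [h5, neg_smul, hr0 b Submodule.mem_top, neg_zero]
    rw [hb, ← natCast_zsmul]
    exact h3
  rw [h0 a, h0 b]

section fg

variable {K : Type*} [Group K]

/-- Lie rings generated by classes of weight one: the weight `w + 1` classes are in the span of
a finite set. -/
theorem lcs_el_mem_of (P : ℕ → AddSubgroup (lcsData K).L)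
    (h0 : ∀ g (hg : g ∈ (lcsData K).A 1), (lcsData K).el 1 g hg ∈ P 0)
    (h1 : ∀ w g (hg : g ∈ (lcsData K).A 1), ∀ x ∈ P w,
      ⁅x, (lcsData K).el 1 g hg⁆ ∈ P (w + 1)) :
    ∀ w g (hg : g ∈ (lcsData K).A (Nat.succPNat w)),
      (lcsData K).el (Nat.succPNat w) g hg ∈ P w := by
  intro w
  induction w with
  | zero => exact h0
  | succ w ih =>
    intro g hg
    have h2 : ⁅(lcsData K).A (Nat.succPNat w), (lcsData K).A 1⁆ ≤
        clsIn (lcsData K) (Nat.succPNat w + 1) (P (w + 1)) :=
      clsIn_comm_le (lcsData K) (i := Nat.succPNat w) (j := 1) le_rfl le_rfl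
        (fun x hx y hy => h1 w y hy _ (ih x hx))
    have h3 : (Nat.succPNat w + 1 : ℕ+) = Nat.succPNat (w + 1) := PNat.coe_injective (by simp)
    rw [h3] at h2
    have h4 : g ∈ ⁅(lcsData K).A (Nat.succPNat w), (lcsData K).A 1⁆ := hg
    obtain ⟨_, h⟩ := h2 h4
    exact h

theorem finite_gr {n : ℕ} (k : Fin n → K) (hk : Subgroup.closure (Set.range k) = ⊤) (w : ℕ) :
    Module.Finite ℤ ((lcsData K).gr (Nat.succPNat w)) := by
  have hA : ∀ g : K, g ∈ (lcsData K).A 1 := fun g => Subgroup.mem_top _
  let T0 : Set (lcsData K).L := Set.range fun i => (lcsData K).el 1 (k i) (hA _)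
  let T : ℕ → Set (lcsData K).L := fun w => Nat.rec T0 (fun _ S => Set.image2 (fun x y => ⁅x, y⁆) S T0) w
  have hT0 : T0.Finite := Set.finite_range _
  have hTf : ∀ w, (T w).Finite := by
    intro w
    induction w with
    | zero => exact hT0
    | succ w ih => exact Set.Finite.image2 _ ih hT0
  have h0 : ∀ g (hg : g ∈ (lcsData K).A 1), (lcsData K).el 1 g hg ∈ AddSubgroup.closure T0 := by
    intro g hg
    have h1 : (⊤ : Subgroup K) ≤ clsIn (lcsData K) 1 (AddSubgroup.closure T0) := by
      rw [← hk, Subgroup.closure_le]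
      rintro _ ⟨i, rfl⟩
      exact ⟨hA _, AddSubgroup.subset_closure ⟨i, rfl⟩⟩
    obtain ⟨_, h⟩ := h1 (Subgroup.mem_top g)
    exact h
  have h1 : ∀ w g (hg : g ∈ (lcsData K).A 1), ∀ x ∈ AddSubgroup.closure (T w),
      ⁅x, (lcsData K).el 1 g hg⁆ ∈ AddSubgroup.closure (T (w + 1)) := by
    intro w g hg x hx
    have hy := h0 g hg
    generalize (lcsData K).el 1 g hg = y at hy
    induction hx using AddSubgroup.closure_induction with
    | zero => rw [zero_lie]; exact zero_mem _
    | neg x _ hx => rw [neg_lie]; exact neg_mem hx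
    | add x x' _ _ hx hx' => rw [add_lie]; exact add_mem hx hx'
    | mem x hx =>
      induction hy using AddSubgroup.closure_induction with
      | zero => rw [lie_zero]; exact zero_mem _
      | neg y _ hy => rw [lie_neg]; exact neg_mem hy
      | add y y' _ _ hy hy' => rw [lie_add]; exact add_mem hy hy'
      | mem y hy =>
        apply AddSubgroup.subset_closure
        exact Set.mem_image2_of_mem hx hy
  have key := lcs_el_mem_of (K := K) (fun w => AddSubgroup.closure (T w)) h0 h1 w
  have hN : IsNoetherian ℤ (Submodule.span ℤ (T w)) := isNoetherian_span_of_finite ℤ (hTf w)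
  let φ : (lcsData K).gr (Nat.succPNat w) →+ Submodule.span ℤ (T w) :=
    AddMonoidHom.codRestrict ((lcsData K).ofL (Nat.succPNat w)) (Submodule.span ℤ (T w))
      (fun x => by
        induction x using (lcsData K).cls_ind with
        | h g hg =>
          have h2 := key g hg
          have h3 : AddSubgroup.closure (T w) ≤ (Submodule.span ℤ (T w)).toAddSubgroup := by
            rw [AddSubgroup.closure_le]
            exact Submodule.subset_span
          exact h3 h2)
  have hφ : Function.Injective φ := by
    intro x y hxy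
    have h2 := congrArg Subtype.val hxy
    exact DirectSum.of_injective (β := (lcsData K).gr) (Nat.succPNat w) h2
  exact Module.Finite.of_injective φ.toIntLinearMap hφ

end fg

end Pool.Agent.Work.MP_369e59_al
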