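import Pool.Agent.Work.MP_369e59_al.SatL

/-!
# Generation of the graded Lie rings in degree one
-/

namespace Pool.Agent.Work.MP_369e59_al

open scoped commutatorElement

section clsIn

variable {ι : Type*} [AddCommSemigroup ι] [DecidableEq ι] {K : Type*} [Group K] (D : GrData ι K)

/-- The elements of `A i` whose class belongs to an additive subgroup of the Lie ring. -/
def clsIn (i : ι) (P : AddSubgroup D.L) : Subgroup K where
  carrier := {g | ∃ hg : g ∈ D.A i, D.el i g hg ∈ P}
  mul_mem' := by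
    rintro a b ⟨ha, ha'⟩ ⟨hb, hb'⟩
    exact ⟨mul_mem ha hb, by rw [D.el_mul ha hb]; exact add_mem ha' hb'⟩
  one_mem' := ⟨one_mem _, by rw [D.el_one]; exact zero_mem _⟩
  inv_mem' := by
    rintro a ⟨ha, ha'⟩
    exact ⟨inv_mem ha, by rw [D.el_inv ha]; exact neg_mem ha'⟩

theorem mem_clsIn {i : ι} {P : AddSubgroup D.L} {g : K} :
    g ∈ clsIn D i P ↔ ∃ hg : g ∈ D.A i, D.el i g hg ∈ P := Iff.rfl

theorem clsIn_comm_le {i j : ι} {H H' : Subgroup K} (hH : H ≤ D.A i) (hH' : H' ≤ D.A j)
    {P : AddSubgroup D.L}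
    (h : ∀ x (hx : x ∈ H) y (hy : y ∈ H'), ⁅D.el i x (hH hx), D.el j y (hH' hy)⁆ ∈ P) :
    ⁅H, H'⁆ ≤ clsIn D (i + j) P := by
  rw [Subgroup.commutator_le]
  intro x hx y hy
  refine ⟨D.comm_mem_A (hH hx) (hH' hy), ?_⟩
  rw [← D.lie_el]
  exact h x hx y hy

end clsIn

section gen

variable {K : Type*} [Group K] {M : ℕ → Subgroup K} (hM : IsChn M)

theorem el_mem_of (P : ℕ → AddSubgroup (dData hM).L)
    (h0 : ∀ s g (hg : g ∈ (dData hM).A (1, s)), (dData hM).el (1, s) g hg ∈ P 0)
    (h1 : ∀ w s g (hg : g ∈ (dData hM).A (1, s)), ∀ x ∈ P w,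
      ⁅x, (dData hM).el (1, s) g hg⁆ ∈ P (w + 1)) :
    ∀ w s g (hg : g ∈ (dData hM).A (Nat.succPNat w, s)),
      (dData hM).el (Nat.succPNat w, s) g hg ∈ P w := by
  intro w
  induction w with
  | zero => exact h0
  | succ w ih =>
    intro s g hg
    have hle : E M (w + 1) s ≤ clsIn (dData hM) (Nat.succPNat (w + 1), s) (P (w + 1)) := by
      rw [E_succ]
      refine iSup_le ?_
      rintro ⟨⟨a, b⟩, hab⟩
      change a + b = s at hab
      change ⁅E M w a, M b⁆ ≤ _
      have h2 : ⁅E M w a, M b⁆ ≤ clsIn (dData hM) ((Nat.succPNat w, a) + (1, b)) (P (w + 1)) :=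
        clsIn_comm_le (dData hM) (i := (Nat.succPNat w, a)) (j := (1, b)) (H := E M w a)
          (H' := M b) le_rfl le_rfl (fun x hx y hy => h1 w b y hy _ (ih a x hx))
      have h3 : ((Nat.succPNat w, a) + (1, b) : ℕ+ × ℕ) = (Nat.succPNat (w + 1), s) := by
        refine Prod.ext (PNat.coe_injective ?_) hab
        simp
      rwa [h3] at h2
    obtain ⟨_, h⟩ := hle hg
    exact h

/-- The classes of elements of `E M w s` lie in the `w`-th term of the lower central series. -/
theorem el_mem_lcs (w s : ℕ) (g : K) (hg : g ∈ (dData hM).A (Nat.succPNat w, s)) :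
    (dData hM).el (Nat.succPNat w, s) g hg ∈
      LieModule.lowerCentralSeries ℤ (dData hM).L (dData hM).L w := by
  refine el_mem_of hM (fun w => (LieModule.lowerCentralSeries ℤ (dData hM).L
    (dData hM).L w).toSubmodule.toAddSubgroup) ?_ ?_ w s g hg
  · intro s g hg
    change _ ∈ LieModule.lowerCentralSeries ℤ (dData hM).L (dData hM).L 0
    rw [LieModule.lowerCentralSeries_zero]
    exact LieSubmodule.mem_top (R := ℤ) (L := (dData hM).L) _
  · intro w s g hg x hx
    change ⁅x, _⁆ ∈ LieModule.lowerCentralSeries ℤ (dData hM).L (dData hM).L (w + 1)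
    rw [LieModule.lowerCentralSeries_succ, ← lie_skew]
    exact neg_mem (LieSubmodule.lie_mem_lie (LieSubmodule.mem_top _) hx)

/-- A Lie subring containing all classes of weight one is the whole Lie ring. -/
theorem eq_top_of_deg_one (H : LieSubalgebra ℤ (dData hM).L)
    (h : ∀ s g (hg : g ∈ (dData hM).A (1, s)), (dData hM).el (1, s) g hg ∈ H) : H = ⊤ := by
  have key := el_mem_of hM (fun _ => H.toSubmodule.toAddSubgroup) h
    (fun w s g hg x hx => H.lie_mem hx (h s g hg))
  rw [eq_top_iff]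
  intro x _
  induction x using (dData hM).L_ind with
  | h0 => exact H.zero_mem
  | h2 x y hx hy => exact H.add_mem (hx trivial) (hy trivial)
  | h1 i g hg =>
    have e : i = (Nat.succPNat (i.1.natPred), i.2) := by
      refine Prod.ext ?_ rfl
      simp
    have h2 : g ∈ (dData hM).A (Nat.succPNat (i.1.natPred), i.2) := by
      rw [← e]; exact hg
    rw [(dData hM).el_congr e rfl hg h2]
    exact key _ _ _ h2

end gen

section pad

/-- A class bound for Lie rings generated by `r` elements applies to Lie rings generated by a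
family indexed by a finite type with at most `r` elements. -/
theorem ClassBound.apply.{u} {U : Set MultId} {f : ℕ → ℕ} (hf : ClassBound.{u} U f)
    {L : Type u} [LieRing L] (hL : Sat U L) {J : Type*} [Fintype J] (r : ℕ)
    (hJ : Fintype.card J ≤ r) (x : J → L)
    (hx : LieSubalgebra.lieSpan ℤ L (Set.range x) = ⊤) :
    LieModule.lowerCentralSeries ℤ L L (f r) = ⊥ := by
  classical
  let e := Fintype.equivFin J
  refine hf L hL r (fun i => if h : (i : ℕ) < Fintype.card J then x (e.symm ⟨i, h⟩) else 0) ?_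
  rw [eq_top_iff, ← hx]
  apply LieSubalgebra.lieSpan_mono
  rintro _ ⟨j, rfl⟩
  refine ⟨⟨(e j : ℕ), (e j).2.trans_le hJ⟩, ?_⟩
  simp [e]

end pad

end Pool.Agent.Work.MP_369e59_al
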