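import Mathlib

/-!
# The Lie ring of a pair of filtrations

`GrData ι K` is a family of pairs `B i ≤ A i` of normal subgroups of `K`, indexed by a commutative
additive semigroup, such that commutators of elements of `A i`, `A j` lie in `A (i + j)` etc.
The direct sum of the abelian groups `A i / B i` is a Lie ring with the bracket induced by group
commutators.
-/

namespace Pool.Agent.Work.MP_369e59_al

open scoped commutatorElement DirectSum

/-- A family of pairs `B i ≤ A i` of normal subgroups with the properties which make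
`⨁ i, A i / B i` a Lie ring. -/
structure GrData (ι : Type*) [AddCommSemigroup ι] (K : Type*) [Group K] where
  /-- the large groups -/
  A : ι → Subgroup K
  /-- the small groups -/
  B : ι → Subgroup K
  A_normal : ∀ i, (A i).Normal
  B_normal : ∀ i, (B i).Normal
  B_le : ∀ i, B i ≤ A i
  comm_A : ∀ i j, ⁅A i, A j⁆ ≤ A (i + j)
  comm_B : ∀ i j, ⁅B i, A j⁆ ≤ B (i + j)
  add_le : ∀ i j, A (i + j) ≤ B i

namespace GrData

variable {ι : Type*} [AddCommSemigroup ι] {K : Type*} [Group K] (D : GrData ι K)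

instance instNA (i : ι) : (D.A i).Normal := D.A_normal i

instance instNB (i : ι) : (D.B i).Normal := D.B_normal i

theorem comm_mem_A {i j : ι} {g h : K} (hg : g ∈ D.A i) (hh : h ∈ D.A j) : ⁅g, h⁆ ∈ D.A (i + j) :=
  D.comm_A i j (Subgroup.commutator_mem_commutator hg hh)

theorem comm_mem_B {i j : ι} {g h : K} (hg : g ∈ D.A i) (hh : h ∈ D.A j) : ⁅g, h⁆ ∈ D.B i :=
  D.add_le i j (D.comm_mem_A hg hh)

theorem comm_mem_B_left {i j : ι} {g h : K} (hg : g ∈ D.B i) (hh : h ∈ D.A j) :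
    ⁅g, h⁆ ∈ D.B (i + j) :=
  D.comm_B i j (Subgroup.commutator_mem_commutator hg hh)

theorem comm_mem_B_right {i j : ι} {g h : K} (hg : g ∈ D.A i) (hh : h ∈ D.B j) :
    ⁅g, h⁆ ∈ D.B (i + j) := by
  rw [← commutatorElement_inv, add_comm]
  exact inv_mem (D.comm_mem_B_left hh hg)

theorem quot_mul_comm (i : ι) (a b : D.A i ⧸ (D.B i).subgroupOf (D.A i)) : a * b = b * a := by
  induction a using QuotientGroup.induction_on with
  | H a =>
    induction b using QuotientGroup.induction_on with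
    | H b =>
      rw [← QuotientGroup.mk_mul, ← QuotientGroup.mk_mul, QuotientGroup.eq]
      rw [Subgroup.mem_subgroupOf]
      have : (((a * b)⁻¹ * (b * a) : D.A i) : K) = ⁅(b : K)⁻¹, (a : K)⁻¹⁆ := by
        simp [commutatorElement_def, mul_assoc]
      rw [this]
      exact D.comm_mem_B (inv_mem b.2) (inv_mem a.2)

instance instCommQ (i : ι) : CommGroup (D.A i ⧸ (D.B i).subgroupOf (D.A i)) where
  mul_comm := D.quot_mul_comm i

/-- The homogeneous component `A i / B i`, written additively. -/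
abbrev gr (i : ι) : Type _ := Additive (D.A i ⧸ (D.B i).subgroupOf (D.A i))

instance instAddCommGroupGr (i : ι) : AddCommGroup (D.gr i) := Additive.addCommGroup

/-- The class of `g ∈ A i` in `A i / B i`. -/
def cls (i : ι) (g : K) (hg : g ∈ D.A i) : D.gr i :=
  Additive.ofMul (QuotientGroup.mk ⟨g, hg⟩)

theorem cls_eq_iff {i : ι} {g h : K} {hg : g ∈ D.A i} {hh : h ∈ D.A i} :
    D.cls i g hg = D.cls i h hh ↔ g⁻¹ * h ∈ D.B i := by
  unfold cls
  rw [Additive.ofMul.injective.eq_iff, QuotientGroup.eq, Subgroup.mem_subgroupOf]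
  rfl

theorem cls_mul {i : ι} {g h : K} (hg : g ∈ D.A i) (hh : h ∈ D.A i) :
    D.cls i (g * h) (mul_mem hg hh) = D.cls i g hg + D.cls i h hh := rfl

theorem cls_ind {i : ι} {P : D.gr i → Prop} (h : ∀ g hg, P (D.cls i g hg)) (x : D.gr i) : P x := by
  obtain ⟨x, rfl⟩ := Additive.ofMul.surjective x
  induction x using QuotientGroup.induction_on with
  | H a => exact h a.1 a.2

/-- The commutator of representatives. -/
def commRep (i j : ι) (g : D.A i) (h : D.A j) : D.A (i + j) :=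
  ⟨⁅(g : K), (h : K)⁆, D.comm_mem_A g.2 h.2⟩

theorem commRep_congr (i j : ι) (g g' : D.A i)
    (hg : QuotientGroup.leftRel ((D.B i).subgroupOf (D.A i)) g g') (h h' : D.A j)
    (hh : QuotientGroup.leftRel ((D.B j).subgroupOf (D.A j)) h h') :
    QuotientGroup.leftRel ((D.B (i + j)).subgroupOf (D.A (i + j))) (D.commRep i j g h)
      (D.commRep i j g' h') := by
  rw [QuotientGroup.leftRel_apply, Subgroup.mem_subgroupOf] at *
  have hg' : (g : K)⁻¹ * (g' : K) ∈ D.B i := hg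
  have hh' : (h : K)⁻¹ * (h' : K) ∈ D.B j := hh
  change ⁅(g : K), (h : K)⁆⁻¹ * ⁅(g' : K), (h' : K)⁆ ∈ D.B (i + j)
  obtain ⟨u, hu⟩ : ∃ u, u = (g : K)⁻¹ * (g' : K) := ⟨_, rfl⟩
  obtain ⟨v, hv⟩ : ∃ v, v = (h : K)⁻¹ * (h' : K) := ⟨_, rfl⟩
  have e1 : (g' : K) = g * u := by rw [hu]; group
  have e2 : (h' : K) = h * v := by rw [hv]; group
  rw [← hu] at hg'
  rw [← hv] at hh'
  rw [e1, e2]
  have e3 : ⁅(g : K), (h : K)⁆⁻¹ * ⁅(g : K) * u, (h : K) * v⁆ =
      (⁅(g : K), (h : K)⁆⁻¹ * (g * ⁅u, (h : K) * v⁆ * (g : K)⁻¹) * ⁅(g : K), (h : K)⁆) *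
      (h * ⁅(g : K), v⁆ * (h : K)⁻¹) := by
    simp only [commutatorElement_def]; group
  rw [e3]
  have hN := D.B_normal (i + j)
  refine mul_mem ?_ ?_
  · have := hN.conj_mem _ (hN.conj_mem _
      (D.comm_mem_B_left hg' (mul_mem h.2 (D.B_le j hh'))) (g : K)) ⁅(g : K), (h : K)⁆⁻¹
    rwa [inv_inv] at this
  · exact hN.conj_mem _ (D.comm_mem_B_right g.2 hh') _

/-- The bracket `A i / B i × A j / B j → A (i + j) / B (i + j)`. -/
def brFun (i j : ι) : D.gr i → D.gr j → D.gr (i + j) := fun x y =>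
  Additive.ofMul (Quotient.map₂ (D.commRep i j)
    (fun g g' hg h h' hh => D.commRep_congr i j g g' hg h h' hh)
    (Additive.toMul x) (Additive.toMul y))

theorem brFun_cls {i j : ι} {g h : K} (hg : g ∈ D.A i) (hh : h ∈ D.A j) :
    D.brFun i j (D.cls i g hg) (D.cls j h hh) = D.cls (i + j) ⁅g, h⁆ (D.comm_mem_A hg hh) := rfl

theorem brFun_add_left {i j : ι} (x x' : D.gr i) (y : D.gr j) :
    D.brFun i j (x + x') y = D.brFun i j x y + D.brFun i j x' y := by
  induction x using D.cls_ind with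
  | h g hg =>
  induction x' using D.cls_ind with
  | h g' hg' =>
  induction y using D.cls_ind with
  | h h hh =>
  rw [← D.cls_mul, D.brFun_cls, D.brFun_cls, D.brFun_cls, ← D.cls_mul, D.cls_eq_iff]
  have e : ⁅g * g', h⁆⁻¹ * (⁅g, h⁆ * ⁅g', h⁆) =
      ⁅g, h⁆⁻¹ * ((g * ⁅g', h⁆⁻¹ * g⁻¹ * ⁅g', h⁆) * (⁅g', h⁆⁻¹ * (⁅g, h⁆ * ⁅g', h⁆ * ⁅g, h⁆⁻¹))) *
        ⁅g, h⁆ := by
    simp only [commutatorElement_def]; group
  rw [e]
  have hN := D.B_normal (i + j)
  have h1 := D.comm_mem_A hg hh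
  have h2 := D.comm_mem_A hg' hh
  have := hN.conj_mem ((g * ⁅g', h⁆⁻¹ * g⁻¹ * ⁅g', h⁆) * (⁅g', h⁆⁻¹ * (⁅g, h⁆ * ⁅g', h⁆ * ⁅g, h⁆⁻¹)))
    ?_ ⁅g, h⁆⁻¹
  · rwa [inv_inv] at this
  · refine mul_mem ?_ ?_
    · have e1 : g * ⁅g', h⁆⁻¹ * g⁻¹ * ⁅g', h⁆ = ⁅⁅g', h⁆⁻¹, g⁆⁻¹ := by
        simp only [commutatorElement_def]; group
      rw [e1]
      exact inv_mem (D.comm_mem_B (inv_mem h2) hg)
    · have e1 : ⁅g', h⁆⁻¹ * (⁅g, h⁆ * ⁅g', h⁆ * ⁅g, h⁆⁻¹) = ⁅⁅g', h⁆⁻¹, ⁅g, h⁆⁆ := by
        simp only [commutatorElement_def]; group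
      rw [e1]
      exact D.comm_mem_B (inv_mem h2) h1

theorem brFun_add_right {i j : ι} (x : D.gr i) (y y' : D.gr j) :
    D.brFun i j x (y + y') = D.brFun i j x y + D.brFun i j x y' := by
  induction x using D.cls_ind with
  | h g hg =>
  induction y using D.cls_ind with
  | h h hh =>
  induction y' using D.cls_ind with
  | h h' hh' =>
  rw [← D.cls_mul, D.brFun_cls, D.brFun_cls, D.brFun_cls, ← D.cls_mul, D.cls_eq_iff]
  have e : ⁅g, h * h'⁆⁻¹ * (⁅g, h⁆ * ⁅g, h'⁆) = ⁅⁅g, h'⁆⁻¹, h⁆⁻¹ := by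
    simp only [commutatorElement_def]; group
  rw [e]
  exact inv_mem (D.comm_mem_B (inv_mem (D.comm_mem_A hg hh')) hh)

/-- The bracket of homogeneous components is additive in the second entry. -/
def brHom₁ (i j : ι) (x : D.gr i) : D.gr j →+ D.gr (i + j) :=
  AddMonoidHom.mk' (D.brFun i j x) (D.brFun_add_right x)

theorem brHom₁_add (i j : ι) (x x' : D.gr i) :
    D.brHom₁ i j (x + x') = D.brHom₁ i j x + D.brHom₁ i j x' :=
  AddMonoidHom.ext fun y => D.brFun_add_left x x' y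

/-- The bracket of homogeneous components as a biadditive map. -/
def brHom (i j : ι) : D.gr i →+ D.gr j →+ D.gr (i + j) :=
  AddMonoidHom.mk' (D.brHom₁ i j) (D.brHom₁_add i j)

theorem brHom_cls {i j : ι} {g h : K} (hg : g ∈ D.A i) (hh : h ∈ D.A j) :
    D.brHom i j (D.cls i g hg) (D.cls j h hh) = D.cls (i + j) ⁅g, h⁆ (D.comm_mem_A hg hh) := rfl

variable [DecidableEq ι]

/-- The Lie ring `⨁ i, A i / B i`. -/
abbrev L : Type _ := ⨁ i, D.gr i

instance instAddCommGroupL : AddCommGroup D.L :=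
  @DirectSum.instAddCommGroup ι (fun i => D.gr i) fun i => D.instAddCommGroupGr i

/-- The inclusion of a homogeneous component. -/
def ofL (i : ι) : D.gr i →+ D.L := DirectSum.of D.gr i

/-- The bracket of `⨁ i, A i / B i` as a biadditive map. -/
noncomputable def brL : D.L →+ D.L →+ D.L :=
  DirectSum.toAddMonoid fun i =>
    AddMonoidHom.flip <|
      DirectSum.toAddMonoid fun j =>
        AddMonoidHom.flip <| (D.ofL (i + j)).compHom.comp (D.brHom i j)

theorem brL_of (i j : ι) (x : D.gr i) (y : D.gr j) :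
    D.brL (D.ofL i x) (D.ofL j y) = D.ofL (i + j) (D.brHom i j x y) := by
  unfold brL ofL
  rw [DirectSum.toAddMonoid_of, AddMonoidHom.flip_apply, DirectSum.toAddMonoid_of]
  rfl

/-- The homogeneous element of the Lie ring given by `g ∈ A i`. -/
def el (i : ι) (g : K) (hg : g ∈ D.A i) : D.L := D.ofL i (D.cls i g hg)

theorem el_congr {i j : ι} {g h : K} (hij : i = j) (hgh : g = h) (hg : g ∈ D.A i)
    (hh : h ∈ D.A j) : D.el i g hg = D.el j h hh := by
  subst hij; subst hgh; rfl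

theorem el_mul {i : ι} {g h : K} (hg : g ∈ D.A i) (hh : h ∈ D.A i) :
    D.el i (g * h) (mul_mem hg hh) = D.el i g hg + D.el i h hh := by
  unfold el
  rw [D.cls_mul, map_add]

theorem el_eq_iff {i : ι} {g h : K} (hg : g ∈ D.A i) (hh : h ∈ D.A i) :
    D.el i g hg = D.el i h hh ↔ g⁻¹ * h ∈ D.B i := by
  unfold el ofL
  rw [(DirectSum.of_injective (β := D.gr) i).eq_iff, D.cls_eq_iff]

theorem el_one {i : ι} (h : (1 : K) ∈ D.A i) : D.el i 1 h = 0 := by
  have := D.el_mul h h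
  have e : D.el i (1 * 1) (mul_mem h h) = D.el i 1 h := D.el_congr rfl (by simp) _ _
  rw [e] at this
  simpa using this

theorem el_eq_zero {i : ι} {g : K} (hg : g ∈ D.A i) : D.el i g hg = 0 ↔ g ∈ D.B i := by
  rw [← D.el_one (one_mem (D.A i)), D.el_eq_iff]
  simp

theorem el_inv {i : ι} {g : K} (hg : g ∈ D.A i) : D.el i g⁻¹ (inv_mem hg) = - D.el i g hg := by
  rw [eq_neg_iff_add_eq_zero, ← D.el_mul, D.el_eq_zero]
  simp

theorem el_zpow {i : ι} {g : K} (hg : g ∈ D.A i) (n : ℤ) :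
    D.el i (g ^ n) (zpow_mem hg n) = n • D.el i g hg := by
  induction n with
  | zero =>
    rw [zero_smul, D.el_eq_zero]; simp
  | succ n ih =>
    rw [add_smul, one_smul, ← ih, ← D.el_mul]
    exact D.el_congr rfl (by rw [zpow_add_one]) _ _
  | pred n ih =>
    rw [sub_smul, one_smul, ← ih, sub_eq_add_neg (D.el i _ _), ← D.el_inv hg,
      ← D.el_mul (zpow_mem hg _) (inv_mem hg)]
    exact D.el_congr rfl (by rw [zpow_sub_one]) _ _

theorem brL_el {i j : ι} {g h : K} (hg : g ∈ D.A i) (hh : h ∈ D.A j) :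
    D.brL (D.el i g hg) (D.el j h hh) = D.el (i + j) ⁅g, h⁆ (D.comm_mem_A hg hh) := by
  unfold el
  rw [D.brL_of, D.brHom_cls]

theorem L_ind {P : D.L → Prop} (x : D.L) (h0 : P 0) (h1 : ∀ i g hg, P (D.el i g hg))
    (h2 : ∀ x y, P x → P y → P (x + y)) : P x := by
  induction x using DirectSum.induction_on with
  | zero => exact h0
  | of i x =>
    induction x using D.cls_ind with
    | h g hg => exact h1 i g hg
  | add x y hx hy => exact h2 x y hx hy

theorem brL_antisymm (x y : D.L) : D.brL x y + D.brL y x = 0 := by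
  induction x using D.L_ind with
  | h0 => simp
  | h2 x x' hx hx' =>
    simp only [map_add, AddMonoidHom.add_apply]
    rw [add_add_add_comm, hx, hx', add_zero]
  | h1 i g hg =>
    induction y using D.L_ind with
    | h0 => simp
    | h2 y y' hy hy' =>
      simp only [map_add, AddMonoidHom.add_apply]
      rw [add_add_add_comm, hy, hy', add_zero]
    | h1 j h hh =>
      have hhg : ⁅h, g⁆ ∈ D.A (i + j) := by rw [add_comm i j]; exact D.comm_mem_A hh hg
      rw [D.brL_el, D.brL_el, D.el_congr (add_comm j i) rfl _ hhg,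
        ← D.el_mul (D.comm_mem_A hg hh) hhg, D.el_eq_zero]
      have : ⁅g, h⁆ * ⁅h, g⁆ = 1 := by
        simp only [commutatorElement_def]; group
      rw [this]
      exact one_mem _

theorem brL_self (x : D.L) : D.brL x x = 0 := by
  induction x using D.L_ind with
  | h0 => simp
  | h2 x y hx hy =>
    simp only [map_add, AddMonoidHom.add_apply]
    rw [hx, hy, zero_add, add_zero, add_comm]
    exact D.brL_antisymm x y
  | h1 i g hg =>
    rw [D.brL_el, D.el_eq_zero, commutatorElement_self]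
    exact one_mem _

omit [DecidableEq ι] in
/-- The Jacobi identity for homogeneous elements, on the level of groups. -/
theorem jacobi_mem {i j k : ι} {a b c : K} (ha : a ∈ D.A i) (hb : b ∈ D.A j) (hc : c ∈ D.A k) :
    ⁅a, ⁅b, c⁆⁆⁻¹ * (⁅⁅a, b⁆, c⁆ * ⁅b, ⁅a, c⁆⁆) ∈ D.B (i + j + k) := by
  rw [← QuotientGroup.eq_one_iff]
  -- commuting elements modulo `B (i + j + k)`
  have comm : ∀ {m l n : ι} {x y : K}, x ∈ D.A m → y ∈ D.A l → m + l = (i + j + k) + n →
      Commute (x : K ⧸ D.B (i + j + k)) (y : K ⧸ D.B (i + j + k)) := by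
    intro m l n x y hx hy hml
    rw [← commutatorElement_eq_one_iff_commute]
    have : ((⁅x, y⁆ : K) : K ⧸ D.B (i + j + k)) = 1 := by
      rw [QuotientGroup.eq_one_iff]
      refine D.add_le (i + j + k) n ?_
      rw [← hml]
      exact D.comm_mem_A hx hy
    rw [← this]
    simp [commutatorElement_def]
  have hp := D.comm_mem_A ha hb
  have hq := D.comm_mem_A ha hc
  have hr := D.comm_mem_A hb hc
  have hs := D.comm_mem_A hb hq
  have ht := D.comm_mem_A hp hc
  have hu := D.comm_mem_A ha hr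
  have c1 : Commute ((⁅a, b⁆ : K) : K ⧸ D.B (i + j + k)) (⁅a, c⁆ : K) :=
    comm hp hq (n := i) (by ac_rfl)
  have c2 : Commute ((⁅a, b⁆ : K) : K ⧸ D.B (i + j + k)) (⁅b, ⁅a, c⁆⁆ : K) :=
    comm hp hs (n := i + j) (by ac_rfl)
  have c3 : Commute ((⁅a, c⁆ : K) : K ⧸ D.B (i + j + k)) (⁅b, c⁆ : K) :=
    comm hq hr (n := k) (by ac_rfl)
  have c4 : Commute ((⁅a, b⁆ : K) : K ⧸ D.B (i + j + k)) (⁅b, c⁆ : K) :=
    comm hp hr (n := j) (by ac_rfl)
  have c5 : Commute ((⁅⁅a, b⁆, c⁆ : K) : K ⧸ D.B (i + j + k)) (⁅b, c⁆ : K) :=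
    comm ht hr (n := j + k) (by ac_rfl)
  have c6 : Commute ((⁅a, c⁆ : K) : K ⧸ D.B (i + j + k)) (⁅⁅a, b⁆, c⁆ : K) :=
    comm hq ht (n := i + k) (by ac_rfl)
  have c7 : Commute ((⁅⁅a, b⁆, c⁆ : K) : K ⧸ D.B (i + j + k)) (⁅b, ⁅a, c⁆⁆ : K) :=
    comm ht hs (n := i + j + k) (by ac_rfl)
  have key : ⁅a, ⁅b, c⁆⁆ * ⁅b, c⁆ = ⁅a, b⁆ * ⁅b, ⁅a, c⁆⁆ * ⁅a, c⁆ * ⁅b, c⁆ * ⁅a, c⁆⁻¹ * ⁅a, b⁆⁻¹ *
      (⁅a, b⁆ * ⁅a, c⁆ * ⁅a, b⁆⁻¹ * ⁅a, c⁆⁻¹) * ⁅a, c⁆ * ⁅⁅a, b⁆, c⁆ * ⁅a, c⁆⁻¹ := by
    simp only [commutatorElement_def]; group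
  have key' := congrArg (fun x : K => (x : K ⧸ D.B (i + j + k))) key
  simp only [QuotientGroup.mk_mul, QuotientGroup.mk_inv] at key' ⊢
  generalize ((⁅a, b⁆ : K) : K ⧸ D.B (i + j + k)) = p at *
  generalize ((⁅a, c⁆ : K) : K ⧸ D.B (i + j + k)) = q at *
  generalize ((⁅b, c⁆ : K) : K ⧸ D.B (i + j + k)) = r at *
  generalize ((⁅b, ⁅a, c⁆⁆ : K) : K ⧸ D.B (i + j + k)) = s at *
  generalize ((⁅⁅a, b⁆, c⁆ : K) : K ⧸ D.B (i + j + k)) = t at *
  generalize ((⁅a, ⁅b, c⁆⁆ : K) : K ⧸ D.B (i + j + k)) = u at *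
  have e1 : p * q * p⁻¹ * q⁻¹ = 1 := by rw [c1.eq]; group
  rw [e1, mul_one] at key'
  have e2 : p * s * q * r * q⁻¹ * p⁻¹ = s * r := by
    calc p * s * q * r * q⁻¹ * p⁻¹ = (p * s) * (q * r) * q⁻¹ * p⁻¹ := by group
      _ = (s * p) * (r * q) * q⁻¹ * p⁻¹ := by rw [c2.eq, c3.eq]
      _ = s * (p * r) * p⁻¹ := by group
      _ = s * (r * p) * p⁻¹ := by rw [c4.eq]
      _ = s * r := by group
  rw [e2] at key'
  have e3 : s * r * q * t * q⁻¹ = t * s * r := by
    calc s * r * q * t * q⁻¹ = s * r * (q * t) * q⁻¹ := by group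
      _ = s * r * (t * q) * q⁻¹ := by rw [c6.eq]
      _ = s * (r * t) := by group
      _ = s * (t * r) := by rw [c5.eq]
      _ = (s * t) * r := by group
      _ = (t * s) * r := by rw [c7.eq]
  rw [e3] at key'
  have e4 : u = t * s := mul_right_cancel key'
  rw [e4]; group

theorem brL_jacobi (x y z : D.L) :
    D.brL x (D.brL y z) = D.brL (D.brL x y) z + D.brL y (D.brL x z) := by
  induction x using D.L_ind with
  | h0 => simp
  | h2 x x' hx hx' =>
    simp only [map_add, AddMonoidHom.add_apply]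
    rw [hx, hx']; abel
  | h1 i a ha =>
    induction y using D.L_ind with
    | h0 => simp
    | h2 y y' hy hy' =>
      simp only [map_add, AddMonoidHom.add_apply]
      rw [hy, hy']; abel
    | h1 j b hb =>
      induction z using D.L_ind with
      | h0 => simp
      | h2 z z' hz hz' =>
        simp only [map_add]
        rw [hz, hz']; abel
      | h1 k c hc =>
        rw [D.brL_el, D.brL_el, D.brL_el, D.brL_el, D.brL_el, D.brL_el]
        have i1 : i + (j + k) = i + j + k := by ac_rfl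
        have i2 : j + (i + k) = i + j + k := by ac_rfl
        rw [D.el_congr i1 rfl _ (by rw [← i1]; exact D.comm_mem_A ha (D.comm_mem_A hb hc)),
          D.el_congr i2 rfl _ (by rw [← i2]; exact D.comm_mem_A hb (D.comm_mem_A ha hc)),
          ← D.el_mul, D.el_eq_iff]
        exact D.jacobi_mem ha hb hc

open Classical in
/-- The set of indices of the non-zero components of an element of `⨁ i, A i / B i`. -/
noncomputable def supp (x : D.L) : Finset ι := DFinsupp.support x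

/-- The `i`-th component of an element of `⨁ i, A i / B i`. -/
def comp (x : D.L) (i : ι) : D.gr i := x i

/-- The bracket of the components `x i` and `y j`, as an element of `⨁ i, A i / B i`. -/
def brTerm (x y : D.L) (i j : ι) : D.L := D.ofL (i + j) (D.brFun i j (D.comp x i) (D.comp y j))

/-- The bracket of the Lie ring: the sum of the brackets of the homogeneous components. -/
noncomputable def br (x y : D.L) : D.L := ∑ i ∈ D.supp x, ∑ j ∈ D.supp y, D.brTerm x y i j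

open Classical in
theorem br_eq (x y : D.L) : D.br x y = D.brL x y := by
  have hx : ∑ i ∈ D.supp x, D.ofL i (x i) = x := DirectSum.sum_support_of x
  have hy : ∑ j ∈ D.supp y, D.ofL j (y j) = y := DirectSum.sum_support_of y
  have h1 : D.brL x = ∑ i ∈ D.supp x, D.brL (D.ofL i (x i)) := by
    conv_lhs => rw [← hx]
    rw [map_sum]
  rw [h1, AddMonoidHom.finsetSum_apply]
  refine Finset.sum_congr rfl fun i _ => ?_
  have h2 : D.brL (D.ofL i (x i)) y =
      ∑ j ∈ D.supp y, D.brL (D.ofL i (x i)) (D.ofL j (y j)) := by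
    conv_lhs => rw [← hy]
    rw [map_sum]
  rw [h2]
  exact Finset.sum_congr rfl fun j _ => (D.brL_of i j (x i) (y j)).symm

theorem br_add_left (x y z : D.L) : D.br (x + y) z = D.br x z + D.br y z := by
  rw [br_eq, br_eq, br_eq, map_add, AddMonoidHom.add_apply]

theorem br_add_right (x y z : D.L) : D.br x (y + z) = D.br x y + D.br x z := by
  rw [br_eq, br_eq, br_eq, map_add]

theorem br_self (x : D.L) : D.br x x = 0 := by
  rw [br_eq]; exact D.brL_self x

theorem br_jacobi (x y z : D.L) :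
    D.br x (D.br y z) = D.br (D.br x y) z + D.br y (D.br x z) := by
  simp only [br_eq]
  exact D.brL_jacobi x y z

noncomputable instance instLieRing : LieRing D.L where
  bracket := D.br
  add_lie := D.br_add_left
  lie_add := D.br_add_right
  lie_self := D.br_self
  leibniz_lie := D.br_jacobi

theorem lie_def (x y : D.L) : ⁅x, y⁆ = D.brL x y := D.br_eq x y

theorem lie_el {i j : ι} {g h : K} (hg : g ∈ D.A i) (hh : h ∈ D.A j) :
    ⁅D.el i g hg, D.el j h hh⁆ = D.el (i + j) ⁅g, h⁆ (D.comm_mem_A hg hh) := by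
  rw [D.lie_def]; exact D.brL_el hg hh

end GrData

end Pool.Agent.Work.MP_369e59_al
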