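import Pool.Agent.Work.MP_369e59_al.DFilt

/-!
# Operator words, multilinear Lie identities, and the hypothesis (H)
-/

namespace Pool.Agent.Work.MP_369e59_al

open scoped commutatorElement

/-! ### Left-normed commutators and multilinear identities -/

/-- The left-normed group commutator `[...[[a₀, a₁], a₂], ..., aₙ]`, where `[x, y]` is Mathlib's
`⁅x, y⁆ = x * y * x⁻¹ * y⁻¹`. -/
def gComm {H : Type*} [Group H] : (n : ℕ) → (Fin (n + 1) → H) → H
  | 0, a => a 0
  | n + 1, a => ⁅gComm n (fun i => a i.castSucc), a (Fin.last (n + 1))⁆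

/-- The left-normed Lie bracket `[...[[a₀, a₁], a₂], ..., aₙ]`. -/
def lComm {L : Type*} [LieRing L] : (n : ℕ) → (Fin (n + 1) → L) → L
  | 0, a => a 0
  | n + 1, a => ⁅lComm n (fun i => a i.castSucc), a (Fin.last (n + 1))⁆

/-- A multilinear Lie polynomial with integer coefficients in the variables `a₀, ..., aₙ`, written
as an integral combination of the left-normed brackets `[a_{σ 0}, ..., a_{σ n}]`, `σ` a permutation
(every multilinear Lie polynomial has such an expression). -/
structure MultId where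
  /-- the degree minus one -/
  n : ℕ
  /-- the coefficients -/
  c : Equiv.Perm (Fin (n + 1)) → ℤ

/-- The value of a multilinear Lie polynomial. -/
def MultId.eval {L : Type*} [LieRing L] (u : MultId) (a : Fin (u.n + 1) → L) : L :=
  ∑ σ : Equiv.Perm (Fin (u.n + 1)), u.c σ • lComm u.n (fun i => a (σ i))

/-- The Lie ring `L` satisfies the multilinear identities `u = 0`, `u ∈ U`. -/
def Sat (U : Set MultId) (L : Type*) [LieRing L] : Prop :=
  ∀ u ∈ U, ∀ a : Fin (u.n + 1) → L, u.eval a = 0

/-- A group version of the multilinear polynomial. -/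
noncomputable def MultId.gEval {H : Type*} [Group H] (u : MultId) (a : Fin (u.n + 1) → H) : H :=
  ((Finset.univ : Finset (Equiv.Perm (Fin (u.n + 1)))).toList.map
    (fun σ => gComm u.n (fun i => a (σ i)) ^ u.c σ)).prod

theorem map_gComm {H H' : Type*} [Group H] [Group H'] (φ : H →* H') (n : ℕ) (a : Fin (n + 1) → H) :
    φ (gComm n a) = gComm n (fun i => φ (a i)) := by
  induction n with
  | zero => rfl
  | succ n ih =>
    simp only [gComm]
    rw [map_commutatorElement, ih]

theorem map_gEval {H H' : Type*} [Group H] [Group H'] (φ : H →* H') (u : MultId)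
    (a : Fin (u.n + 1) → H) : φ (u.gEval a) = u.gEval (fun i => φ (a i)) := by
  unfold MultId.gEval
  rw [map_list_prod, List.map_map]
  congr 1
  refine List.map_congr_left fun σ _ => ?_
  simp only [Function.comp, map_zpow, map_gComm]

theorem gComm_eq_one {H : Type*} [Group H] (n : ℕ) (a : Fin (n + 1) → H) (j : Fin (n + 1))
    (hj : a j = 1) : gComm n a = 1 := by
  induction n with
  | zero =>
    have : j = 0 := Fin.ext (by have := j.2; simp only [Fin.val_zero]; omega)
    subst this
    exact hj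
  | succ n ih =>
    simp only [gComm]
    induction j using Fin.lastCases with
    | last => rw [hj]; simp
    | cast j =>
      rw [ih (fun i => a i.castSucc) j hj]
      simp

theorem gEval_eq_one {H : Type*} [Group H] (u : MultId) (a : Fin (u.n + 1) → H)
    (j : Fin (u.n + 1)) (hj : a j = 1) : u.gEval a = 1 := by
  unfold MultId.gEval
  apply List.prod_eq_one
  intro x hx
  rw [List.mem_map] at hx
  obtain ⟨σ, _, rfl⟩ := hx
  rw [gComm_eq_one u.n _ (σ.symm j) (by simpa using hj)]
  simp

section graded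

variable {ι : Type*} [AddCommSemigroup ι] {K : Type*} [Group K] (D : GrData ι K)

/-- The sum of a nonempty family of indices. -/
def sumIdx : (n : ℕ) → (Fin (n + 1) → ι) → ι
  | 0, i => i 0
  | n + 1, i => sumIdx n (fun k => i k.castSucc) + i (Fin.last (n + 1))

theorem map_sumIdx {N : Type*} [AddCommMonoid N] (e : ι → N) (he : ∀ i j, e (i + j) = e i + e j)
    (n : ℕ) (i : Fin (n + 1) → ι) : e (sumIdx n i) = ∑ k, e (i k) := by
  induction n with
  | zero => simp [sumIdx]
  | succ n ih =>
    simp only [sumIdx]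
    rw [he, ih, Fin.sum_univ_castSucc (fun k => e (i k))]

theorem gComm_mem (n : ℕ) (i : Fin (n + 1) → ι) (g : Fin (n + 1) → K)
    (hg : ∀ k, g k ∈ D.A (i k)) : gComm n g ∈ D.A (sumIdx n i) := by
  induction n with
  | zero => exact hg 0
  | succ n ih =>
    exact D.comm_mem_A (ih (fun k => i k.castSucc) (fun k => g k.castSucc) (fun k => hg _)) (hg _)

theorem lComm_el [DecidableEq ι] (n : ℕ) (i : Fin (n + 1) → ι) (g : Fin (n + 1) → K)
    (hg : ∀ k, g k ∈ D.A (i k)) :
    lComm n (fun k => D.el (i k) (g k) (hg k)) = D.el (sumIdx n i) (gComm n g)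
      (gComm_mem D n i g hg) := by
  induction n with
  | zero => rfl
  | succ n ih =>
    simp only [lComm]
    rw [ih (fun k => i k.castSucc) (fun k => g k.castSucc) (fun k => hg _)]
    exact D.lie_el _ _

theorem gEval_mem (u : MultId) (I : ι) (g : Fin (u.n + 1) → K)
    (hg : ∀ σ : Equiv.Perm (Fin (u.n + 1)), gComm u.n (fun k => g (σ k)) ∈ D.A I) :
    u.gEval g ∈ D.A I := by
  unfold MultId.gEval
  apply Subgroup.list_prod_mem
  intro x hx
  rw [List.mem_map] at hx
  obtain ⟨σ, _, rfl⟩ := hx
  exact zpow_mem (hg σ) _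

theorem el_list_prod [DecidableEq ι] (I : ι) {α : Type*} (l : List α) (x : α → K)
    (hx : ∀ a, x a ∈ D.A I) (h : (l.map x).prod ∈ D.A I) :
    D.el I (l.map x).prod h = (l.map fun a => D.el I (x a) (hx a)).sum := by
  induction l with
  | nil => simpa using D.el_one (one_mem (D.A I))
  | cons a l ih =>
    simp only [List.map_cons, List.prod_cons, List.sum_cons]
    have h' : (l.map x).prod ∈ D.A I := by
      apply Subgroup.list_prod_mem
      intro y hy
      rw [List.mem_map] at hy
      obtain ⟨b, _, rfl⟩ := hy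
      exact hx b
    rw [← ih h', ← D.el_mul]

theorem eval_el [DecidableEq ι] (u : MultId) (i : Fin (u.n + 1) → ι) (g : Fin (u.n + 1) → K)
    (hg : ∀ k, g k ∈ D.A (i k))
    (hperm : ∀ σ : Equiv.Perm (Fin (u.n + 1)), sumIdx u.n (fun k => i (σ k)) = sumIdx u.n i)
    (h : u.gEval g ∈ D.A (sumIdx u.n i)) :
    u.eval (fun k => D.el (i k) (g k) (hg k)) = D.el (sumIdx u.n i) (u.gEval g) h := by
  have h1 : ∀ σ : Equiv.Perm (Fin (u.n + 1)),
      gComm u.n (fun k => g (σ k)) ∈ D.A (sumIdx u.n i) := by
    intro σ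
    rw [← hperm σ]
    exact gComm_mem D u.n _ _ (fun k => hg (σ k))
  have h2 : ∀ σ : Equiv.Perm (Fin (u.n + 1)),
      u.c σ • lComm u.n (fun k => D.el (i (σ k)) (g (σ k)) (hg (σ k))) =
        D.el (sumIdx u.n i) (gComm u.n (fun k => g (σ k)) ^ u.c σ) (zpow_mem (h1 σ) _) := by
    intro σ
    rw [lComm_el D u.n (fun k => i (σ k)) (fun k => g (σ k)) (fun k => hg (σ k)), D.el_zpow (h1 σ)]
    congr 1
    exact D.el_congr (hperm σ) rfl _ _
  unfold MultId.eval
  rw [Finset.sum_congr rfl (fun σ _ => h2 σ)]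
  unfold MultId.gEval
  rw [el_list_prod D (sumIdx u.n i) _ _ (fun σ => zpow_mem (h1 σ) _)]
  rw [Finset.sum_map_toList]

end graded

/-! ### Operator groups -/

section operators

variable {Ω : Type*} [Group Ω]

/-- Ω-words are the elements of the free group on the symbols `x^ω = (x, ω)`. The projection
replaces every operator by the identity. -/
def proj (Ω : Type*) : FreeGroup (ℕ × Ω) →* FreeGroup ℕ := FreeGroup.map Prod.fst

/-- The value of an Ω-word. -/
def evalO {G : Type*} [Group G] [MulDistribMulAction Ω G] (θ : ℕ → G) :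
    FreeGroup (ℕ × Ω) →* G := FreeGroup.lift (fun x => x.2 • θ x.1)

/-- The Ω-group `G` belongs to the class `𝔙_W`. -/
def InVO (W : Set (FreeGroup (ℕ × Ω))) (G : Type*) [Group G] [MulDistribMulAction Ω G] : Prop :=
  ∀ w ∈ W, ∀ θ : ℕ → G, evalO θ w = 1

/-- The group `H` satisfies the group laws `V`. -/
def InV (V : Set (FreeGroup ℕ)) (H : Type*) [Group H] : Prop :=
  ∀ v ∈ V, ∀ θ : ℕ → H, FreeGroup.lift θ v = 1

/-- The verbal subgroup of the free group of countable rank defined by `V`. -/
def verbal (V : Set (FreeGroup ℕ)) : Subgroup (FreeGroup ℕ) :=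
  Subgroup.normalClosure {x | ∃ v ∈ V, ∃ φ : FreeGroup ℕ →* FreeGroup ℕ, x = φ v}

instance (V : Set (FreeGroup ℕ)) : (verbal V).Normal := Subgroup.normalClosure_normal

/-- The countably generated free group of the variety of groups defined by `V`. -/
abbrev RelFree (V : Set (FreeGroup ℕ)) : Type := FreeGroup ℕ ⧸ verbal V

/-- The associated Lie ring `L(H) = ⨁ γ_i(H) / γ_{i+1}(H)`. -/
abbrev AssocLie (H : Type*) [Group H] : Type _ := (lcsData H).L

/-- `X` is locally nilpotent. -/
def LocNilp (X : Type*) [Group X] : Prop :=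
  ∀ S : Finset X, Group.IsNilpotent (Subgroup.closure (S : Set X))

/-- Every `d`-generator Lie ring satisfying the multilinear identities `U` is nilpotent of class
at most `f d`. In particular these identities define a locally nilpotent variety of Lie rings. -/
def ClassBound.{u} (U : Set MultId) (f : ℕ → ℕ) : Prop :=
  ∀ (L : Type u) [LieRing L], Sat U L → ∀ (d : ℕ) (x : Fin d → L),
    LieSubalgebra.lieSpan ℤ L (Set.range x) = ⊤ → LieModule.lowerCentralSeries ℤ L L (f d) = ⊥

/-- The group version of the identity, evaluated at the free generators, is trivial modulo the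
verbal subgroup and the right term of the lower central series. -/
def Generic (V : Set (FreeGroup ℕ)) (u : MultId) : Prop :=
  u.gEval (fun k => FreeGroup.of (k : ℕ)) ∈
    (⊤ : Subgroup (FreeGroup ℕ)).lowerCentralSeries (u.n + 1) ⊔ verbal V

/-- The key consequence of (H). -/
theorem generic_of_sat {V : Set (FreeGroup ℕ)} {U : Set MultId}
    (h : Sat U (AssocLie (RelFree V))) (u : MultId) (hu : u ∈ U) : Generic V u := by
  unfold Generic
  -- the degree one elements of the associated Lie ring
  let x : Fin (u.n + 1) → RelFree V := fun k => QuotientGroup.mk' (verbal V) (FreeGroup.of (k : ℕ))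
  have hx : ∀ k, x k ∈ (lcsData (RelFree V)).A ((fun _ => 1 : Fin (u.n + 1) → ℕ+) k) :=
    fun k => Subgroup.mem_top _
  have hsum : ∀ i : Fin (u.n + 1) → ℕ+, ((sumIdx u.n i : ℕ+) : ℕ) = ∑ k, (i k : ℕ) :=
    fun i => map_sumIdx (fun j : ℕ+ => (j : ℕ)) (fun _ _ => PNat.add_coe _ _) u.n i
  have hperm : ∀ σ : Equiv.Perm (Fin (u.n + 1)),
      sumIdx u.n (fun k => (fun _ => 1 : Fin (u.n + 1) → ℕ+) (σ k)) =
        sumIdx u.n (fun _ => 1 : Fin (u.n + 1) → ℕ+) := fun σ => rfl
  have hmem : u.gEval x ∈ (lcsData (RelFree V)).A (sumIdx u.n (fun _ => 1)) :=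
    gEval_mem _ u _ x (fun σ => gComm_mem _ u.n (fun _ => 1) _ (fun k => hx (σ k)))
  have h1 := eval_el (lcsData (RelFree V)) u (fun _ => 1) x hx hperm hmem
  rw [h u hu, eq_comm, GrData.el_eq_zero] at h1
  have h2 : u.gEval x ∈ (⊤ : Subgroup (RelFree V)).lowerCentralSeries (u.n + 1) := by
    have h3 : ((sumIdx u.n (fun _ => 1 : Fin (u.n + 1) → ℕ+) : ℕ+) : ℕ) = u.n + 1 := by
      rw [hsum]; simp
    have h4 : u.gEval x ∈ (⊤ : Subgroup (RelFree V)).lowerCentralSeries
      ((sumIdx u.n (fun _ => 1 : Fin (u.n + 1) → ℕ+) : ℕ+) : ℕ) := h1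
    rwa [h3] at h4
  have h5 : u.gEval x = QuotientGroup.mk' (verbal V)
      (u.gEval (fun k => FreeGroup.of (k : ℕ))) := (map_gEval _ u _).symm
  have h6 : (⊤ : Subgroup (RelFree V)).lowerCentralSeries (u.n + 1) =
      ((⊤ : Subgroup (FreeGroup ℕ)).lowerCentralSeries (u.n + 1)).map
        (QuotientGroup.mk' (verbal V)) := by
    rw [Subgroup.map_lowerCentralSeries, ← MonoidHom.range_eq_map,
      MonoidHom.range_eq_top.2 (QuotientGroup.mk'_surjective _)]
  rw [h5, h6, Subgroup.mem_map] at h2
  obtain ⟨y, hy, hy'⟩ := h2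
  have h7 : y⁻¹ * u.gEval (fun k => FreeGroup.of (k : ℕ)) ∈ verbal V := by
    rw [← QuotientGroup.eq]
    exact hy'
  have h8 := mul_mem (Subgroup.mem_sup_left (T := verbal V) hy) (Subgroup.mem_sup_right h7)
  rwa [mul_inv_cancel_left] at h8

theorem Generic.mem {V : Set (FreeGroup ℕ)} {u : MultId} (h : Generic V u)
    {P : Subgroup (FreeGroup ℕ)} (hV : verbal V ≤ P)
    (hP : (⊤ : Subgroup (FreeGroup ℕ)).lowerCentralSeries (u.n + 1) ≤ P) :
    u.gEval (fun k => FreeGroup.of (k : ℕ)) ∈ P := (sup_le hP hV) h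

end operators

end Pool.Agent.Work.MP_369e59_al
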