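import Pool.Agent.Work.MP_369e59_al.Vanish

/-!
# Brackets of additive subgroups of a Lie ring
-/

namespace Pool.Agent.Work.MP_369e59_al

variable {L : Type*} [LieRing L]

/-- The additive subgroup generated by the brackets `⁅x, y⁆`, `x ∈ X`, `y ∈ Y`. -/
def brk (X Y : AddSubgroup L) : AddSubgroup L :=
  AddSubgroup.closure {v | ∃ x ∈ X, ∃ y ∈ Y, v = ⁅x, y⁆}

theorem mem_brk {X Y : AddSubgroup L} {x y : L} (hx : x ∈ X) (hy : y ∈ Y) : ⁅x, y⁆ ∈ brk X Y :=
  AddSubgroup.subset_closure ⟨x, hx, y, hy, rfl⟩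

theorem brk_le {X Y Z : AddSubgroup L} : brk X Y ≤ Z ↔ ∀ x ∈ X, ∀ y ∈ Y, ⁅x, y⁆ ∈ Z := by
  constructor
  · intro h x hx y hy
    exact h (mem_brk hx hy)
  · intro h
    unfold brk
    rw [AddSubgroup.closure_le]
    rintro _ ⟨x, hx, y, hy, rfl⟩
    exact h x hx y hy

theorem brk_mono {X X' Y Y' : AddSubgroup L} (h : X ≤ X') (h' : Y ≤ Y') : brk X Y ≤ brk X' Y' :=
  brk_le.2 fun _ hx _ hy => mem_brk (h hx) (h' hy)

/-- The elements `x` with `⁅x, y⁆ ∈ Z` for all `y ∈ Y`. -/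
def leftTr (Y Z : AddSubgroup L) : AddSubgroup L where
  carrier := {x | ∀ y ∈ Y, ⁅x, y⁆ ∈ Z}
  add_mem' := by
    intro a b ha hb y hy
    rw [add_lie]
    exact add_mem (ha y hy) (hb y hy)
  zero_mem' := by intro y _; rw [zero_lie]; exact zero_mem _
  neg_mem' := by
    intro a ha y hy
    rw [neg_lie]
    exact neg_mem (ha y hy)

theorem brk_le_iff {X Y Z : AddSubgroup L} : brk X Y ≤ Z ↔ X ≤ leftTr Y Z := by
  rw [brk_le]; rfl

theorem brk_iSup_le {ι : Sort*} {X : ι → AddSubgroup L} {Y Z : AddSubgroup L}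
    (h : ∀ i, brk (X i) Y ≤ Z) : brk (⨆ i, X i) Y ≤ Z := by
  rw [brk_le_iff]
  exact iSup_le fun i => brk_le_iff.1 (h i)

theorem brk_sup_le {X X' Y Z : AddSubgroup L} (h : brk X Y ≤ Z) (h' : brk X' Y ≤ Z) :
    brk (X ⊔ X') Y ≤ Z := by
  rw [brk_le_iff]
  exact sup_le (brk_le_iff.1 h) (brk_le_iff.1 h')

/-- Leibniz rule for brackets of additive subgroups. -/
theorem brk_brk_le {X Y P Z : AddSubgroup L} (h : brk (brk X P) Y ≤ Z) (h' : brk X (brk Y P) ≤ Z) :
    brk (brk X Y) P ≤ Z := by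
  rw [brk_le_iff]
  unfold brk
  rw [AddSubgroup.closure_le]
  rintro _ ⟨x, hx, y, hy, rfl⟩ z hz
  have e : ⁅⁅x, y⁆, z⁆ = ⁅⁅x, z⁆, y⁆ + ⁅x, ⁅y, z⁆⁆ := by
    have h1 := leibniz_lie z x y
    have h2 : ⁅⁅x, y⁆, z⁆ = - ⁅z, ⁅x, y⁆⁆ := (lie_skew _ _).symm
    have h3 : ⁅⁅x, z⁆, y⁆ = - ⁅⁅z, x⁆, y⁆ := by
      rw [← neg_lie, lie_skew]
    have h4 : ⁅x, ⁅y, z⁆⁆ = - ⁅x, ⁅z, y⁆⁆ := by
      rw [← lie_neg, lie_skew]
    rw [h2, h1, h3, h4]
    abel
  rw [e]
  exact add_mem (h (mem_brk (mem_brk hx hz) hy)) (h' (mem_brk hx (mem_brk hy hz)))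

theorem brk_comm_le (X Y : AddSubgroup L) : brk X Y ≤ brk Y X := by
  rw [brk_le]
  intro x hx y hy
  rw [← lie_skew]
  exact neg_mem (mem_brk hy hx)

/-- `P` acts `m` times on `X`. -/
def actn (P X : AddSubgroup L) : ℕ → AddSubgroup L
  | 0 => X
  | m + 1 => brk (actn P X m) P

theorem actn_mono {P X X' : AddSubgroup L} (h : X ≤ X') (m : ℕ) : actn P X m ≤ actn P X' m := by
  induction m with
  | zero => exact h
  | succ m ih => exact brk_mono ih le_rfl

theorem actn_add (P X : AddSubgroup L) (a b : ℕ) : actn P X (a + b) = actn P (actn P X a) b := by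
  induction b with
  | zero => rfl
  | succ b ih =>
    rw [← add_assoc]
    simp only [actn]
    rw [ih]

/-- If `X` is stable under `P` so are all `actn P X m`. -/
theorem actn_anti {P X : AddSubgroup L} (h : brk X P ≤ X) : Antitone (actn P X) := by
  have key : ∀ m, brk (actn P X m) P ≤ actn P X m := by
    intro m
    induction m with
    | zero => exact h
    | succ m ih => exact brk_mono ih le_rfl
  exact antitone_nat_of_succ_le key

/-- Left-normed brackets with several entries in an ideal `I`. -/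
def gI (I : AddSubgroup L) : ℕ → AddSubgroup L
  | 0 => ⊤
  | q + 1 => actn I I q

theorem gI_anti {I : AddSubgroup L} (hI : brk I ⊤ ≤ I) : Antitone (gI I) := by
  refine antitone_nat_of_succ_le fun q => ?_
  cases q with
  | zero => exact le_top
  | succ q => exact actn_anti ((brk_mono le_rfl le_top).trans hI) (Nat.le_succ q)

theorem brk_gI_top {I : AddSubgroup L} (hI : brk I ⊤ ≤ I) (q : ℕ) : brk (gI I q) ⊤ ≤ gI I q := by
  cases q with
  | zero => exact le_top
  | succ q =>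
    change brk (actn I I q) ⊤ ≤ actn I I q
    induction q with
    | zero => exact hI
    | succ q ih => exact brk_brk_le (brk_mono ih le_rfl) (brk_mono le_rfl hI)

theorem brk_gI_I {I : AddSubgroup L} (hI : brk I ⊤ ≤ I) (q : ℕ) : brk (gI I q) I ≤ gI I (q + 1) := by
  cases q with
  | zero => exact (brk_comm_le _ _).trans hI
  | succ q => exact le_rfl

theorem lComm_mem_gI {I : AddSubgroup L} (hI : brk I ⊤ ≤ I) (n : ℕ) (z : Fin (n + 1) → L)
    (b : Fin (n + 1) → Bool) (hb : ∀ i, b i = true → z i ∈ I) :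
    lComm n z ∈ gI I (∑ i, (b i).toNat) := by
  induction n with
  | zero =>
    have h0 : (∑ i : Fin (0 + 1), (b i).toNat) = (b 0).toNat :=
      Fin.sum_univ_one (fun i => (b i).toNat)
    rw [h0]
    cases h : b 0 with
    | false => exact AddSubgroup.mem_top _
    | true => exact hb 0 h
  | succ n ih =>
    rw [Fin.sum_univ_castSucc]
    simp only [lComm]
    have h1 := ih (fun i => z i.castSucc) (fun i => b i.castSucc) (fun i hi => hb _ hi)
    generalize (∑ i : Fin (n + 1), (b i.castSucc).toNat) = q at h1 ⊢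
    cases h : b (Fin.last (n + 1)) with
    | false =>
      simp only [Bool.toNat_false, add_zero]
      exact brk_gI_top hI q (mem_brk h1 (AddSubgroup.mem_top _))
    | true =>
      simp only [Bool.toNat_true]
      exact brk_gI_I hI q (mem_brk h1 (hb _ h))

end Pool.Agent.Work.MP_369e59_al
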