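import Pool.Agent.Work.MP_369e59_al.LieBasic

/-!
# Multilinear identities in metabelian sections of Lie rings
-/

namespace Pool.Agent.Work.MP_369e59_al

variable {L : Type*} [LieRing L]

/-- The left-normed bracket of `y` with the entries of a list. -/
def lb (y : L) (l : List L) : L := l.foldl (fun v z => ⁅v, z⁆) y

theorem lb_nil (y : L) : lb y [] = y := rfl

theorem lb_cons (y z : L) (l : List L) : lb y (z :: l) = lb ⁅y, z⁆ l := rfl

theorem lb_concat (y z : L) (l : List L) : lb y (l ++ [z]) = ⁅lb y l, z⁆ := by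
  unfold lb
  rw [List.foldl_append]
  rfl

theorem lb_sub (y y' : L) (l : List L) : lb (y - y') l = lb y l - lb y' l := by
  induction l generalizing y y' with
  | nil => rfl
  | cons z l ih => rw [lb_cons, lb_cons, lb_cons, sub_lie, ih]

theorem lb_zero (l : List L) : lb (0 : L) l = 0 := by
  have := lb_sub (0 : L) 0 l
  rwa [sub_self, sub_self] at this

theorem lb_neg (y : L) (l : List L) : lb (-y) l = - lb y l := by
  have := lb_sub 0 y l
  rwa [lb_zero, zero_sub, zero_sub] at this

theorem lComm_eq_lb (n : ℕ) (a : Fin (n + 1) → L) :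
    lComm n a = lb (a 0) (List.ofFn fun i : Fin n => a i.succ) := by
  induction n with
  | zero => simp [lComm, lb]
  | succ n ih =>
    simp only [lComm]
    rw [ih, List.ofFn_succ', List.concat_eq_append, lb_concat]
    rfl

/-- A metabelian section: `Y` contains the brackets of elements of `P`, and `X` contains the
brackets of elements of `Y`. -/
structure MSec (P Y X : AddSubgroup L) : Prop where
  h1 : brk P P ≤ Y
  h2 : brk Y P ≤ Y
  h3 : brk Y Y ≤ X
  h4 : brk X P ≤ X

namespace MSec

variable {P Y X : AddSubgroup L} (h : MSec P Y X)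

include h

theorem lb_mem_Y {y : L} (hy : y ∈ Y) {l : List L} (hl : ∀ z ∈ l, z ∈ P) : lb y l ∈ Y := by
  induction l generalizing y with
  | nil => exact hy
  | cons z l ih =>
    rw [lb_cons]
    exact ih (h.h2 (mem_brk hy (hl z (by simp)))) (fun w hw => hl w (by simp [hw]))

theorem lb_mem_X {x : L} (hx : x ∈ X) {l : List L} (hl : ∀ z ∈ l, z ∈ P) : lb x l ∈ X := by
  induction l generalizing x with
  | nil => exact hx
  | cons z l ih =>
    rw [lb_cons]
    exact ih (h.h4 (mem_brk hx (hl z (by simp)))) (fun w hw => hl w (by simp [hw]))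

theorem lb_perm {y : L} (hy : y ∈ Y) {l l' : List L} (hp : l.Perm l') (hl : ∀ z ∈ l, z ∈ P) :
    lb y l - lb y l' ∈ X := by
  induction hp generalizing y with
  | nil => rw [sub_self]; exact zero_mem _
  | cons z _ ih =>
    rw [lb_cons, lb_cons]
    exact ih (h.h2 (mem_brk hy (hl z (by simp)))) (fun w hw => hl w (by simp [hw]))
  | swap z z' l =>
    rw [lb_cons, lb_cons, lb_cons, lb_cons, ← lb_sub]
    refine h.lb_mem_X ?_ (fun w hw => hl w (by simp [hw]))
    have e : ⁅⁅y, z'⁆, z⁆ - ⁅⁅y, z⁆, z'⁆ = ⁅y, ⁅z', z⁆⁆ := by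
      have h1 := leibniz_lie y z' z
      have h2 : ⁅z', ⁅y, z⁆⁆ = - ⁅⁅y, z⁆, z'⁆ := (lie_skew _ _).symm
      rw [h1, h2]
      abel
    rw [e]
    exact h.h3 (mem_brk hy (h.h1 (mem_brk (hl z' (by simp)) (hl z (by simp)))))
  | trans h1 h2 ih1 ih2 =>
    have h3 := add_mem (ih1 hy hl) (ih2 hy (fun w hw => hl w (h1.mem_iff.2 hw)))
    rwa [sub_add_sub_cancel] at h3

theorem lb_mem_X_of_mem {v : L} (hv : v ∈ Y) {l : List L} (hl : ∀ z ∈ l, z ∈ P) {y : L}
    (hyl : y ∈ l) (hy : y ∈ Y) : lb v l ∈ X := by
  induction l generalizing v with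
  | nil => exact absurd hyl (by simp)
  | cons z l ih =>
    rw [lb_cons]
    have hl' : ∀ w ∈ l, w ∈ P := fun w hw => hl w (by simp [hw])
    rw [List.mem_cons] at hyl
    rcases hyl with rfl | hyl
    · exact h.lb_mem_X (h.h3 (mem_brk hv hy)) hl'
    · exact ih (h.h2 (mem_brk hv (hl z (by simp)))) hl' hyl

end MSec

/-- The coefficient of a multilinear polynomial in the metabelian Lie ring, when the entry `j` is
in the derived subring. -/
def MultId.coef (u : MultId) (j : Fin (u.n + 1)) : ℤ :=
  ∑ σ : Equiv.Perm (Fin (u.n + 1)), u.c σ * (if σ 0 = j then 1 else if σ 1 = j then -1 else 0)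

theorem perm_ofFn {α : Type*} {n m : ℕ} (a : Fin m → α) (g g' : Fin n → Fin m)
    (hg : Function.Injective g) (hg' : Function.Injective g')
    (h : Set.range g = Set.range g') :
    (List.ofFn fun i => a (g i)).Perm (List.ofFn fun i => a (g' i)) := by
  have h1 : (List.ofFn g).Perm (List.ofFn g') := by
    rw [List.perm_ext_iff_of_nodup (List.nodup_ofFn.2 hg) (List.nodup_ofFn.2 hg')]
    intro x
    rw [List.mem_ofFn, List.mem_ofFn]
    have := Set.ext_iff.1 h x
    simpa using this
  have h2 := h1.map a
  rwa [List.map_ofFn, List.map_ofFn] at h2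

theorem range_succAbove' {n : ℕ} (j : Fin (n + 1)) : Set.range (Fin.succAbove j) = {j}ᶜ :=
  Fin.range_succAbove j

theorem MSec.lComm_sub_mem {P Y X : AddSubgroup L} (h : MSec P Y X) (n : ℕ)
    (a : Fin (n + 1) → L) (j : Fin (n + 1)) (haP : ∀ i, i ≠ j → a i ∈ P) (haY : a j ∈ Y)
    (hYP : a j ∈ P) (σ : Equiv.Perm (Fin (n + 1))) :
    lComm n (fun i => a (σ i)) - ((if σ 0 = j then 1 else if σ 1 = j then -1 else 0 : ℤ)) •
      lb (a j) (List.ofFn fun i : Fin n => a (j.succAbove i)) ∈ X := by
  have haP' : ∀ i, a i ∈ P := by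
    intro i
    by_cases hi : i = j
    · rw [hi]; exact hYP
    · exact haP i hi
  have hcan : ∀ z ∈ (List.ofFn fun i : Fin n => a (j.succAbove i)), z ∈ P := by
    intro z hz
    rw [List.mem_ofFn] at hz
    obtain ⟨i, rfl⟩ := hz
    exact haP' _
  rw [lComm_eq_lb]
  by_cases h0 : σ 0 = j
  · rw [if_pos h0, one_smul, h0]
    refine h.lb_perm haY ?_ ?_
    · refine perm_ofFn a (fun i => σ i.succ) j.succAbove ?_ (Fin.succAbove_right_injective) ?_
      · intro i i' hii
        exact Fin.succ_injective _ (σ.injective hii)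
      · rw [range_succAbove']
        ext x
        simp only [Set.mem_range, Set.mem_compl_iff, Set.mem_singleton_iff]
        constructor
        · rintro ⟨i, rfl⟩ hx
          rw [← h0] at hx
          exact Fin.succ_ne_zero i (σ.injective hx)
        · intro hx
          obtain ⟨i, hi⟩ := σ.surjective x
          have hi0 : i ≠ 0 := by
            rintro rfl
            exact hx (hi.symm.trans h0)
          obtain ⟨i', rfl⟩ := Fin.exists_succ_eq.2 hi0
          exact ⟨i', hi⟩
    · intro z hz
      rw [List.mem_ofFn] at hz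
      obtain ⟨i, rfl⟩ := hz
      exact haP' _
  · rw [if_neg h0]
    rcases n with _ | n
    · exact absurd (Fin.ext (by have := (σ 0).2; have := j.2; omega)) h0
    rw [List.ofFn_succ, lb_cons]
    have hone : (Fin.succ 0 : Fin (n + 1 + 1)) = 1 := rfl
    rw [hone]
    have hrest : ∀ z ∈ (List.ofFn fun i : Fin n => a (σ i.succ.succ)), z ∈ P := by
      intro z hz
      rw [List.mem_ofFn] at hz
      obtain ⟨i, rfl⟩ := hz
      exact haP' _
    by_cases h1 : σ 1 = j
    · rw [if_pos h1, neg_smul, one_smul, sub_neg_eq_add, h1]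
      have e1 : ⁅a (σ 0), a j⁆ = - ⁅a j, a (σ 0)⁆ := (lie_skew _ _).symm
      rw [e1, lb_neg, ← lb_cons, neg_add_eq_sub]
      have hperm : (List.ofFn fun i : Fin (n + 1) => a (j.succAbove i)).Perm
          (a (σ 0) :: List.ofFn fun i : Fin n => a (σ i.succ.succ)) := by
        have h2 := perm_ofFn a j.succAbove (Fin.cons (σ 0) fun i : Fin n => σ i.succ.succ)
          (Fin.succAbove_right_injective) ?_ ?_
        · rw [List.ofFn_succ (f := fun i => a ((Fin.cons (σ 0) fun i : Fin n => σ i.succ.succ :
            Fin (n + 1) → Fin (n + 1 + 1)) i))] at h2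
          simpa using h2
        · rw [Fin.cons_injective_iff]
          constructor
          · rintro ⟨i, hi⟩
            exact (Fin.succ_ne_zero _) (σ.injective hi)
          · intro i i' hii
            exact Fin.succ_injective _ (Fin.succ_injective _ (σ.injective hii))
        · rw [range_succAbove', Fin.range_cons]
          ext x
          simp only [Set.mem_compl_iff, Set.mem_singleton_iff, Set.mem_insert_iff, Set.mem_range]
          constructor
          · intro hx
            obtain ⟨i, hi⟩ := σ.surjective x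
            by_cases hi0 : i = 0
            · left; rw [← hi, hi0]
            · right
              obtain ⟨i', rfl⟩ := Fin.exists_succ_eq.2 hi0
              have hi1 : i' ≠ 0 := by
                rintro rfl
                exact hx (hi.symm.trans h1)
              obtain ⟨i'', rfl⟩ := Fin.exists_succ_eq.2 hi1
              exact ⟨i'', hi⟩
          · rintro (rfl | ⟨i, rfl⟩)
            · exact h0
            · intro hx
              rw [← h1] at hx
              have h5 := σ.injective hx
              have h6 : (i.succ.succ : Fin (n + 1 + 1)) ≠ Fin.succ 0 := fun h7 =>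
                Fin.succ_ne_zero i (Fin.succ_injective _ h7)
              exact h6 h5
      refine h.lb_perm haY hperm ?_
      exact hcan
    · rw [if_neg h1, zero_smul, sub_zero]
      refine h.lb_mem_X_of_mem (h.h1 (mem_brk (haP' _) (haP' _))) hrest (y := a j) ?_ haY
      obtain ⟨i, hi⟩ := σ.surjective j
      have hi0 : i ≠ 0 := by rintro rfl; exact h0 hi
      obtain ⟨i', rfl⟩ := Fin.exists_succ_eq.2 hi0
      have hi1 : i' ≠ 0 := by rintro rfl; exact h1 hi
      obtain ⟨i'', rfl⟩ := Fin.exists_succ_eq.2 hi1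
      rw [List.mem_ofFn]
      exact ⟨i'', by rw [hi]⟩

theorem MSec.eval_sub_mem {P Y X : AddSubgroup L} (h : MSec P Y X) (u : MultId)
    (a : Fin (u.n + 1) → L) (j : Fin (u.n + 1)) (haP : ∀ i, i ≠ j → a i ∈ P) (haY : a j ∈ Y)
    (hYP : a j ∈ P) :
    u.eval a - u.coef j • lb (a j) (List.ofFn fun i : Fin u.n => a (j.succAbove i)) ∈ X := by
  unfold MultId.eval MultId.coef
  rw [Finset.sum_smul, ← Finset.sum_sub_distrib]
  refine sum_mem fun σ _ => ?_
  rw [mul_smul, ← smul_sub]
  exact zsmul_mem (h.lComm_sub_mem u.n a j haP haY hYP σ) _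

end Pool.Agent.Work.MP_369e59_al
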