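import Pool.Agent.Work.MP_369e59_al.SatG

/-!
# From homogeneous elements to all elements
-/

namespace Pool.Agent.Work.MP_369e59_al

open scoped commutatorElement

section multiadditive

variable {L L' : Type*} [AddCommGroup L] [AddCommGroup L']

/-- Additivity in each coordinate. -/
def IsMA {m : ℕ} (F : (Fin m → L) → L') : Prop :=
  ∀ (a : Fin m → L) (i : Fin m) (x y : L),
    F (Function.update a i (x + y)) = F (Function.update a i x) + F (Function.update a i y)

theorem IsMA.eq_zero {m : ℕ} {F : (Fin m → L) → L'} (hF : IsMA F) (S : Set L)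
    (hS : ∀ P : L → Prop, P 0 → (∀ s ∈ S, P s) → (∀ x y, P x → P y → P (x + y)) → ∀ x, P x)
    (h : ∀ a : Fin m → L, (∀ i, a i ∈ S) → F a = 0) (a : Fin m → L) : F a = 0 := by
  have key : ∀ (I : Finset (Fin m)) (a : Fin m → L), (∀ i ∉ I, a i ∈ S) → F a = 0 := by
    intro I
    induction I using Finset.induction_on with
    | empty => intro a ha; exact h a (fun i => ha i (Finset.notMem_empty i))
    | insert i₀ I _ ih =>
      intro a ha
      have h1 : ∀ x : L, F (Function.update a i₀ x) = 0 := by
        refine hS _ ?_ ?_ ?_
        · have := hF a i₀ 0 0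
          rw [add_zero] at this
          exact left_eq_add.1 this
        · intro s hs
          refine ih _ (fun i hi => ?_)
          by_cases h2 : i = i₀
          · subst h2; simpa using hs
          · rw [Function.update_of_ne h2]
            exact ha i (by simp [h2, hi])
        · intro x y hx hy
          rw [hF, hx, hy, add_zero]
      have h2 := h1 (a i₀)
      rwa [Function.update_eq_self] at h2
  exact key Finset.univ a (fun i hi => absurd (Finset.mem_univ i) hi)

end multiadditive

section lie

variable {L : Type*} [LieRing L]

theorem isMA_lComm (n : ℕ) : IsMA (fun a : Fin (n + 1) → L => lComm n a) := by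
  induction n with
  | zero =>
    intro a i x y
    have : i = 0 := Fin.ext (by have := i.2; simp only [Fin.val_zero]; omega)
    subst this
    simp [lComm]
  | succ n ih =>
    intro a i x y
    simp only [lComm]
    induction i using Fin.lastCases with
    | last =>
      have e : ∀ z : L, (fun i : Fin (n + 1) => Function.update a (Fin.last (n + 1)) z i.castSucc) =
          fun i => a i.castSucc := by
        intro z; funext i
        rw [Function.update_of_ne (Fin.castSucc_lt_last i).ne]
      rw [e, e, e, Function.update_self, Function.update_self, Function.update_self, lie_add]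
    | cast j =>
      have e : ∀ z : L, (fun i : Fin (n + 1) => Function.update a j.castSucc z i.castSucc) =
          Function.update (fun i => a i.castSucc) j z := by
        intro z; funext i
        by_cases h : i = j
        · subst h; simp
        · rw [Function.update_of_ne h,
            Function.update_of_ne (fun h' => h (Fin.castSucc_injective _ h'))]
      rw [e, e, e]
      have e2 : ∀ z : L, Function.update a j.castSucc z (Fin.last (n + 1)) =
          a (Fin.last (n + 1)) := fun z => by
        rw [Function.update_of_ne (Fin.castSucc_lt_last j).ne']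
      rw [e2, e2, e2]
      have := ih (fun i => a i.castSucc) j x y
      simp only at this
      rw [this, add_lie]

theorem isMA_eval (u : MultId) : IsMA (fun a : Fin (u.n + 1) → L => u.eval a) := by
  intro a i x y
  simp only [MultId.eval]
  rw [← Finset.sum_add_distrib]
  refine Finset.sum_congr rfl fun σ _ => ?_
  have e : ∀ z : L, (fun k => Function.update a i z (σ k)) =
      Function.update (fun k => a (σ k)) (σ.symm i) z := by
    intro z; funext k
    by_cases h : σ k = i
    · subst h; simp
    · rw [Function.update_of_ne h, Function.update_of_ne]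
      intro h'; subst h'; exact h (by simp)
  rw [e, e, e]
  have := isMA_lComm u.n (fun k => a (σ k)) (σ.symm i) x y
  simp only at this
  rw [this, smul_add]

end lie

section main

variable {Ω : Type*} [Group Ω] {K : Type*} [Group K] [MulDistribMulAction Ω K]
  {M : ℕ → Subgroup K}

/-- The graded Lie ring of the two-parameter filtration satisfies the identities. -/
theorem sat_dData (hM : IsChn M) (hO : IsOpChn Ω M) {W : Set (FreeGroup (ℕ × Ω))}
    (hW : InVO W K) {U : Set MultId} (hU : ∀ u ∈ U, Generic (proj Ω '' W) u) :
    Sat U (dData hM).L := by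
  intro u hu
  refine (isMA_eval u).eq_zero {x | ∃ i g, ∃ hg : g ∈ (dData hM).A i, x = (dData hM).el i g hg}
    ?_ ?_
  · intro P h0 h1 h2 x
    exact (dData hM).L_ind x h0 (fun i g hg => h1 _ ⟨i, g, hg, rfl⟩) h2
  · intro a ha
    choose i g hg hag using ha
    have e : a = fun k => (dData hM).el (i k) (g k) (hg k) := funext hag
    have hfst : ∀ i : Fin (u.n + 1) → ℕ+ × ℕ, ((sumIdx u.n i).1 : ℕ) = ∑ k, ((i k).1 : ℕ) :=
      fun i => map_sumIdx (fun j : ℕ+ × ℕ => (j.1 : ℕ)) (fun _ _ => PNat.add_coe _ _) u.n i
    have hsnd : ∀ i : Fin (u.n + 1) → ℕ+ × ℕ, (sumIdx u.n i).2 = ∑ k, (i k).2 :=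
      fun i => map_sumIdx (fun j : ℕ+ × ℕ => j.2) (fun _ _ => rfl) u.n i
    have hperm : ∀ σ : Equiv.Perm (Fin (u.n + 1)),
        sumIdx u.n (fun k => i (σ k)) = sumIdx u.n i := by
      intro σ
      refine Prod.ext (PNat.coe_injective ?_) ?_
      · rw [hfst, hfst]
        exact Equiv.sum_comp σ (fun k => ((i k).1 : ℕ))
      · rw [hsnd, hsnd]
        exact Equiv.sum_comp σ (fun k => (i k).2)
    have hmem : u.gEval g ∈ (dData hM).A (sumIdx u.n i) :=
      gEval_mem _ u _ g (fun σ => by
        rw [← hperm σ]
        exact gComm_mem _ u.n _ _ (fun k => hg (σ k)))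
    rw [e]
    change u.eval _ = 0
    rw [eval_el (dData hM) u i g hg hperm hmem, GrData.el_eq_zero]
    change u.gEval g ∈ DD M ((sumIdx u.n i).1 : ℕ) ((sumIdx u.n i).2 + 1)
    rw [hfst, hsnd]
    exact gEval_mem_DD hM hO hW u (hU u hu) (fun k => ((i k).1 : ℕ)) (fun k => (i k).2)
      (fun k => (i k).1.pos) g (fun k => hg k)

end main

end Pool.Agent.Work.MP_369e59_al
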