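import Pool.Agent.Work.MP_369e59_al.LieMeta
import Pool.Agent.Work.MP_369e59_al.SatL

/-!
# Metabelian sections of Lie rings with multilinear identities are nilpotent
-/

namespace Pool.Agent.Work.MP_369e59_al

/-! ### A two-generator metabelian Lie ring of class `k + 1` and characteristic `p` -/

/-- The truncated shift. -/
def shft (p k : ℕ) : (ℕ → ZMod p) →ₗ[ZMod p] (ℕ → ZMod p) where
  toFun v := fun i => if 1 ≤ i ∧ i ≤ k then v (i - 1) else 0
  map_add' v w := by
    funext i
    simp only [Pi.add_apply]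
    split_ifs <;> simp
  map_smul' c v := by
    funext i
    simp only [Pi.smul_apply, RingHom.id_apply]
    split_ifs <;> simp

theorem shft_apply (p k : ℕ) (v : ℕ → ZMod p) (i : ℕ) :
    shft p k v i = if 1 ≤ i ∧ i ≤ k then v (i - 1) else 0 := rfl

/-- The model. -/
def Bm (p _k : ℕ) : Type := ZMod p × (ℕ → ZMod p)

instance (p k : ℕ) : AddCommGroup (Bm p k) :=
  inferInstanceAs (AddCommGroup (ZMod p × (ℕ → ZMod p)))

/-- Elements of the model. -/
def bmk {p k : ℕ} (α : ZMod p) (v : ℕ → ZMod p) : Bm p k := (α, v)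

theorem bmk_fst {p k : ℕ} (α : ZMod p) (v : ℕ → ZMod p) : (bmk α v : Bm p k).1 = α := rfl

theorem bmk_snd {p k : ℕ} (α : ZMod p) (v : ℕ → ZMod p) : (bmk α v : Bm p k).2 = v := rfl

/-- The bracket of the model. -/
def bmBr {p k : ℕ} (x y : Bm p k) : Bm p k :=
  (0, y.1 • shft p k x.2 - x.1 • shft p k y.2)

theorem Bm.ext' {p k : ℕ} {x y : Bm p k} (h1 : x.1 = y.1) (h2 : x.2 = y.2) : x = y :=
  Prod.ext h1 h2

theorem Bm.add_fst {p k : ℕ} (x y : Bm p k) : (x + y).1 = x.1 + y.1 := rfl

theorem Bm.add_snd {p k : ℕ} (x y : Bm p k) : (x + y).2 = x.2 + y.2 := rfl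

theorem Bm.zero_fst {p k : ℕ} : (0 : Bm p k).1 = 0 := rfl

theorem Bm.zero_snd {p k : ℕ} : (0 : Bm p k).2 = 0 := rfl

instance (p k : ℕ) : LieRing (Bm p k) where
  bracket := bmBr
  add_lie x y z := by
    change bmBr (x + y) z = bmBr x z + bmBr y z
    refine Bm.ext' ?_ ?_
    · simp [bmBr, Bm.add_fst]
    · simp only [bmBr, Bm.add_fst, Bm.add_snd, map_add, smul_add, add_smul]
      abel
  lie_add x y z := by
    change bmBr x (y + z) = bmBr x y + bmBr x z
    refine Bm.ext' ?_ ?_
    · simp [bmBr, Bm.add_fst]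
    · simp only [bmBr, Bm.add_fst, Bm.add_snd, map_add, smul_add, add_smul]
      abel
  lie_self x := by
    change bmBr x x = 0
    refine Bm.ext' rfl ?_
    simp only [bmBr, Bm.zero_snd, sub_self]
  leibniz_lie x y z := by
    change bmBr x (bmBr y z) = bmBr (bmBr x y) z + bmBr y (bmBr x z)
    refine Bm.ext' ?_ ?_
    · simp [bmBr, Bm.add_fst]
    · simp only [bmBr, Bm.add_snd, map_sub, map_smul, smul_sub, smul_smul, zero_smul, sub_zero,
        zero_sub]
      rw [mul_comm z.1 y.1, mul_comm z.1 x.1, mul_comm y.1 x.1]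
      abel

theorem bm_lie {p k : ℕ} (x y : Bm p k) :
    ⁅x, y⁆ = ((0, y.1 • shft p k x.2 - x.1 • shft p k y.2) : Bm p k) := rfl

theorem bm_nsmul {p k : ℕ} (x : Bm p k) : p • x = 0 := by
  refine Bm.ext' ?_ ?_
  · change p • x.1 = 0
    rw [nsmul_eq_mul, ZMod.natCast_self, zero_mul]
  · change p • x.2 = 0
    funext i
    change p • x.2 i = 0
    rw [nsmul_eq_mul, ZMod.natCast_self, zero_mul]

theorem bm_zsmul {p k : ℕ} {m : ℤ} (hm : (p : ℤ) ∣ m) (x : Bm p k) : m • x = 0 := by
  obtain ⟨c, rfl⟩ := hm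
  rw [mul_comm, mul_smul, natCast_zsmul, bm_nsmul, smul_zero]

theorem bm_lComm {p k : ℕ} (n : ℕ) (a : Fin (n + 1 + 1) → Bm p k) :
    (lComm (n + 1) a).1 = 0 ∧ ∀ i, (i < n + 1 ∨ k < i) → (lComm (n + 1) a).2 i = 0 := by
  induction n with
  | zero =>
    refine ⟨rfl, fun i hi => ?_⟩
    simp only [lComm, bm_lie]
    have h1 : ¬ (1 ≤ i ∧ i ≤ k) := by omega
    simp only [Pi.sub_apply, Pi.smul_apply, shft_apply, if_neg h1, smul_zero, sub_zero]
  | succ n ih =>
    obtain ⟨ih1, ih2⟩ := ih (fun i => a i.castSucc)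
    refine ⟨rfl, fun i hi => ?_⟩
    have e : lComm (n + 1 + 1) a = ⁅lComm (n + 1) (fun i => a i.castSucc), a (Fin.last _)⁆ := rfl
    rw [e, bm_lie]
    simp only [Pi.sub_apply, Pi.smul_apply, shft_apply, ih1, zero_smul, Pi.zero_apply, sub_zero]
    split_ifs with h1
    · rw [ih2 (i - 1) (by omega), smul_zero]
    · rw [smul_zero]

/-- The abelian ideal of the model. -/
def bmV (p k : ℕ) : AddSubgroup (Bm p k) where
  carrier := {x | x.1 = 0}
  add_mem' := by
    intro x y hx hy
    change x.1 + y.1 = 0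
    rw [hx, hy, add_zero]
  zero_mem' := rfl
  neg_mem' := by
    intro x hx
    change -x.1 = 0
    rw [hx, neg_zero]

theorem bm_msec (p k : ℕ) : MSec (⊤ : AddSubgroup (Bm p k)) (bmV p k) ⊥ where
  h1 := brk_le.2 fun _ _ _ _ => rfl
  h2 := brk_le.2 fun _ _ _ _ => rfl
  h3 := by
    rw [brk_le]
    intro x hx y hy
    have hx' : x.1 = 0 := hx
    have hy' : y.1 = 0 := hy
    rw [AddSubgroup.mem_bot, bm_lie, hx', hy', zero_smul, zero_smul, sub_zero]
    rfl
  h4 := by
    rw [brk_le]
    intro x hx y _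
    rw [AddSubgroup.mem_bot] at hx ⊢
    rw [hx, zero_lie]

theorem bm_top {p k : ℕ} (n : ℕ) (hn : n ≤ k) :
    lComm n (fun i : Fin (n + 1) => if i = 0 then (bmk 0 (Pi.single 0 1) : Bm p k)
      else (bmk 1 0 : Bm p k)) = (bmk 0 (Pi.single n 1) : Bm p k) := by
  induction n with
  | zero => simp [lComm]
  | succ n ih =>
    simp only [lComm]
    have e1 : (fun i : Fin (n + 1) => if i.castSucc = 0 then (bmk 0 (Pi.single 0 1) : Bm p k)
        else (bmk 1 0 : Bm p k)) = (fun i : Fin (n + 1) => if i = 0 then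
          (bmk 0 (Pi.single 0 1) : Bm p k) else (bmk 1 0 : Bm p k)) := by
      funext i
      simp only [Fin.castSucc_eq_zero_iff]
    have e2 : (Fin.last (n + 1)) ≠ 0 := (Fin.last_pos).ne'
    rw [e1, ih (by omega), if_neg e2, bm_lie]
    refine Bm.ext' rfl ?_
    funext i
    simp only [bmk_fst, bmk_snd, one_smul, zero_smul, sub_zero, shft_apply]
    split_ifs with h
    · by_cases hi : i = n + 1
      · subst hi; simp
      · rw [Pi.single_eq_of_ne (by omega), Pi.single_eq_of_ne hi]
    · rw [Pi.single_eq_of_ne]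
      omega

/-- If two-generator Lie rings satisfying `U` have class at most `k`, then for every prime `p`
there is an identity in `U` of degree at most `k + 1` which is not trivial modulo `p` in metabelian
Lie rings. -/
theorem exists_coef {U : Set MultId} {k : ℕ} (h : VanishAt.{0} U 2 k) (p : ℕ) (hp : p.Prime) :
    ∃ u ∈ U, u.n ≤ k ∧ ∃ j, ¬ (p : ℤ) ∣ u.coef j := by
  by_contra hcon
  push Not at hcon
  have : Fact p.Prime := ⟨hp⟩
  have hsat : Sat U (Bm p k) := by
    intro u hu
    refine (isMA_eval u).eq_zero {x : Bm p k | x.1 = 0 ∨ x.2 = 0} ?_ ?_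
    · intro P _ h1 h2 x
      have e : x = ((x.1, 0) : Bm p k) + ((0, x.2) : Bm p k) :=
        Bm.ext' (add_zero _).symm (zero_add _).symm
      rw [e]
      exact h2 _ _ (h1 _ (Or.inr rfl)) (h1 _ (Or.inl rfl))
    · intro a ha
      change u.eval a = 0
      by_cases hV : ∃ j, (a j).1 = 0
      · obtain ⟨j, hj⟩ := hV
        have h1 := (bm_msec p k).eval_sub_mem u a j (fun _ _ => AddSubgroup.mem_top _) hj
          (AddSubgroup.mem_top _)
        rw [AddSubgroup.mem_bot, sub_eq_zero] at h1
        rcases le_or_gt u.n k with hk | hk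
        · rw [h1]
          exact bm_zsmul (hcon u hu hk j) _
        · unfold MultId.eval
          refine Finset.sum_eq_zero fun σ _ => ?_
          have h2 : ∀ (n : ℕ) (b : Fin (n + 1) → Bm p k), k < n → lComm n b = 0 := by
            intro n b hn
            obtain ⟨m, rfl⟩ : ∃ m, n = m + 1 := ⟨n - 1, by omega⟩
            obtain ⟨h3, h4⟩ := bm_lComm m b
            refine Bm.ext' h3 ?_
            funext i
            exact h4 i (by omega)
          rw [h2 u.n _ hk, smul_zero]
      · push Not at hV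
        have h2 : ∀ i, (a i).2 = 0 := fun i => (ha i).resolve_left (hV i)
        obtain ⟨n, c⟩ := u
        rcases n with _ | n
        · have h3 := hcon _ hu (Nat.zero_le k) (0 : Fin 1)
          have h4 : MultId.eval (⟨0, c⟩ : MultId) a = MultId.coef (⟨0, c⟩ : MultId) (0 : Fin 1) •
              a (0 : Fin 1) := by
            unfold MultId.eval MultId.coef
            rw [Finset.sum_smul]
            refine Finset.sum_congr rfl fun σ _ => ?_
            have h5 : σ 0 = 0 := Fin.ext (by
              have h6 : ((σ 0 : Fin (0 + 1)) : ℕ) < 0 + 1 := (σ 0).2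
              simp only [Fin.val_zero]; omega)
            simp only [h5, if_true, mul_one, lComm]
          rw [h4]
          exact bm_zsmul h3 _
        · unfold MultId.eval
          refine Finset.sum_eq_zero fun σ _ => ?_
          have h5 : ∀ (m : ℕ) (b : Fin (m + 1 + 1) → Bm p k), (∀ i, (b i).2 = 0) →
              lComm (m + 1) b = 0 := by
            intro m
            induction m with
            | zero =>
              intro b hb
              simp only [lComm, bm_lie]
              refine Bm.ext' rfl ?_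
              simp only [hb, map_zero, smul_zero, sub_zero]
              rfl
            | succ m ih =>
              intro b hb
              have e : lComm (m + 1 + 1) b =
                  ⁅lComm (m + 1) (fun i => b i.castSucc), b (Fin.last _)⁆ := rfl
              rw [e, ih _ (fun i => hb _), zero_lie]
          rw [h5 n _ (fun i => h2 _), smul_zero]
  have h1 := h (Bm p k) hsat ![(bmk 0 (Pi.single 0 1) : Bm p k), (bmk 1 0 : Bm p k)]
    (fun i => if i = 0 then 0 else 1)
  have h2 : (fun i : Fin (k + 1) => (![(bmk 0 (Pi.single 0 1) : Bm p k), (bmk 1 0 : Bm p k)] :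
      Fin 2 → Bm p k) (if i = 0 then 0 else 1)) = (fun i : Fin (k + 1) => if i = 0 then
        (bmk 0 (Pi.single 0 1) : Bm p k) else (bmk 1 0 : Bm p k)) := by
    funext i
    split_ifs <;> rfl
  rw [h2, bm_top k le_rfl] at h1
  have h3 := congrArg (fun x : Bm p k => x.2 k) h1
  simp only [bmk_snd, Pi.single_eq_same, Bm.zero_snd, Pi.zero_apply] at h3
  exact one_ne_zero h3

/-! ### The bound in metabelian sections -/

variable {L : Type*} [LieRing L]

/-- The left-normed bracket with a list as an additive map. -/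
def lbHom (l : List L) : L →+ L :=
  AddMonoidHom.mk' (fun y => lb y l) (fun y y' => by
    have h1 := lb_sub y (-y') l
    rw [sub_neg_eq_add, lb_neg, sub_neg_eq_add] at h1
    exact h1)

theorem lbHom_apply (l : List L) (y : L) : lbHom l y = lb y l := rfl

theorem lb_append (y : L) (l l' : List L) : lb y (l ++ l') = lb (lb y l) l' := by
  unfold lb
  rw [List.foldl_append]

theorem MSec.coef_smul_mem {U : Set MultId} (hL : Sat U L) {P Y X : AddSubgroup L}
    (h : MSec P Y X) (hYP : Y ≤ P) {u : MultId} (hu : u ∈ U) (j : Fin (u.n + 1)) {y : L}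
    (hy : y ∈ Y) {l : List L} (hl : ∀ z ∈ l, z ∈ P) (hlen : l.length = u.n) :
    u.coef j • lb y l ∈ X := by
  obtain ⟨n, c⟩ := u
  change l.length = n at hlen
  subst hlen
  let a : Fin (l.length + 1) → L := Fin.insertNth j y (fun i => l.get i)
  have ha : a j = y := by simp [a]
  have ha' : ∀ i, a (j.succAbove i) = l.get i := fun i => by simp [a]
  have h1 := h.eval_sub_mem (⟨l.length, c⟩ : MultId) a j ?_ (by rw [ha]; exact hy)
    (by rw [ha]; exact hYP hy)
  · rw [hL _ hu, zero_sub] at h1
    have h2 := neg_mem h1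
    rw [neg_neg, ha] at h2
    have h3 : (List.ofFn fun i : Fin l.length => a (j.succAbove i)) = l := by
      simp only [ha']
      exact List.ofFn_get l
    have h4 : (List.ofFn fun i : Fin (MultId.n ⟨l.length, c⟩) => a (j.succAbove i)) = l := h3
    rw [h4] at h2
    exact h2
  · intro i hi
    obtain ⟨i', rfl⟩ := Fin.exists_succAbove_eq hi
    rw [ha']
    exact hl _ (List.get_mem l i')

/-- In a metabelian section of a Lie ring satisfying `U`, brackets with `k` elements vanish. -/
theorem MSec.lb_mem {U : Set MultId} (hL : Sat U L) {k : ℕ}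
    (hC : ∀ p : ℕ, p.Prime → ∃ u ∈ U, u.n ≤ k ∧ ∃ j, ¬ (p : ℤ) ∣ u.coef j)
    {P Y X : AddSubgroup L} (h : MSec P Y X) (hYP : Y ≤ P) {y : L}
    (hy : y ∈ Y) {l : List L} (hl : ∀ z ∈ l, z ∈ P) (hlen : l.length = k) : lb y l ∈ X := by
  let J : Ideal ℤ :=
    { carrier := {m | m • lb y l ∈ X}
      add_mem' := by
        intro a b ha hb
        simp only [Set.mem_ofPred_eq] at *
        rw [add_smul]
        exact add_mem ha hb
      zero_mem' := by
        simp only [Set.mem_ofPred_eq]
        rw [zero_smul]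
        exact zero_mem _
      smul_mem' := by
        intro c m hm
        simp only [Set.mem_ofPred_eq] at *
        rw [smul_eq_mul, mul_smul]
        exact zsmul_mem hm c }
  have hJ : ∀ u ∈ U, u.n ≤ k → ∀ j, u.coef j ∈ J := by
    intro u hu huk j
    change u.coef j • lb y l ∈ X
    have e : l = l.take u.n ++ l.drop u.n := (List.take_append_drop _ _).symm
    rw [e, lb_append, ← lbHom_apply, ← map_zsmul, lbHom_apply]
    refine h.lb_mem_X ?_ (fun z hz => hl z (List.mem_of_mem_drop hz))
    refine h.coef_smul_mem hL hYP hu j hy (fun z hz => hl z (List.mem_of_mem_take hz)) ?_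
    rw [List.length_take, hlen]
    omega
  have hJ1 : (1 : ℤ) ∈ J := by
    obtain ⟨g, hg⟩ : ∃ g : ℤ, J = Ideal.span {g} :=
      (IsPrincipalIdealRing.principal J).principal
    by_cases hg1 : g.natAbs = 1
    · rw [hg, Ideal.mem_span_singleton]
      exact (Int.isUnit_iff_natAbs_eq.2 hg1).dvd
    · exfalso
      obtain ⟨p, hp, hpg⟩ := Nat.exists_prime_and_dvd hg1
      obtain ⟨u, hu, huk, j, hj⟩ := hC p hp
      apply hj
      have h1 := hJ u hu huk j
      rw [hg, Ideal.mem_span_singleton] at h1
      exact (Int.natCast_dvd.2 hpg).trans h1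
  have h1 : (1 : ℤ) • lb y l ∈ X := hJ1
  rwa [one_smul] at h1

theorem MSec.actn_le {U : Set MultId} (hL : Sat U L) {k : ℕ}
    (hC : ∀ p : ℕ, p.Prime → ∃ u ∈ U, u.n ≤ k ∧ ∃ j, ¬ (p : ℤ) ∣ u.coef j)
    {P Y X : AddSubgroup L} (h : MSec P Y X) (hYP : Y ≤ P) : actn P Y k ≤ X := by
  have key : ∀ (m : ℕ) (l : List L), (∀ z ∈ l, z ∈ P) → l.length + m = k →
      ∀ x ∈ actn P Y m, lb x l ∈ X := by
    intro m
    induction m with
    | zero =>
      intro l hl hlen x hx
      exact h.lb_mem hL hC hYP hx hl (by omega)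
    | succ m ih =>
      intro l hl hlen x hx
      have h1 : actn P Y (m + 1) ≤ X.comap (lbHom l) := by
        change brk (actn P Y m) P ≤ _
        rw [brk_le]
        intro v hv z hz
        change lb ⁅v, z⁆ l ∈ X
        rw [← lb_cons]
        refine ih (z :: l) ?_ (by simp only [List.length_cons]; omega) v hv
        intro w hw
        rw [List.mem_cons] at hw
        rcases hw with rfl | hw
        · exact hz
        · exact hl w hw
      exact h1 hx
  intro x hx
  exact key k [] (by simp) (by simp) x hx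

end Pool.Agent.Work.MP_369e59_al
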