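import Pool.Agent.Work.MP_369e59_al.LieModel

/-!
# Soluble Lie rings with multilinear identities are nilpotent
-/

namespace Pool.Agent.Work.MP_369e59_al

variable {L : Type*} [LieRing L]

/-- The derived series. -/
def Dser (P : AddSubgroup L) : ℕ → AddSubgroup L
  | 0 => P
  | i + 1 => brk (Dser P i) (Dser P i)

/-- A set-up for the inductive step. -/
structure HallData (L : Type*) [LieRing L] where
  /-- the acting subring -/
  P : AddSubgroup L
  /-- an ideal of `P` -/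
  Q : AddSubgroup L
  /-- the length -/
  N : ℕ
  /-- the length in metabelian sections -/
  k : ℕ
  hQP : Q ≤ P
  hQ : brk Q P ≤ Q
  hN : actn P Q N ≤ brk Q Q
  hk : actn Q (brk Q Q) k ≤ brk (brk Q Q) (brk Q Q)

namespace HallData

variable (D : HallData L)

/-- `[Q, Q]` -/
def Y : AddSubgroup L := brk D.Q D.Q

/-- `[[Q, Q], [Q, Q]]` -/
def X : AddSubgroup L := brk D.Y D.Y

theorem Y_P : brk D.Y D.P ≤ D.Y :=
  brk_brk_le (brk_mono D.hQ le_rfl) (brk_mono le_rfl D.hQ)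

theorem X_P : brk D.X D.P ≤ D.X :=
  brk_brk_le (brk_mono D.Y_P le_rfl) (brk_mono le_rfl D.Y_P)

theorem Y_le : D.Y ≤ D.Q := (brk_mono le_rfl D.hQP).trans D.hQ

theorem Y_Q : brk D.Y D.Q ≤ D.Y := (brk_mono le_rfl D.hQP).trans D.Y_P

theorem X_Q : brk D.X D.Q ≤ D.X := (brk_mono le_rfl D.hQP).trans D.X_P

theorem X_le : D.X ≤ D.Y := (brk_mono le_rfl D.Y_le).trans D.Y_Q

/-- `[Y, Q, ..., Q] + X` -/
def Xj (j : ℕ) : AddSubgroup L := actn D.Q D.Y j ⊔ D.X

theorem X_le_Xj (j : ℕ) : D.X ≤ D.Xj j := le_sup_right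

theorem Xj_Q (j : ℕ) : brk (D.Xj j) D.Q ≤ D.Xj (j + 1) :=
  brk_sup_le le_sup_left (D.X_Q.trans le_sup_right)

theorem Xj_P (j : ℕ) : brk (D.Xj j) D.P ≤ D.Xj j := by
  have key : ∀ j, brk (actn D.Q D.Y j) D.P ≤ actn D.Q D.Y j := by
    intro j
    induction j with
    | zero => exact D.Y_P
    | succ j ih => exact brk_brk_le (brk_mono ih le_rfl) (brk_mono le_rfl D.hQ)
  exact brk_sup_le ((key j).trans le_sup_left) (D.X_P.trans le_sup_right)

theorem Xj_le (j : ℕ) : D.Xj j ≤ D.Y :=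
  sup_le (actn_anti D.Y_Q (Nat.zero_le j)) D.X_le

/-- `[Q, P, ..., P] + Y` -/
def F (t : ℕ) : AddSubgroup L := actn D.P D.Q t ⊔ D.Y

theorem Q_le_F : D.Q ≤ D.F 0 := le_sup_left

theorem F_P (t : ℕ) : brk (D.F t) D.P ≤ D.F (t + 1) :=
  brk_sup_le le_sup_left (D.Y_P.trans le_sup_right)

theorem F_le (t : ℕ) : D.F t ≤ D.Q := sup_le (actn_anti D.hQ (Nat.zero_le t)) D.Y_le

theorem F_le_Y {t : ℕ} (ht : D.N ≤ t) : D.F t ≤ D.Y :=
  sup_le ((actn_anti D.hQ ht).trans D.hN) le_rfl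

/-- The filtration of `Xj j` modulo `Xj (j + 1)`. -/
def Ys : ℕ → ℕ → AddSubgroup L
  | 0, t => (⨆ x : {x : ℕ × ℕ // x.1 + x.2 = t}, brk (D.F x.1.1) (D.F x.1.2)) ⊔ D.Xj 1
  | j + 1, t => (⨆ x : {x : ℕ × ℕ // x.1 + x.2 = t}, brk (Ys j x.1.1) (D.F x.1.2)) ⊔ D.Xj (j + 2)

theorem le_Ys_zero (a b : ℕ) : brk (D.F a) (D.F b) ≤ D.Ys 0 (a + b) :=
  (le_iSup (fun x : {x : ℕ × ℕ // x.1 + x.2 = a + b} => brk (D.F x.1.1) (D.F x.1.2))
    ⟨(a, b), rfl⟩).trans le_sup_left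

theorem le_Ys_succ (j a b : ℕ) : brk (D.Ys j a) (D.F b) ≤ D.Ys (j + 1) (a + b) :=
  (le_iSup (fun x : {x : ℕ × ℕ // x.1 + x.2 = a + b} => brk (D.Ys j x.1.1) (D.F x.1.2))
    ⟨(a, b), rfl⟩).trans le_sup_left

theorem Xj_le_Ys_next (j t : ℕ) : D.Xj (j + 1) ≤ D.Ys j t := by
  cases j with
  | zero => exact le_sup_right
  | succ j => exact le_sup_right

theorem Xj_le_Ys (j : ℕ) : D.Xj j ≤ D.Ys j 0 := by
  induction j with
  | zero =>
    refine sup_le ?_ ((D.X_le_Xj 1).trans (D.Xj_le_Ys_next 0 0))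
    exact (brk_mono D.Q_le_F D.Q_le_F).trans (D.le_Ys_zero 0 0)
  | succ j ih =>
    refine sup_le ?_ ((D.X_le_Xj (j + 2)).trans (D.Xj_le_Ys_next (j + 1) 0))
    have h1 : actn D.Q D.Y j ≤ D.Ys j 0 := le_trans le_sup_left ih
    exact (brk_mono h1 D.Q_le_F).trans (D.le_Ys_succ j 0 0)

theorem Ys_P (j t : ℕ) : brk (D.Ys j t) D.P ≤ D.Ys j (t + 1) := by
  induction j generalizing t with
  | zero =>
    refine brk_sup_le (brk_iSup_le ?_) ((D.Xj_P 1).trans (D.Xj_le_Ys_next 0 _))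
    rintro ⟨⟨a, b⟩, hab⟩
    change a + b = t at hab
    change brk (brk (D.F a) (D.F b)) D.P ≤ _
    refine brk_brk_le ?_ ?_
    · have h1 := (brk_mono (D.F_P a) (le_refl (D.F b))).trans (D.le_Ys_zero (a + 1) b)
      have e : a + 1 + b = t + 1 := by omega
      rwa [e] at h1
    · have h1 := (brk_mono (le_refl (D.F a)) (D.F_P b)).trans (D.le_Ys_zero a (b + 1))
      have e : a + (b + 1) = t + 1 := by omega
      rwa [e] at h1
  | succ j ih =>
    refine brk_sup_le (brk_iSup_le ?_) ((D.Xj_P (j + 2)).trans (D.Xj_le_Ys_next (j + 1) _))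
    rintro ⟨⟨a, b⟩, hab⟩
    change a + b = t at hab
    change brk (brk (D.Ys j a) (D.F b)) D.P ≤ _
    refine brk_brk_le ?_ ?_
    · have h1 := (brk_mono (ih a) (le_refl (D.F b))).trans (D.le_Ys_succ j (a + 1) b)
      have e : a + 1 + b = t + 1 := by omega
      rwa [e] at h1
    · have h1 := (brk_mono (le_refl (D.Ys j a)) (D.F_P b)).trans (D.le_Ys_succ j a (b + 1))
      have e : a + (b + 1) = t + 1 := by omega
      rwa [e] at h1

theorem Ys_le (j t : ℕ) : D.Ys j t ≤ D.Y := by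
  induction j generalizing t with
  | zero => exact sup_le (iSup_le fun x => brk_mono (D.F_le _) (D.F_le _)) (D.Xj_le 1)
  | succ j ih =>
    exact sup_le (iSup_le fun x => (brk_mono (ih _) (D.F_le _)).trans D.Y_Q) (D.Xj_le (j + 2))

theorem Y_le_Xj : D.Y ≤ D.Xj 0 := le_sup_left

theorem Ys_le_Xj (j t : ℕ) (ht : (j + 2) * (D.N - 1) + 1 ≤ t) : D.Ys j t ≤ D.Xj (j + 1) := by
  induction j generalizing t with
  | zero =>
    refine sup_le (iSup_le ?_) le_rfl
    rintro ⟨⟨a, b⟩, hab⟩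
    change a + b = t at hab
    change brk (D.F a) (D.F b) ≤ _
    rcases le_or_gt D.N a with h | h
    · exact (brk_mono ((D.F_le_Y h).trans D.Y_le_Xj) (D.F_le b)).trans (D.Xj_Q 0)
    · have hb : D.N ≤ b := by omega
      exact (brk_comm_le _ _).trans
        ((brk_mono ((D.F_le_Y hb).trans D.Y_le_Xj) (D.F_le a)).trans (D.Xj_Q 0))
  | succ j ih =>
    refine sup_le (iSup_le ?_) le_rfl
    rintro ⟨⟨a, b⟩, hab⟩
    change a + b = t at hab
    change brk (D.Ys j a) (D.F b) ≤ _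
    rcases le_or_gt D.N b with h | h
    · exact (brk_mono (D.Ys_le j a) (D.F_le_Y h)).trans (D.X_le_Xj _)
    · have e : (j + 1 + 2) * (D.N - 1) = (j + 2) * (D.N - 1) + (D.N - 1) := by ring
      have ha : (j + 2) * (D.N - 1) + 1 ≤ a := by omega
      exact (brk_mono (ih a ha) (D.F_le b)).trans (D.Xj_Q (j + 1))

theorem actn_Xj_le_Ys (j t : ℕ) : actn D.P (D.Xj j) t ≤ D.Ys j t := by
  induction t with
  | zero => exact D.Xj_le_Ys j
  | succ t ih => exact (brk_mono ih le_rfl).trans (D.Ys_P j t)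

theorem actn_Y_le (m : ℕ) :
    actn D.P D.Y (∑ j ∈ Finset.range m, ((j + 2) * (D.N - 1) + 1)) ≤ D.Xj m := by
  induction m with
  | zero => exact D.Y_le_Xj
  | succ m ih =>
    rw [Finset.sum_range_succ, actn_add]
    exact (actn_mono ih _).trans ((D.actn_Xj_le_Ys m _).trans (D.Ys_le_Xj m _ le_rfl))

theorem main : actn D.P D.Y (∑ j ∈ Finset.range D.k, ((j + 2) * (D.N - 1) + 1)) ≤ D.X :=
  (D.actn_Y_le D.k).trans (sup_le D.hk le_rfl)

end HallData

/-- The number of times which a Lie ring with the bound `k` acts on a factor of the derived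
series. -/
def Nidx (k : ℕ) : ℕ → ℕ
  | 0 => 1
  | i + 1 => k + (Nidx k i - 1) * (k * (k + 3) / 2)

theorem sum_eq (k M : ℕ) : ∑ j ∈ Finset.range k, ((j + 2) * M + 1) = k + M * (k * (k + 3) / 2) := by
  have h2 : ∀ k : ℕ, k * (k + 3) = 2 * ∑ j ∈ Finset.range k, (j + 2) := by
    intro k
    induction k with
    | zero => simp
    | succ k ih =>
      rw [Finset.sum_range_succ]
      linarith
  rw [h2, Nat.mul_div_cancel_left _ (by norm_num), Finset.sum_add_distrib, Finset.sum_const,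
    Finset.card_range, smul_eq_mul, mul_one, ← Finset.sum_mul]
  ring

theorem Dser_ideal {P : AddSubgroup L} (hP : brk P P ≤ P) (i : ℕ) :
    brk (Dser P i) P ≤ Dser P i ∧ Dser P i ≤ P := by
  induction i with
  | zero => exact ⟨hP, le_rfl⟩
  | succ i ih =>
    obtain ⟨h1, h2⟩ := ih
    exact ⟨brk_brk_le (brk_mono h1 le_rfl) (brk_mono le_rfl h1),
      ((brk_mono le_rfl h2).trans h1).trans h2⟩

theorem actn_Dser_le {U : Set MultId} (hL : Sat U L) {k : ℕ}
    (hC : ∀ p : ℕ, p.Prime → ∃ u ∈ U, u.n ≤ k ∧ ∃ j, ¬ (p : ℤ) ∣ u.coef j)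
    {P : AddSubgroup L} (hP : brk P P ≤ P) (i : ℕ) :
    actn P (Dser P i) (Nidx k i) ≤ Dser P (i + 1) := by
  induction i with
  | zero => exact le_rfl
  | succ i ih =>
    obtain ⟨h1, h2⟩ := Dser_ideal hP i
    have hQQ : brk (Dser P i) (Dser P i) ≤ Dser P i := (brk_mono le_rfl h2).trans h1
    have hYQ : brk (brk (Dser P i) (Dser P i)) (Dser P i) ≤ brk (Dser P i) (Dser P i) :=
      brk_mono hQQ le_rfl
    have hXQ : brk (brk (brk (Dser P i) (Dser P i)) (brk (Dser P i) (Dser P i))) (Dser P i) ≤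
        brk (brk (Dser P i) (Dser P i)) (brk (Dser P i) (Dser P i)) :=
      brk_brk_le (brk_mono hYQ le_rfl) (brk_mono le_rfl hYQ)
    have hS : MSec (Dser P i) (brk (Dser P i) (Dser P i))
        (brk (brk (Dser P i) (Dser P i)) (brk (Dser P i) (Dser P i))) :=
      ⟨le_rfl, hYQ, le_rfl, hXQ⟩
    have key := HallData.main ⟨P, Dser P i, Nidx k i, k, h2, h1, ih, hS.actn_le hL hC hQQ⟩
    simp only [] at key
    rw [sum_eq] at key
    exact key

/-- The class bound for soluble Lie rings. -/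
def solBound (k ℓ : ℕ) : ℕ := ∑ i ∈ Finset.range ℓ, Nidx k i

theorem actn_le_Dser {U : Set MultId} (hL : Sat U L) {k : ℕ}
    (hC : ∀ p : ℕ, p.Prime → ∃ u ∈ U, u.n ≤ k ∧ ∃ j, ¬ (p : ℤ) ∣ u.coef j)
    {P : AddSubgroup L} (hP : brk P P ≤ P) (ℓ : ℕ) :
    actn P P (solBound k ℓ) ≤ Dser P ℓ := by
  unfold solBound
  induction ℓ with
  | zero => exact le_rfl
  | succ ℓ ih =>
    rw [Finset.sum_range_succ, actn_add]
    exact (actn_mono ih _).trans (actn_Dser_le hL hC hP ℓ)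

end Pool.Agent.Work.MP_369e59_al
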