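import Pool.Agent.Work.MP_369e59_al.ThmB

/-!
# Linear parts of laws on a cyclic group of operators
-/

namespace Pool.Agent.Work.MP_369e59_al

open Polynomial

/-! ### A unipotent operator annihilated by a polynomial -/

theorem pow_eq_zero_of_aeval {F : Type*} [Field F] {E : Type*} [Ring E] [Algebra F E] (σ : E)
    {N : ℕ} (hN : (σ - 1) ^ N = 0) (q : F[X]) (hq : aeval σ q = 0) {m : ℕ}
    (hm : ¬ (X - 1) ^ (m + 1) ∣ q) : (σ - 1) ^ m = 0 := by
  have hX : (X - C 1 : F[X]) = X - 1 := by rw [C_1]
  have hq0 : q ≠ 0 := by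
    rintro rfl
    exact hm (dvd_zero _)
  obtain ⟨q', hq', hnd⟩ := q.exists_eq_pow_rootMultiplicity_mul_and_not_dvd hq0 1
  rw [hX] at hq' hnd
  set e := q.rootMultiplicity 1 with he
  have hem : e ≤ m := by
    by_contra h
    exact hm ((pow_dvd_pow _ (by omega)).trans (Dvd.intro _ hq'.symm))
  have hcop : IsCoprime ((X - 1 : F[X]) ^ N) q' := by
    apply IsCoprime.pow_left
    rw [← hX] at hnd ⊢
    exact ((irreducible_X_sub_C (1 : F)).coprime_iff_not_dvd).2 hnd
  obtain ⟨a, b, hab⟩ := hcop
  have h1 : ((X - 1 : F[X]) ^ e) = a * (X - 1) ^ N * (X - 1) ^ e + b * q := by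
    conv_rhs => rw [hq']
    linear_combination (-(X - 1 : F[X]) ^ e) * hab
  have h2 : (σ - 1) ^ e = 0 := by
    have h3 := congrArg (aeval σ) h1
    rw [map_add, map_mul, map_mul, map_mul, hq, mul_zero, add_zero, map_pow, map_pow, map_sub,
      aeval_X, map_one, hN, mul_zero, zero_mul] at h3
    exact h3
  rw [← Nat.sub_add_cancel hem, pow_add, h2, mul_zero]

/-! ### The linear part of a word -/

/-- The linear part with respect to the variable `x_j` of an operator word: the element of the
group ring `ℤ[Ω]` which is the sum of `± ω` over the letters `x_j ^ ω` with exponent `± 1`. -/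
noncomputable def linHom {Ω : Type*} [Group Ω] (j : ℕ) :
    FreeGroup (ℕ × Ω) →* Multiplicative (MonoidAlgebra ℤ Ω) :=
  FreeGroup.lift fun x => if x.1 = j then Multiplicative.ofAdd (MonoidAlgebra.of ℤ Ω x.2) else 1

/-- The linear part of an operator word. -/
noncomputable def linPart {Ω : Type*} [Group Ω] (j : ℕ) (w : FreeGroup (ℕ × Ω)) :
    MonoidAlgebra ℤ Ω :=
  Multiplicative.toAdd (linHom j w)

/-- The element `t ^ k * q(t)` of the group ring. -/
noncomputable def atT {Ω : Type*} [Group Ω] (t : Ω) (k : ℤ) (q : ℤ[X]) : MonoidAlgebra ℤ Ω :=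
  MonoidAlgebra.of ℤ Ω (t ^ k) * aeval (MonoidAlgebra.of ℤ Ω t) q

section eval

variable {Ω : Type*} [Group Ω] {V : Type*} [CommGroup V] [MulDistribMulAction Ω V]

/-- The action of `t` on the additive group. -/
def actEnd (t : Ω) : Additive V →+ Additive V :=
  MonoidHom.toAdditive (MulDistribMulAction.toMonoidHom V t)

theorem actEnd_apply (t : Ω) (v : V) : actEnd t (Additive.ofMul v) = Additive.ofMul (t • v) := rfl

/-- The action as a representation over `ZMod p`. -/
def actRep (p : ℕ) [Module (ZMod p) (Additive V)] : Ω →* Module.End (ZMod p) (Additive V) where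
  toFun t := (actEnd t).toZModLinearMap p
  map_one' := LinearMap.ext fun v => congrArg Additive.ofMul (one_smul Ω (Additive.toMul v))
  map_mul' a b := LinearMap.ext fun v =>
    congrArg Additive.ofMul (mul_smul a b (Additive.toMul v))

theorem evalO_eq_linPart (p : ℕ) [Module (ZMod p) (Additive V)] (j : ℕ) (y : V)
    (w : FreeGroup (ℕ × Ω)) :
    Additive.ofMul (evalO (Ω := Ω) (fun j' => if j' = j then y else 1) w) =
      (MonoidAlgebra.lift ℤ (Module.End (ZMod p) (Additive V)) Ω (actRep p) (linPart j w))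
        (Additive.ofMul y) := by
  let Φ : FreeGroup (ℕ × Ω) →* V :=
    { toFun := fun w => Additive.toMul ((MonoidAlgebra.lift ℤ (Module.End (ZMod p) (Additive V)) Ω
        (actRep p) (linPart j w)) (Additive.ofMul y))
      map_one' := by
        simp [linPart]
      map_mul' := fun a b => by
        simp only [linPart, map_mul, toAdd_mul, map_add, LinearMap.add_apply, toMul_add] }
  have h : (evalO (Ω := Ω) (fun j' => if j' = j then y else 1)) = Φ := by
    apply FreeGroup.ext_hom
    intro x
    by_cases hx : x.1 = j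
    · simp only [evalO, FreeGroup.lift_apply_of, hx, if_true, MonoidHom.coe_mk, OneHom.coe_mk, Φ,
        linPart, linHom, toAdd_ofAdd, MonoidAlgebra.lift_of]
      rfl
    · simp [evalO, hx, Φ, linPart, linHom]
  exact congrArg Additive.ofMul (DFunLike.congr_fun h w)

theorem lift_atT (p : ℕ) [Module (ZMod p) (Additive V)] (t : Ω) (k : ℤ) (q : ℤ[X]) :
    MonoidAlgebra.lift ℤ (Module.End (ZMod p) (Additive V)) Ω (actRep p) (atT t k q) =
      actRep p (t ^ k) * aeval (actRep (V := V) p t) (q.map (Int.castRingHom (ZMod p))) := by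
  unfold atT
  rw [map_mul, MonoidAlgebra.lift_of, ← aeval_algHom_apply, MonoidAlgebra.lift_of]
  congr 1
  exact (aeval_map_algebraMap (ZMod p) _ q).symm

end eval

section incl

variable {Ω : Type*} [Group Ω] (Ω₁ : Subgroup Ω)

/-- The inclusion of the group rings. -/
noncomputable def inclR : MonoidAlgebra ℤ Ω₁ →ₐ[ℤ] MonoidAlgebra ℤ Ω :=
  MonoidAlgebra.mapDomainAlgHom ℤ ℤ Ω₁.subtype

theorem inclR_injective : Function.Injective (inclR Ω₁) :=
  MonoidAlgebra.mapDomain_injective Ω₁.subtype_injective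

theorem inclR_of (x : Ω₁) : inclR Ω₁ (MonoidAlgebra.of ℤ Ω₁ x) = MonoidAlgebra.of ℤ Ω (x : Ω) :=
  MonoidAlgebra.mapDomain_single

theorem inclR_linPart (j : ℕ) (w : FreeGroup (ℕ × Ω₁)) :
    inclR Ω₁ (linPart j w) = linPart j (inclW Ω₁ w) := by
  let Φ : FreeGroup (ℕ × Ω₁) →* Multiplicative (MonoidAlgebra ℤ Ω) :=
    { toFun := fun w => Multiplicative.ofAdd (inclR Ω₁ (linPart j w))
      map_one' := by simp [linPart]
      map_mul' := fun a b => by simp only [linPart, map_mul, toAdd_mul, map_add, ofAdd_add] }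
  have h : Φ = (linHom j).comp (inclW Ω₁) := by
    apply FreeGroup.ext_hom
    intro x
    by_cases hx : x.1 = j
    · simp only [MonoidHom.comp_apply, inclW, FreeGroup.map.of, linHom, FreeGroup.lift_apply_of,
        Prod.map_fst, id, hx, if_true, MonoidHom.coe_mk, OneHom.coe_mk, Φ, linPart, toAdd_ofAdd,
        inclR_of, Prod.map_snd]
    · simp [inclW, linHom, hx, Φ, linPart]
  exact congrArg Multiplicative.toAdd (DFunLike.congr_fun h w)

theorem inclR_atT (t : Ω₁) (k : ℤ) (q : ℤ[X]) : inclR Ω₁ (atT t k q) = atT (t : Ω) k q := by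
  unfold atT
  rw [map_mul, inclR_of, ← aeval_algHom_apply, inclR_of]
  rfl

end incl

end Pool.Agent.Work.MP_369e59_al
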