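import Pool.Agent.Work.MP_369e59_al.FinGen

/-!
# Subgroups of finitely generated nilpotent groups are finitely generated
-/

namespace Pool.Agent.Work.MP_369e59_al

open scoped commutatorElement

variable {K : Type*} [Group K]

theorem exists_finset_lcs {n : ℕ} (k : Fin n → K) (hk : Subgroup.closure (Set.range k) = ⊤)
    (S : Subgroup K) (w : ℕ) :
    ∃ T : Finset K, (T : Set K) ⊆ S ⊓ (⊤ : Subgroup K).lowerCentralSeries w ∧
      ∀ x ∈ S ⊓ (⊤ : Subgroup K).lowerCentralSeries w, ∃ y ∈ Subgroup.closure (T : Set K),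
        y⁻¹ * x ∈ S ⊓ (⊤ : Subgroup K).lowerCentralSeries (w + 1) := by
  classical
  have hfin := finite_gr k hk w
  have hN : IsNoetherian ℤ ((lcsData K).gr (Nat.succPNat w)) := isNoetherian_of_isNoetherianRing_of_finite ℤ _
  let P : AddSubgroup ((lcsData K).gr (Nat.succPNat w)) :=
    { carrier := {v | ∃ g, ∃ hg : g ∈ (lcsData K).A (Nat.succPNat w), g ∈ S ∧
        v = (lcsData K).cls (Nat.succPNat w) g hg}
      add_mem' := by
        rintro v v' ⟨g, hg, hgS, rfl⟩ ⟨g', hg', hgS', rfl⟩
        exact ⟨g * g', mul_mem hg hg', mul_mem hgS hgS', rfl⟩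
      zero_mem' := ⟨1, one_mem _, one_mem _, rfl⟩
      neg_mem' := by
        rintro v ⟨g, hg, hgS, rfl⟩
        exact ⟨g⁻¹, inv_mem hg, inv_mem hgS, rfl⟩ }
  obtain ⟨t, ht⟩ := hN.noetherian (AddSubgroup.toIntSubmodule P)
  have htP : ∀ v ∈ t, v ∈ P := by
    intro v hv
    have h1 : v ∈ AddSubgroup.toIntSubmodule P := by
      rw [← ht]; exact Submodule.subset_span hv
    exact h1
  choose! g hg hgS hv using htP
  refine ⟨t.image g, ?_, ?_⟩
  · intro x hx
    rw [Finset.coe_image] at hx
    obtain ⟨v, hv', rfl⟩ := hx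
    exact ⟨hgS v hv', hg v hv'⟩
  · rintro x ⟨hxS, hx⟩
    have hx' : x ∈ (lcsData K).A (Nat.succPNat w) := hx
    have h1 : (lcsData K).cls (Nat.succPNat w) x hx' ∈ AddSubgroup.toIntSubmodule P :=
      ⟨x, hx', hxS, rfl⟩
    rw [← ht] at h1
    have key : ∀ v ∈ Submodule.span ℤ (t : Set ((lcsData K).gr (Nat.succPNat w))),
        ∃ y ∈ Subgroup.closure ((t.image g : Finset K) : Set K),
          ∃ hy : y ∈ (lcsData K).A (Nat.succPNat w), (lcsData K).cls (Nat.succPNat w) y hy = v := by
      intro v hv'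
      induction hv' using Submodule.span_induction with
      | mem v hvt =>
        exact ⟨g v, Subgroup.subset_closure (by
          rw [Finset.coe_image]; exact ⟨v, hvt, rfl⟩), hg v hvt, (hv v hvt).symm⟩
      | zero => exact ⟨1, one_mem _, one_mem _, rfl⟩
      | add v v' _ _ h h' =>
        obtain ⟨y, hy, hy', rfl⟩ := h
        obtain ⟨z, hz, hz', rfl⟩ := h'
        exact ⟨y * z, mul_mem hy hz, mul_mem hy' hz', rfl⟩
      | smul a v _ h =>
        obtain ⟨y, hy, hy', rfl⟩ := h
        exact ⟨y ^ a, zpow_mem hy a, zpow_mem hy' a, rfl⟩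
    obtain ⟨y, hy, hyA, hyx⟩ := key _ h1
    refine ⟨y, hy, ?_, ?_⟩
    · have h2 : Subgroup.closure ((t.image g : Finset K) : Set K) ≤ S := by
        rw [Subgroup.closure_le]
        intro x hx
        rw [Finset.coe_image] at hx
        obtain ⟨v, hv', rfl⟩ := hx
        exact hgS v hv'
      exact S.mul_mem (S.inv_mem (h2 hy)) hxS
    · rw [(lcsData K).cls_eq_iff] at hyx
      exact hyx

/-- Subgroups of finitely generated nilpotent groups are finitely generated. -/
theorem fg_of_nilpotent {n : ℕ} (k : Fin n → K) (hk : Subgroup.closure (Set.range k) = ⊤)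
    (hnil : Group.IsNilpotent K) (S : Subgroup K) : ∃ T : Finset K, Subgroup.closure (T : Set K) = S := by
  classical
  obtain ⟨m, hm⟩ := Subgroup.nilpotent_iff_lowerCentralSeries.1 hnil
  have key : ∀ j, j ≤ m → ∃ T : Finset K,
      Subgroup.closure (T : Set K) = S ⊓ (⊤ : Subgroup K).lowerCentralSeries (m - j) := by
    intro j
    induction j with
    | zero =>
      intro _
      refine ⟨∅, ?_⟩
      rw [Nat.sub_zero, hm]
      simp
    | succ j ih =>
      intro hj
      obtain ⟨T, hT⟩ := ih (by omega)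
      obtain ⟨T', hT', hT''⟩ := exists_finset_lcs k hk S (m - (j + 1))
      have e : m - (j + 1) + 1 = m - j := by omega
      rw [e] at hT''
      refine ⟨T' ∪ T, ?_⟩
      rw [Finset.coe_union, Subgroup.closure_union, hT]
      apply le_antisymm
      · refine sup_le ?_ (inf_le_inf_left _ (Subgroup.lowerCentralSeries_antitone _ (by omega)))
        rw [Subgroup.closure_le]
        exact hT'
      · intro x hx
        obtain ⟨y, hy, hyx⟩ := hT'' x hx
        have h1 := mul_mem (Subgroup.mem_sup_left (T := S ⊓ (⊤ : Subgroup K).lowerCentralSeries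
          (m - j)) hy) (Subgroup.mem_sup_right hyx)
        rwa [mul_inv_cancel_left] at h1
  obtain ⟨T, hT⟩ := key m le_rfl
  refine ⟨T, ?_⟩
  rw [hT, Nat.sub_self, Subgroup.lowerCentralSeries_zero, inf_top_eq]

end Pool.Agent.Work.MP_369e59_al
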