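import Pool.Agent.Work.MP_369e59_al.FinGen

/-!
# p-th powers in the factors of the lower central series, and the chain of an operator group
-/

namespace Pool.Agent.Work.MP_369e59_al

open scoped commutatorElement

/-- `Φ_p(K) = K^p K'`. -/
def Phi (K : Type*) [Group K] (p : ℕ) : Subgroup K :=
  Subgroup.closure (Set.range fun x : K => x ^ p) ⊔ ⁅(⊤ : Subgroup K), ⊤⁆

section

variable {K : Type*} [Group K]

theorem comm_le_Phi (p : ℕ) : ⁅(⊤ : Subgroup K), ⊤⁆ ≤ Phi K p := le_sup_right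

theorem pow_mem_Phi (p : ℕ) (x : K) : x ^ p ∈ Phi K p :=
  (le_sup_left : _ ≤ Phi K p) (Subgroup.subset_closure ⟨x, rfl⟩)

instance instNormalPhi (p : ℕ) : (Phi K p).Normal := normal_of_comm_le (comm_le_Phi p)

/-- The elements of `γ_i` whose class is divisible by `p`. -/
def ZZ (K : Type*) [Group K] (p : ℕ) (i : ℕ+) : Subgroup K where
  carrier := {g | ∃ hg : g ∈ (lcsData K).A i, ∃ z, (lcsData K).cls i g hg = p • z}
  mul_mem' := by
    rintro a b ⟨ha, z, hz⟩ ⟨hb, z', hz'⟩
    exact ⟨mul_mem ha hb, z + z', by rw [(lcsData K).cls_mul ha hb, hz, hz', smul_add]⟩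
  one_mem' := ⟨one_mem _, 0, by rw [smul_zero]; rfl⟩
  inv_mem' := by
    rintro a ⟨ha, z, hz⟩
    refine ⟨inv_mem ha, -z, ?_⟩
    rw [smul_neg, ← hz]
    rfl

theorem mem_ZZ {p : ℕ} {i : ℕ+} {g : K} :
    g ∈ ZZ K p i ↔ ∃ hg : g ∈ (lcsData K).A i, ∃ z, (lcsData K).cls i g hg = p • z := Iff.rfl

theorem Phi_le_ZZ (p : ℕ) : Phi K p ≤ ZZ K p 1 := by
  refine sup_le ?_ ?_
  · rw [Subgroup.closure_le]
    rintro _ ⟨x, rfl⟩
    have hx : ∀ y : K, y ∈ (lcsData K).A 1 := fun _ => Subgroup.mem_top _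
    refine ⟨hx _, (lcsData K).cls 1 x (hx _), ?_⟩
    rfl
  · intro x hx
    refine ⟨Subgroup.mem_top _, 0, ?_⟩
    rw [smul_zero]
    have h1 : (lcsData K).cls 1 1 (one_mem _) = 0 := rfl
    rw [← h1, (lcsData K).cls_eq_iff, mul_one]
    exact inv_mem hx

theorem comm_mem_ZZ_left {p : ℕ} {i j : ℕ+} {x y : K} (hx : x ∈ ZZ K p i)
    (hy : y ∈ (lcsData K).A j) : ⁅x, y⁆ ∈ ZZ K p (i + j) := by
  obtain ⟨hx', z, hz⟩ := hx
  refine ⟨(lcsData K).comm_mem_A hx' hy, (lcsData K).brHom i j z ((lcsData K).cls j y hy), ?_⟩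
  rw [← (lcsData K).brHom_cls hx' hy, hz, map_nsmul, AddMonoidHom.nsmul_apply]

theorem comm_mem_ZZ_right {p : ℕ} {i j : ℕ+} {x y : K} (hx : x ∈ (lcsData K).A i)
    (hy : y ∈ ZZ K p j) : ⁅x, y⁆ ∈ ZZ K p (i + j) := by
  obtain ⟨hy', z, hz⟩ := hy
  refine ⟨(lcsData K).comm_mem_A hx hy', (lcsData K).brHom i j ((lcsData K).cls i x hx) z, ?_⟩
  rw [← (lcsData K).brHom_cls hx hy', hz, map_nsmul]

/-- Deep in the filtration, all elements are `p`-th powers modulo the next term of the lower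
central series. -/
theorem E_le_ZZ {M : ℕ → Subgroup K} (hM : IsChn M) {p N : ℕ} (hN : ∀ b, N ≤ b → M b ≤ Phi K p)
    (w s : ℕ) (hs : (w + 1) * N ≤ s) : E M w s ≤ ZZ K p (Nat.succPNat w) := by
  induction w generalizing s with
  | zero => exact (hN s (by simpa using hs)).trans (Phi_le_ZZ p)
  | succ w ih =>
    rw [E_succ]
    refine iSup_le ?_
    rintro ⟨⟨a, b⟩, hab⟩
    change a + b = s at hab
    change ⁅E M w a, M b⁆ ≤ _
    have h3 : (Nat.succPNat w + 1 : ℕ+) = Nat.succPNat (w + 1) := PNat.coe_injective (by simp)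
    rw [← h3, Subgroup.commutator_le]
    intro x hx y hy
    rcases le_or_gt N b with hb | hb
    · exact comm_mem_ZZ_right (hM.E_le_lcs w a hx) (Phi_le_ZZ p (hN b hb hy))
    · refine comm_mem_ZZ_left (ih a ?_ hx) (Subgroup.mem_top _)
      have : (w + 1 + 1) * N = (w + 1) * N + N := by ring
      omega

/-- If the factor `γ_{c+1}/γ_{c+2}` is divisible by all primes it is trivial. -/
theorem lcs_le_of_ZZ {n : ℕ} (k : Fin n → K) (hk : Subgroup.closure (Set.range k) = ⊤) (c : ℕ)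
    (h : ∀ p : ℕ, p.Prime → (⊤ : Subgroup K).lowerCentralSeries c ≤ ZZ K p (Nat.succPNat c)) :
    (⊤ : Subgroup K).lowerCentralSeries c ≤ (⊤ : Subgroup K).lowerCentralSeries (c + 1) := by
  have hfin := finite_gr k hk c
  have hsub : Subsingleton ((lcsData K).gr (Nat.succPNat c)) := by
    refine subsingleton_of_divisible _ ?_
    intro p hp a
    induction a using (lcsData K).cls_ind with
    | h g hg =>
      obtain ⟨_, z, hz⟩ := h p hp hg
      exact ⟨z, hz⟩
  intro g hg
  have h1 : (lcsData K).cls (Nat.succPNat c) g hg = (lcsData K).cls (Nat.succPNat c) 1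
    (one_mem _) := hsub.elim _ _
  rw [(lcsData K).cls_eq_iff, mul_one] at h1
  have h2 := inv_mem h1
  rw [inv_inv] at h2
  exact h2

theorem lcs_eq_bot_of_le {c : ℕ} (hnil : Group.IsNilpotent K)
    (h : (⊤ : Subgroup K).lowerCentralSeries c ≤ (⊤ : Subgroup K).lowerCentralSeries (c + 1)) :
    (⊤ : Subgroup K).lowerCentralSeries c = ⊥ := by
  obtain ⟨n, hn⟩ := Subgroup.nilpotent_iff_lowerCentralSeries.1 hnil
  have key : ∀ m, (⊤ : Subgroup K).lowerCentralSeries c ≤
      (⊤ : Subgroup K).lowerCentralSeries (c + m) := by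
    intro m
    induction m with
    | zero => exact le_rfl
    | succ m ih =>
      refine h.trans ?_
      rw [Subgroup.lowerCentralSeries_succ, ← add_assoc, Subgroup.lowerCentralSeries_succ]
      exact Subgroup.commutator_mono ih le_rfl
  rw [eq_bot_iff, ← hn]
  exact (key n).trans (Subgroup.lowerCentralSeries_antitone _ (by omega))

end

/-! ### The chain -/

section chain

variable (Ω : Type*) [Group Ω] (K : Type*) [Group K] [MulDistribMulAction Ω K]

/-- `M 0 = K`, `M (a + 1) = [M a, Ω] K^p K'`. -/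
def Mch (p : ℕ) : ℕ → Subgroup K
  | 0 => ⊤
  | a + 1 => Subgroup.closure {y | ∃ x ∈ Mch p a, ∃ ω : Ω, y = x⁻¹ * (ω • x)} ⊔ Phi K p

theorem Phi_le_Mch (p a : ℕ) : Phi K p ≤ Mch Ω K p a := by
  cases a with
  | zero => exact le_top
  | succ a => exact le_sup_right

theorem Mch_anti (p a : ℕ) : Mch Ω K p (a + 1) ≤ Mch Ω K p a := by
  induction a with
  | zero => exact le_top
  | succ a ih =>
    refine sup_le ?_ (Phi_le_Mch Ω K p _)
    rw [Subgroup.closure_le]
    rintro _ ⟨x, hx, ω, rfl⟩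
    exact (le_sup_left : _ ≤ Mch Ω K p (a + 1)) (Subgroup.subset_closure ⟨x, ih hx, ω, rfl⟩)

theorem isChn_Mch (p : ℕ) : IsChn (Mch Ω K p) :=
  ⟨rfl, Mch_anti Ω K p, fun a => (comm_le_Phi p).trans (Phi_le_Mch Ω K p a)⟩

theorem isOpChn_Mch (p : ℕ) : IsOpChn Ω (Mch Ω K p) := by
  intro a x hx ω
  exact (le_sup_left : _ ≤ Mch Ω K p (a + 1)) (Subgroup.subset_closure ⟨x, hx, ω, rfl⟩)

variable {Ω K}

theorem smul_mem_Phi {p : ℕ} (ω : Ω) {x : K} (hx : x ∈ Phi K p) : ω • x ∈ Phi K p := by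
  have h : (Phi K p).map (MulDistribMulAction.toMonoidHom K ω) ≤ Phi K p := by
    unfold Phi
    rw [Subgroup.map_sup, Subgroup.map_commutator]
    refine sup_le ?_ ((Subgroup.commutator_mono le_top le_top).trans le_sup_right)
    rw [MonoidHom.map_closure]
    refine le_trans ?_ le_sup_left
    apply Subgroup.closure_mono
    rintro _ ⟨_, ⟨x, rfl⟩, rfl⟩
    exact ⟨ω • x, by simp⟩
  exact h ⟨x, hx, rfl⟩

/-- The chain of a finitely generated group `K` such that `K ⋊ Ω` is locally nilpotent reaches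
`Φ_p(K)` if this has finite index. -/
theorem exists_Mch_le {n : ℕ} (k : Fin n → K) (hk : Subgroup.closure (Set.range k) = ⊤)
    (hLN : LocNilp (K ⋊[MulDistribMulAction.toMulAut Ω K] Ω)) (p : ℕ) (hp : Finite (K ⧸ Phi K p)) :
    ∃ N, ∀ b, N ≤ b → Mch Ω K p b ≤ Phi K p := by
  classical
  -- the chain stabilises
  obtain ⟨N, hN⟩ : ∃ N, Mch Ω K p N ≤ Mch Ω K p (N + 1) := by
    let F : ℕ →o (Subgroup (K ⧸ Phi K p))ᵒᵈ :=
      ⟨fun a => OrderDual.toDual ((Mch Ω K p a).map (QuotientGroup.mk' (Phi K p))),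
        monotone_nat_of_le_succ (fun a => Subgroup.map_mono (Mch_anti Ω K p a))⟩
    have hfin : Finite (Subgroup (K ⧸ Phi K p))ᵒᵈ := inferInstance
    obtain ⟨N, hN⟩ := WellFoundedGT.monotone_chain_condition F
    refine ⟨N, ?_⟩
    have h1 : (Mch Ω K p N).map (QuotientGroup.mk' (Phi K p)) =
      (Mch Ω K p (N + 1)).map (QuotientGroup.mk' (Phi K p)) := hN (N + 1) (Nat.le_succ N)
    rw [Subgroup.map_eq_map_iff, QuotientGroup.ker_mk', sup_eq_left.2 (Phi_le_Mch Ω K p _),
      sup_eq_left.2 (Phi_le_Mch Ω K p _)] at h1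
    exact h1.le
  -- finitely many operators suffice
  let act : Ω → (K ⧸ Phi K p → K ⧸ Phi K p) := fun ω => fun v =>
    (QuotientGroup.mk (ω • v.out) : K ⧸ Phi K p)
  have hact : ∀ (ω : Ω) (x : K), act ω (QuotientGroup.mk x) = QuotientGroup.mk (ω • x) := by
    intro ω x
    simp only [act]
    rw [QuotientGroup.eq]
    have h1 : ((QuotientGroup.mk x : K ⧸ Phi K p).out)⁻¹ * x ∈ Phi K p := by
      rw [← QuotientGroup.eq, QuotientGroup.out_eq']
    have h2 := smul_mem_Phi ω h1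
    rwa [smul_mul', smul_inv'] at h2
  have hfinT : (Set.range act).Finite := Set.toFinite _
  obtain ⟨T, hT⟩ : ∃ T : Finset Ω, ∀ ω : Ω, ∃ τ ∈ T, act τ = act ω := by
    choose! c hc using (fun (f : K ⧸ Phi K p → K ⧸ Phi K p) (hf : f ∈ Set.range act) => hf)
    refine ⟨hfinT.toFinset.image c, fun ω => ⟨c (act ω), ?_, hc _ ⟨ω, rfl⟩⟩⟩
    exact Finset.mem_image_of_mem _ (by simp)
  -- the finitely generated subgroup of the semidirect product
  let S : Finset (K ⋊[MulDistribMulAction.toMulAut Ω K] Ω) :=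
    (Finset.univ.image fun i => SemidirectProduct.inl (k i)) ∪ T.image SemidirectProduct.inr
  let Uu : Subgroup (K ⋊[MulDistribMulAction.toMulAut Ω K] Ω) := Subgroup.closure (S : Set _)
  have hUn : Group.IsNilpotent Uu := hLN S
  obtain ⟨m, hm⟩ := (Subgroup.isNilpotent_iff_lowerCentralSeries Uu).1 hUn
  have hinl : ∀ x : K, SemidirectProduct.inl x ∈ Uu := by
    intro x
    have h1 : (⊤ : Subgroup K) ≤ Uu.comap SemidirectProduct.inl := by
      rw [← hk, Subgroup.closure_le]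
      rintro _ ⟨i, rfl⟩
      exact Subgroup.subset_closure (by simp [S])
    exact h1 (Subgroup.mem_top x)
  have hinr : ∀ τ ∈ T, SemidirectProduct.inr τ ∈ Uu := by
    intro τ hτ
    refine Subgroup.subset_closure ?_
    simp only [S, Finset.coe_union, Finset.coe_image, Set.mem_union, Set.mem_image]
    exact Or.inr ⟨τ, hτ, rfl⟩
  have key : ∀ j, Mch Ω K p N ≤
      (Uu.lowerCentralSeries j).comap SemidirectProduct.inl ⊔ Phi K p := by
    intro j
    induction j with
    | zero =>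
      intro x _
      refine Subgroup.mem_sup_left ?_
      exact hinl x
    | succ j ih =>
      refine hN.trans ?_
      refine sup_le ?_ le_sup_right
      rw [Subgroup.closure_le]
      rintro _ ⟨x, hx, ω, rfl⟩
      obtain ⟨τ, hτ, hτω⟩ := hT ω
      have h1 := congrFun hτω (QuotientGroup.mk x)
      rw [hact, hact, QuotientGroup.eq] at h1
      have h2 := ih hx
      rw [Subgroup.mem_sup_of_normal_right] at h2
      obtain ⟨y, hy, z, hz, rfl⟩ := h2
      have h3 : (SemidirectProduct.inl (y⁻¹ * τ • y) :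
          K ⋊[MulDistribMulAction.toMulAut Ω K] Ω) ∈ Uu.lowerCentralSeries (j + 1) := by
        have e : (SemidirectProduct.inl (y⁻¹ * τ • y) :
            K ⋊[MulDistribMulAction.toMulAut Ω K] Ω) =
            ⁅((SemidirectProduct.inl y : K ⋊[MulDistribMulAction.toMulAut Ω K] Ω))⁻¹,
              (SemidirectProduct.inr τ : K ⋊[MulDistribMulAction.toMulAut Ω K] Ω)⁆ := by
          rw [commutatorElement_def, inv_inv, map_mul, map_inv]
          have e2 := SemidirectProduct.inl_aut (φ := MulDistribMulAction.toMulAut Ω K) τ y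
          have e3 : (MulDistribMulAction.toMulAut Ω K τ) y = τ • y := rfl
          rw [e3] at e2
          rw [e2, map_inv]
          group
        rw [e, Subgroup.lowerCentralSeries_succ]
        exact Subgroup.commutator_mem_commutator (inv_mem hy) (hinr τ hτ)
      have e : (y * z)⁻¹ * ω • (y * z) =
          (y⁻¹ * τ • y) * (((y⁻¹ * τ • y)⁻¹ * z⁻¹ * (y⁻¹ * τ • y)⁻¹⁻¹) * (τ • z) *
            ((τ • (y * z))⁻¹ * ω • (y * z))) := by
        simp only [smul_mul']
        group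
      rw [SetLike.mem_coe, e]
      refine mul_mem (Subgroup.mem_sup_left h3) (Subgroup.mem_sup_right ?_)
      refine mul_mem (mul_mem ?_ (smul_mem_Phi τ hz)) h1
      exact (instNormalPhi p).conj_mem _ (inv_mem hz) _
  refine ⟨N, fun b hb => ?_⟩
  have h1 : Mch Ω K p b ≤ Mch Ω K p N :=
    antitone_nat_of_succ_le (f := Mch Ω K p) (Mch_anti Ω K p) hb
  refine h1.trans ((key m).trans ?_)
  rw [hm]
  refine sup_le ?_ le_rfl
  intro x hx
  have : SemidirectProduct.inl x = (1 : K ⋊[MulDistribMulAction.toMulAut Ω K] Ω) := hx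
  have h2 : x = 1 := SemidirectProduct.inl_injective (by rw [this, map_one])
  rw [h2]
  exact one_mem _

end chain

end Pool.Agent.Work.MP_369e59_al
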