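import Pool.Agent.Work.MP_369e59_al.Laws

/-!
# Compactness for operator words
-/

namespace Pool.Agent.Work.MP_369e59_al

open scoped commutatorElement

section verbal

theorem verbal_mono {V V' : Set (FreeGroup ℕ)} (h : V ⊆ V') : verbal V ≤ verbal V' := by
  apply Subgroup.normalClosure_mono
  rintro _ ⟨v, hv, φ, rfl⟩
  exact ⟨v, h hv, φ, rfl⟩

theorem mem_verbal_finite {V : Set (FreeGroup ℕ)} {x : FreeGroup ℕ} (hx : x ∈ verbal V) :
    ∃ V₀ ⊆ V, V₀.Finite ∧ x ∈ verbal V₀ := by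
  let Q : Subgroup (FreeGroup ℕ) :=
    { carrier := {x | ∃ V₀ ⊆ V, V₀.Finite ∧ x ∈ verbal V₀}
      mul_mem' := by
        rintro a b ⟨V₁, h1, h2, h3⟩ ⟨V₂, h4, h5, h6⟩
        exact ⟨V₁ ∪ V₂, Set.union_subset h1 h4, h2.union h5,
          mul_mem (verbal_mono Set.subset_union_left h3) (verbal_mono Set.subset_union_right h6)⟩
      one_mem' := ⟨∅, Set.empty_subset _, Set.finite_empty, one_mem _⟩
      inv_mem' := by
        rintro a ⟨V₁, h1, h2, h3⟩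
        exact ⟨V₁, h1, h2, inv_mem h3⟩ }
  have hQ : Q.Normal := ⟨by
    rintro a ⟨V₁, h1, h2, h3⟩ g
    exact ⟨V₁, h1, h2, (inferInstance : (verbal V₁).Normal).conj_mem _ h3 g⟩⟩
  have h : verbal V ≤ Q := by
    apply Subgroup.normalClosure_le_normal
    rintro _ ⟨v, hv, φ, rfl⟩
    exact ⟨{v}, by simpa using hv, Set.finite_singleton v,
      Subgroup.subset_normalClosure ⟨v, rfl, φ, rfl⟩⟩
  exact h hx

theorem Generic.mono {V V' : Set (FreeGroup ℕ)} {u : MultId} (h : Generic V u) (hV : V ⊆ V') :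
    Generic V' u := by
  unfold Generic at *
  exact sup_le_sup_left (verbal_mono hV) _ h

theorem Generic.exists_finite {V : Set (FreeGroup ℕ)} {u : MultId} (h : Generic V u) :
    ∃ V₀ ⊆ V, V₀.Finite ∧ Generic V₀ u := by
  unfold Generic at h
  rw [Subgroup.mem_sup_of_normal_right] at h
  obtain ⟨y, hy, z, hz, hyz⟩ := h
  obtain ⟨V₀, h1, h2, h3⟩ := mem_verbal_finite hz
  refine ⟨V₀, h1, h2, ?_⟩
  unfold Generic
  rw [← hyz]
  exact mul_mem (Subgroup.mem_sup_left hy) (Subgroup.mem_sup_right h3)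

end verbal

section operators

variable {Ω : Type*} [Group Ω]

/-- The inclusion of the words with operators in a subgroup. -/
def inclW (Ω₁ : Subgroup Ω) : FreeGroup (ℕ × Ω₁) →* FreeGroup (ℕ × Ω) :=
  FreeGroup.map (Prod.map id Subtype.val)

theorem proj_inclW (Ω₁ : Subgroup Ω) (w : FreeGroup (ℕ × Ω₁)) :
    proj Ω (inclW Ω₁ w) = proj Ω₁ w := by
  have h : (proj Ω).comp (inclW Ω₁) = proj Ω₁ := by
    apply FreeGroup.ext_hom
    intro x
    simp [proj, inclW]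
  exact DFunLike.congr_fun h w

theorem exists_inclW (w : FreeGroup (ℕ × Ω)) : ∃ T : Finset Ω, ∀ Ω₁ : Subgroup Ω,
    (T : Set Ω) ⊆ Ω₁ → ∃ w₁, inclW Ω₁ w₁ = w := by
  classical
  induction w using FreeGroup.induction_on with
  | C1 => exact ⟨∅, fun Ω₁ _ => ⟨1, map_one _⟩⟩
  | of x =>
    refine ⟨{x.2}, fun Ω₁ h => ⟨FreeGroup.of (x.1, ⟨x.2, h (by simp)⟩), ?_⟩⟩
    simp [inclW]
  | inv_of x ih =>
    obtain ⟨T, hT⟩ := ih
    refine ⟨T, fun Ω₁ h => ?_⟩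
    obtain ⟨w₁, hw₁⟩ := hT Ω₁ h
    exact ⟨w₁⁻¹, by rw [map_inv, hw₁]⟩
  | mul x y ihx ihy =>
    obtain ⟨T, hT⟩ := ihx
    obtain ⟨T', hT'⟩ := ihy
    refine ⟨T ∪ T', fun Ω₁ h => ?_⟩
    rw [Finset.coe_union] at h
    obtain ⟨w₁, hw₁⟩ := hT Ω₁ (Set.subset_union_left.trans h)
    obtain ⟨w₂, hw₂⟩ := hT' Ω₁ (Set.subset_union_right.trans h)
    exact ⟨w₁ * w₂, by rw [map_mul, hw₁, hw₂]⟩

/-- The words with operators in a subgroup. -/
def resW (W : Set (FreeGroup (ℕ × Ω))) (Ω₁ : Subgroup Ω) : Set (FreeGroup (ℕ × Ω₁)) :=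
  {w | inclW Ω₁ w ∈ W}

theorem Generic.exists_ops {W : Set (FreeGroup (ℕ × Ω))} {u : MultId}
    (h : Generic (proj Ω '' W) u) : ∃ T : Finset Ω, ∀ Ω₁ : Subgroup Ω,
      (T : Set Ω) ⊆ Ω₁ → Generic (proj Ω₁ '' resW W Ω₁) u := by
  classical
  obtain ⟨V₀, h1, h2, h3⟩ := h.exists_finite
  have h4 : ∀ v ∈ V₀, ∃ T : Finset Ω, ∀ Ω₁ : Subgroup Ω, (T : Set Ω) ⊆ Ω₁ →
      v ∈ proj Ω₁ '' resW W Ω₁ := by
    intro v hv
    obtain ⟨w, hw, rfl⟩ := h1 hv
    obtain ⟨T, hT⟩ := exists_inclW w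
    refine ⟨T, fun Ω₁ hΩ => ?_⟩
    obtain ⟨w₁, hw₁⟩ := hT Ω₁ hΩ
    refine ⟨w₁, ?_, ?_⟩
    · change inclW Ω₁ w₁ ∈ W
      rw [hw₁]; exact hw
    · rw [← proj_inclW, hw₁]
  choose! T hT using h4
  refine ⟨h2.toFinset.biUnion T, fun Ω₁ hΩ => h3.mono fun v hv => hT v hv Ω₁ ?_⟩
  refine subset_trans ?_ hΩ
  intro t ht
  rw [Finset.mem_coe, Finset.mem_biUnion]
  exact ⟨v, by simpa using hv, ht⟩

/-- Finitely many identities only need finitely many operators. -/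
theorem exists_ops {W : Set (FreeGroup (ℕ × Ω))} {U₀ : Set MultId} (hfin : U₀.Finite)
    (h : ∀ u ∈ U₀, Generic (proj Ω '' W) u) : ∃ T : Finset Ω, ∀ Ω₁ : Subgroup Ω,
      (T : Set Ω) ⊆ Ω₁ → ∀ u ∈ U₀, Generic (proj Ω₁ '' resW W Ω₁) u := by
  classical
  have h1 : ∀ u ∈ U₀, ∃ T : Finset Ω, ∀ Ω₁ : Subgroup Ω,
      (T : Set Ω) ⊆ Ω₁ → Generic (proj Ω₁ '' resW W Ω₁) u := fun u hu => (h u hu).exists_ops
  choose! T hT using h1
  refine ⟨hfin.toFinset.biUnion T, fun Ω₁ hΩ u hu => hT u hu Ω₁ (subset_trans ?_ hΩ)⟩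
  intro t ht
  rw [Finset.mem_coe, Finset.mem_biUnion]
  exact ⟨u, by simpa using hu, ht⟩

/-- The action on an invariant subgroup. -/
abbrev subAct {Ω' : Type*} [Group Ω'] {G : Type*} [Group G] [MulDistribMulAction Ω' G]
    (K : Subgroup G) (hK : ∀ ω : Ω', ∀ x ∈ K, ω • x ∈ K) : MulDistribMulAction Ω' K where
  smul ω x := ⟨ω • (x : G), hK ω x x.2⟩
  one_smul x := Subtype.ext (one_smul Ω' (x : G))
  mul_smul a b x := Subtype.ext (mul_smul a b (x : G))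
  smul_mul a x y := Subtype.ext (smul_mul' a (x : G) (y : G))
  smul_one a := Subtype.ext (smul_one a)

theorem InVO.restrict {G : Type*} [Group G] [MulDistribMulAction Ω G]
    {W : Set (FreeGroup (ℕ × Ω))} (hW : InVO W G) (Ω₁ : Subgroup Ω) :
    InVO (resW W Ω₁) G := by
  intro w hw θ
  have h1 : (evalO (Ω := Ω) θ).comp (inclW Ω₁) = evalO (Ω := Ω₁) θ := by
    apply FreeGroup.ext_hom
    intro x
    simp only [evalO, inclW, MonoidHom.comp_apply, FreeGroup.map.of, FreeGroup.lift_apply_of]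
    rfl
  rw [← h1]
  exact hW _ hw θ

theorem InVO.sub {Ω' : Type*} [Group Ω'] {G : Type*} [Group G] [MulDistribMulAction Ω' G]
    {W : Set (FreeGroup (ℕ × Ω'))} (hW : InVO W G) (K : Subgroup G)
    (hK : ∀ ω : Ω', ∀ x ∈ K, ω • x ∈ K) : @InVO Ω' _ W K _ (subAct K hK) := by
  let inst := subAct K hK
  intro w hw θ
  have h1 : K.subtype.comp (evalO (Ω := Ω') θ) = evalO (Ω := Ω') (fun i => (θ i : G)) := by
    apply FreeGroup.ext_hom
    intro x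
    simp only [evalO, MonoidHom.comp_apply, FreeGroup.lift_apply_of]
    rfl
  have h2 := DFunLike.congr_fun h1 w
  apply Subtype.ext
  exact h2.trans (hW w hw _)

end operators

end Pool.Agent.Work.MP_369e59_al
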