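import Pool.Agent.Work.MP_369e59_al.CoreA
import Pool.Agent.Work.MP_369e59_al.Noeth
import Pool.Agent.Work.MP_369e59_al.Compact
import Pool.Agent.Work.MP_369e59_al.Words

/-!
# Reduction to finitely generated operator groups
-/

namespace Pool.Agent.Work.MP_369e59_al

open scoped commutatorElement

theorem LocNilp.of_injective {A B : Type*} [Group A] [Group B] (φ : A →* B)
    (hφ : Function.Injective φ) (hB : LocNilp B) : LocNilp A := by
  classical
  intro S
  obtain ⟨m, hm⟩ := (Subgroup.isNilpotent_iff_lowerCentralSeries _).1 (hB (S.image φ))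
  refine (Subgroup.isNilpotent_iff_lowerCentralSeries _).2 ⟨m, ?_⟩
  refine lcs_eq_bot_of_injective φ hφ ?_ hm
  rw [MonoidHom.map_closure, Finset.coe_image]

theorem exists_fin_family {K : Type*} [Group K] (S : Finset K)
    (hS : Subgroup.closure (S : Set K) = ⊤) :
    ∃ (n : ℕ) (k : Fin n → K), Subgroup.closure (Set.range k) = ⊤ := by
  classical
  refine ⟨S.card, fun i => (S.equivFin.symm i : K), ?_⟩
  rw [← hS]
  congr 1
  ext x
  constructor
  · rintro ⟨i, rfl⟩
    exact (S.equivFin.symm i).2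
  · intro hx
    exact ⟨S.equivFin ⟨x, hx⟩, by simp⟩

section

variable {Ω : Type*} [Group Ω] {G : Type*} [Group G] [MulDistribMulAction Ω G]

/-- The subgroup generated by the `T`-orbits of the elements of `S`. -/
def K1 (T : Subgroup Ω) (S : Set G) : Subgroup G :=
  Subgroup.closure {x | ∃ ω ∈ T, ∃ s ∈ S, x = ω • s}

theorem subset_K1 (T : Subgroup Ω) (S : Set G) : S ⊆ K1 T S := fun s hs =>
  Subgroup.subset_closure ⟨1, one_mem _, s, hs, (one_smul Ω s).symm⟩

theorem smul_mem_K1 (T : Subgroup Ω) (S : Set G) (ω : T) (x : G) (hx : x ∈ K1 T S) :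
    ω • x ∈ K1 T S := by
  have h : (K1 T S).map (MulDistribMulAction.toMonoidHom G (ω : Ω)) ≤ K1 T S := by
    unfold K1
    rw [MonoidHom.map_closure, Subgroup.closure_le]
    rintro _ ⟨_, ⟨τ, hτ, s, hs, rfl⟩, rfl⟩
    refine Subgroup.subset_closure ⟨ω * τ, mul_mem ω.2 hτ, s, hs, ?_⟩
    rw [mul_smul]
    rfl
  exact h ⟨x, hx, rfl⟩

theorem K1_le {T : Subgroup Ω} {S : Set G} {K : Subgroup G}
    (hK : ∀ ω ∈ T, ∀ x ∈ K, ω • x ∈ K) (hS : S ⊆ K) : K1 T S ≤ K := by
  unfold K1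
  rw [Subgroup.closure_le]
  rintro _ ⟨ω, hω, s, hs, rfl⟩
  exact hK ω hω s (hS hs)

/-- `K1 T S` is finitely generated if `T` and `S` are. -/
theorem K1_fg (hLN : LocNilp (G ⋊[MulDistribMulAction.toMulAut Ω G] Ω)) (T : Finset Ω)
    (S : Finset G) : ∃ (n : ℕ) (k : Fin n → K1 (Subgroup.closure (T : Set Ω)) (S : Set G)),
      Subgroup.closure (Set.range k) = ⊤ := by
  classical
  let X := G ⋊[MulDistribMulAction.toMulAut Ω G] Ω
  let inl : G →* X := SemidirectProduct.inl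
  let inr : Ω →* X := SemidirectProduct.inr
  have hinl : Function.Injective inl := SemidirectProduct.inl_injective
  let Q : Finset X := S.image inl ∪ T.image inr
  let Uu : Subgroup X := Subgroup.closure (Q : Set X)
  have hUn : Group.IsNilpotent Uu := hLN Q
  have hUg : ∃ (n : ℕ) (k : Fin n → Uu), Subgroup.closure (Set.range k) = ⊤ := by
    have h1 : Group.FG Uu := (Group.fg_iff_subgroup_fg _).2 ⟨Q, rfl⟩
    obtain ⟨Q', hQ'⟩ := h1.out
    exact exists_fin_family Q' hQ'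
  obtain ⟨n, k, hk⟩ := hUg
  have hT : ∀ ω ∈ Subgroup.closure (T : Set Ω), inr ω ∈ Uu := by
    intro ω hω
    have h1 : Subgroup.closure (T : Set Ω) ≤ Uu.comap inr := by
      rw [Subgroup.closure_le]
      intro t ht
      refine Subgroup.subset_closure ?_
      simp only [Q, Finset.coe_union, Finset.coe_image, Set.mem_union, Set.mem_image]
      exact Or.inr ⟨t, ht, rfl⟩
    exact h1 hω
  have hS : ∀ s ∈ S, inl s ∈ Uu := by
    intro s hs
    refine Subgroup.subset_closure ?_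
    simp only [Q, Finset.coe_union, Finset.coe_image, Set.mem_union, Set.mem_image]
    exact Or.inl ⟨s, hs, rfl⟩
  have hK : (K1 (Subgroup.closure (T : Set Ω)) (S : Set G)).map inl ≤ Uu := by
    unfold K1
    rw [MonoidHom.map_closure, Subgroup.closure_le]
    rintro _ ⟨_, ⟨ω, hω, s, hs, rfl⟩, rfl⟩
    have h1 : inl (ω • s) = inr ω * inl s * inr ω⁻¹ :=
      SemidirectProduct.inl_aut (φ := MulDistribMulAction.toMulAut Ω G) ω s
    rw [h1, map_inv]
    exact mul_mem (mul_mem (hT ω hω) (hS s hs)) (inv_mem (hT ω hω))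
  obtain ⟨F, hF⟩ := fg_of_nilpotent k hk hUn
    (((K1 (Subgroup.closure (T : Set Ω)) (S : Set G)).map inl).subgroupOf Uu)
  have h2 : Group.FG (((K1 (Subgroup.closure (T : Set Ω)) (S : Set G)).map inl).subgroupOf Uu) :=
    (Group.fg_iff_subgroup_fg _).2 ⟨F, hF⟩
  let e : (((K1 (Subgroup.closure (T : Set Ω)) (S : Set G)).map inl).subgroupOf Uu) ≃*
      K1 (Subgroup.closure (T : Set Ω)) (S : Set G) :=
    (Subgroup.subgroupOfEquivOfLe hK).trans
      ((K1 (Subgroup.closure (T : Set Ω)) (S : Set G)).equivMapOfInjective inl hinl).symm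
  have h3 : Group.FG (K1 (Subgroup.closure (T : Set Ω)) (S : Set G)) :=
    Group.fg_of_surjective (f := e.toMonoidHom) e.surjective
  obtain ⟨Q', hQ'⟩ := h3.out
  exact exists_fin_family Q' hQ'

/-- The semidirect product of an invariant subgroup and a subgroup of the operator group is locally
nilpotent. -/
theorem locNilp_sub (hLN : LocNilp (G ⋊[MulDistribMulAction.toMulAut Ω G] Ω)) (Ω₁ : Subgroup Ω)
    (K : Subgroup G) (hK : ∀ ω : Ω₁, ∀ x ∈ K, ω • x ∈ K) :
    let _ := subAct K hK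
    LocNilp (K ⋊[MulDistribMulAction.toMulAut Ω₁ K] Ω₁) := by
  intro inst
  refine LocNilp.of_injective (B := G ⋊[MulDistribMulAction.toMulAut Ω G] Ω)
    (SemidirectProduct.map K.subtype Ω₁.subtype (fun _ => rfl)) ?_ hLN
  intro a b hab
  have h1 := congrArg SemidirectProduct.left hab
  have h2 := congrArg SemidirectProduct.right hab
  exact SemidirectProduct.ext (Subtype.ext h1) (Subtype.ext h2)

end

/-- **Reduction theorem.** -/
theorem reduce.{u, v} {Ω : Type*} [Group Ω] {G : Type u} [Group G] [MulDistribMulAction Ω G]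
    {W : Set (FreeGroup (ℕ × Ω))} (hW : InVO W G) {U : Set MultId}
    (hU : ∀ u ∈ U, Generic (proj Ω '' W) u)
    (hLN : LocNilp (G ⋊[MulDistribMulAction.toMulAut Ω G] Ω))
    (Rs : Finset ℕ) (c : ℕ) (hRs : ∀ R ∈ Rs, VanishAt.{v} U R c)
    (q : ℕ) (hq : VanishAt.{v} U 2 q) :
    ∃ T₀ : Finset Ω, ∀ (T : Finset Ω), T₀ ⊆ T → ∀ (S : Finset G)
      (A : Subgroup (K1 (Subgroup.closure (T : Set Ω)) (S : Set G))), A.Normal →
      ∀ (c0 : ℕ), NilSol q A c0 →
      (∀ p : ℕ, p.Prime → ∃ r, ∃ R ∈ Rs,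
        (A ⊔ Phi (K1 (Subgroup.closure (T : Set Ω)) (S : Set G)) p).index ≤ p ^ r ∧ r + c0 ≤ R) →
      (⊤ : Subgroup (K1 (Subgroup.closure (T : Set Ω)) (S : Set G))).lowerCentralSeries c = ⊥ := by
  classical
  have h1 : ∀ R ∈ Rs, ∃ U₀ ⊆ U, U₀.Finite ∧ VanishAt.{u} U₀ R c := fun R hR =>
    (hRs R hR).exists_finite
  choose! V hV hVf hVv using h1
  obtain ⟨V', hV', hVf', hVv'⟩ := hq.exists_finite.{v, 0}
  let U₀ : Set MultId := (⋃ R ∈ Rs, V R) ∪ V'
  have hU₀f : U₀.Finite :=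
    (Set.Finite.biUnion Rs.finite_toSet (fun R hR => hVf R hR)).union hVf'
  have hU₀ : U₀ ⊆ U := Set.union_subset (Set.iUnion₂_subset hV) hV'
  have hvan : ∀ R ∈ Rs, VanishAt.{u} U₀ R c := fun R hR =>
    (hVv R hR).mono ((Set.subset_biUnion_of_mem (u := fun R => V R) (Finset.mem_coe.2 hR)).trans
      Set.subset_union_left)
  have hC := exists_coef (hVv'.mono (Set.subset_union_right : V' ⊆ U₀))
  obtain ⟨T₀, hT₀⟩ := exists_ops hU₀f (fun u hu => hU u (hU₀ hu))
  refine ⟨T₀, fun T hT S A hAn c0 hA hr => ?_⟩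
  have hTs : (T₀ : Set Ω) ⊆ (Subgroup.closure (T : Set Ω) : Subgroup Ω) :=
    (Finset.coe_subset.2 hT).trans Subgroup.subset_closure
  have hgen := hT₀ _ hTs
  obtain ⟨n, k, hk⟩ := K1_fg hLN T S
  let inst := subAct (K1 (Subgroup.closure (T : Set Ω)) (S : Set G))
    (fun ω x hx => smul_mem_K1 _ _ ω x hx)
  have hW' := (hW.restrict (Subgroup.closure (T : Set Ω))).sub
    (K1 (Subgroup.closure (T : Set Ω)) (S : Set G)) (fun ω x hx => smul_mem_K1 _ _ ω x hx)
  have hLN' := locNilp_sub hLN (Subgroup.closure (T : Set Ω))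
    (K1 (Subgroup.closure (T : Set Ω)) (S : Set G)) (fun ω x hx => smul_mem_K1 _ _ ω x hx)
  refine coreA (Ω := Subgroup.closure (T : Set Ω)) hW' hgen hLN' k hk hC A hA c ?_
  intro p hp
  obtain ⟨r, R, hR, h1, h2⟩ := hr p hp
  exact ⟨r, R, h1, h2, hvan R hR⟩

end Pool.Agent.Work.MP_369e59_al
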