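import Pool.Agent.Work.MP_369e59_al.Laws
import Pool.Agent.Work.MP_369e59_al.Cube

/-!
# The graded Lie ring satisfies the multilinear identities
-/

namespace Pool.Agent.Work.MP_369e59_al

open scoped commutatorElement

section cube

variable {K : Type*} [Group K]

theorem InC.conj {m : ℕ} {A B : Finset ℕ → Subgroup K} (h1 : Cross B A B) (h2 : Cross B B B)
    {k x : Finset ℕ → K} (hk : InC m A k) (hx : InC m B x) : InC m B (k * x * k⁻¹) := by
  have h3 := (InC.closure_props m).2.2 A B B h1.comm h2 h1 h2 k x hk hx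
  have h4 := (InC.closure_props m).1 B h2 _ _ h3 hx
  have : ⁅k, x⁆ * x = k * x * k⁻¹ := by rw [commutatorElement_def]; group
  rwa [this] at h4

/-- The operators act trivially on `C(A) / C(B)`. -/
theorem InC.smul {Ω : Type*} [Group Ω] [MulDistribMulAction Ω K] (ω : Ω) (m : ℕ) :
    ∀ (A B : Finset ℕ → Subgroup K), Cross A A A → Cross B A B → Cross B B B →
      (∀ T, ∀ x ∈ A T, x⁻¹ * (ω • x) ∈ B T) → ∀ k, InC m A k → InC m B (k⁻¹ * (ω • k)) := by
  induction m with
  | zero => intro A B _ _ _ h k hk; exact h ∅ _ hk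
  | succ m ih =>
    intro A B hA hBA hB h k hk
    obtain ⟨hk1, hk2⟩ := hk
    have e1 := ih A B hA hBA hB h k hk1
    refine ⟨e1, ?_⟩
    have e2 := ih (sh m A) (sh m B) (hA.sh_both m) (hBA.sh_both m) (hB.sh_both m)
      (fun T x hx => h _ x hx) (dl m k) hk2
    have e3 : dl m (k⁻¹ * (ω • k)) =
        ⁅(k⁻¹ * (ω • k))⁻¹, (dl m k)⁻¹⁆ * ((dl m k)⁻¹ * (ω • dl m k)) := by
      funext S
      simp only [dl, Pi.mul_apply, Pi.inv_apply, Pi.smul_apply, commutatorElement_def, smul_mul',
        smul_inv']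
      group
    rw [e3]
    have hE := hB.sh_both m
    refine (InC.closure_props m).1 _ hE _ _ ?_ e2
    refine (InC.closure_props m).2.2 B (sh m A) (sh m B) (hBA.sh_right m) hE (hB.sh_left m)
      (hBA.sh_both m) _ _ ?_ ?_
    · exact (InC.closure_props m).2.1 B hB _ e1
    · exact (InC.closure_props m).2.1 _ (hA.sh_both m) _ hk2

end cube

section family

variable {K : Type*} [Group K] {M : ℕ → Subgroup K}

/-- The family of subgroups used for the cubes. -/
def fam (M : ℕ → Subgroup K) (w s : ℕ → ℕ) (α : Finset ℕ → ℕ) (T : Finset ℕ) : Subgroup K :=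
  DD M (∑ j ∈ T, w j) ((∑ j ∈ T, s j) + α T)

theorem cross_fam (hM : IsChn M) (w s : ℕ → ℕ) (hw : ∀ j, 0 < w j) (α β γ : Finset ℕ → ℕ)
    (h : ∀ T T' : Finset ℕ, T.Nonempty → T'.Nonempty → Disjoint T T' →
      γ (T ∪ T') ≤ α T + β T') : Cross (fam M w s α) (fam M w s β) (fam M w s γ) := by
  intro T T'
  have pos : ∀ T : Finset ℕ, T.Nonempty → 0 < ∑ j ∈ T, w j := fun T hT =>
    Finset.sum_pos (fun j _ => hw j) hT
  unfold fam
  rcases T.eq_empty_or_nonempty with rfl | hT
  · rcases T'.eq_empty_or_nonempty with rfl | hT'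
    · simp only [Finset.empty_union, Finset.sum_empty]
      exact le_top
    · rw [Finset.empty_union, Finset.sum_empty, Subgroup.commutator_comm]
      exact hM.DD_comm_top _ _ _ (pos T' hT')
  · rcases T'.eq_empty_or_nonempty with rfl | hT'
    · rw [Finset.union_empty, Finset.sum_empty]
      exact hM.DD_comm_top _ _ _ (pos T hT)
    · refine (hM.DD_comm (pos T hT) (pos T' hT')).trans (hM.DD_mono ?_)
      have hw1 := Finset.sum_union_inter (s₁ := T) (s₂ := T') (f := w)
      have hs1 := Finset.sum_union_inter (s₁ := T) (s₂ := T') (f := s)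
      by_cases hd : Disjoint T T'
      · right
        have h2 : T ∩ T' = ∅ := Finset.disjoint_iff_inter_eq_empty.1 hd
        rw [h2, Finset.sum_empty] at hw1 hs1
        have := h T T' hT hT' hd
        omega
      · left
        have h2 : (T ∩ T').Nonempty := Finset.not_disjoint_iff_nonempty_inter.1 hd
        have := pos _ h2
        omega

end family

section main

variable {Ω : Type*} [Group Ω] {K : Type*} [Group K] [MulDistribMulAction Ω K]
  {M : ℕ → Subgroup K}

theorem eval_cube {W : Set (FreeGroup (ℕ × Ω))} (hW : InVO W K) {P : Subgroup (Finset ℕ → K)}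
    {Q : Subgroup (Finset ℕ → K)} (hPQ : ∀ k ∈ P, ∀ x ∈ Q, k * x * k⁻¹ ∈ Q)
    (hO : ∀ k ∈ P, ∀ ω : Ω, k⁻¹ * (ω • k) ∈ Q) (w : FreeGroup (ℕ × Ω)) (hw : w ∈ W)
    (k : ℕ → Finset ℕ → K) (hk : ∀ i, k i ∈ P) : FreeGroup.lift k (proj Ω w) ∈ Q := by
  have hconj : ∀ k ∈ P, ∀ x ∈ Q, k⁻¹ * x * k ∈ Q := by
    intro k hk x hx
    have := hPQ k⁻¹ (inv_mem hk) x hx
    rwa [inv_inv] at this
  have key : ∀ w : FreeGroup (ℕ × Ω), FreeGroup.lift k (proj Ω w) ∈ P ∧
      (FreeGroup.lift k (proj Ω w))⁻¹ * evalO k w ∈ Q := by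
    intro w
    induction w using FreeGroup.induction_on with
    | C1 => simp
    | of x =>
      simp only [proj, evalO, FreeGroup.map.of, FreeGroup.lift_apply_of]
      exact ⟨hk _, hO _ (hk _) _⟩
    | inv_of x ih =>
      rw [map_inv, map_inv, map_inv]
      refine ⟨inv_mem ih.1, ?_⟩
      have := hPQ _ ih.1 _ (inv_mem ih.2)
      have e : ∀ a b : Finset ℕ → K, a⁻¹⁻¹ * b⁻¹ = a * (a⁻¹ * b)⁻¹ * a⁻¹ := by
        intro a b; group
      rw [e]
      exact this
    | mul x y ihx ihy =>
      rw [map_mul, map_mul, map_mul]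
      refine ⟨mul_mem ihx.1 ihy.1, ?_⟩
      have := mul_mem (hconj _ ihy.1 _ ihx.2) ihy.2
      have e : ∀ a b c d : Finset ℕ → K, (a * b)⁻¹ * (c * d) = b⁻¹ * (a⁻¹ * c) * b * (b⁻¹ * d) := by
        intro a b c d; group
      rw [e]
      exact this
  have h1 : evalO k w = 1 := by
    funext S
    have h2 := hW w hw (fun i => k i S)
    have h3 : (Pi.evalMonoidHom (fun _ : Finset ℕ => K) S).comp (evalO (Ω := Ω) k) =
        evalO (fun i => k i S) := by
      apply FreeGroup.ext_hom
      intro x
      simp [evalO]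
    have h4 := DFunLike.congr_fun h3 w
    rw [h2] at h4
    exact h4
  have h5 := (key w).2
  rw [h1, mul_one] at h5
  simpa using inv_mem h5

/-- The homogeneous form of the main statement. -/
theorem gEval_mem_DD (hM : IsChn M) (hO : IsOpChn Ω M) {W : Set (FreeGroup (ℕ × Ω))}
    (hW : InVO W K) (u : MultId) (hu : Generic (proj Ω '' W) u) (w s : Fin (u.n + 1) → ℕ) (hw : ∀ k, 0 < w k)
    (g : Fin (u.n + 1) → K) (hg : ∀ k, g k ∈ DD M (w k) (s k)) :
    u.gEval g ∈ DD M (∑ k, w k) ((∑ k, s k) + 1) := by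
  classical
  let m := u.n + 1
  let w' : ℕ → ℕ := fun j => if h : j < m then w ⟨j, h⟩ else 1
  let s' : ℕ → ℕ := fun j => if h : j < m then s ⟨j, h⟩ else 0
  let kk : ℕ → Finset ℕ → K := fun j => if h : j < m then face j (g ⟨j, h⟩) else 1
  have hw' : ∀ j, 0 < w' j := by
    intro j
    simp only [w']
    split_ifs with h
    · exact hw _
    · exact Nat.one_pos
  -- the families
  let F : (Finset ℕ → ℕ) → Finset ℕ → Subgroup K := fam M w' s'
  have cF : ∀ α β γ : Finset ℕ → ℕ, (∀ T T' : Finset ℕ, T.Nonempty → T'.Nonempty →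
      Disjoint T T' → γ (T ∪ T') ≤ α T + β T') → Cross (F α) (F β) (F γ) :=
    fun α β γ h => cross_fam hM w' s' hw' α β γ h
  let f0 : Finset ℕ → ℕ := fun _ => 0
  let f1 : Finset ℕ → ℕ := fun _ => 1
  have c000 : Cross (F f0) (F f0) (F f0) := cF _ _ _ (fun _ _ _ _ _ => by simp [f0])
  have c101 : Cross (F f1) (F f0) (F f1) := cF _ _ _ (fun _ _ _ _ _ => by simp [f0, f1])
  have c111 : Cross (F f1) (F f1) (F f1) := cF _ _ _ (fun _ _ _ _ _ => by simp [f1])
  let P : Subgroup (Finset ℕ → K) := CG m (F f0) c000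
  let Q : Subgroup (Finset ℕ → K) := CG m (F f1) c111
  have hPQ : ∀ k ∈ P, ∀ x ∈ Q, k * x * k⁻¹ ∈ Q := fun k hk x hx =>
    InC.conj c101 c111 (mem_CG.1 hk) (mem_CG.1 hx)
  have hOP : ∀ k ∈ P, ∀ ω : Ω, k⁻¹ * (ω • k) ∈ Q := by
    intro k hk ω
    refine InC.smul ω m (F f0) (F f1) c000 c101 c111 ?_ k (mem_CG.1 hk)
    intro T x hx
    exact isOpChn_DD hM hO _ _ x hx ω
  have hkk : ∀ j, kk j ∈ P := by
    intro j
    simp only [kk]
    split_ifs with h
    · refine mem_CG.2 (InC.face m _ j _ h ?_)
      change g ⟨j, h⟩ ∈ DD M (∑ i ∈ {j}, w' i) ((∑ i ∈ {j}, s' i) + 0)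
      rw [Finset.sum_singleton, Finset.sum_singleton]
      simp only [w', s', h, dif_pos, add_zero]
      exact hg _
    · exact one_mem _
  have hmem : ∀ x : FreeGroup ℕ, FreeGroup.lift kk x ∈ P := by
    intro x
    have h1 : (FreeGroup.lift kk).range ≤ P := by
      apply FreeGroup.range_lift_le
      rintro _ ⟨j, rfl⟩
      exact hkk j
    exact h1 ⟨x, rfl⟩
  -- the subgroup of the free group
  let R : Subgroup (FreeGroup ℕ) := Q.comap (FreeGroup.lift kk)
  have hRn : R.Normal := ⟨fun x hx y => by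
    change FreeGroup.lift kk (y * x * y⁻¹) ∈ Q
    rw [map_mul, map_mul, map_inv]
    exact hPQ _ (hmem y) _ hx⟩
  have hverb : verbal (proj Ω '' W) ≤ R := by
    refine Subgroup.normalClosure_le_normal ?_
    rintro _ ⟨_, ⟨v, hv, rfl⟩, φ, rfl⟩
    change FreeGroup.lift kk (φ (proj Ω v)) ∈ Q
    have h1 : FreeGroup.lift kk (φ (proj Ω v)) =
        FreeGroup.lift (fun i => FreeGroup.lift kk (φ (FreeGroup.of i))) (proj Ω v) := by
      have h2 : (FreeGroup.lift kk).comp φ =
          FreeGroup.lift (fun i => FreeGroup.lift kk (φ (FreeGroup.of i))) := by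
        apply FreeGroup.ext_hom
        intro x
        simp
      exact DFunLike.congr_fun h2 (proj Ω v)
    rw [h1]
    exact eval_cube hW hPQ hOP v hv _ (fun i => hmem _)
  have hlcs : (⊤ : Subgroup (FreeGroup ℕ)).lowerCentralSeries (u.n + 1) ≤ R := by
    have step : ∀ j : ℕ, ∀ x ∈ (⊤ : Subgroup (FreeGroup ℕ)).lowerCentralSeries j,
        InC m (F (fun T => if T.card < j + 1 then 1 else 0)) (FreeGroup.lift kk x) := by
      have cjj : ∀ j : ℕ, Cross (F (fun T => if T.card < j then 1 else 0))
          (F (fun T => if T.card < j then 1 else 0))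
          (F (fun T => if T.card < j then 1 else 0)) := by
        intro j
        refine cF _ _ _ (fun T T' hT hT' hd => ?_)
        rw [Finset.card_union_of_disjoint hd]
        have := hT.card_pos
        have := hT'.card_pos
        split_ifs <;> omega
      have cj0 : ∀ j : ℕ, Cross (F (fun T => if T.card < j then 1 else 0)) (F f0)
          (F (fun T => if T.card < j + 1 then 1 else 0)) := by
        intro j
        refine cF _ _ _ (fun T T' hT hT' hd => ?_)
        rw [Finset.card_union_of_disjoint hd]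
        have := hT.card_pos
        have := hT'.card_pos
        simp only [f0]
        split_ifs <;> omega
      have cj0' : ∀ j : ℕ, Cross (F (fun T => if T.card < j then 1 else 0)) (F f0)
          (F (fun T => if T.card < j then 1 else 0)) := by
        intro j
        refine cF _ _ _ (fun T T' hT hT' hd => ?_)
        rw [Finset.card_union_of_disjoint hd]
        have := hT.card_pos
        have := hT'.card_pos
        simp only [f0]
        split_ifs <;> omega
      have cj1 : ∀ j : ℕ, Cross (F (fun T => if T.card < j + 1 then 1 else 0))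
          (F (fun T => if T.card < j then 1 else 0))
          (F (fun T => if T.card < j + 1 then 1 else 0)) := by
        intro j
        refine cF _ _ _ (fun T T' hT hT' hd => ?_)
        rw [Finset.card_union_of_disjoint hd]
        have := hT.card_pos
        have := hT'.card_pos
        split_ifs <;> omega
      intro j
      induction j with
      | zero =>
        intro x _
        refine InC.mono m (F f0) _ _ _ (fun T _ => ?_) (fun _ _ => rfl) (mem_CG.1 (hmem x))
        rcases T.eq_empty_or_nonempty with rfl | hT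
        · change _ ≤ DD M (∑ i ∈ (∅ : Finset ℕ), w' i) _
          rw [Finset.sum_empty]
          exact le_top
        · have h1 := hT.card_pos
          have h2 : ¬ T.card < 0 + 1 := by omega
          simp only [F, fam, f0, if_neg h2]
          exact le_rfl
      | succ j ih =>
        intro x hx
        rw [Subgroup.lowerCentralSeries_succ] at hx
        have hle : ⁅(⊤ : Subgroup (FreeGroup ℕ)).lowerCentralSeries j, ⊤⁆ ≤
            (CG m _ (cjj (j + 1 + 1))).comap (FreeGroup.lift kk) := by
          rw [Subgroup.commutator_le]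
          intro a ha b _
          rw [Subgroup.mem_comap, mem_CG, map_commutatorElement]
          exact (InC.closure_props m).2.2 _ _ _ (cj0 (j + 1)) (cjj (j + 1 + 1)) (cj1 (j + 1))
            (cj0' (j + 1 + 1)) _ _ (ih a ha) (mem_CG.1 (hmem b))
        exact (mem_CG (hA := cjj (j + 1 + 1))).1 (hle hx)
    intro x hx
    change InC m (F f1) (FreeGroup.lift kk x)
    refine InC.mono m _ _ _ _ (fun T hT => ?_) (fun _ _ => rfl) (step (u.n + 1) x hx)
    have h1 := Finset.card_le_card hT
    rw [Finset.card_range] at h1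
    have h2 : T.card < u.n + 1 + 1 := by
      have : m = u.n + 1 := rfl
      omega
    simp only [F, fam, f1, if_pos h2]
    exact le_rfl
  have key := hu.mem hverb hlcs
  change InC m (F f1) (FreeGroup.lift kk _) at key
  rw [map_gEval] at key
  have h1 : ∀ S : Finset ℕ, (u.gEval (fun k : Fin (u.n + 1) =>
      FreeGroup.lift kk (FreeGroup.of (k : ℕ)))) S = u.gEval (fun k : Fin (u.n + 1) => kk k S) := by
    intro S
    have := map_gEval (Pi.evalMonoidHom (fun _ : Finset ℕ => K) S) u
      (fun k : Fin (u.n + 1) => FreeGroup.lift kk (FreeGroup.of (k : ℕ)))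
    simp only [Pi.evalMonoidHom_apply] at this
    rw [this]
    simp
  have htop := InC.top m (F f1) _ key (fun S hS hne => by
    rw [h1 S]
    obtain ⟨j, hj, hjS⟩ : ∃ j ∈ Finset.range m, j ∉ S := by
      by_contra hcon
      push Not at hcon
      exact hne (Finset.Subset.antisymm hS hcon)
    rw [Finset.mem_range] at hj
    refine gEval_eq_one u _ ⟨j, hj⟩ ?_
    simp only [kk, hj, dif_pos, face, hjS, if_false])
  rw [h1] at htop
  have h2 : (fun k : Fin (u.n + 1) => kk k (Finset.range m)) = g := by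
    funext k
    have hk : (k : ℕ) < m := k.2
    simp only [kk, hk, dif_pos, face, Finset.mem_range, if_true]
  rw [h2] at htop
  have h3 : ∑ j ∈ Finset.range m, w' j = ∑ k, w k := by
    rw [Finset.sum_range]
    refine Finset.sum_congr rfl fun k _ => ?_
    have hk : (k : ℕ) < m := k.2
    simp only [w', hk, dif_pos]
    rfl
  have h4 : ∑ j ∈ Finset.range m, s' j = ∑ k, s k := by
    rw [Finset.sum_range]
    refine Finset.sum_congr rfl fun k _ => ?_
    have hk : (k : ℕ) < m := k.2
    simp only [s', hk, dif_pos]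
    rfl
  simp only [F, fam, f1] at htop
  rw [h3, h4] at htop
  exact htop

end main

end Pool.Agent.Work.MP_369e59_al
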