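import Pool.Agent.Work.MP_369e59_al.ThmD

/-!
# Orbits of bounded length
-/

namespace Pool.Agent.Work.MP_369e59_al

open scoped commutatorElement

section unipotent

variable {Ω : Type*} [Group Ω] {K : Type*} [Group K] [MulDistribMulAction Ω K]

theorem smul_mem_Mch {p a : ℕ} (ω : Ω) {x : K} (hx : x ∈ Mch Ω K p a) : ω • x ∈ Mch Ω K p a := by
  have h1 := Mch_anti Ω K p a (isOpChn_Mch Ω K p a x hx ω)
  have h2 := mul_mem hx h1
  rwa [mul_inv_cancel_left] at h2

theorem iterate_smul {p j : ℕ} (σ : Ω) {x : K} (hx : x⁻¹ * (σ • x) ∈ Mch Ω K p (j + 1)) (i : ℕ) :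
    ((x⁻¹ * (σ • x)) ^ i)⁻¹ * (x⁻¹ * (σ ^ i • x)) ∈ Mch Ω K p (j + 2) := by
  have hN : (Mch Ω K p (j + 2)).Normal := (isChn_Mch Ω K p).normal (j + 2)
  obtain ⟨m, hm⟩ : ∃ m, m = x⁻¹ * (σ • x) := ⟨_, rfl⟩
  rw [← hm] at hx ⊢
  have hσ : σ • x = x * m := by rw [hm]; group
  induction i with
  | zero => simp
  | succ i ih =>
    obtain ⟨t, ht⟩ : ∃ t, t = (m ^ i)⁻¹ * (x⁻¹ * (σ ^ i • x)) := ⟨_, rfl⟩
    rw [← ht] at ih
    have h1 : σ ^ i • x = x * m ^ i * t := by rw [ht]; group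
    have h2 : σ ^ (i + 1) • x = x * m * (σ • m) ^ i * (σ • t) := by
      rw [pow_succ', mul_smul, h1, smul_mul', smul_mul', smul_pow', hσ]
    have h3 : (m ^ (i + 1))⁻¹ * (x⁻¹ * (σ ^ (i + 1) • x)) =
        ((m ^ i)⁻¹ * (σ • m) ^ i) * (σ • t) := by
      rw [h2, pow_succ']
      group
    rw [h3]
    refine mul_mem ?_ (smul_mem_Mch σ ih)
    have h4 : m⁻¹ * (σ • m) ∈ Mch Ω K p (j + 2) := isOpChn_Mch Ω K p (j + 1) m hx σ
    rw [← QuotientGroup.eq] at h4 ⊢
    rw [QuotientGroup.mk_pow, QuotientGroup.mk_pow, h4]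

/-- Powers of the operators act trivially deep down. -/
theorem pow_smul_mem (p j : ℕ) (ω : Ω) (x : K) :
    x⁻¹ * (ω ^ (p ^ j) • x) ∈ Mch Ω K p (j + 1) := by
  induction j generalizing x with
  | zero =>
    rw [pow_zero, pow_one]
    exact isOpChn_Mch Ω K p 0 x (Subgroup.mem_top x) ω
  | succ j ih =>
    have h1 := iterate_smul (ω ^ (p ^ j)) (ih x) p
    have h2 : (ω ^ p ^ j) ^ p = ω ^ p ^ (j + 1) := by rw [← pow_mul, ← pow_succ]
    rw [h2] at h1
    have h3 : (x⁻¹ * (ω ^ p ^ j • x)) ^ p ∈ Mch Ω K p (j + 2) :=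
      Phi_le_Mch Ω K p _ (pow_mem_Phi p _)
    have h4 := mul_mem h3 h1
    rwa [mul_inv_cancel_left] at h4

/-- The orbits of the operator group in the quotient by an invariant normal subgroup containing
`Φ_p(K)` have `p`-power length. -/
theorem card_orbit_eq_pow {p N : ℕ} (hp : p.Prime) (hN : ∀ b, N ≤ b → Mch Ω K p b ≤ Phi K p)
    (B : Subgroup K) (hB : Phi K p ≤ B) [MulAction.QuotientAction Ω B] [Finite (K ⧸ B)]
    (v : K ⧸ B) : ∃ k : ℕ, (MulAction.orbit Ω v).ncard = p ^ k := by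
  have : Fact p.Prime := ⟨hp⟩
  let ρ := MulAction.toPermHom Ω (K ⧸ B)
  have hP : IsPGroup p ρ.range := by
    rintro ⟨_, ω, rfl⟩
    refine ⟨N, ?_⟩
    apply Subtype.ext
    change (ρ ω) ^ p ^ N = 1
    rw [← map_pow]
    apply Equiv.ext
    intro w
    induction w using QuotientGroup.induction_on with
    | H x =>
      change ω ^ p ^ N • (QuotientGroup.mk x : K ⧸ B) = QuotientGroup.mk x
      rw [MulAction.Quotient.smul_mk, eq_comm, QuotientGroup.eq]
      exact hB (hN (N + 1) (Nat.le_succ N) (pow_smul_mem p N ω x))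
  have h1 : (MulAction.orbit ρ.range v : Set (K ⧸ B)) = MulAction.orbit Ω v := by
    ext w
    constructor
    · rintro ⟨⟨_, ω, rfl⟩, rfl⟩
      exact ⟨ω, rfl⟩
    · rintro ⟨ω, rfl⟩
      exact ⟨⟨ρ ω, ω, rfl⟩, rfl⟩
  have h2 : Finite (MulAction.orbit ρ.range v) := inferInstance
  obtain ⟨k, hk⟩ := hP.card_orbit v
  refine ⟨k, ?_⟩
  rw [← h1, ← hk]
  exact (Nat.card_coe_set_eq _).symm

end unipotent

/-- **Orbits of bounded length.** -/
theorem thmB.{u, v} {Ω : Type*} [Group Ω] {G : Type u} [Group G] [MulDistribMulAction Ω G]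
    {W : Set (FreeGroup (ℕ × Ω))} (hW : InVO W G) {U : Set MultId}
    (hU : ∀ u ∈ U, Generic (proj Ω '' W) u) {f : ℕ → ℕ} (hf : ClassBound.{v} U f)
    (hLN : LocNilp (G ⋊[MulDistribMulAction.toMulAut Ω G] Ω))
    (A : Subgroup G) [A.Normal] (hAΩ : ∀ ω : Ω, ∀ x ∈ A, ω • x ∈ A) {c0 : ℕ}
    (hA : NilSol (f 2) A c0) {n : ℕ} (hn : n ≠ 0)
    (horb : ∀ g : G, (Set.range fun ω : Ω => (QuotientGroup.mk (ω • g) : G ⧸ A)).ncard ∣ n)
    {d : ℕ} (h : Fin d → G) {c : ℕ}
    (hc : ∀ p : ℕ, p.Prime → f (d * p ^ n.factorization p + c0) ≤ c) :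
    (Subgroup.closure (Set.range h)).lowerCentralSeries c = ⊥ := by
  classical
  let Rs : Finset ℕ := (n.divisors.image fun q => d * q + c0).filter fun R => f R ≤ c
  obtain ⟨T₀, hT₀⟩ := reduce hW hU hLN Rs c (by
    intro R hR
    rw [Finset.mem_filter] at hR
    exact hf.vanishAt hR.2) (f 2) (hf.vanishAt le_rfl)
  -- orbit representatives
  have horbf : ∀ g : G, (Set.range fun ω : Ω => (QuotientGroup.mk (ω • g) : G ⧸ A)).Finite := by
    intro g
    by_contra hinf
    have h1 := horb g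
    rw [Set.Infinite.ncard hinf, zero_dvd_iff] at h1
    exact hn h1
  have hrep : ∀ g : G, ∃ Tg : Finset Ω, ∀ ω : Ω, ∃ τ ∈ Tg,
      (QuotientGroup.mk (τ • g) : G ⧸ A) = QuotientGroup.mk (ω • g) := by
    intro g
    choose! s hs using (fun (v : G ⧸ A)
      (hv : v ∈ Set.range fun ω : Ω => (QuotientGroup.mk (ω • g) : G ⧸ A)) => hv)
    refine ⟨(horbf g).toFinset.image s, fun ω => ⟨s (QuotientGroup.mk (ω • g)), ?_, hs _ ⟨ω, rfl⟩⟩⟩
    exact Finset.mem_image_of_mem _ (by simp)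
  choose Tr hTr using hrep
  let T : Finset Ω := T₀ ∪ Finset.univ.biUnion fun i => Tr (h i)
  let S : Finset G := Finset.univ.image h
  let Ω₁ : Subgroup Ω := Subgroup.closure (T : Set Ω)
  let K₁ : Subgroup G := K1 Ω₁ (S : Set G)
  let act := subAct K₁ (fun ω x hx => smul_mem_K1 Ω₁ (S : Set G) ω x hx)
  let A₁ : Subgroup K₁ := A.comap K₁.subtype
  have hA₁ : NilSol (f 2) A₁ c0 :=
    hA.of_injective K₁.subtype K₁.subtype_injective (Subgroup.map_comap_le _ _)
  have hhK : ∀ i, h i ∈ K₁ := fun i => subset_K1 _ _ (by simp [S])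
  obtain ⟨m, k, hk⟩ := K1_fg hLN T S
  have hLN₁ := locNilp_sub hLN Ω₁ K₁ (fun ω x hx => smul_mem_K1 Ω₁ (S : Set G) ω x hx)
  have hbot := hT₀ T Finset.subset_union_left S A₁ inferInstance c0 hA₁ (by
    intro p hp
    let B : Subgroup K₁ := A₁ ⊔ Phi K₁ p
    have hBn : B.Normal := inferInstance
    have hBP : Phi K₁ p ≤ B := le_sup_right
    have hBΩ : ∀ ω : Ω₁, ∀ x ∈ B, ω • x ∈ B := by
      intro ω x hx
      have h1 : B.map (MulDistribMulAction.toMonoidHom K₁ ω) ≤ B := by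
        change (A₁ ⊔ Phi K₁ p).map _ ≤ _
        rw [Subgroup.map_sup]
        refine sup_le_sup ?_ ?_
        · rintro _ ⟨y, hy, rfl⟩
          exact hAΩ ω _ hy
        · rintro _ ⟨y, hy, rfl⟩
          exact smul_mem_Phi ω hy
      exact h1 ⟨x, hx, rfl⟩
    have hQA : MulAction.QuotientAction Ω₁ B := ⟨by
      intro ω a a' haa
      have h1 := hBΩ ω _ haa
      rwa [smul_mul', smul_inv'] at h1⟩
    have hQA' : MulAction.QuotientAction Ω₁ A := ⟨by
      intro ω a a' haa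
      have h1 : ω • (a⁻¹ * a') ∈ A := hAΩ ω _ haa
      rwa [smul_mul', smul_inv'] at h1⟩
    have hfin : Finite (K₁ ⧸ B) := by
      refine (card_quot_le' p hp B hBP k ?_).1
      intro g
      rw [hk]
      exact Subgroup.mem_sup_left (Subgroup.mem_top g)
    have hfinP : Finite (K₁ ⧸ Phi K₁ p) := by
      refine (card_quot_le' p hp (Phi K₁ p) le_rfl k ?_).1
      intro g
      rw [hk]
      exact Subgroup.mem_sup_left (Subgroup.mem_top g)
    obtain ⟨N, hN⟩ := exists_Mch_le (Ω := Ω₁) k hk hLN₁ p hfinP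
    -- the orbits of the generators
    let v : Fin d → K₁ ⧸ B := fun i => QuotientGroup.mk ⟨h i, hhK i⟩
    have horbv : ∀ i, (MulAction.orbit Ω₁ (v i)).ncard ≤ p ^ n.factorization p := by
      intro i
      obtain ⟨e, he⟩ := card_orbit_eq_pow hp hN B hBP (v i)
      have h1 : (MulAction.stabilizer Ω₁ (QuotientGroup.mk (h i) : G ⧸ A)) ≤
          MulAction.stabilizer Ω₁ (v i) := by
        intro ω hω
        rw [MulAction.mem_stabilizer_iff] at hω ⊢
        rw [MulAction.Quotient.smul_mk, eq_comm, QuotientGroup.eq] at hω ⊢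
        exact Subgroup.mem_sup_left hω
      have h2 := Subgroup.index_dvd_of_le h1
      rw [MulAction.index_stabilizer, MulAction.index_stabilizer, he] at h2
      have h3 : MulAction.orbit Ω₁ (QuotientGroup.mk (h i) : G ⧸ A) =
          Set.range fun ω : Ω => (QuotientGroup.mk (ω • h i) : G ⧸ A) := by
        ext w
        constructor
        · rintro ⟨ω, rfl⟩
          exact ⟨ω, rfl⟩
        · rintro ⟨ω, rfl⟩
          obtain ⟨τ, hτ, hτω⟩ := hTr (h i) ω
          refine ⟨⟨τ, Subgroup.subset_closure ?_⟩, hτω⟩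
          simp only [T, Finset.coe_union, Set.mem_union, Finset.mem_coe, Finset.mem_biUnion]
          exact Or.inr ⟨i, Finset.mem_univ i, hτ⟩
      rw [h3] at h2
      rw [he]
      refine Nat.pow_le_pow_right hp.pos ?_
      exact (hp.pow_dvd_iff_le_factorization hn).1 (h2.trans (horb (h i)))
    let O : Finset (K₁ ⧸ B) := Finset.univ.biUnion fun i => (Set.toFinite
      (MulAction.orbit Ω₁ (v i))).toFinset
    have hOcard : O.card ≤ d * p ^ n.factorization p := by
      refine Finset.card_biUnion_le.trans ?_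
      have h1 : ∀ i ∈ (Finset.univ : Finset (Fin d)), (Set.toFinite
          (MulAction.orbit Ω₁ (v i))).toFinset.card ≤ p ^ n.factorization p := by
        intro i _
        rw [← Set.ncard_eq_toFinset_card]
        exact horbv i
      refine (Finset.sum_le_card_nsmul _ _ _ h1).trans ?_
      simp
    have hOtop : Subgroup.closure (O : Set (K₁ ⧸ B)) = ⊤ := by
      have h1 : (⊤ : Subgroup K₁) = Subgroup.closure
          (((↑) : K₁ → G) ⁻¹' {x | ∃ ω ∈ Ω₁, ∃ s ∈ (S : Set G), x = ω • s}) :=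
        Subgroup.closure_closure_coe_preimage.symm
      have h2 : (⊤ : Subgroup K₁).map (QuotientGroup.mk' B) = ⊤ := by
        rw [← MonoidHom.range_eq_map]
        exact MonoidHom.range_eq_top.2 (QuotientGroup.mk'_surjective B)
      rw [eq_top_iff, ← h2, h1, MonoidHom.map_closure]
      apply Subgroup.closure_mono
      rintro _ ⟨x, ⟨ω, hω, s, hs, hx⟩, rfl⟩
      simp only [S, Finset.coe_image, Finset.coe_univ, Set.image_univ, Set.mem_range] at hs
      obtain ⟨i, rfl⟩ := hs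
      simp only [O, Finset.coe_biUnion, Set.mem_iUnion, Set.Finite.coe_toFinset]
      refine ⟨i, Finset.mem_coe.2 (Finset.mem_univ i), ⟨ω, hω⟩, ?_⟩
      change (⟨ω, hω⟩ : Ω₁) • (QuotientGroup.mk ⟨h i, hhK i⟩ : K₁ ⧸ B) = QuotientGroup.mk x
      rw [MulAction.Quotient.smul_mk]
      congr 1
      exact Subtype.ext hx.symm
    have h1 := card_quot_le p hp B hBP O hOtop
    refine ⟨d * p ^ n.factorization p, d * p ^ n.factorization p + c0, ?_, ?_, le_rfl⟩
    · rw [Finset.mem_filter]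
      refine ⟨Finset.mem_image.2 ⟨p ^ n.factorization p, ?_, rfl⟩, hc p hp⟩
      rw [Nat.mem_divisors]
      exact ⟨Nat.ordProj_dvd n p, hn⟩
    · exact h1.2.trans (Nat.pow_le_pow_right hp.pos hOcard))
  have h2 : Subgroup.closure (Set.range h) ≤ (⊤ : Subgroup K₁).map K₁.subtype := by
    rw [Subgroup.closure_le]
    rintro _ ⟨i, rfl⟩
    exact ⟨⟨h i, hhK i⟩, Subgroup.mem_top _, rfl⟩
  have h3 := Subgroup.lowerCentralSeries_mono c h2
  have h4 := Subgroup.map_lowerCentralSeries (⊤ : Subgroup K₁) K₁.subtype c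
  rw [hbot, Subgroup.map_bot] at h4
  simp only [← h4] at h3
  exact le_bot_iff.1 h3

end Pool.Agent.Work.MP_369e59_al
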