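import Pool.Agent.Work.MP_369e59_al.Reduce

/-!
# Invariant subgroups, and the passage to a variety of groups
-/

namespace Pool.Agent.Work.MP_369e59_al

open scoped commutatorElement

/-- An element of a term of the lower central series lies in that term of a finitely generated
subgroup. -/
theorem mem_lcs_finite {K : Type*} [Group K] (c : ℕ) (x : K)
    (hx : x ∈ (⊤ : Subgroup K).lowerCentralSeries c) :
    ∃ S : Finset K, x ∈ (Subgroup.closure (S : Set K)).lowerCentralSeries c := by
  classical
  induction c generalizing x with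
  | zero => exact ⟨{x}, Subgroup.subset_closure (by simp)⟩
  | succ c ih =>
    rw [Subgroup.lowerCentralSeries_succ, Subgroup.commutator_def] at hx
    have mono : ∀ (S S' : Finset K) (c : ℕ), (Subgroup.closure (S : Set K)).lowerCentralSeries c ≤
        (Subgroup.closure ((S ∪ S' : Finset K) : Set K)).lowerCentralSeries c := by
      intro S S' c
      refine Subgroup.lowerCentralSeries_mono c (Subgroup.closure_mono ?_)
      exact Finset.coe_subset.2 Finset.subset_union_left
    have mono' : ∀ (S S' : Finset K) (c : ℕ), (Subgroup.closure (S' : Set K)).lowerCentralSeries c ≤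
        (Subgroup.closure ((S ∪ S' : Finset K) : Set K)).lowerCentralSeries c := by
      intro S S' c
      refine Subgroup.lowerCentralSeries_mono c (Subgroup.closure_mono ?_)
      exact Finset.coe_subset.2 Finset.subset_union_right
    induction hx using Subgroup.closure_induction with
    | mem x hx =>
      obtain ⟨a, ha, b, _, rfl⟩ := hx
      obtain ⟨S, hS⟩ := ih a ha
      refine ⟨S ∪ {b}, ?_⟩
      rw [Subgroup.lowerCentralSeries_succ]
      refine Subgroup.commutator_mem_commutator (mono S {b} c hS) ?_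
      exact Subgroup.subset_closure (by simp)
    | one => exact ⟨∅, one_mem _⟩
    | mul x y _ _ hx hy =>
      obtain ⟨S, hS⟩ := hx
      obtain ⟨S', hS'⟩ := hy
      exact ⟨S ∪ S', mul_mem (mono S S' _ hS) (mono' S S' _ hS')⟩
    | inv x _ hx =>
      obtain ⟨S, hS⟩ := hx
      exact ⟨S, inv_mem hS⟩

/-- If all `d`-generator subgroups of `G` have class at most `c d`, then `G` satisfies laws all
of whose `d`-generator models have class at most `c d`. -/
theorem variety {G : Type*} [Group G] (c : ℕ → ℕ)
    (h : ∀ (d : ℕ) (x : Fin d → G),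
      (Subgroup.closure (Set.range x)).lowerCentralSeries (c d) = ⊥)
    {H : Type*} [Group H]
    (hH : InV {w : FreeGroup ℕ | ∀ θ : ℕ → G, FreeGroup.lift θ w = 1} H)
    (d : ℕ) (y : Fin d → H) (hy : Subgroup.closure (Set.range y) = ⊤) :
    (⊤ : Subgroup H).lowerCentralSeries (c d) = ⊥ := by
  have hsurj : (⊤ : Subgroup (FreeGroup (Fin d))).map (FreeGroup.lift y) = ⊤ := by
    rw [← MonoidHom.range_eq_map, FreeGroup.range_lift_eq_closure, hy]
  rw [← hsurj, ← Subgroup.map_lowerCentralSeries, eq_bot_iff]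
  rintro _ ⟨w, hw, rfl⟩
  rw [Subgroup.mem_bot]
  let w' : FreeGroup ℕ := FreeGroup.map (fun i : Fin d => (i : ℕ)) w
  have hlaw : w' ∈ {w : FreeGroup ℕ | ∀ θ : ℕ → G, FreeGroup.lift θ w = 1} := by
    intro θ
    have h1 : FreeGroup.lift θ w' = FreeGroup.lift (fun i : Fin d => θ i) w := by
      have h2 : (FreeGroup.lift θ).comp (FreeGroup.map (fun i : Fin d => (i : ℕ))) =
          FreeGroup.lift (fun i : Fin d => θ i) := by
        apply FreeGroup.ext_hom
        intro x
        simp
      exact DFunLike.congr_fun h2 w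
    rw [h1]
    have h3 : FreeGroup.lift (fun i : Fin d => θ i) w ∈
        (Subgroup.closure (Set.range fun i : Fin d => θ i)).lowerCentralSeries (c d) := by
      rw [← FreeGroup.range_lift_eq_closure, MonoidHom.range_eq_map,
        ← Subgroup.map_lowerCentralSeries]
      exact ⟨w, hw, rfl⟩
    rw [h d] at h3
    exact h3
  have h4 := hH w' hlaw (fun i => if hi : i < d then y ⟨i, hi⟩ else 1)
  have h5 : FreeGroup.lift (fun i => if hi : i < d then y ⟨i, hi⟩ else 1) w' =
      FreeGroup.lift y w := by
    have h6 : (FreeGroup.lift (fun i => if hi : i < d then y ⟨i, hi⟩ else 1)).comp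
        (FreeGroup.map (fun i : Fin d => (i : ℕ))) = FreeGroup.lift y := by
      apply FreeGroup.ext_hom
      intro x
      simp
    exact DFunLike.congr_fun h6 w
  rw [← h5]
  exact h4

/-- The condition on a subgroup in terms of the subgroup as a group. -/
theorem nilSol_of {G : Type*} [Group G] (A : Subgroup G) {k c0 : ℕ}
    (h : (⊤ : Subgroup A).lowerCentralSeries c0 = ⊥ ∨
      ∃ ℓ, derivedSeries A ℓ = ⊥ ∧ solBound k ℓ ≤ c0) : NilSol k A c0 := by
  have hr : (⊤ : Subgroup A).map A.subtype = A := by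
    rw [← MonoidHom.range_eq_map, Subgroup.range_subtype]
  rcases h with h | ⟨ℓ, h, h'⟩
  · left
    rw [← Subgroup.top_subtype_lowerCentralSeries, h, Subgroup.map_bot]
  · right
    refine ⟨ℓ, ?_, h'⟩
    have h1 := map_dsub A.subtype (⊤ : Subgroup A) ℓ
    rw [dsub_top_eq, h, Subgroup.map_bot, hr] at h1
    exact h1.symm

/-- **Invariant subgroups.** -/
theorem thmD.{u, v} {Ω : Type*} [Group Ω] {G : Type u} [Group G] [MulDistribMulAction Ω G]
    {W : Set (FreeGroup (ℕ × Ω))} (hW : InVO W G) {U : Set MultId}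
    (hU : ∀ u ∈ U, Generic (proj Ω '' W) u) {f : ℕ → ℕ} (hf : ClassBound.{v} U f)
    (hLN : LocNilp (G ⋊[MulDistribMulAction.toMulAut Ω G] Ω))
    (K : Subgroup G) (hK : ∀ ω : Ω, ∀ x ∈ K, ω • x ∈ K)
    (A : Subgroup K) [A.Normal] {c0 : ℕ} (hA : NilSol (f 2) A c0)
    {r : ℕ} (k : Fin r → K) (hk : Subgroup.closure (Set.range k) ⊔ A = ⊤) :
    (⊤ : Subgroup K).lowerCentralSeries (f (r + c0)) = ⊥ := by
  classical
  set c := f (r + c0) with hc
  obtain ⟨T, hT⟩ := reduce hW hU hLN {r + c0} c (by
    intro R hR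
    rw [Finset.mem_singleton] at hR
    rw [hR]
    exact hf.vanishAt le_rfl) (f 2) (hf.vanishAt le_rfl)
  rw [eq_bot_iff]
  intro x hx
  obtain ⟨S, hS⟩ := mem_lcs_finite c x hx
  let S' : Finset G := (S ∪ Finset.univ.image k).image Subtype.val
  let K₁ : Subgroup G := K1 (Subgroup.closure (T : Set Ω)) (S' : Set G)
  have hK₁ : K₁ ≤ K := by
    refine K1_le (fun ω _ x hx => hK ω x hx) ?_
    intro s hs
    rw [Finset.mem_coe, Finset.mem_image] at hs
    obtain ⟨s', _, rfl⟩ := hs
    exact s'.2
  let ι : K₁ →* K := Subgroup.inclusion hK₁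
  have hι : Function.Injective ι := Subgroup.inclusion_injective hK₁
  have hS'K : ∀ s ∈ S ∪ Finset.univ.image k, (s : G) ∈ K₁ := fun s hs =>
    subset_K1 _ _ (Finset.mem_coe.2 (Finset.mem_image_of_mem _ hs))
  have hbot := hT T subset_rfl S' (A.comap ι) inferInstance c0
    (hA.of_injective ι hι (Subgroup.map_comap_le _ _)) (by
      intro p hp
      refine ⟨r, r + c0, by simp, ?_, le_rfl⟩
      have hkK : ∀ i, (k i : G) ∈ K₁ := fun i => hS'K _ (by simp)
      let x₁ : Fin r → K₁ := fun i => ⟨k i, hkK i⟩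
      have hB : ((A.comap ι) ⊔ Phi K₁ p).Normal := inferInstance
      have h1 := card_quot_le' p hp ((A.comap ι) ⊔ Phi K₁ p) le_sup_right x₁ (by
        intro g
        have h2 : ι g ∈ Subgroup.closure (Set.range k) ⊔ A := by rw [hk]; exact Subgroup.mem_top _
        rw [Subgroup.mem_sup_of_normal_right] at h2
        obtain ⟨y, hy, a, ha, hya⟩ := h2
        have h3 : (Subgroup.closure (Set.range x₁)).map ι = Subgroup.closure (Set.range k) := by
          rw [MonoidHom.map_closure, ← Set.range_comp]
          rfl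
        rw [← h3] at hy
        obtain ⟨y₁, hy₁, rfl⟩ := hy
        have h4 : y₁⁻¹ * g ∈ A.comap ι := by
          change ι (y₁⁻¹ * g) ∈ A
          rw [map_mul, map_inv, ← hya, inv_mul_cancel_left]
          exact ha
        have h5 := mul_mem (Subgroup.mem_sup_left (T := (A.comap ι) ⊔ Phi K₁ p) hy₁)
          (Subgroup.mem_sup_right (Subgroup.mem_sup_left (T := Phi K₁ p) h4))
        rwa [mul_inv_cancel_left] at h5)
      rw [Fintype.card_fin] at h1
      exact h1.2)
  have h1 : (Subgroup.closure (S : Set K)).lowerCentralSeries c = ⊥ := by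
    have h2 : Subgroup.closure (S : Set K) ≤ (⊤ : Subgroup K₁).map ι := by
      rw [Subgroup.closure_le]
      intro s hs
      exact ⟨⟨s, hS'K s (Finset.mem_union_left _ (Finset.mem_coe.1 hs))⟩, Subgroup.mem_top _, rfl⟩
    have h3 := Subgroup.lowerCentralSeries_mono c h2
    have h4 := Subgroup.map_lowerCentralSeries (⊤ : Subgroup K₁) ι c
    rw [hbot, Subgroup.map_bot] at h4
    simp only [← h4] at h3
    exact le_bot_iff.1 h3
  rw [h1] at hS
  exact hS

end Pool.Agent.Work.MP_369e59_al
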