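import Pool.Agent.Work.MP_369e59_al.Gen

/-!
# Vanishing of left-normed brackets
-/

namespace Pool.Agent.Work.MP_369e59_al

open scoped commutatorElement

section lie

variable {L : Type*} [LieRing L]

theorem lComm_mem_lcs (n : ℕ) (a : Fin (n + 1) → L) :
    lComm n a ∈ LieModule.lowerCentralSeries ℤ L L n := by
  induction n with
  | zero =>
    rw [LieModule.lowerCentralSeries_zero]
    exact LieSubmodule.mem_top (R := ℤ) (L := L) _
  | succ n ih =>
    simp only [lComm]
    rw [LieModule.lowerCentralSeries_succ, ← lie_skew]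
    exact neg_mem (LieSubmodule.lie_mem_lie (LieSubmodule.mem_top _) (ih _))

theorem coe_lComm (H : LieSubalgebra ℤ L) (n : ℕ) (a : Fin (n + 1) → H) :
    ((lComm n a : H) : L) = lComm n (fun i => (a i : L)) := by
  induction n with
  | zero => rfl
  | succ n ih =>
    simp only [lComm]
    rw [LieSubalgebra.coe_bracket, ih]

theorem Sat.subalgebra {U : Set MultId} (h : Sat U L) (H : LieSubalgebra ℤ L) : Sat U H := by
  intro u hu a
  apply Subtype.ext
  have h1 := h u hu (fun i => (a i : L))
  unfold MultId.eval at h1 ⊢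
  rw [ZeroMemClass.coe_zero, ← h1, AddSubmonoidClass.coe_finsetSum]
  refine Finset.sum_congr rfl fun σ _ => ?_
  have h2 := coe_lComm H u.n (fun i => a (σ i))
  rw [← h2]
  rfl

theorem lieSpan_subtype_eq_top (S : Set L) {J : Type*} (x : J → LieSubalgebra.lieSpan ℤ L S)
    (hx : S ⊆ Set.range fun j => (x j : L)) :
    LieSubalgebra.lieSpan ℤ (LieSubalgebra.lieSpan ℤ L S) (Set.range x) = ⊤ := by
  rw [eq_top_iff]
  intro z _
  have h1 : LieSubalgebra.lieSpan ℤ L S ≤
      (LieSubalgebra.lieSpan ℤ (LieSubalgebra.lieSpan ℤ L S) (Set.range x)).map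
        (LieSubalgebra.lieSpan ℤ L S).incl := by
    rw [LieSubalgebra.lieSpan_le]
    intro s hs
    obtain ⟨j, rfl⟩ := hx hs
    exact ⟨x j, LieSubalgebra.subset_lieSpan ⟨j, rfl⟩, rfl⟩
  obtain ⟨z', hz', h2⟩ := h1 z.2
  have h3 : z' = z := Subtype.ext h2
  rwa [← h3]

/-- In Lie rings satisfying `U`, the left-normed brackets of length `c + 1` in `R` elements
vanish. -/
def VanishAt.{u} (U : Set MultId) (R c : ℕ) : Prop :=
  ∀ (L : Type u) [LieRing L], Sat U L → ∀ (y : Fin R → L) (τ : Fin (c + 1) → Fin R),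
    lComm c (fun i => y (τ i)) = 0

theorem ClassBound.vanishAt.{u} {U : Set MultId} {f : ℕ → ℕ} (hf : ClassBound.{u} U f) {R c : ℕ}
    (h : f R ≤ c) : VanishAt.{u} U R c := by
  intro L _ hL y τ
  let H := LieSubalgebra.lieSpan ℤ L (Set.range y)
  let x : Fin R → H := fun i => ⟨y i, LieSubalgebra.subset_lieSpan ⟨i, rfl⟩⟩
  have h1 : LieModule.lowerCentralSeries ℤ H H (f R) = ⊥ :=
    hf H (hL.subalgebra H) R x (lieSpan_subtype_eq_top _ x (by rintro _ ⟨i, rfl⟩; exact ⟨i, rfl⟩))
  have h2 : LieModule.lowerCentralSeries ℤ H H c = ⊥ := by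
    rw [eq_bot_iff, ← h1]
    exact LieModule.antitone_lowerCentralSeries ℤ H H h
  have h3 := lComm_mem_lcs c (fun i => x (τ i))
  rw [h2, LieSubmodule.mem_bot] at h3
  have h4 := coe_lComm H c (fun i => x (τ i))
  rw [h3] at h4
  exact h4.symm

theorem VanishAt.mono.{u} {U V : Set MultId} {R c : ℕ} (h : VanishAt.{u} U R c) (hUV : U ⊆ V) :
    VanishAt.{u} V R c :=
  fun L _ hL y τ => h L (fun u hu => hL u (hUV hu)) y τ

theorem VanishAt.apply.{u} {U : Set MultId} {R c : ℕ} (h : VanishAt.{u} U R c)
    {L : Type u} [LieRing L] (hL : Sat U L) {J : Type*} [Fintype J] (hJ : Fintype.card J ≤ R)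
    (y : J → L) (τ : Fin (c + 1) → J) : lComm c (fun i => y (τ i)) = 0 := by
  classical
  let e := Fintype.equivFin J
  have := h L hL (fun i => if h : (i : ℕ) < Fintype.card J then y (e.symm ⟨i, h⟩) else 0)
    (fun i => ⟨(e (τ i) : ℕ), (e (τ i)).2.trans_le hJ⟩)
  simpa [e] using this

end lie

section main

variable {K : Type*} [Group K] {M : ℕ → Subgroup K} (hM : IsChn M)

/-- Homogeneous elements of weight one which come from `A` or belong to `X`. -/
def XY (A : Subgroup K) (X : Set (dData hM).L) : Set (dData hM).L :=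
  {v | ∃ (s : ℕ) (g : K), ∃ hg : g ∈ (dData hM).A (1, s),
    v = (dData hM).el (1, s) g hg ∧ (g ∈ A ∨ v ∈ X)}

/-- The vanishing of all classes of weight `c + 1`. -/
theorem el_eq_zero_of_XY (A : Subgroup K) (X : Set (dData hM).L) (c : ℕ)
    (hspan : ∀ s g (hg : g ∈ (dData hM).A (1, s)),
      (dData hM).el (1, s) g hg ∈ AddSubgroup.closure (XY hM A X))
    (hvan : ∀ z : Fin (c + 1) → (dData hM).L, (∀ i, z i ∈ XY hM A X) → lComm c z = 0)
    (s : ℕ) (g : K) (hg : g ∈ (dData hM).A (Nat.succPNat c, s)) :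
    (dData hM).el (Nat.succPNat c, s) g hg = 0 := by
  let T : ℕ → Set (dData hM).L := fun w =>
    {v | ∃ z : Fin (w + 1) → (dData hM).L, (∀ i, z i ∈ XY hM A X) ∧ v = lComm w z}
  have key := el_mem_of hM (fun w => AddSubgroup.closure (T w)) ?_ ?_ c s g hg
  · have h1 : AddSubgroup.closure (T c) ≤ ⊥ := by
      rw [AddSubgroup.closure_le]
      rintro _ ⟨z, hz, rfl⟩
      exact hvan z hz
    exact h1 key
  · intro s g hg
    have h1 : AddSubgroup.closure (XY hM A X) ≤ AddSubgroup.closure (T 0) := by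
      apply AddSubgroup.closure_mono
      intro v hv
      exact ⟨fun _ => v, fun _ => hv, rfl⟩
    exact h1 (hspan s g hg)
  · intro w s g hg x hx
    have hy := hspan s g hg
    generalize (dData hM).el (1, s) g hg = y at hy
    induction hx using AddSubgroup.closure_induction with
    | zero => rw [zero_lie]; exact zero_mem _
    | neg x _ hx => rw [neg_lie]; exact neg_mem hx
    | add x x' _ _ hx hx' => rw [add_lie]; exact add_mem hx hx'
    | mem x hx =>
      induction hy using AddSubgroup.closure_induction with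
      | zero => rw [lie_zero]; exact zero_mem _
      | neg y _ hy => rw [lie_neg]; exact neg_mem hy
      | add y y' _ _ hy hy' => rw [lie_add]; exact add_mem hy hy'
      | mem y hy =>
        apply AddSubgroup.subset_closure
        obtain ⟨z, hz, rfl⟩ := hx
        refine ⟨Fin.snoc z y, ?_, ?_⟩
        · intro i
          induction i using Fin.lastCases with
          | last => simpa using hy
          | cast i => simpa using hz i
        · simp only [lComm, Fin.snoc_castSucc, Fin.snoc_last]

end main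

end Pool.Agent.Work.MP_369e59_al
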