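import Pool.Agent.Work.MP_369e59_al.TwDefs
import Pool.Agent.Work.MP_369e59_al.Vanish
import Pool.Agent.Work.MP_369e59_al.LieMeta

/-!
# The class bound of the identities `UU p m`
-/

namespace Pool.Agent.Work.MP_369e59_al

section span

variable {L : Type*} [LieRing L]

/-- The additive subgroup generated by the left-normed brackets of length at least `k + 1` in
elements of `S`. -/
def lnSpan (S : Set L) (k : ℕ) : AddSubgroup L :=
  AddSubgroup.closure {v | ∃ j, k ≤ j ∧ ∃ z : Fin (j + 1) → L, (∀ i, z i ∈ S) ∧ v = lComm j z}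

theorem lComm_mem_lnSpan {S : Set L} {k j : ℕ} (h : k ≤ j) {z : Fin (j + 1) → L}
    (hz : ∀ i, z i ∈ S) : lComm j z ∈ lnSpan S k :=
  AddSubgroup.subset_closure ⟨j, h, z, hz, rfl⟩

theorem lnSpan_anti (S : Set L) {k l : ℕ} (h : k ≤ l) : lnSpan S l ≤ lnSpan S k := by
  apply AddSubgroup.closure_mono
  rintro v ⟨j, hj, z, hz, rfl⟩
  exact ⟨j, h.trans hj, z, hz, rfl⟩

theorem lnSpan_lie_mem {S : Set L} {k : ℕ} {v s : L} (hv : v ∈ lnSpan S k) (hs : s ∈ S) :
    ⁅v, s⁆ ∈ lnSpan S (k + 1) := by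
  unfold lnSpan at hv
  induction hv using AddSubgroup.closure_induction with
  | zero => rw [zero_lie]; exact zero_mem _
  | neg x _ hx => rw [neg_lie]; exact neg_mem hx
  | add x x' _ _ hx hx' => rw [add_lie]; exact add_mem hx hx'
  | mem x hx =>
    obtain ⟨j, hj, z, hz, rfl⟩ := hx
    have e : ⁅lComm j z, s⁆ = lComm (j + 1) (Fin.snoc (α := fun _ => L) z s) := by
      simp only [lComm, Fin.snoc_castSucc, Fin.snoc_last]
    rw [e]
    refine lComm_mem_lnSpan (Nat.succ_le_succ hj) ?_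
    intro i
    induction i using Fin.lastCases with
    | last => simpa using hs
    | cast i => simpa using hz i

theorem lnSpan_lie_lComm {S : Set L} (j : ℕ) (z : Fin (j + 1) → L) (hz : ∀ i, z i ∈ S) :
    ∀ (k : ℕ) (v : L), v ∈ lnSpan S k → ⁅v, lComm j z⁆ ∈ lnSpan S (k + j + 1) := by
  induction j with
  | zero => exact fun k v hv => lnSpan_lie_mem hv (hz 0)
  | succ j ih =>
    intro k v hv
    have ih' := ih (fun i => z i.castSucc) (fun i => hz _)
    have hs := hz (Fin.last (j + 1))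
    simp only [lComm]
    generalize lComm j (fun i => z i.castSucc) = w at ih' ⊢
    generalize z (Fin.last (j + 1)) = s at hs ⊢
    have e : ⁅v, ⁅w, s⁆⁆ = ⁅⁅v, w⁆, s⁆ - ⁅⁅v, s⁆, w⁆ := by
      have h1 := leibniz_lie v w s
      have h2 : ⁅w, ⁅v, s⁆⁆ = - ⁅⁅v, s⁆, w⁆ := (lie_skew _ _).symm
      rw [h1, h2]
      abel
    rw [e]
    refine sub_mem ?_ ?_
    · exact lnSpan_lie_mem (ih' k v hv) hs
    · have h1 := ih' (k + 1) _ (lnSpan_lie_mem hv hs)
      rwa [show k + 1 + j + 1 = k + (j + 1) + 1 from by ring] at h1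

theorem lnSpan_lie {S : Set L} {k l : ℕ} {v w : L} (hv : v ∈ lnSpan S k) (hw : w ∈ lnSpan S l) :
    ⁅v, w⁆ ∈ lnSpan S (k + l + 1) := by
  unfold lnSpan at hw
  induction hw using AddSubgroup.closure_induction with
  | zero => rw [lie_zero]; exact zero_mem _
  | neg x _ hx => rw [lie_neg]; exact neg_mem hx
  | add x x' _ _ hx hx' => rw [lie_add]; exact add_mem hx hx'
  | mem x hx =>
    obtain ⟨j, hj, z, hz, rfl⟩ := hx
    exact lnSpan_anti S (by omega) (lnSpan_lie_lComm j z hz k v hv)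

/-- The Lie subring generated by `S` consists of sums of left-normed brackets. -/
theorem mem_lnSpan_zero {S : Set L} (hS : LieSubalgebra.lieSpan ℤ L S = ⊤) (v : L) :
    v ∈ lnSpan S 0 := by
  let H : LieSubalgebra ℤ L :=
    { carrier := lnSpan S 0
      add_mem' := fun ha hb => add_mem ha hb
      zero_mem' := zero_mem _
      smul_mem' := fun c x hx => zsmul_mem hx c
      lie_mem' := fun ha hb => lnSpan_anti S (Nat.zero_le _) (lnSpan_lie ha hb) }
  have h1 : LieSubalgebra.lieSpan ℤ L S ≤ H := by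
    rw [LieSubalgebra.lieSpan_le]
    intro s hs
    exact lComm_mem_lnSpan (S := S) (k := 0) (j := 0) le_rfl (z := fun _ => s) (fun _ => hs)
  have h2 : v ∈ LieSubalgebra.lieSpan ℤ L S := by rw [hS]; exact LieSubalgebra.mem_top _
  exact h1 h2

theorem lcs_le_lnSpan {S : Set L} (hS : LieSubalgebra.lieSpan ℤ L S = ⊤) (k : ℕ) {v : L}
    (hv : v ∈ LieModule.lowerCentralSeries ℤ L L k) : v ∈ lnSpan S k := by
  induction k generalizing v with
  | zero => exact mem_lnSpan_zero hS v
  | succ k ih =>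
    rw [LieModule.lowerCentralSeries_succ] at hv
    rw [← LieSubmodule.mem_toSubmodule, LieSubmodule.lieIdeal_oper_eq_linear_span'] at hv
    induction hv using Submodule.span_induction with
    | mem x hx =>
      obtain ⟨a, _, b, hb, rfl⟩ := hx
      have h1 := lnSpan_lie (mem_lnSpan_zero hS a) (ih hb)
      rwa [Nat.zero_add] at h1
    | zero => exact zero_mem _
    | add x y _ _ hx hy => exact add_mem hx hy
    | smul c x _ hx => exact zsmul_mem hx c

/-- A Lie ring generated by `S` in which the left-normed brackets of length `n + 1` in elements of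
`S` vanish is nilpotent of class at most `n`. -/
theorem lcs_eq_bot_of_lComm {S : Set L} (hS : LieSubalgebra.lieSpan ℤ L S = ⊤) {n : ℕ}
    (h : ∀ a : Fin (n + 1) → L, (∀ i, a i ∈ S) → lComm n a = 0) :
    LieModule.lowerCentralSeries ℤ L L n = ⊥ := by
  have h0 : ∀ j, n ≤ j → ∀ z : Fin (j + 1) → L, (∀ i, z i ∈ S) → lComm j z = 0 := by
    intro j hj
    induction j, hj using Nat.le_induction with
    | base => exact h
    | succ j hj ih =>
      intro z hz
      simp only [lComm]
      rw [ih (fun i => z i.castSucc) (fun i => hz _), zero_lie]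
  rw [LieSubmodule.eq_bot_iff]
  intro v hv
  have h1 := lcs_le_lnSpan hS n hv
  have h2 : lnSpan S n ≤ ⊥ := by
    unfold lnSpan
    rw [AddSubgroup.closure_le]
    rintro _ ⟨j, hj, z, hz, rfl⟩
    exact h0 j hj z hz
  exact h2 h1

end span

section ident

variable {L : Type*} [LieRing L]

theorem uOne_eval (m : ℕ) (a : ℤ) (y : Fin (m + 1) → L) :
    (uOne m a).eval y = a • lComm m y := by
  unfold MultId.eval uOne
  simp only [ite_smul, zero_smul]
  rw [Finset.sum_ite_eq' Finset.univ (1 : Equiv.Perm (Fin (m + 1)))]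
  simp

theorem uFour_eval (m : ℕ) (i j k l : Fin (m + 1)) (y : Fin (m + 1) → L) :
    (uFour m i j k l).eval y = lComm m y + lComm m (fun t => y (Equiv.swap i j t)) +
      lComm m (fun t => y (Equiv.swap k l t)) +
      lComm m (fun t => y ((Equiv.swap i j * Equiv.swap k l) t)) := by
  unfold MultId.eval uFour
  simp only [add_smul, ite_smul, zero_smul, one_smul, Finset.sum_add_distrib]
  simp only [Finset.sum_ite_eq', Finset.mem_univ, if_true, Equiv.Perm.one_apply]

theorem apply_swap_of_eq {α β : Type*} [DecidableEq α] (y : α → β) {i j : α} (h : y i = y j)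
    (t : α) : y (Equiv.swap i j t) = y t := by
  rcases eq_or_ne t i with rfl | hi
  · rw [Equiv.swap_apply_left, h]
  · rcases eq_or_ne t j with rfl | hj
    · rw [Equiv.swap_apply_right, h]
    · rw [Equiv.swap_apply_of_ne_of_ne hi hj]

theorem exists_two_pairs {m d : ℕ} (h : d + 2 ≤ m) (τ : Fin (m + 1) → Fin d) :
    ∃ i j k l : Fin (m + 1), i ≠ j ∧ k ≠ l ∧ i ≠ k ∧ i ≠ l ∧ j ≠ k ∧ j ≠ l ∧ τ i = τ j ∧
      τ k = τ l := by
  obtain ⟨i, j, hij, hτ⟩ := Fintype.exists_ne_map_eq_of_card_lt τ (by simp; omega)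
  have hc : (Finset.univ : Finset (Fin d)).card < ((Finset.univ : Finset (Fin (m + 1))) \
      {i, j}).card := by
    rw [Finset.card_sdiff_of_subset (Finset.subset_univ _), Finset.card_pair hij]
    simp
    omega
  obtain ⟨k, hk, l, hl, hkl, hτ'⟩ := Finset.exists_ne_map_eq_of_card_lt_of_maps_to hc
    (f := τ) (fun _ _ => Finset.mem_univ _)
  simp only [Finset.mem_sdiff, Finset.mem_univ, true_and, Finset.mem_insert,
    Finset.mem_singleton, not_or] at hk hl
  exact ⟨i, j, k, l, hij, hkl, Ne.symm hk.1, Ne.symm hl.1, Ne.symm hk.2, Ne.symm hl.2, hτ, hτ'⟩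

theorem lComm_eq_zero_of_UC {p m : ℕ} (hp : p.Prime) (h2 : p ≠ 2) (hL : Sat (UC p m) L) {d : ℕ}
    (hd : d + 2 ≤ m) (x : Fin d → L) (τ : Fin (m + 1) → Fin d) :
    lComm m (fun i => x (τ i)) = 0 := by
  obtain ⟨i, j, k, l, hij, hkl, hik, hil, hjk, hjl, h3, h4⟩ := exists_two_pairs hd τ
  set y : Fin (m + 1) → L := fun i => x (τ i) with hy
  have hyij : y i = y j := by simp only [hy, h3]
  have hykl : y k = y l := by simp only [hy, h4]
  have h5 := hL _ (Or.inl rfl : uOne m p ∈ UC p m) y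
  rw [uOne_eval] at h5
  have h6 := hL _ (Or.inr ⟨i, j, k, l, hij, hkl, hik, hil, hjk, hjl, rfl⟩ :
    uFour m i j k l ∈ UC p m) y
  rw [uFour_eval] at h6
  simp only [Equiv.Perm.mul_apply, apply_swap_of_eq y hyij, apply_swap_of_eq y hykl] at h6
  have h7 : (4 : ℤ) • lComm m y = 0 := by
    rw [← h6]
    simp only [show (4 : ℤ) = 1 + 1 + 1 + 1 from rfl, add_smul, one_smul]
  have hc : IsCoprime (4 : ℤ) (p : ℤ) := by
    have h8 : Nat.Coprime 4 p := by
      have h9 : Nat.Coprime 2 p := (Nat.coprime_primes Nat.prime_two hp).2 (Ne.symm h2)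
      exact Nat.Coprime.pow_left 2 h9
    exact_mod_cast Nat.isCoprime_iff_coprime.2 h8
  obtain ⟨a, b, hab⟩ := hc
  calc lComm m y = (1 : ℤ) • lComm m y := (one_smul _ _).symm
    _ = (a * 4 + b * p : ℤ) • lComm m y := by rw [hab]
    _ = 0 := by rw [add_smul, mul_smul, mul_smul, h7, h5, smul_zero, smul_zero, add_zero]

end ident

theorem classBound_ff.{u} (p m : ℕ) (hp : p.Prime) (h2 : p ≠ 2) :
    ClassBound.{u} (UU p m) (ff m) := by
  intro L _ hL d x hx
  unfold ff
  split_ifs with hd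
  · apply lcs_eq_bot_of_lComm hx
    intro a ha
    choose τ hτ using ha
    have h1 := lComm_eq_zero_of_UC hp h2 (fun u hu => hL u (Or.inr hu)) hd x τ
    have h3 : a = fun i => x (τ i) := funext fun i => (hτ i).symm
    rw [h3]
    exact h1
  · apply lcs_eq_bot_of_lComm hx
    intro a _
    have h1 := hL _ (Or.inl rfl : uOne (m + 1) 1 ∈ UU p m) a
    rwa [uOne_eval, one_smul] at h1

end Pool.Agent.Work.MP_369e59_al
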