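import Pool.Agent.Work.MP_369e59_al.TwDefs
import Pool.Agent.Work.MP_369e59_al.Laws

/-!
# The associated Lie ring of the relatively free group satisfies the identities
-/

namespace Pool.Agent.Work.MP_369e59_al

open scoped commutatorElement

section words

variable {Ω : Type*} [Group Ω]

theorem proj_tsh (t : Ω) (w : FreeGroup (ℕ × Ω)) : proj Ω (tsh t w) = proj Ω w := by
  have h : (proj Ω).comp (tsh t) = proj Ω := by
    apply FreeGroup.ext_hom
    intro x
    simp [proj, tsh]
  exact DFunLike.congr_fun h w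

theorem proj_zw (t : Ω) (i : ℕ) (w : FreeGroup (ℕ × Ω)) : proj Ω (zw t (i + 1) w) = 1 := by
  simp only [zw]
  rw [map_mul, map_inv, proj_tsh, inv_mul_cancel]

theorem proj_tComm (T : Twist Ω) (hT : 1 ≤ T.e 1) (m : ℕ) (hm : m ≠ 0)
    (x : Fin (m + 1) → FreeGroup (ℕ × Ω)) :
    proj Ω (tComm T m x) = gComm m (fun i => proj Ω (x i)) := by
  unfold tComm
  rw [map_mul, map_inv, map_gComm, map_list_prod, List.map_map]
  have h1 : (List.map (⇑(proj Ω) ∘ fun ρ : Equiv.Perm (Fin (m + 1)) =>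
      gComm m (fun i => zw T.t (T.e i) (x (ρ i))) ^ T.ε m ρ)
      (Finset.univ : Finset (Equiv.Perm (Fin (m + 1)))).toList).prod = 1 := by
    apply List.prod_eq_one
    intro y hy
    rw [List.mem_map] at hy
    obtain ⟨ρ, _, rfl⟩ := hy
    rw [Function.comp_apply, map_zpow, map_gComm,
      gComm_eq_one m (fun i : Fin (m + 1) => proj Ω (zw T.t (T.e i) (x (ρ i))))
        ⟨1, by omega⟩, one_zpow]
    obtain ⟨k, hk⟩ : ∃ k, T.e 1 = k + 1 := ⟨T.e 1 - 1, by omega⟩
    rw [hk, proj_zw]
  rw [h1, inv_one, mul_one]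

/-- The projection of the twisted word is the group version of the identity. -/
theorem proj_tWord (T : Twist Ω) (hT : 1 ≤ T.e 1) (u : MultId) (hu : u.n ≠ 0) :
    proj Ω (tWord T u) = u.gEval (fun k => FreeGroup.of (k : ℕ)) := by
  unfold tWord MultId.gEval
  rw [map_list_prod, List.map_map]
  congr 1
  refine List.map_congr_left fun σ _ => ?_
  simp only [Function.comp, map_zpow, proj_tComm T hT u.n hu]
  simp [proj]

theorem UC_n {p m : ℕ} {u : MultId} (hu : u ∈ UC p m) : u.n = m := by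
  rcases hu with rfl | ⟨i, j, k, l, _, _, _, _, _, _, rfl⟩ <;> rfl

end words

section sat

variable {Ω : Type*} [Group Ω]

theorem proj_surjective : Function.Surjective (proj Ω) := by
  intro x
  refine ⟨FreeGroup.map (fun i : ℕ => (i, (1 : Ω))) x, ?_⟩
  have h : (proj Ω).comp (FreeGroup.map (fun i : ℕ => (i, (1 : Ω)))) = MonoidHom.id _ := by
    apply FreeGroup.ext_hom
    intro y
    simp [proj]
  exact DFunLike.congr_fun h x

theorem subset_verbal (V : Set (FreeGroup ℕ)) : V ⊆ verbal V := fun v hv =>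
  Subgroup.subset_normalClosure ⟨v, hv, MonoidHom.id _, rfl⟩

theorem verbal_map {V : Set (FreeGroup ℕ)} {v : FreeGroup ℕ} (hv : v ∈ V)
    (φ : FreeGroup ℕ →* FreeGroup ℕ) : φ v ∈ verbal V :=
  Subgroup.subset_normalClosure ⟨v, hv, φ, rfl⟩

theorem lcs_relFree (T : Twist Ω) (p m : ℕ) :
    (⊤ : Subgroup (RelFree (proj Ω '' WW T p m))).lowerCentralSeries (m + 1) = ⊥ := by
  have h6 : (⊤ : Subgroup (RelFree (proj Ω '' WW T p m))).lowerCentralSeries (m + 1) =
      ((⊤ : Subgroup (FreeGroup ℕ)).lowerCentralSeries (m + 1)).map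
        (QuotientGroup.mk' (verbal (proj Ω '' WW T p m))) := by
    rw [Subgroup.map_lowerCentralSeries, ← MonoidHom.range_eq_map,
      MonoidHom.range_eq_top.2 (QuotientGroup.mk'_surjective _)]
  rw [h6, Subgroup.map_eq_bot_iff, QuotientGroup.ker_mk']
  intro x hx
  have h7 : (⊤ : Subgroup (FreeGroup ℕ)).lowerCentralSeries (m + 1) =
      ((⊤ : Subgroup (FreeGroup (ℕ × Ω))).lowerCentralSeries (m + 1)).map (proj Ω) := by
    rw [Subgroup.map_lowerCentralSeries, ← MonoidHom.range_eq_map,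
      MonoidHom.range_eq_top.2 proj_surjective]
  rw [h7] at hx
  obtain ⟨y, hy, rfl⟩ := hx
  exact subset_verbal _ ⟨y, Or.inl hy, rfl⟩

theorem gEval_relFree (T : Twist Ω) (p m : ℕ) {u : MultId} (hu : u ∈ UC p m)
    (hT : 1 ≤ T.e 1) (hm : m ≠ 0) (θ : Fin (u.n + 1) → RelFree (proj Ω '' WW T p m)) : u.gEval θ = 1 := by
  classical
  choose y hy using fun k => QuotientGroup.mk'_surjective (verbal (proj Ω '' WW T p m)) (θ k)
  let φ : FreeGroup ℕ →* FreeGroup ℕ :=
    FreeGroup.lift (fun j => if h : j < u.n + 1 then y ⟨j, h⟩ else 1)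
  have h1 : φ (u.gEval (fun k => FreeGroup.of (k : ℕ))) ∈ verbal (proj Ω '' WW T p m) := by
    apply verbal_map
    refine ⟨tWord T u, Or.inr ⟨u, hu, rfl⟩, proj_tWord T hT u (by rw [UC_n hu]; exact hm)⟩
  have h2 : QuotientGroup.mk' (verbal (proj Ω '' WW T p m))
      (φ (u.gEval (fun k => FreeGroup.of (k : ℕ)))) = 1 :=
    (QuotientGroup.eq_one_iff _).2 h1
  rw [map_gEval, map_gEval] at h2
  have h3 : (fun i : Fin (u.n + 1) => QuotientGroup.mk' (verbal (proj Ω '' WW T p m))
      (φ (FreeGroup.of (i : ℕ)))) = θ := by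
    funext i
    have h4 : φ (FreeGroup.of (i : ℕ)) = y i := by
      simp only [φ, FreeGroup.lift_apply_of]
      rw [dif_pos i.2]
    rw [h4, hy]
  rw [h3] at h2
  exact h2

/-- **The associated Lie ring of the relatively free group satisfies the identities.** -/
theorem sat_UU (T : Twist Ω) (p m : ℕ) (hT : 1 ≤ T.e 1) (hm : m ≠ 0) :
    Sat (UU p m) (AssocLie (RelFree (proj Ω '' WW T p m))) := by
  intro u hu
  refine (isMA_eval u).eq_zero {x | ∃ i g, ∃ hg : g ∈ (lcsData (RelFree (proj Ω '' WW T p m))).A i,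
    x = (lcsData (RelFree (proj Ω '' WW T p m))).el i g hg} ?_ ?_
  · intro P h0 h1 h2 x
    exact (lcsData (RelFree (proj Ω '' WW T p m))).L_ind x h0
      (fun i g hg => h1 _ ⟨i, g, hg, rfl⟩) h2
  · intro a ha
    choose i g hg hag using ha
    have e : a = fun k => (lcsData (RelFree (proj Ω '' WW T p m))).el (i k) (g k) (hg k) :=
      funext hag
    have hsum : ∀ i : Fin (u.n + 1) → ℕ+, ((sumIdx u.n i : ℕ+) : ℕ) = ∑ k, (i k : ℕ) :=
      fun i => map_sumIdx (fun j : ℕ+ => (j : ℕ)) (fun _ _ => PNat.add_coe _ _) u.n i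
    have hperm : ∀ σ : Equiv.Perm (Fin (u.n + 1)),
        sumIdx u.n (fun k => i (σ k)) = sumIdx u.n i := by
      intro σ
      apply PNat.coe_injective
      rw [hsum, hsum]
      exact Equiv.sum_comp σ (fun k => (i k : ℕ))
    have hmem : u.gEval g ∈ (lcsData (RelFree (proj Ω '' WW T p m))).A (sumIdx u.n i) :=
      gEval_mem _ u _ g (fun σ => by
        rw [← hperm σ]
        exact gComm_mem _ u.n _ _ (fun k => hg (σ k)))
    rw [e]
    change u.eval _ = 0
    rw [eval_el _ u i g hg hperm hmem, GrData.el_eq_zero]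
    have h1 : u.gEval g = 1 := by
      rcases hu with hu | hu
      · have h2 : u.n + 1 ≤ ∑ k : Fin (u.n + 1), (i k : ℕ) := by
          calc u.n + 1 = ∑ k : Fin (u.n + 1), 1 := by simp
            _ ≤ _ := Finset.sum_le_sum fun k _ => (i k).pos
        have h3 : (sumIdx u.n i).natPred = ((sumIdx u.n i : ℕ+) : ℕ) - 1 := rfl
        have h4 : u.n = m + 1 := by rw [hu]; rfl
        have h5 : m + 1 ≤ (sumIdx u.n i).natPred := by
          rw [h3, hsum]
          omega
        have h6 : u.gEval g ∈ (⊤ : Subgroup (RelFree (proj Ω '' WW T p m))).lowerCentralSeries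
            (m + 1) := Subgroup.lowerCentralSeries_antitone _ h5 hmem
        rw [lcs_relFree] at h6
        exact Subgroup.mem_bot.1 h6
      · exact gEval_relFree T p m hu hT hm g
    rw [h1]
    exact one_mem _

end sat

end Pool.Agent.Work.MP_369e59_al
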