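import Pool.Agent.Work.MP_369e59_al.TwPsi
import Pool.Agent.Work.MP_369e59_al.TwSat
import Pool.Agent.Work.MP_369e59_al.TwLie

/-!
# The concrete module
-/

namespace Pool.Agent.Work.MP_369e59_al

open scoped commutatorElement

attribute [local instance 100] LieRing.ofAssociativeRing

open Sys (zt)

/-- The sum of `s` modules of dimension `n`. -/
def VC (p s n : ℕ) : Type := Fin s → Fin n → ZMod p

namespace VC

variable (p s n : ℕ)

instance : AddCommGroup (VC p s n) := inferInstanceAs (AddCommGroup (Fin s → Fin n → ZMod p))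

instance : Module (ZMod p) (VC p s n) :=
  inferInstanceAs (Module (ZMod p) (Fin s → Fin n → ZMod p))

instance [NeZero p] : Finite (VC p s n) := inferInstanceAs (Finite (Fin s → Fin n → ZMod p))

/-- The shift. -/
def shf : Module.End (ZMod p) (VC p s n) where
  toFun v := fun k i => if (i : ℕ) = 0 then 0 else
    v k ⟨(i : ℕ) - 1, (Nat.sub_le _ _).trans_lt i.2⟩
  map_add' v w := by
    funext k i
    change (if (i : ℕ) = 0 then (0 : ZMod p) else
        v k ⟨(i : ℕ) - 1, (Nat.sub_le _ _).trans_lt i.2⟩ +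
          w k ⟨(i : ℕ) - 1, (Nat.sub_le _ _).trans_lt i.2⟩) =
      (if (i : ℕ) = 0 then (0 : ZMod p) else
        v k ⟨(i : ℕ) - 1, (Nat.sub_le _ _).trans_lt i.2⟩) +
      (if (i : ℕ) = 0 then (0 : ZMod p) else
        w k ⟨(i : ℕ) - 1, (Nat.sub_le _ _).trans_lt i.2⟩)
    split_ifs
    · rw [add_zero]
    · rfl
  map_smul' c v := by
    funext k i
    change (if (i : ℕ) = 0 then (0 : ZMod p) else
        c • v k ⟨(i : ℕ) - 1, (Nat.sub_le _ _).trans_lt i.2⟩) =
      c • (if (i : ℕ) = 0 then (0 : ZMod p) else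
        v k ⟨(i : ℕ) - 1, (Nat.sub_le _ _).trans_lt i.2⟩)
    split_ifs
    · rw [smul_zero]
    · rfl

theorem shf_pow (E : ℕ) (v : VC p s n) (k : Fin s) (i : Fin n) :
    ((shf p s n ^ E) v) k i = if E ≤ (i : ℕ) then
      v k ⟨(i : ℕ) - E, (Nat.sub_le _ _).trans_lt i.2⟩ else 0 := by
  induction E generalizing i with
  | zero => simp
  | succ E ih =>
    rw [pow_succ', Module.End.mul_apply]
    change (if (i : ℕ) = 0 then 0 else ((shf p s n ^ E) v) k _) = _
    rw [ih]
    by_cases h0 : (i : ℕ) = 0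
    · rw [if_pos h0, if_neg (by omega)]
    · rw [if_neg h0]
      by_cases h1 : E + 1 ≤ (i : ℕ)
      · rw [if_pos h1, if_pos (by simp only; omega)]
        exact congrArg (v k) (Fin.ext (by simp only; omega))
      · rw [if_neg h1, if_neg (by simp only; omega)]

theorem shf_pow_n : shf p s n ^ n = 0 := by
  apply LinearMap.ext
  intro v
  funext k i
  rw [shf_pow, if_neg (by omega)]
  rfl

theorem one_add_shf_pow (r : ℕ) (hp : p.Prime) : (1 + shf p s (p ^ r)) ^ p ^ r = 1 := by
  have h1 := (Commute.one_left (shf p s (p ^ r))).add_pow_prime_pow_eq hp r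
  rw [shf_pow_n p s (p ^ r), one_pow, add_zero] at h1
  have h2 : ((p : ℕ) : Module.End (ZMod p) (VC p s (p ^ r))) = 0 := by
    apply LinearMap.ext
    intro φ
    rw [← nsmul_one, LinearMap.smul_apply, LinearMap.zero_apply, Module.End.one_apply,
      ← Nat.cast_smul_eq_nsmul (ZMod p), ZMod.natCast_self, zero_smul]
  rw [h2, zero_mul, zero_mul, zero_mul, add_zero] at h1
  exact h1

/-- The action of the cyclic group. -/
@[instance_reducible]
def act [NeZero n] (h : (1 + shf p s n) ^ n = 1) :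
    DistribMulAction (Multiplicative (ZMod n)) (VC p s n) where
  smul ω v := ((1 + shf p s n) ^ (Multiplicative.toAdd ω).val) v
  one_smul v := by
    change ((1 + shf p s n) ^ (0 : ZMod n).val) v = v
    rw [ZMod.val_zero, pow_zero]
    rfl
  mul_smul ω ω' v := by
    change ((1 + shf p s n) ^ (Multiplicative.toAdd ω + Multiplicative.toAdd ω').val) v =
      ((1 + shf p s n) ^ (Multiplicative.toAdd ω).val)
        (((1 + shf p s n) ^ (Multiplicative.toAdd ω').val) v)
    rw [ZMod.val_add, ← pow_eq_pow_mod _ h, pow_add, Module.End.mul_apply]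
  smul_zero ω := map_zero _
  smul_add ω v w := map_add _ _ _

end VC

/-- A list of indices. -/
theorem exists_index (d n : ℕ) (hd : 2 ≤ d) (hn : n ≠ 0) (idx : Fin (d * n) → Fin d)
    (hidx : ∀ J, (idx J : ℕ) = J / n) :
    ∃ U : List (Fin d), List.ofFn idx =
      List.replicate n ⟨0, by omega⟩ ++ ⟨1, by omega⟩ :: U ∧ ∀ c ∈ U, (c : ℕ) ≠ 0 := by
  have hlen : (List.ofFn idx).length = d * n := List.length_ofFn
  have h1 : n < (List.ofFn idx).length := by
    rw [hlen]
    calc n < 2 * n := by omega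
      _ ≤ d * n := Nat.mul_le_mul_right n hd
  refine ⟨(List.ofFn idx).drop (n + 1), ?_, ?_⟩
  · conv_lhs => rw [← List.take_append_drop n (List.ofFn idx)]
    congr 1
    · rw [List.eq_replicate_iff]
      refine ⟨by rw [List.length_take]; omega, ?_⟩
      intro b hb
      obtain ⟨J, hJ, rfl⟩ := List.mem_iff_getElem.1 hb
      rw [List.length_take] at hJ
      rw [List.getElem_take, List.getElem_ofFn]
      apply Fin.ext
      rw [hidx]
      exact Nat.div_eq_of_lt (lt_of_lt_of_le hJ (min_le_left _ _))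
    · rw [List.drop_eq_getElem_cons h1]
      congr 1
      rw [List.getElem_ofFn]
      apply Fin.ext
      rw [hidx]
      exact Nat.div_self (Nat.pos_of_ne_zero hn)
  · intro c hc
    obtain ⟨J, hJ, rfl⟩ := List.mem_iff_getElem.1 hc
    rw [List.getElem_drop, List.getElem_ofFn, hidx]
    have h2 : n ≤ n + 1 + J := by omega
    have h3 := Nat.div_pos h2 (by omega)
    exact Nat.pos_iff_ne_zero.1 h3

theorem exists_ofFn {α : Type*} (l : List α) (k : ℕ) (h : l.length = k) :
    ∃ τ : Fin k → α, List.ofFn τ = l := by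
  subst h
  exact ⟨fun i => l[i], List.ofFn_getElem⟩

/-- The construction. -/
theorem exists_group (p r d : ℕ) [hp : Fact p.Prime] (hp2 : p ≠ 2) (hr : r ≠ 0) (hd : 2 ≤ d) :
    ∃ (G : Type) (_ : Group G) (_ : MulDistribMulAction (Multiplicative (ZMod (p ^ r))) G)
      (T : Twist (Multiplicative (ZMod (p ^ r)))),
      1 ≤ T.e 1 ∧ InVO (WW T p (d * p ^ r - 1)) G ∧
      LocNilp (G ⋊[MulDistribMulAction.toMulAut (Multiplicative (ZMod (p ^ r))) G]
        Multiplicative (ZMod (p ^ r))) ∧
      ∃ h : Fin d → G,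
        (⊤ : Subgroup (Subgroup.closure (Set.range h))).lowerCentralSeries
          (d * p ^ r - 1) ≠ ⊥ := by
  have hp3 : 3 ≤ p := by
    have := hp.out.two_le
    omega
  have hn3 : 3 ≤ p ^ r := hp3.trans (Nat.le_self_pow hr p)
  have hne : NeZero (p ^ r) := ⟨by omega⟩
  have hact := VC.one_add_shf_pow p d r hp.out
  have hzr : IsPGroup p (Multiplicative (ZMod (p ^ r))) := by
    apply IsPGroup.of_card (n := r)
    rw [Nat.card_congr Multiplicative.toAdd, Nat.card_zmod]
  have hspec : ∀ {m : ℕ} {V : Type} (x : Fin (m + 1) → V) (a u : V) (U : List V),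
      List.ofFn x = a :: u :: (List.replicate (p ^ r - 1) a ++ U) → ∀ (φ : List V → ZMod p),
      (∀ c ∈ u :: U, ∀ w, φ (c :: w) = 0) →
      Lv m x φ = φ (List.replicate (p ^ r) a ++ u :: U) :=
    fun x a u U hx φ h => Lv_special hp.out hp2 (ZMod.natCast_self p) r _ x a u U hx φ h
  generalize p ^ r = n at *
  have hdn : 6 ≤ d * n := by
    calc 6 = 2 * 3 := rfl
      _ ≤ d * n := Nat.mul_le_mul hd hn3
  obtain ⟨m, hm⟩ : ∃ m, d * n = m + 1 := ⟨d * n - 1, by omega⟩
  have hm' : d * n - 1 = m := by omega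
  rw [hm']
  have hm5 : 5 ≤ m := by omega
  let _ : DistribMulAction (Multiplicative (ZMod n)) (VC p d n) := VC.act p d n hact
  obtain ⟨ε, hε⟩ := exists_expansion p m
  let T : Twist (Multiplicative (ZMod n)) :=
    { t := Multiplicative.ofAdd 1
      e := fun J => J % n
      ε := fun k => if h : k = m then h ▸ ε else fun _ => 0 }
  have hTε : T.ε m = ε := by simp [T]
  have hzt : ∀ v : VC p d n, zt T.t v = VC.shf p d n v := by
    intro v
    change ((1 + VC.shf p d n) ^ (1 : ZMod n).val) v - v = _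
    rw [ZMod.val_one_eq_one_mod, Nat.mod_eq_of_lt (by omega), pow_one, LinearMap.add_apply,
      Module.End.one_apply, add_sub_cancel_left]
  have hzt' : ∀ (E : ℕ) (v : VC p d n), (zt T.t)^[E] v = (VC.shf p d n ^ E) v := by
    intro E v
    induction E with
    | zero => rfl
    | succ E ih => rw [Function.iterate_succ_apply', ih, hzt, pow_succ', Module.End.mul_apply]
  have hk : ∀ J : Fin (m + 1), (J : ℕ) / n < d := fun J =>
    Nat.div_lt_of_lt_mul (by rw [mul_comm, hm]; exact J.2)
  have hl : ∀ J : ℕ, J % n < n := fun J => Nat.mod_lt _ (by omega)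
  let kk : Fin (m + 1) → Fin d := fun J => ⟨(J : ℕ) / n, hk J⟩
  let lv : Fin (m + 1) → Fin n := fun J => ⟨(J : ℕ) % n, hl J⟩
  let D : Fnl (ZMod p) (VC p d n) T m :=
    { α := ⟨⟨fun v => v ⟨0, by omega⟩ ⟨0, by omega⟩, rfl⟩, fun v w => rfl⟩
      η := fun j => ⟨⟨fun v => v (kk j.succ) (lv j.succ), rfl⟩, fun v w => rfl⟩
      hα := by
        intro v
        change (zt T.t v) ⟨0, _⟩ ⟨0, _⟩ = 0
        rw [hzt]
        rfl
      hη := by
        intro j E v hE
        change ((zt T.t)^[E] v) (kk j.succ) (lv j.succ) = 0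
        rw [hzt', VC.shf_pow, if_neg]
        change ((j : ℕ) + 1) % n < E at hE
        change ¬ E ≤ ((j : ℕ) + 1) % n
        omega }
  let S := sysF (ZMod p) (VC p d n) T m
  have he1 : 1 ≤ T.e 1 := by
    change 1 ≤ 1 % n
    rw [Nat.mod_eq_of_lt (by omega)]
  have he2 : 1 ≤ T.e 2 := by
    change 1 ≤ 2 % n
    rw [Nat.mod_eq_of_lt (by omega)]
    omega
  have he0 : T.e 0 = 0 := Nat.zero_mod n
  refine ⟨S.Grp, inferInstance, inferInstance, T, he1, inVO_Grp (ZMod.natCast_self p) T m,
    locNilp_Grp (p := p) hzr T m, ?_⟩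
  -- the generators
  let gg : Fin d → VC p d n := fun k => fun k' i => if k' = k ∧ (i : ℕ) = 0 then 1 else 0
  choose h hh using fun j => S.exists_rep (gg j)
  refine ⟨h, ?_⟩
  -- the word
  obtain ⟨U, hU, hU0⟩ := exists_index d n hd (by omega)
    (fun J => kk (J.cast hm)) (fun J => rfl)
  have hlen : n + 1 + U.length = m + 1 := by
    have h1 := congrArg List.length hU
    rw [List.length_ofFn, List.length_append, List.length_replicate, List.length_cons] at h1
    omega
  obtain ⟨τ, hτ⟩ := exists_ofFn ((⟨0, by omega⟩ : Fin d) :: (⟨1, by omega⟩ : Fin d) ::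
    (List.replicate (n - 1) (⟨0, by omega⟩ : Fin d) ++ U)) (m + 1) (by
      rw [List.length_cons, List.length_cons, List.length_append, List.length_replicate]
      omega)
  refine S.closure_lcs_ne_bot rfl h gg hh τ ?_
  intro hzero
  have h1 := D.Ps_mem (by omega) he0 he1 he2 (by rw [hTε]; exact fun x φ => hε x φ)
  have h2 := evE_lComm T m ⟨D.Ps, h1⟩ (fun i => gg (τ i))
  have h3 : lComm m (fun i => S.X (gg (τ i))) = 0 := hzero
  rw [h3, map_zero] at h2
  have hα0 : ∀ c : Fin d, (c : ℕ) ≠ 0 → D.α (gg c) = 0 := by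
    intro c hc
    change (if (⟨0, _⟩ : Fin d) = c ∧ (0 : ℕ) = 0 then (1 : ZMod p) else 0) = 0
    rw [if_neg]
    rintro ⟨h4, _⟩
    exact hc (congrArg Fin.val h4).symm
  have h4 := hspec (fun i => gg (τ i)) (gg ⟨0, by omega⟩) (gg ⟨1, by omega⟩) (U.map gg) (by
    have h5 := congrArg (List.map gg) hτ
    rw [List.map_ofFn, List.map_cons, List.map_cons, List.map_append, List.map_replicate] at h5
    exact h5) D.Ps (by
    intro c hc w
    rw [← List.map_cons] at hc
    obtain ⟨k, hk', rfl⟩ := List.mem_map.1 hc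
    apply D.Ps_head
    apply hα0
    rcases List.mem_cons.1 hk' with rfl | hk'
    · simp
    · exact hU0 k hk')
  have h5 : List.replicate n (gg ⟨0, by omega⟩) ++ gg ⟨1, by omega⟩ :: U.map gg =
      List.ofFn (fun J : Fin (m + 1) => gg (kk J)) := by
    have h6 := congrArg (List.map gg) hU
    rw [List.map_ofFn, List.map_append, List.map_replicate, List.map_cons] at h6
    rw [← h6]
    apply List.ext_getElem
    · rw [List.length_ofFn, List.length_ofFn, hm]
    · intro i h7 h8
      rw [List.getElem_ofFn, List.getElem_ofFn]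
      rfl
  rw [h5] at h4
  have h6 := D.Ps_value (fun J => gg (kk J)) ?_ ⟨0, by omega⟩ ?_ ?_
  · rw [h6] at h4
    rw [← h2] at h4
    exact zero_ne_one h4
  · change (if (⟨0, _⟩ : Fin d) = kk 0 ∧ (0 : ℕ) = 0 then (1 : ZMod p) else 0) = 1
    rw [if_pos]
    refine ⟨Fin.ext ?_, rfl⟩
    change 0 = (0 : ℕ) / n
    rw [Nat.zero_div]
  · intro j
    change (if kk (Fin.succ ⟨0, _⟩) = kk j.succ ∧ ((lv (Fin.succ ⟨0, by omega⟩) : Fin n) : ℕ) = 0
      then (1 : ZMod p) else 0) = 0
    rw [if_neg]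
    rintro ⟨_, h7⟩
    change (0 + 1) % n = 0 at h7
    rw [Nat.mod_eq_of_lt (by omega)] at h7
    omega
  · intro r' j
    change ((zt T.t)^[((j : ℕ) + 1) % n] (gg (kk j.succ))) (kk r'.succ) (lv r'.succ) = _
    rw [hzt', VC.shf_pow]
    by_cases hrj : r' = j
    · subst hrj
      have h7 : ((r' : ℕ) + 1) % n ≤ (lv r'.succ : ℕ) := le_rfl
      rw [if_pos h7, if_pos rfl]
      change (if kk r'.succ = kk r'.succ ∧ ((lv r'.succ : ℕ) - ((r' : ℕ) + 1) % n) = 0
        then (1 : ZMod p) else 0) = 1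
      rw [if_pos ⟨rfl, Nat.sub_self _⟩]
    · rw [if_neg hrj]
      split_ifs with h7
      · change (if kk r'.succ = kk j.succ ∧ ((lv r'.succ : ℕ) - ((j : ℕ) + 1) % n) = 0
          then (1 : ZMod p) else 0) = 0
        rw [if_neg]
        rintro ⟨h8, h9⟩
        apply hrj
        have h10 : ((r' : ℕ) + 1) / n = ((j : ℕ) + 1) / n := congrArg Fin.val h8
        have h11 : (lv r'.succ : ℕ) = ((r' : ℕ) + 1) % n := rfl
        have h12 : ((r' : ℕ) + 1) % n = ((j : ℕ) + 1) % n := by omega
        have h13 := Nat.div_add_mod ((r' : ℕ) + 1) n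
        have h14 := Nat.div_add_mod ((j : ℕ) + 1) n
        rw [h10, h12, h14] at h13
        exact Fin.ext (by omega)
      · rfl

end Pool.Agent.Work.MP_369e59_al
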