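import Pool.Agent.Work.MP_369e59_al.SatL

/-!
# Twisted words

For an element `t` of the operator group, `zw t i x` is the `i`-th iterate of `x ↦ x⁻¹ x^t`. Let `e`
be a sequence of exponents and `ε` an integral function on permutations. The twisted version of the
left-normed commutator `C(x₀, ..., xₘ)` is `C(x₀, ..., xₘ)` times the inverse of the product of the
powers `C(zw (e 0) x_ρ(0), ..., zw (e m) x_ρ(m)) ^ ε(ρ)`.
-/

namespace Pool.Agent.Work.MP_369e59_al

open scoped commutatorElement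

section words

variable {Ω : Type*} [Group Ω]

/-- The operator `t` applied to a word. -/
def tsh (t : Ω) : FreeGroup (ℕ × Ω) →* FreeGroup (ℕ × Ω) :=
  FreeGroup.map (fun x => (x.1, t * x.2))

/-- The iterates of `x ↦ x⁻¹ x^t`. -/
def zw (t : Ω) : ℕ → FreeGroup (ℕ × Ω) → FreeGroup (ℕ × Ω)
  | 0, w => w
  | i + 1, w => (zw t i w)⁻¹ * tsh t (zw t i w)

/-- The data of a twist. -/
structure Twist (Ω : Type*) where
  /-- the operator -/
  t : Ω
  /-- the exponents -/
  e : ℕ → ℕ
  /-- the coefficients -/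
  ε : (m : ℕ) → Equiv.Perm (Fin (m + 1)) → ℤ

/-- The twisted left-normed commutator. -/
noncomputable def tComm (T : Twist Ω) (m : ℕ) (x : Fin (m + 1) → FreeGroup (ℕ × Ω)) :
    FreeGroup (ℕ × Ω) :=
  gComm m x * (((Finset.univ : Finset (Equiv.Perm (Fin (m + 1)))).toList.map
    (fun ρ => gComm m (fun i => zw T.t (T.e i) (x (ρ i))) ^ T.ε m ρ)).prod)⁻¹

/-- The twisted version of the group word of a multilinear identity. -/
noncomputable def tWord (T : Twist Ω) (u : MultId) : FreeGroup (ℕ × Ω) :=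
  ((Finset.univ : Finset (Equiv.Perm (Fin (u.n + 1)))).toList.map
    (fun σ => tComm T u.n (fun i => FreeGroup.of ((σ i : ℕ), 1)) ^ u.c σ)).prod

end words

/-- The identity `[x₀, ..., xₘ]` with coefficient `a`. -/
def uOne (m : ℕ) (a : ℤ) : MultId := ⟨m, fun σ => if σ = 1 then a else 0⟩

/-- The sum of four left-normed brackets obtained from `[x₀, ..., xₘ]` by interchanging or not
interchanging `x_i, x_j` and interchanging or not interchanging `x_k, x_l`. -/
def uFour (m : ℕ) (i j k l : Fin (m + 1)) : MultId :=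
  ⟨m, fun σ => (if σ = 1 then 1 else 0) + (if σ = Equiv.swap i j then 1 else 0) +
    (if σ = Equiv.swap k l then 1 else 0) + (if σ = Equiv.swap i j * Equiv.swap k l then 1 else 0)⟩

/-- The identities of degree `m + 1`. -/
def UC (p m : ℕ) : Set MultId :=
  {u | u = uOne m p ∨ ∃ i j k l : Fin (m + 1), i ≠ j ∧ k ≠ l ∧ i ≠ k ∧ i ≠ l ∧ j ≠ k ∧ j ≠ l ∧
    u = uFour m i j k l}

/-- All identities. -/
def UU (p m : ℕ) : Set MultId := {u | u = uOne (m + 1) 1 ∨ u ∈ UC p m}

/-- The Ω-words. -/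
def WW {Ω : Type*} [Group Ω] (T : Twist Ω) (p m : ℕ) : Set (FreeGroup (ℕ × Ω)) :=
  {w | w ∈ (⊤ : Subgroup (FreeGroup (ℕ × Ω))).lowerCentralSeries (m + 1) ∨
    ∃ u ∈ UC p m, w = tWord T u}

/-- The class bound. -/
def ff (m d : ℕ) : ℕ := if d + 2 ≤ m then m else m + 1

end Pool.Agent.Work.MP_369e59_al
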