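import Pool.Agent.Work.MP_369e59_al.TwLaw

/-!
# The expansion of the left-normed bracket
-/

namespace Pool.Agent.Work.MP_369e59_al

attribute [local instance 100] LieRing.ofAssociativeRing

theorem exists_perm_of_perm {n : ℕ} (w : List (Fin n))
    (hw : w.Perm (List.ofFn fun i : Fin n => i)) :
    ∃ ρ : Equiv.Perm (Fin n), w = List.ofFn ρ := by
  have hnd : w.Nodup := hw.nodup_iff.2 (List.nodup_ofFn.2 Function.injective_id)
  have hlen : w.length = n := by rw [hw.length_eq, List.length_ofFn]
  let f : Fin n → Fin n := fun i => w[(i : ℕ)]'(by rw [hlen]; exact i.2)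
  have hf : Function.Injective f := by
    intro i j hij
    have h1 := (List.Nodup.getElem_inj_iff hnd).1 hij
    exact Fin.ext h1
  refine ⟨Equiv.ofBijective f (Finite.injective_iff_bijective.1 hf), ?_⟩
  apply List.ext_getElem
  · rw [hlen, List.length_ofFn]
  · intro i h1 h2
    rw [List.getElem_ofFn]
    rfl

/-- The left-normed bracket is a combination of permuted products. -/
theorem exists_expansion (p m : ℕ) [NeZero p] : ∃ ε : Equiv.Perm (Fin (m + 1)) → ℤ,
    ∀ {V : Type} (x : Fin (m + 1) → V) (φ : List V → ZMod p),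
      Lv m x φ = ∑ ρ : Equiv.Perm (Fin (m + 1)), ε ρ • φ (List.ofFn (x ∘ ρ)) := by
  classical
  let δ : Equiv.Perm (Fin (m + 1)) → List (Fin (m + 1)) → ZMod p := fun ρ w =>
    if w = List.ofFn ρ then 1 else 0
  let ι : Fin (m + 1) → Fin (m + 1) := fun i => i
  refine ⟨fun ρ => ((Lv m ι (δ ρ)).val : ℤ), ?_⟩
  intro V x φ
  have key : ∀ ψ : List (Fin (m + 1)) → ZMod p, Lv m ι ψ =
      ∑ ρ : Equiv.Perm (Fin (m + 1)), ψ (List.ofFn ρ) • Lv m ι (δ ρ) := by
    intro ψ
    have h1 : Lv m ι (ψ - ∑ ρ : Equiv.Perm (Fin (m + 1)), ψ (List.ofFn ρ) • δ ρ) = 0 := by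
      apply lComm_vanish
      intro w hw
      obtain ⟨ρ, rfl⟩ := exists_perm_of_perm w hw
      rw [List.nil_append, Pi.sub_apply, Finset.sum_apply, Finset.sum_eq_single ρ]
      · rw [Pi.smul_apply]
        change _ - _ • (if List.ofFn ρ = List.ofFn ρ then (1 : ZMod p) else 0) = 0
        rw [if_pos rfl, smul_eq_mul, mul_one, sub_self]
      · intro σ _ hσ
        have h2 : List.ofFn ρ ≠ List.ofFn σ := by
          intro h
          apply hσ
          have h3 := List.ofFn_injective h
          exact (DFunLike.coe_injective h3).symm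
        rw [Pi.smul_apply]
        change _ • (if List.ofFn ρ = List.ofFn σ then (1 : ZMod p) else 0) = 0
        rw [if_neg h2, smul_zero]
      · intro h
        exact absurd (Finset.mem_univ _) h
    rw [Lv_sub, Lv_sum, sub_eq_zero] at h1
    rw [h1]
    exact Finset.sum_congr rfl fun ρ _ => Lv_smul m ι _ _
  have h1 : Lv m x φ = Lv m ι (pull x φ) := by
    unfold Lv
    rw [lComm_pull, pull_apply, List.map_nil]
  rw [h1, key]
  refine Finset.sum_congr rfl fun ρ _ => ?_
  rw [pull_apply, List.map_ofFn, smul_eq_mul, zsmul_eq_mul, mul_comm, Int.cast_natCast,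
    ZMod.natCast_zmod_val]

end Pool.Agent.Work.MP_369e59_al
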