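import Mathlib.Algebra.Lie.OfAssociative
import Pool.Agent.Work.MP_369e59_al.Laws

/-!
# Units of a filtered ring
-/

namespace Pool.Agent.Work.MP_369e59_al

open scoped commutatorElement

attribute [local instance 100] LieRing.ofAssociativeRing

/-- A descending ring filtration which reaches zero. -/
structure RFilt {R : Type*} [Ring R] (E : ℕ → AddSubgroup R) (N : ℕ) : Prop where
  mul_mem : ∀ {i j : ℕ} {a b : R}, a ∈ E i → b ∈ E j → a * b ∈ E (i + j)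
  anti : ∀ i, E (i + 1) ≤ E i
  one_mem : (1 : R) ∈ E 0
  bot : ∀ a ∈ E N, a = 0

namespace RFilt

variable {R : Type*} [Ring R] {E : ℕ → AddSubgroup R} {N : ℕ} (hE : RFilt E N)

include hE

theorem le {i j : ℕ} (h : i ≤ j) : E j ≤ E i := antitone_nat_of_succ_le hE.anti h

theorem mul_mem' {i j k : ℕ} {a b : R} (ha : a ∈ E i) (hb : b ∈ E j) (h : k ≤ i + j) :
    a * b ∈ E k := hE.le h (hE.mul_mem ha hb)

theorem pow_mem {a : R} (ha : a ∈ E 1) (k : ℕ) : a ^ k ∈ E k := by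
  induction k with
  | zero => rw [pow_zero]; exact hE.one_mem
  | succ k ih => rw [pow_succ]; exact hE.mul_mem ih ha

theorem inv_mem (g : Rˣ) (hg : (g : R) - 1 ∈ E 1) : ((g⁻¹ : Rˣ) : R) ∈ E 0 := by
  have ha : 1 - (g : R) ∈ E 1 := by rw [← neg_sub]; exact neg_mem hg
  have h1 : (∑ i ∈ Finset.range N, (1 - (g : R)) ^ i) * (g : R) = 1 := by
    have h2 := geom_sum_mul_neg (1 - (g : R)) N
    rw [hE.bot _ (hE.pow_mem ha N), sub_zero, sub_sub_cancel] at h2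
    exact h2
  have h3 : ((g⁻¹ : Rˣ) : R) = ∑ i ∈ Finset.range N, (1 - (g : R)) ^ i :=
    (left_inv_eq_right_inv h1 (Units.mul_inv g)).symm
  rw [h3]
  exact sum_mem fun i _ => hE.le (Nat.zero_le i) (hE.pow_mem ha i)

theorem inv_sub_mem {i : ℕ} (hi : 1 ≤ i) (g : Rˣ) (hg : (g : R) - 1 ∈ E i) :
    ((g⁻¹ : Rˣ) : R) - 1 ∈ E i := by
  have h1 : ((g⁻¹ : Rˣ) : R) - 1 = -(((g⁻¹ : Rˣ) : R) * ((g : R) - 1)) := by
    rw [mul_sub, Units.inv_mul, mul_one, neg_sub]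
  rw [h1]
  exact neg_mem (hE.mul_mem' (hE.inv_mem g (hE.le hi hg)) hg (by omega))

theorem mul_sub_mem {i : ℕ} (g h : Rˣ) (hg : (g : R) - 1 ∈ E i) (hh : (h : R) - 1 ∈ E i) :
    ((g * h : Rˣ) : R) - 1 ∈ E i := by
  have h1 : ((g * h : Rˣ) : R) - 1 = ((g : R) - 1) * ((h : R) - 1) + ((g : R) - 1) +
      ((h : R) - 1) := by
    rw [Units.val_mul]; noncomm_ring
  rw [h1]
  exact add_mem (add_mem (hE.mul_mem' hg hh (by omega)) hg) hh

omit hE in
theorem comm_sub (g h : Rˣ) : ((⁅g, h⁆ : Rˣ) : R) - 1 =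
    (((g : R) - 1) * ((h : R) - 1) - ((h : R) - 1) * ((g : R) - 1)) *
      ((g⁻¹ * h⁻¹ : Rˣ) : R) := by
  have h1 : (((g : R) - 1) * ((h : R) - 1) - ((h : R) - 1) * ((g : R) - 1)) =
      (g : R) * h - h * g := by noncomm_ring
  rw [h1, commutatorElement_def, sub_mul, Units.val_mul, Units.val_mul, Units.val_mul,
    Units.val_mul]
  congr 1
  · rw [mul_assoc, mul_assoc]
  · rw [mul_assoc (h : R), ← mul_assoc (g : R), Units.mul_inv, one_mul, Units.mul_inv]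

theorem comm_mem {i : ℕ} (hi : 1 ≤ i) (g h : Rˣ) (hg : (g : R) - 1 ∈ E i)
    (hh : (h : R) - 1 ∈ E 1) : ((⁅g, h⁆ : Rˣ) : R) - 1 ∈ E (i + 1) := by
  rw [comm_sub]
  refine hE.mul_mem' (i := i + 1) (j := 0) ?_ ?_ (by omega)
  · exact sub_mem (hE.mul_mem hg hh) (hE.mul_mem' hh hg (by omega))
  · rw [Units.val_mul]
    exact hE.mul_mem' (hE.inv_mem g (hE.le hi hg)) (hE.inv_mem h hh) (by omega)

theorem comm_lie {i : ℕ} (hi : 1 ≤ i) (g h : Rˣ) (a b : R) (ha : a ∈ E i)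
    (hga : (g : R) - 1 - a ∈ E (i + 1)) (hb : b ∈ E 1) (hhb : (h : R) - 1 - b ∈ E 2) :
    ((⁅g, h⁆ : Rˣ) : R) - 1 - ⁅a, b⁆ ∈ E (i + 2) := by
  have hg : (g : R) - 1 ∈ E i := by
    have := add_mem (hE.anti _ hga) ha
    rwa [sub_add_cancel] at this
  have hh : (h : R) - 1 ∈ E 1 := by
    have := add_mem (hE.anti _ hhb) hb
    rwa [sub_add_cancel] at this
  have h1 : ((g⁻¹ * h⁻¹ : Rˣ) : R) - 1 ∈ E 1 :=
    hE.mul_sub_mem _ _ (hE.le hi (hE.inv_sub_mem hi g hg)) (hE.inv_sub_mem le_rfl h hh)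
  rw [comm_sub, Ring.lie_def]
  have h2 : (((g : R) - 1) * ((h : R) - 1) - ((h : R) - 1) * ((g : R) - 1)) *
      ((g⁻¹ * h⁻¹ : Rˣ) : R) - (a * b - b * a) =
      (((g : R) - 1) * ((h : R) - 1) - ((h : R) - 1) * ((g : R) - 1)) *
        (((g⁻¹ * h⁻¹ : Rˣ) : R) - 1) +
      (((g : R) - 1 - a) * ((h : R) - 1) + a * ((h : R) - 1 - b) -
        (((h : R) - 1 - b) * ((g : R) - 1) + b * ((g : R) - 1 - a))) := by
    noncomm_ring
  rw [h2]
  refine add_mem ?_ (sub_mem (add_mem ?_ ?_) (add_mem ?_ ?_))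
  · exact hE.mul_mem' (i := i + 1) (sub_mem (hE.mul_mem hg hh) (hE.mul_mem' hh hg (by omega))) h1
      (by omega)
  · exact hE.mul_mem' hga hh (by omega)
  · exact hE.mul_mem' ha hhb (by omega)
  · exact hE.mul_mem' hhb hg (by omega)
  · exact hE.mul_mem' hb hga (by omega)

theorem lComm_mem (n : ℕ) (a : Fin (n + 1) → R) (ha : ∀ i, a i ∈ E 1) :
    lComm n a ∈ E (n + 1) := by
  induction n with
  | zero => exact ha 0
  | succ n ih =>
    simp only [lComm]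
    rw [Ring.lie_def]
    exact sub_mem (hE.mul_mem (ih _ fun i => ha _) (ha _))
      (hE.mul_mem' (ha _) (ih _ fun i => ha _) (by omega))

theorem gComm_lComm (n : ℕ) (g : Fin (n + 1) → Rˣ) (a : Fin (n + 1) → R) (ha : ∀ i, a i ∈ E 1)
    (hg : ∀ i, (g i : R) - 1 - a i ∈ E 2) :
    ((gComm n g : Rˣ) : R) - 1 - lComm n a ∈ E (n + 2) := by
  induction n with
  | zero => exact hg 0
  | succ n ih =>
    simp only [lComm, gComm]
    exact hE.comm_lie (i := n + 1) (by omega) _ _ _ _ (hE.lComm_mem n _ fun i => ha _)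
      (ih _ _ (fun i => ha _) (fun i => hg _)) (ha _) (hg _)

/-- The congruence subgroups. -/
def DG (n : ℕ) : Subgroup Rˣ where
  carrier := {g | (g : R) - 1 ∈ E (n + 1)}
  one_mem' := by simp [zero_mem]
  mul_mem' {g h} hg hh := hE.mul_sub_mem g h hg hh
  inv_mem' {g} hg := hE.inv_sub_mem (by omega) g hg

theorem lcs_le {G : Type*} [Group G] (ρ : G →* Rˣ) (hρ : ∀ g, (ρ g : R) - 1 ∈ E 1) (n : ℕ) :
    (⊤ : Subgroup G).lowerCentralSeries n ≤ (hE.DG n).comap ρ := by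
  induction n with
  | zero => intro g _; exact hρ g
  | succ n ih =>
    rw [Subgroup.lowerCentralSeries_succ, Subgroup.commutator_le]
    intro g hg h _
    change ((ρ ⁅g, h⁆ : Rˣ) : R) - 1 ∈ E (n + 1 + 1)
    rw [map_commutatorElement]
    exact hE.comm_mem (by omega) _ _ (ih hg) (hρ h)

theorem lcs_eq_bot {G : Type*} [Group G] (ρ : G →* Rˣ) (hρ : ∀ g, (ρ g : R) - 1 ∈ E 1)
    (hinj : Function.Injective ρ) {n : ℕ} (hn : N ≤ n + 1) :
    (⊤ : Subgroup G).lowerCentralSeries n = ⊥ := by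
  rw [eq_bot_iff]
  intro g hg
  have h1 : (ρ g : R) - 1 ∈ E (n + 1) := hE.lcs_le ρ hρ n hg
  have h2 := hE.bot _ (hE.le hn h1)
  rw [Subgroup.mem_bot]
  apply hinj
  rw [map_one]
  exact Units.ext (sub_eq_zero.1 h2)

/-! ### Elements of the last term -/

theorem oneAdd_mul {c : ℕ} (hc : N ≤ c + c) {g h : Rˣ} {a b : R} (hg : (g : R) - 1 = a)
    (ha : a ∈ E c) (hh : (h : R) - 1 = b) (hb : b ∈ E c) :
    ((g * h : Rˣ) : R) - 1 = a + b := by
  have h1 : ((g * h : Rˣ) : R) - 1 = ((g : R) - 1) * ((h : R) - 1) + ((g : R) - 1) +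
      ((h : R) - 1) := by
    rw [Units.val_mul]; noncomm_ring
  rw [h1, hg, hh, hE.bot _ (hE.mul_mem' ha hb hc), zero_add]

theorem oneAdd_inv {c : ℕ} (hc : N ≤ c + c) {g : Rˣ} {a : R} (hg : (g : R) - 1 = a)
    (ha : a ∈ E c) : ((g⁻¹ : Rˣ) : R) - 1 = -a := by
  have h1 : ((1 : R) - a) * (g : R) = 1 := by
    have h2 : (g : R) = 1 + a := by rw [← hg]; abel
    rw [h2]
    have h3 : (1 - a) * (1 + a) = 1 - a * a := by noncomm_ring
    rw [h3, hE.bot _ (hE.mul_mem' ha ha hc), sub_zero]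
  have h2 : ((g⁻¹ : Rˣ) : R) = 1 - a := (left_inv_eq_right_inv h1 (Units.mul_inv g)).symm
  rw [h2]; abel

theorem oneAdd_pow {c : ℕ} (hc : N ≤ c + c) {g : Rˣ} {a : R} (hg : (g : R) - 1 = a)
    (ha : a ∈ E c) (k : ℕ) : ((g ^ k : Rˣ) : R) - 1 = k • a := by
  induction k with
  | zero => simp
  | succ k ih =>
    rw [pow_succ, hE.oneAdd_mul hc ih (nsmul_mem ha k) hg ha, succ_nsmul]

theorem oneAdd_zpow {c : ℕ} (hc : N ≤ c + c) {g : Rˣ} {a : R} (hg : (g : R) - 1 = a)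
    (ha : a ∈ E c) (k : ℤ) : ((g ^ k : Rˣ) : R) - 1 = k • a := by
  rcases k with k | k
  · rw [Int.ofNat_eq_natCast, zpow_natCast, natCast_zsmul]
    exact hE.oneAdd_pow hc hg ha k
  · rw [zpow_negSucc, negSucc_zsmul]
    exact hE.oneAdd_inv hc (hE.oneAdd_pow hc hg ha (k + 1)) (nsmul_mem ha _)

theorem oneAdd_list {c : ℕ} (hc : N ≤ c + c) {ι : Type*} (l : List ι) (g : ι → Rˣ) (a : ι → R)
    (hg : ∀ i, (g i : R) - 1 = a i) (ha : ∀ i, a i ∈ E c) (k : ι → ℤ) :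
    (((l.map fun i => g i ^ k i).prod : Rˣ) : R) - 1 = (l.map fun i => k i • a i).sum ∧
      (l.map fun i => k i • a i).sum ∈ E c := by
  induction l with
  | nil => simp [zero_mem]
  | cons i l ih =>
    simp only [List.map_cons, List.prod_cons, List.sum_cons]
    have h1 : k i • a i ∈ E c := zsmul_mem (ha i) _
    exact ⟨hE.oneAdd_mul hc (hE.oneAdd_zpow hc (hg i) (ha i) (k i)) h1 ih.1 ih.2,
      add_mem h1 ih.2⟩

end RFilt

end Pool.Agent.Work.MP_369e59_al
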