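import Mathlib.Algebra.Lie.OfAssociative
import Pool.Agent.Work.MP_369e59_al.LieMeta

/-!
# Operators on functions of lists
-/

namespace Pool.Agent.Work.MP_369e59_al

attribute [local instance 100] LieRing.ofAssociativeRing

section

variable {F : Type*} [CommRing F] {V : Type*}

/-- The operator `(XX x φ) (l) = φ (l ++ [x])`. -/
def XX (x : V) : Module.End F (List V → F) where
  toFun φ := fun l => φ (l ++ [x])
  map_add' _ _ := rfl
  map_smul' _ _ := rfl

theorem XX_apply (x : V) (φ : List V → F) (l : List V) : XX x φ l = φ (l ++ [x]) := rfl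

theorem lie_XX (A : Module.End F (List V → F)) (y : V) (φ : List V → F) (l : List V) :
    (⁅A, XX y⁆ : Module.End F (List V → F)) φ l = A (XX y φ) l - A φ (l ++ [y]) := by
  rw [Ring.lie_def, LinearMap.sub_apply, Module.End.mul_apply, Module.End.mul_apply,
    Pi.sub_apply, XX_apply]

theorem lb_vanish (a : V) (L : List V) (φ : List V → F) (l : List V)
    (h : ∀ w : List V, w.Perm (a :: L) → φ (l ++ w) = 0) : lb (XX a) (L.map XX) φ l = 0 := by
  induction L using List.reverseRecOn generalizing φ l with
  | nil =>
    rw [List.map_nil, lb_nil, XX_apply]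
    exact h _ (List.Perm.refl _)
  | append_singleton L y ih =>
    rw [List.map_append, List.map_singleton, lb_concat, lie_XX]
    rw [ih (XX y φ) l, ih φ (l ++ [y]), sub_zero]
    · intro w hw
      rw [List.append_assoc, List.singleton_append]
      apply h
      refine (List.Perm.cons y hw).trans ?_
      rw [← List.cons_append]
      exact (List.perm_append_singleton y (a :: L)).symm
    · intro w hw
      rw [XX_apply, List.append_assoc]
      apply h
      exact hw.append_right [y]

theorem lb_head (a : V) (L : List V) (φ : List V → F) (h : ∀ c ∈ L, ∀ w, φ (c :: w) = 0) :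
    lb (XX a) (L.map XX) φ [] = φ (a :: L) := by
  induction L using List.reverseRecOn generalizing φ with
  | nil => rfl
  | append_singleton L y ih =>
    rw [List.map_append, List.map_singleton, lb_concat, lie_XX]
    rw [ih (XX y φ), lb_vanish a L φ ([] ++ [y]), sub_zero]
    · rfl
    · intro w _
      exact h y (by simp) w
    · intro c hc w
      exact h c (by simp [hc]) (w ++ [y])

/-- Antisymmetry with respect to adjacent positions. -/
def IsAlt (D : List V → F) : Prop := ∀ (l₁ l₂ : List V) (x y : V),
  D (l₁ ++ x :: y :: l₂) = - D (l₁ ++ y :: x :: l₂)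

theorem IsAlt.XX {D : List V → F} (h : IsAlt D) (y : V) : IsAlt (XX y D) := by
  intro l₁ l₂ a b
  rw [XX_apply, XX_apply, List.append_assoc, List.append_assoc]
  exact h l₁ (l₂ ++ [y]) a b

theorem lb_three (a b c : V) (φ : List V → F) (l : List V) :
    lb (XX a) ([b, c].map XX) φ l = φ (l ++ [a, b, c]) - φ (l ++ [b, a, c]) -
      (φ (l ++ [c, a, b]) - φ (l ++ [c, b, a])) := by
  rw [List.map_cons, List.map_singleton, lb_cons, lb_cons, lb_nil, lie_XX, lie_XX, lie_XX]
  simp only [XX_apply, List.append_assoc, List.cons_append, List.nil_append]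

/-- Alternating functions vanish on brackets of length at least three. -/
theorem lb_alt (a b c : V) (L : List V) (D : List V → F) (h : IsAlt D) (l : List V) :
    lb (XX a) ((b :: c :: L).map XX) D l = 0 := by
  induction L using List.reverseRecOn generalizing D l with
  | nil =>
    rw [lb_three]
    have h1 : D (l ++ [b, a, c]) = - D (l ++ [a, b, c]) := h l [c] b a
    have h2 : D (l ++ [c, a, b]) = - D (l ++ [a, c, b]) := h l [b] c a
    have h3 : D (l ++ [a, c, b]) = - D (l ++ [a, b, c]) := by
      have := h (l ++ [a]) [] c b
      simpa using this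
    have h4 : D (l ++ [c, b, a]) = - D (l ++ [b, c, a]) := h l [a] c b
    have h5 : D (l ++ [b, c, a]) = - D (l ++ [b, a, c]) := by
      have := h (l ++ [b]) [] c a
      simpa using this
    rw [h4, h5, h2, h3, h1]
    ring
  | append_singleton L y ih =>
    rw [← List.cons_append, ← List.cons_append, List.map_append, List.map_singleton, lb_concat,
      lie_XX, ih _ (h.XX y), ih D h, sub_zero]

/-- The operation `φ ↦ φ (y :: ·)` commutes with the operators. -/
theorem lb_cons_apply (a : V) (L : List V) (φ : List V → F) (y : V) (l : List V) :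
    lb (XX a) (L.map XX) φ (y :: l) = lb (XX a) (L.map XX) (fun w => φ (y :: w)) l := by
  induction L using List.reverseRecOn generalizing φ l with
  | nil => rfl
  | append_singleton L z ih =>
    rw [List.map_append, List.map_singleton, lb_concat, lie_XX, lie_XX, ih, List.cons_append, ih]
    rfl

theorem lb_head_alt (a b c : V) (L : List V) (α : V → F) (D : List V → F) (hD : IsAlt D)
    (hb : α b = 0) (hc : α c = 0) (φ : List V → F) (hφ : ∀ x l, φ (x :: l) = α x * D l) :
    lb (XX a) ((b :: c :: L).map XX) φ [] = φ (a :: b :: c :: L) := by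
  induction L using List.reverseRecOn generalizing φ D with
  | nil =>
    rw [lb_three]
    simp only [List.nil_append, hφ, hb, hc, zero_mul, sub_zero]
  | append_singleton L y ih =>
    rw [← List.cons_append, ← List.cons_append, List.map_append, List.map_singleton, lb_concat,
      lie_XX, List.nil_append, lb_cons_apply]
    have h1 : (fun w => φ (y :: w)) = α y • D := by
      funext w
      rw [hφ]
      rfl
    rw [h1, map_smul, Pi.smul_apply, lb_alt a b c L D hD, smul_zero, sub_zero,
      ih (XX y D) (hD.XX y) (XX y φ) (fun x l => hφ x (l ++ [y]))]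
    rfl

/-- In characteristic `p` the left-normed bracket of `A`, `X` and `p ^ r - 1` further entries `A` is
the bracket of `A ^ (p ^ r)` and `X`. -/
theorem lb_replicate {R : Type*} [Ring R] {p : ℕ} (hp : p.Prime) (hp2 : p ≠ 2) (hpR : (p : R) = 0)
    (r : ℕ) (A X : R) : lb A (X :: List.replicate (p ^ r - 1) A) = ⁅A ^ p ^ r, X⁆ := by
  have h0 : ∀ (k : ℕ) (Y : R), lb Y (List.replicate k A) =
      ((LinearMap.mulRight ℤ A - LinearMap.mulLeft ℤ A : Module.End ℤ R) ^ k) Y := by
    intro k
    induction k with
    | zero => intro Y; rfl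
    | succ k ih =>
      intro Y
      rw [List.replicate_succ, lb_cons, ih, pow_succ, Module.End.mul_apply]
      rfl
  have hc : Commute (LinearMap.mulRight ℤ A : Module.End ℤ R) (-LinearMap.mulLeft ℤ A) := by
    apply LinearMap.ext
    intro Y
    change -(A * Y) * A = -(A * (Y * A))
    noncomm_ring
  have hz : ((p : ℕ) : Module.End ℤ R) = 0 := by
    apply LinearMap.ext
    intro Y
    rw [← nsmul_one, LinearMap.smul_apply, LinearMap.zero_apply, Module.End.one_apply,
      nsmul_eq_mul, hpR, zero_mul]
  have h1 := hc.add_pow_prime_pow_eq hp r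
  rw [hz, zero_mul, zero_mul, zero_mul, add_zero, ← sub_eq_add_neg] at h1
  have hodd : Odd (p ^ r) := (hp.odd_of_ne_two hp2).pow
  rw [hodd.neg_pow, LinearMap.pow_mulRight, LinearMap.pow_mulLeft] at h1
  have hpos : 1 ≤ p ^ r := Nat.one_le_pow _ _ hp.pos
  have h2 : ⁅A, X⁆ = -((LinearMap.mulRight ℤ A - LinearMap.mulLeft ℤ A : Module.End ℤ R) X) := by
    rw [Ring.lie_def, LinearMap.sub_apply, LinearMap.mulRight_apply, LinearMap.mulLeft_apply,
      neg_sub]
  rw [lb_cons, h0, h2, map_neg, ← Module.End.mul_apply, ← pow_succ, Nat.sub_add_cancel hpos, h1,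
    LinearMap.add_apply, LinearMap.neg_apply, LinearMap.mulRight_apply, LinearMap.mulLeft_apply,
    Ring.lie_def]
  noncomm_ring

theorem XX_pow (a : V) (k : ℕ) (φ : List V → F) (l : List V) :
    ((XX a : Module.End F (List V → F)) ^ k) φ l = φ (l ++ List.replicate k a) := by
  induction k generalizing l φ with
  | zero => simp
  | succ k ih =>
    rw [pow_succ', Module.End.mul_apply, XX_apply, ih, List.append_assoc, List.replicate_succ]
    rfl

theorem lb_head_pow (a : V) (k : ℕ) (L : List V) (φ : List V → F)
    (h : ∀ c ∈ L, ∀ w, φ (c :: w) = 0) :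
    lb ((XX a : Module.End F (List V → F)) ^ k) (L.map XX) φ [] = φ (List.replicate k a ++ L) := by
  have key : ∀ (L : List V) (φ : List V → F) (y : V) (l : List V),
      lb ((XX a : Module.End F (List V → F)) ^ k) (L.map XX) φ (y :: l) =
        lb ((XX a : Module.End F (List V → F)) ^ k) (L.map XX) (fun w => φ (y :: w)) l := by
    intro L
    induction L using List.reverseRecOn with
    | nil =>
      intro φ y l
      rw [List.map_nil, lb_nil, XX_pow, XX_pow]
      rfl
    | append_singleton L z ih =>
      intro φ y l
      rw [List.map_append, List.map_singleton, lb_concat, lie_XX, lie_XX, ih, List.cons_append, ih]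
      rfl
  induction L using List.reverseRecOn generalizing φ with
  | nil => rw [List.map_nil, lb_nil, XX_pow, List.append_nil, List.nil_append]
  | append_singleton L y ih =>
    rw [List.map_append, List.map_singleton, lb_concat, lie_XX, ih (XX y φ), List.nil_append, key]
    · have h1 : (fun w => φ (y :: w)) = 0 := by
        funext w
        exact h y (by simp) w
      rw [h1, map_zero, Pi.zero_apply, sub_zero, XX_apply, List.append_assoc]
    · intro c hc w
      exact h c (by simp [hc]) (w ++ [y])

/-- The bracket formula in terms of lists. -/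
theorem lComm_XX (n : ℕ) (x : Fin (n + 1) → V) :
    lComm n (fun i => (XX (x i) : Module.End F (List V → F))) =
      lb (XX (x 0)) ((List.ofFn fun i : Fin n => x i.succ).map XX) := by
  rw [lComm_eq_lb, List.map_ofFn]
  rfl

theorem lComm_vanish (n : ℕ) (x : Fin (n + 1) → V) (φ : List V → F) (l : List V)
    (h : ∀ w : List V, w.Perm (List.ofFn x) → φ (l ++ w) = 0) :
    lComm n (fun i => (XX (x i) : Module.End F (List V → F))) φ l = 0 := by
  rw [lComm_XX]
  apply lb_vanish
  intro w hw
  apply h
  rw [List.ofFn_succ]
  exact hw

theorem lComm_vanish_length (n : ℕ) (x : Fin (n + 1) → V) (φ : List V → F) (l : List V)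
    (h : ∀ w : List V, w.length = n + 1 → φ (l ++ w) = 0) :
    lComm n (fun i => (XX (x i) : Module.End F (List V → F))) φ l = 0 := by
  refine lComm_vanish n x φ l fun w hw => h w ?_
  rw [hw.length_eq, List.length_ofFn]

/-! ### Change of letters -/

/-- The operator `(pull s φ) (l) = φ (l.map s)`. -/
def pull {V' : Type*} (s : V → V') : (List V' → F) →ₗ[F] (List V → F) where
  toFun φ := fun l => φ (l.map s)
  map_add' _ _ := rfl
  map_smul' _ _ := rfl

theorem pull_apply {V' : Type*} (s : V → V') (φ : List V' → F) (l : List V) :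
    pull s φ l = φ (l.map s) := rfl

theorem XX_pull {V' : Type*} (s : V → V') (φ : List V' → F) (x : V) :
    XX x (pull s φ) = pull s (XX (s x) φ) := by
  funext l
  simp [XX_apply, pull_apply]

theorem lComm_pull {V' : Type*} (s : V → V') (n : ℕ) (x : Fin (n + 1) → V) (φ : List V' → F) :
    lComm n (fun i => (XX (x i) : Module.End F (List V → F))) (pull s φ) =
      pull s (lComm n (fun i => (XX (s (x i)) : Module.End F (List V' → F))) φ) := by
  induction n generalizing φ with
  | zero => exact XX_pull s φ (x 0)
  | succ n ih =>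
    simp only [lComm]
    rw [Ring.lie_def, Ring.lie_def, LinearMap.sub_apply, LinearMap.sub_apply,
      Module.End.mul_apply, Module.End.mul_apply, Module.End.mul_apply, Module.End.mul_apply,
      XX_pull, ih, ih, XX_pull, map_sub]

end

end Pool.Agent.Work.MP_369e59_al
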