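import Pool.Agent.Work.MP_369e59_al.TwMod

/-!
# The laws of the group
-/

namespace Pool.Agent.Work.MP_369e59_al

open scoped commutatorElement

attribute [local instance 100] LieRing.ofAssociativeRing

variable {F : Type*} [CommRing F] {Ω : Type*} [CommGroup Ω] {V : Type*} [AddCommGroup V]
  [DistribMulAction Ω V]

open Sys (zt)

theorem natCast_end {p : ℕ} (hp : (p : F) = 0) (t : Twist Ω) (m : ℕ) :
    ((p : ℕ) : Module.End F (Fn F V t m)) = 0 := by
  apply LinearMap.ext
  intro φ
  rw [← nsmul_one, LinearMap.smul_apply, LinearMap.zero_apply, Module.End.one_apply,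
    ← Nat.cast_smul_eq_nsmul F, hp, zero_smul]

theorem inVO_Grp {p : ℕ} (hp : (p : F) = 0) (t : Twist Ω) (m : ℕ) :
    InVO (WW t p m) (sysF F V t m).Grp := by
  refine (sysF F V t m).inVO t p m rfl (natCast_end hp t m) ?_
  intro i j k l hij hkl hik hil hjk hjl y
  exact (isMA_br (sysF F V t m) t m).polar hij hkl hik hil hjk hjl
    (fun x h1 h2 => br_eq_zero t m hij hkl hik hil hjk hjl x h1 h2) y

theorem finite_Fn [Finite F] [Finite V] (t : Twist Ω) (m : ℕ) : Finite (Fn F V t m) := by
  have h0 : Finite {l : List V // l.length ≤ m + 1} := List.finite_length_le V (m + 1)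
  refine Finite.of_injective
    (fun (φ : Fn F V t m) (l : {l : List V // l.length ≤ m + 1}) => (φ : List V → F) l) ?_
  intro φ ψ h
  apply Subtype.ext
  funext l
  by_cases hl : l.length ≤ m + 1
  · exact congrFun h ⟨l, hl⟩
  · rw [φ.2.2.1 l (by omega), ψ.2.2.1 l (by omega)]

theorem locNilp_Grp {p : ℕ} [hp : Fact p.Prime] [Finite Ω] [Finite V] (hΩ : IsPGroup p Ω)
    (t : Twist Ω) (m : ℕ) : LocNilp ((sysF (ZMod p) V t m).Grp
      ⋊[MulDistribMulAction.toMulAut Ω (sysF (ZMod p) V t m).Grp] Ω) := by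
  have h1 : Finite (Fn (ZMod p) V t m) := finite_Fn t m
  have h2 : Finite (Module.End (ZMod p) (Fn (ZMod p) V t m)) :=
    Finite.of_injective (fun T φ => T φ) (fun T T' h => LinearMap.ext (congrFun h))
  exact Sys.locNilp _ (p := p) (natCast_end (ZMod.natCast_self p) t m) hΩ

end Pool.Agent.Work.MP_369e59_al
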