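import Pool.Agent.Work.MP_369e59_al.TwSys
import Pool.Agent.Work.MP_369e59_al.TwFun

/-!
# The module of functions and its group of automorphisms
-/

namespace Pool.Agent.Work.MP_369e59_al

open scoped commutatorElement

attribute [local instance 100] LieRing.ofAssociativeRing

/-! ### Polarization -/

section polar

variable {L L' : Type*} [AddCommGroup L] [AddCommGroup L']

theorem IsMA.comp_perm {N : ℕ} {T : (Fin N → L) → L'} (hT : IsMA T) (σ : Equiv.Perm (Fin N)) :
    IsMA (fun x => T (x ∘ σ)) := by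
  intro a i x y
  have e : ∀ z : L, Function.update a i z ∘ σ = Function.update (a ∘ σ) (σ.symm i) z := by
    intro z; funext k
    by_cases h : σ k = i
    · subst h; simp
    · rw [Function.comp_apply, Function.update_of_ne h, Function.update_of_ne]
      · rfl
      · intro h'; subst h'; exact h (by simp)
  simp only [e]
  exact hT _ _ _ _

theorem IsMA.add {N : ℕ} {T T' : (Fin N → L) → L'} (hT : IsMA T) (hT' : IsMA T') :
    IsMA (fun x => T x + T' x) := by
  intro a i x y
  simp only [hT a i x y, hT' a i x y]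
  abel

theorem IsMA.sub {N : ℕ} {T T' : (Fin N → L) → L'} (hT : IsMA T) (hT' : IsMA T') :
    IsMA (fun x => T x - T' x) := by
  intro a i x y
  simp only [hT a i x y, hT' a i x y]
  abel

theorem IsMA.comp_add {M : Type*} [AddCommGroup M] {N : ℕ} {T : (Fin N → L) → L'} (hT : IsMA T)
    (g : Fin N → M → L) (hg : ∀ i x y, g i (x + y) = g i x + g i y) :
    IsMA (fun x : Fin N → M => T (fun i => g i (x i))) := by
  intro a i x y
  have e : ∀ z : M, (fun k => g k (Function.update a i z k)) =
      Function.update (fun k => g k (a k)) i (g i z) := by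
    intro z; funext k
    by_cases h : k = i
    · subst h; simp
    · rw [Function.update_of_ne h, Function.update_of_ne h]
  simp only [e, hg]
  exact hT _ _ _ _

theorem IsMA.swap_add {N : ℕ} {T : (Fin N → L) → L'} (hT : IsMA T) {i j : Fin N} (hij : i ≠ j)
    (x : Fin N → L) : T x + T (x ∘ Equiv.swap i j) =
      T (Function.update (Function.update x i (x i + x j)) j (x i + x j)) -
        T (Function.update (Function.update x i (x i)) j (x i)) -
        T (Function.update (Function.update x i (x j)) j (x j)) := by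
  have h1 : ∀ a b c : L, T (Function.update (Function.update x i (a + b)) j c) =
      T (Function.update (Function.update x i a) j c) +
        T (Function.update (Function.update x i b) j c) := by
    intro a b c
    rw [Function.update_comm hij, Function.update_comm hij, Function.update_comm hij, hT]
  have h2 : ∀ a b c : L, T (Function.update (Function.update x i c) j (a + b)) =
      T (Function.update (Function.update x i c) j a) +
        T (Function.update (Function.update x i c) j b) := by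
    intro a b c
    rw [hT]
  have h3 : Function.update (Function.update x i (x i)) j (x j) = x := by
    rw [Function.update_eq_self, Function.update_eq_self]
  have h4 : Function.update (Function.update x i (x j)) j (x i) = x ∘ Equiv.swap i j := by
    funext k
    by_cases hk : k = j
    · subst hk; simp
    · rw [Function.update_of_ne hk]
      by_cases hk' : k = i
      · subst hk'; simp
      · rw [Function.update_of_ne hk', Function.comp_apply, Equiv.swap_apply_of_ne_of_ne hk' hk]
  rw [h1, h2, h2, h3, h4]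
  abel

theorem IsMA.polar {N : ℕ} {T : (Fin N → L) → L'} (hT : IsMA T) {i j k l : Fin N}
    (hij : i ≠ j) (hkl : k ≠ l) (hik : i ≠ k) (hil : i ≠ l) (hjk : j ≠ k) (hjl : j ≠ l)
    (h : ∀ x : Fin N → L, x i = x j → x k = x l → T x = 0) (x : Fin N → L) :
    T x + T (x ∘ Equiv.swap i j) + T (x ∘ Equiv.swap k l) +
      T (x ∘ ⇑(Equiv.swap i j * Equiv.swap k l : Equiv.Perm (Fin N))) = 0 := by
  have h1 : ∀ y : Fin N → L, y i = y j → T y + T (y ∘ Equiv.swap k l) = 0 := by
    intro y hy
    rw [hT.swap_add hkl]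
    have h2 : ∀ a : L, T (Function.update (Function.update y k a) l a) = 0 := by
      intro a
      apply h
      · rw [Function.update_of_ne hil, Function.update_of_ne hik, Function.update_of_ne hjl,
          Function.update_of_ne hjk, hy]
      · rw [Function.update_of_ne hkl, Function.update_self, Function.update_self]
    rw [h2, h2, h2, sub_zero, sub_zero]
  have hP : IsMA (fun y => T y + T (y ∘ Equiv.swap k l)) := hT.add (hT.comp_perm _)
  have h3 := hP.swap_add hij x
  have h4 : ∀ a : L, T (Function.update (Function.update x i a) j a) +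
      T (Function.update (Function.update x i a) j a ∘ Equiv.swap k l) = 0 := by
    intro a
    apply h1
    rw [Function.update_of_ne hij, Function.update_self, Function.update_self]
  rw [h4, h4, h4, sub_zero, sub_zero] at h3
  rw [← h3]
  have h5 : x ∘ ⇑(Equiv.swap i j * Equiv.swap k l : Equiv.Perm (Fin N)) =
    (x ∘ Equiv.swap i j) ∘ Equiv.swap k l := rfl
  rw [h5]
  abel

end polar

section

variable {F : Type*} [CommRing F] {Ω : Type*} [CommGroup Ω] {V : Type*} [AddCommGroup V]
  [DistribMulAction Ω V]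

open Sys (zt)

theorem zt_add (t : Ω) (x y : V) : zt t (x + y) = zt t x + zt t y := by
  unfold Sys.zt
  rw [smul_add]; abel

theorem zt_iter_add (t : Ω) (i : ℕ) (x y : V) :
    (zt t)^[i] (x + y) = (zt t)^[i] x + (zt t)^[i] y := by
  induction i with
  | zero => rfl
  | succ i ih => rw [Function.iterate_succ_apply', Function.iterate_succ_apply',
      Function.iterate_succ_apply', ih, zt_add]

theorem zt_smul (t ω : Ω) (x : V) : zt t (ω • x) = ω • zt t x := by
  unfold Sys.zt
  rw [smul_sub, smul_smul, smul_smul, mul_comm]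

theorem zt_iter_smul (t ω : Ω) (i : ℕ) (x : V) : (zt t)^[i] (ω • x) = ω • (zt t)^[i] x := by
  induction i with
  | zero => rfl
  | succ i ih => rw [Function.iterate_succ_apply', Function.iterate_succ_apply', ih, zt_smul]

/-- The twisted arguments. -/
def tw (T : Twist Ω) {m : ℕ} (x : Fin (m + 1) → V) (i : Fin (m + 1)) : V :=
  (zt T.t)^[T.e i] (x i)

/-- The value at the empty list of the left-normed bracket. -/
def Lv (m : ℕ) (x : Fin (m + 1) → V) (φ : List V → F) : F :=
  lComm m (fun i => (XX (x i) : Module.End F (List V → F))) φ []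

omit [AddCommGroup V] in
theorem Lv_add (m : ℕ) (x : Fin (m + 1) → V) (φ ψ : List V → F) :
    Lv m x (φ + ψ) = Lv m x φ + Lv m x ψ := by
  unfold Lv
  rw [map_add, Pi.add_apply]

omit [AddCommGroup V] in
theorem Lv_smul (m : ℕ) (x : Fin (m + 1) → V) (r : F) (φ : List V → F) :
    Lv m x (r • φ) = r • Lv m x φ := by
  unfold Lv
  rw [map_smul, Pi.smul_apply]

omit [AddCommGroup V] in
theorem Lv_zero (m : ℕ) (x : Fin (m + 1) → V) : Lv m x (0 : List V → F) = 0 := by
  unfold Lv
  rw [map_zero]
  rfl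

omit [AddCommGroup V] in
theorem Lv_XX_eq_zero (m : ℕ) (x : Fin (m + 1) → V) (v : V) (φ : List V → F)
    (h : ∀ l : List V, m + 2 ≤ l.length → φ l = 0) : Lv m x (XX v φ) = 0 := by
  apply lComm_vanish_length
  intro w hw
  rw [XX_apply]
  apply h
  simp [hw]

omit [AddCommGroup V] in
theorem Lv_head (m : ℕ) (x : Fin (m + 1) → V) (φ : List V → F)
    (h : ∀ (i : Fin m) (w : List V), φ (x i.succ :: w) = 0) : Lv m x φ = φ (List.ofFn x) := by
  unfold Lv
  rw [lComm_XX, lb_head, List.ofFn_succ]
  intro c hc w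
  rw [List.mem_ofFn] at hc
  obtain ⟨i, rfl⟩ := hc
  exact h i w

omit [AddCommGroup V] in
theorem Lv_head_alt (m : ℕ) (hm : 2 ≤ m) (x : Fin (m + 1) → V) (α : V → F) (D : List V → F)
    (hD : IsAlt D) (h1 : ∀ i : Fin (m + 1), (i : ℕ) = 1 → α (x i) = 0)
    (h2 : ∀ i : Fin (m + 1), (i : ℕ) = 2 → α (x i) = 0)
    (φ : List V → F) (hφ : ∀ a l, φ (a :: l) = α a * D l) : Lv m x φ = φ (List.ofFn x) := by
  obtain ⟨k, rfl⟩ : ∃ k, m = k + 2 := ⟨m - 2, by omega⟩
  unfold Lv
  have e1 : (List.ofFn fun i : Fin (k + 2) => x i.succ) =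
      x (Fin.succ 0) :: x (Fin.succ (Fin.succ 0)) ::
        List.ofFn (fun i : Fin k => x i.succ.succ.succ) := by
    rw [List.ofFn_succ, List.ofFn_succ]
  have e2 : List.ofFn x = x 0 :: x (Fin.succ 0) :: x (Fin.succ (Fin.succ 0)) ::
        List.ofFn (fun i : Fin k => x i.succ.succ.succ) := by
    rw [List.ofFn_succ, e1]
  rw [lComm_XX, e1, e2]
  exact lb_head_alt _ _ _ _ α D hD (h1 _ rfl) (h2 _ rfl) φ hφ

omit [AddCommGroup V] in
theorem Lv_sub (m : ℕ) (x : Fin (m + 1) → V) (φ ψ : List V → F) :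
    Lv m x (φ - ψ) = Lv m x φ - Lv m x ψ := by
  unfold Lv
  rw [map_sub, Pi.sub_apply]

omit [AddCommGroup V] in
theorem Lv_sum {ι : Type*} (s : Finset ι) (m : ℕ) (x : Fin (m + 1) → V) (φ : ι → List V → F) :
    Lv m x (∑ i ∈ s, φ i) = ∑ i ∈ s, Lv m x (φ i) := by
  unfold Lv
  rw [map_sum, Finset.sum_apply]

/-- The value at the empty list of the twisted left-normed bracket. -/
def Dl (T : Twist Ω) (m : ℕ) (x : Fin (m + 1) → V) (φ : List V → F) : F :=
  Lv m x φ - ∑ ρ : Equiv.Perm (Fin (m + 1)), T.ε m ρ • Lv m (tw T (x ∘ ρ)) φ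

theorem Dl_add (T : Twist Ω) (m : ℕ) (x : Fin (m + 1) → V) (φ ψ : List V → F) :
    Dl T m x (φ + ψ) = Dl T m x φ + Dl T m x ψ := by
  unfold Dl
  simp only [Lv_add, smul_add, Finset.sum_add_distrib]
  abel

theorem Dl_smul (T : Twist Ω) (m : ℕ) (x : Fin (m + 1) → V) (r : F) (φ : List V → F) :
    Dl T m x (r • φ) = r • Dl T m x φ := by
  unfold Dl
  simp only [Lv_smul]
  rw [smul_sub, Finset.smul_sum]
  congr 1
  refine Finset.sum_congr rfl fun ρ _ => ?_
  rw [smul_comm]

theorem Dl_zero (T : Twist Ω) (m : ℕ) (x : Fin (m + 1) → V) :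
    Dl T m x (0 : List V → F) = 0 := by
  unfold Dl
  simp [Lv_zero]

theorem Dl_XX (T : Twist Ω) (m : ℕ) (x : Fin (m + 1) → V) (v : V) (φ : List V → F)
    (h : ∀ l : List V, m + 2 ≤ l.length → φ l = 0) : Dl T m x (XX v φ) = 0 := by
  unfold Dl
  rw [Lv_XX_eq_zero m x v φ h, Finset.sum_eq_zero, sub_zero]
  intro ρ _
  rw [Lv_XX_eq_zero m _ v φ h, smul_zero]

/-- Additivity in each position. -/
def IsAd (φ : List V → F) : Prop := ∀ (l₁ l₂ : List V) (x y : V),
  φ (l₁ ++ (x + y) :: l₂) = φ (l₁ ++ x :: l₂) + φ (l₁ ++ y :: l₂)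

variable (F V) in
/-- The module of functions. -/
def Fn (T : Twist Ω) (m : ℕ) : Submodule F (List V → F) where
  carrier := {φ | IsAd φ ∧ (∀ l : List V, m + 2 ≤ l.length → φ l = 0) ∧
    ∀ (x : Fin (m + 1) → V) (i j k l : Fin (m + 1)), i ≠ j → k ≠ l → i ≠ k → i ≠ l → j ≠ k →
      j ≠ l → x i = x j → x k = x l → Dl T m x φ = 0}
  zero_mem' :=
    ⟨fun l₁ l₂ x y => by simp, fun l _ => rfl, fun x i j k l _ _ _ _ _ _ _ _ => Dl_zero T m x⟩
  add_mem' := by
    rintro φ ψ ⟨h1, h2, h3⟩ ⟨h1', h2', h3'⟩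
    refine ⟨fun l₁ l₂ x y => ?_, fun l hl => ?_, fun x i j k l a b c d e f g h => ?_⟩
    · rw [Pi.add_apply, Pi.add_apply, Pi.add_apply, h1, h1']; ring
    · rw [Pi.add_apply, h2 l hl, h2' l hl, add_zero]
    · rw [Dl_add, h3 x i j k l a b c d e f g h, h3' x i j k l a b c d e f g h, add_zero]
  smul_mem' := by
    rintro r φ ⟨h1, h2, h3⟩
    refine ⟨fun l₁ l₂ x y => ?_, fun l hl => ?_, fun x i j k l a b c d e f g h => ?_⟩
    · rw [Pi.smul_apply, Pi.smul_apply, Pi.smul_apply, h1, smul_add]
    · rw [Pi.smul_apply, h2 l hl, smul_zero]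
    · rw [Dl_smul, h3 x i j k l a b c d e f g h, smul_zero]

theorem XX_mem_Fn {t : Twist Ω} {m : ℕ} (x : V) (φ : List V → F) (h : φ ∈ Fn F V t m) :
    XX x φ ∈ Fn F V t m := by
  obtain ⟨h1, h2, h3⟩ := h
  refine ⟨fun l₁ l₂ y y' => ?_, fun l hl => ?_, fun y i j k l _ _ _ _ _ _ _ _ => ?_⟩
  · rw [XX_apply, XX_apply, XX_apply, List.append_assoc, List.append_assoc, List.append_assoc,
      List.cons_append, List.cons_append, List.cons_append]
    exact h1 _ _ _ _
  · rw [XX_apply]
    apply h2
    rw [List.length_append]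
    omega
  · exact Dl_XX t m y x φ h2

variable (F V) in
/-- The operators on the module. -/
def Xr (t : Twist Ω) (m : ℕ) : V →+ Module.End F (Fn F V t m) where
  toFun x := (XX x).restrict (fun φ h => XX_mem_Fn x φ h)
  map_zero' := by
    apply LinearMap.ext
    intro φ
    apply Subtype.ext
    funext l
    have h1 := φ.2.1 l [] 0 0
    rw [add_zero] at h1
    exact left_eq_add.1 h1
  map_add' x y := by
    apply LinearMap.ext
    intro φ
    apply Subtype.ext
    funext l
    exact φ.2.1 l [] x y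

theorem coe_Xr (t : Twist Ω) (m : ℕ) (x : V) (φ : Fn F V t m) :
    ((Xr F V t m x φ : Fn F V t m) : List V → F) = XX x (φ : List V → F) := rfl

theorem coe_lComm_Xr (t : Twist Ω) (m n : ℕ) (x : Fin (n + 1) → V) (φ : Fn F V t m) :
    ((lComm n (fun i => Xr F V t m (x i)) φ : Fn F V t m) : List V → F) =
      lComm n (fun i => (XX (x i) : Module.End F (List V → F))) (φ : List V → F) := by
  induction n generalizing φ with
  | zero => rfl
  | succ n ih =>
    simp only [lComm]
    rw [Ring.lie_def, Ring.lie_def, LinearMap.sub_apply, LinearMap.sub_apply,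
      Module.End.mul_apply, Module.End.mul_apply, Module.End.mul_apply, Module.End.mul_apply,
      Submodule.coe_sub, ih, coe_Xr, coe_Xr, ih]

/-- Functions which vanish on the lists of length at least `k`. -/
def Fl (φ : List V → F) (k : ℕ) : Prop := ∀ l : List V, k ≤ l.length → φ l = 0

variable (F V) in
/-- The filtration. -/
def EE (t : Twist Ω) (m i : ℕ) : AddSubgroup (Module.End F (Fn F V t m)) where
  carrier := {T | ∀ (k : ℕ) (φ : Fn F V t m), Fl (φ : List V → F) (k + i) →
    Fl ((T φ : Fn F V t m) : List V → F) k}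
  zero_mem' := fun k φ _ l _ => rfl
  add_mem' := by
    intro T T' h h' k φ hφ l hl
    have h1 := h k φ hφ l hl
    have h2 := h' k φ hφ l hl
    rw [LinearMap.add_apply, Submodule.coe_add, Pi.add_apply, h1, h2, add_zero]
  neg_mem' := by
    intro T h k φ hφ l hl
    have h1 := h k φ hφ l hl
    rw [LinearMap.neg_apply, Submodule.coe_neg, Pi.neg_apply, h1, neg_zero]

omit [AddCommGroup V] in
theorem Fl.mono {φ : List V → F} {k k' : ℕ} (h : Fl φ k) (hk : k ≤ k') : Fl φ k' :=
  fun l hl => h l (hk.trans hl)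

theorem rfilt_EE (t : Twist Ω) (m : ℕ) : RFilt (EE F V t m) (m + 2) where
  mul_mem := by
    intro i j T T' h h' k φ hφ
    rw [Module.End.mul_apply]
    refine h k _ (h' (k + i) φ (hφ.mono ?_))
    omega
  anti := by
    intro i T h k φ hφ
    exact h k φ (hφ.mono (by omega))
  one_mem := by
    intro k φ hφ
    exact hφ.mono (by omega)
  bot := by
    intro T h
    apply LinearMap.ext
    intro φ
    apply Subtype.ext
    funext l
    exact h 0 φ (fun l hl => φ.2.2.1 l (by omega)) l (Nat.zero_le _)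

theorem Xr_mem (t : Twist Ω) (m : ℕ) (x : V) : Xr F V t m x ∈ EE F V t m 1 := by
  intro k φ hφ l hl
  rw [coe_Xr, XX_apply]
  apply hφ
  rw [List.length_append]
  simpa using hl

/-! ### Operators -/

theorem Lv_pull (ω : Ω) (m : ℕ) (x : Fin (m + 1) → V) (φ : List V → F) :
    Lv m x (pull (fun v => ω • v) φ) = Lv m (fun i => ω • x i) φ := by
  unfold Lv
  rw [lComm_pull, pull_apply, List.map_nil]

theorem Dl_pull (t : Twist Ω) (ω : Ω) (m : ℕ) (x : Fin (m + 1) → V) (φ : List V → F) :
    Dl t m x (pull (fun v => ω • v) φ) = Dl t m (fun i => ω • x i) φ := by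
  unfold Dl
  rw [Lv_pull]
  congr 1
  refine Finset.sum_congr rfl fun ρ _ => ?_
  rw [Lv_pull]
  congr 2
  funext i
  unfold tw
  rw [← zt_iter_smul]
  rfl

theorem pull_mem (t : Twist Ω) (ω : Ω) (m : ℕ) (φ : List V → F) (h : φ ∈ Fn F V t m) :
    pull (fun v => ω • v) φ ∈ Fn F V t m := by
  obtain ⟨h1, h2, h3⟩ := h
  refine ⟨fun l₁ l₂ y y' => ?_, fun l hl => ?_, fun y i j k l a b c d e f g h => ?_⟩
  · rw [pull_apply, pull_apply, pull_apply, List.map_append, List.map_append, List.map_append,
      List.map_cons, List.map_cons, List.map_cons, smul_add]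
    exact h1 _ _ _ _
  · rw [pull_apply]
    apply h2
    rwa [List.length_map]
  · rw [Dl_pull]
    exact h3 _ i j k l a b c d e f (by rw [g]) (by rw [h])

variable (F V) in
/-- The operator `ω` on the module. -/
def Om (t : Twist Ω) (m : ℕ) : Ω →* Module.End F (Fn F V t m) where
  toFun ω := (pull (fun v => ω⁻¹ • v)).restrict (fun φ h => pull_mem t ω⁻¹ m φ h)
  map_one' := by
    apply LinearMap.ext
    intro φ
    apply Subtype.ext
    funext l
    change (φ : List V → F) (l.map fun v => (1 : Ω)⁻¹ • v) = (φ : List V → F) l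
    simp
  map_mul' ω ω' := by
    apply LinearMap.ext
    intro φ
    apply Subtype.ext
    funext l
    change (φ : List V → F) (l.map fun v => (ω * ω')⁻¹ • v) =
      (φ : List V → F) ((l.map fun v => ω⁻¹ • v).map fun v => ω'⁻¹ • v)
    have h1 : (fun v : V => (ω * ω')⁻¹ • v) = (fun v => ω'⁻¹ • v) ∘ fun v => ω⁻¹ • v := by
      funext v
      rw [Function.comp_apply, smul_smul, mul_inv_rev]
    rw [List.map_map, h1]

theorem coe_Om (t : Twist Ω) (m : ℕ) (ω : Ω) (φ : Fn F V t m) (l : List V) :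
    ((Om F V t m ω φ : Fn F V t m) : List V → F) l = (φ : List V → F) (l.map fun v => ω⁻¹ • v) :=
  rfl

theorem Om_mem (t : Twist Ω) (m : ℕ) (ω : Ω) : Om F V t m ω ∈ EE F V t m 0 := by
  intro k φ hφ l hl
  rw [coe_Om]
  apply hφ
  rw [List.length_map]
  simpa using hl

theorem Om_Xr (t : Twist Ω) (m : ℕ) (ω : Ω) (x : V) :
    Om F V t m ω * Xr F V t m x = Xr F V t m (ω • x) * Om F V t m ω := by
  apply LinearMap.ext
  intro φ
  apply Subtype.ext
  funext l
  rw [Module.End.mul_apply, Module.End.mul_apply, coe_Om, coe_Xr, coe_Xr, XX_apply, XX_apply,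
    coe_Om, List.map_append, List.map_singleton, inv_smul_smul]

variable (F V) in
/-- The system. -/
def sysF (t : Twist Ω) (m : ℕ) : Sys Ω V (Module.End F (Fn F V t m)) where
  E := EE F V t m
  N := m + 2
  hE := rfilt_EE t m
  X := Xr F V t m
  hX := Xr_mem t m
  O := (Om F V t m).toHomUnits
  hOX ω x := by
    have h1 : (((Om F V t m).toHomUnits ω : (Module.End F (Fn F V t m))ˣ) :
      Module.End F (Fn F V t m)) = Om F V t m ω := rfl
    have h2 : ((((Om F V t m).toHomUnits ω)⁻¹ : (Module.End F (Fn F V t m))ˣ) :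
      Module.End F (Fn F V t m)) = Om F V t m ω⁻¹ := rfl
    rw [h1, h2, Om_Xr, mul_assoc, ← map_mul, mul_inv_cancel, map_one, mul_one]
  hOE ω i a ha := by
    have h1 : (((Om F V t m).toHomUnits ω : (Module.End F (Fn F V t m))ˣ) :
      Module.End F (Fn F V t m)) = Om F V t m ω := rfl
    have h2 : ((((Om F V t m).toHomUnits ω)⁻¹ : (Module.End F (Fn F V t m))ˣ) :
      Module.End F (Fn F V t m)) = Om F V t m ω⁻¹ := rfl
    rw [h1, h2]
    have h3 := (rfilt_EE (F := F) (V := V) t m).mul_mem
      ((rfilt_EE (F := F) (V := V) t m).mul_mem (Om_mem t m ω) ha) (Om_mem t m ω⁻¹)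
    simpa using h3

/-! ### The laws -/

theorem IsMA.sum {L L' ι : Type*} [AddCommGroup L] [AddCommGroup L'] [Fintype ι] {N : ℕ}
    {B : ι → (Fin N → L) → L'} (h : ∀ i, IsMA (B i)) : IsMA (fun x => ∑ i, B i x) := by
  intro a i x y
  rw [← Finset.sum_add_distrib]
  exact Finset.sum_congr rfl fun k _ => h k a i x y

theorem IsMA.zsmul {L L' : Type*} [AddCommGroup L] [AddCommGroup L'] {N : ℕ}
    {B : (Fin N → L) → L'} (h : IsMA B) (k : ℤ) : IsMA (fun x => k • B x) := by
  intro a i x y
  rw [← smul_add]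
  exact congrArg (k • ·) (h a i x y)

theorem isMA_br {R : Type*} [Ring R] (S : Sys Ω V R) (T : Twist Ω) (m : ℕ) :
    IsMA (fun x : Fin (m + 1) → V => S.br T m x) := by
  unfold Sys.br
  refine IsMA.sub ?_ (IsMA.sum fun ρ => IsMA.zsmul ?_ _)
  · exact (isMA_lComm m).comp_add (fun _ => S.X) (fun i x y => map_add _ _ _)
  · exact ((isMA_lComm m).comp_add (fun i v => S.X ((zt T.t)^[T.e i] v))
      (fun i x y => by rw [zt_iter_add, map_add])).comp_perm ρ

variable (F V) in
/-- The evaluation at the empty list. -/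
def evE (t : Twist Ω) (m : ℕ) (φ : Fn F V t m) : Module.End F (Fn F V t m) →+ F where
  toFun A := ((A φ : Fn F V t m) : List V → F) []
  map_zero' := rfl
  map_add' _ _ := rfl

theorem evE_lComm (t : Twist Ω) (m : ℕ) (φ : Fn F V t m) (x : Fin (m + 1) → V) :
    evE F V t m φ (lComm m (fun i => (sysF F V t m).X (x i))) = Lv m x (φ : List V → F) :=
  congrFun (coe_lComm_Xr t m m x φ) []

theorem evE_br (t : Twist Ω) (m : ℕ) (φ : Fn F V t m) (x : Fin (m + 1) → V) :
    evE F V t m φ ((sysF F V t m).br t m x) = Dl t m x (φ : List V → F) := by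
  unfold Sys.br Dl
  rw [map_sub, map_sum, evE_lComm]
  congr 1
  refine Finset.sum_congr rfl fun ρ _ => ?_
  rw [map_zsmul]
  congr 1
  exact evE_lComm t m φ (tw t (x ∘ ρ))

theorem br_eq_zero (t : Twist Ω) (m : ℕ) {i j k l : Fin (m + 1)}
    (hij : i ≠ j) (hkl : k ≠ l) (hik : i ≠ k) (hil : i ≠ l) (hjk : j ≠ k) (hjl : j ≠ l)
    (x : Fin (m + 1) → V) (h1 : x i = x j) (h2 : x k = x l) : (sysF F V t m).br t m x = 0 := by
  have h3 : (sysF F V t m).br t m x ∈ EE F V t m (m + 1) := (sysF F V t m).br_mem t m x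
  apply LinearMap.ext
  intro φ
  apply Subtype.ext
  funext w
  rcases w with _ | ⟨a, w⟩
  · have h4 := φ.2.2.2 x i j k l hij hkl hik hil hjk hjl h1 h2
    rw [← evE_br] at h4
    exact h4
  · refine h3 1 φ (fun l hl => φ.2.2.1 l (by omega)) _ ?_
    simp

end

end Pool.Agent.Work.MP_369e59_al
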