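import Pool.Agent.Work.MP_369e59_al.TwExp

/-!
# The distinguished function
-/

namespace Pool.Agent.Work.MP_369e59_al

open scoped commutatorElement

attribute [local instance 100] LieRing.ofAssociativeRing

variable {F : Type*} [CommRing F] {Ω : Type*} [CommGroup Ω] {V : Type*} [AddCommGroup V]
  [DistribMulAction Ω V]

open Sys (zt)

/-- The functionals which define the distinguished function. -/
structure Fnl (F : Type*) [CommRing F] {Ω : Type*} [CommGroup Ω] (V : Type*) [AddCommGroup V]
    [DistribMulAction Ω V] (T : Twist Ω) (m : ℕ) where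
  /-- the functional `α` -/
  α : V →+ F
  /-- the functionals `η r` -/
  η : Fin m → V →+ F
  hα : ∀ v, α (zt T.t v) = 0
  hη : ∀ (r : Fin m) (E : ℕ) (v : V), T.e (r + 1) < E → η r ((zt T.t)^[E] v) = 0

namespace Fnl

variable {T : Twist Ω} {m : ℕ} (D : Fnl F V T m)

/-- The determinant. -/
def dt (E : ℕ → ℕ) (l : List V) : F :=
  Matrix.det (Matrix.of fun r j : Fin m => D.η r ((zt T.t)^[E j] (l.getD j 0)))

/-- The basic functions. -/
def PE (E : ℕ → ℕ) : List V → F
  | [] => 0
  | a :: l => if l.length = m then D.α a * D.dt E l else 0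

omit [DistribMulAction Ω V] in
theorem getD_mid (l₁ l₂ : List V) (v : V) (j : ℕ) :
    (l₁ ++ v :: l₂).getD j 0 = if j = l₁.length then v else (l₁ ++ 0 :: l₂).getD j 0 := by
  by_cases h : j = l₁.length
  · rw [if_pos h, h, List.getD_append_right _ _ _ _ le_rfl]
    simp
  · rw [if_neg h]
    rcases lt_or_gt_of_ne h with h1 | h1
    · rw [List.getD_append _ _ _ _ h1, List.getD_append _ _ _ _ h1]
    · rw [List.getD_append_right _ _ _ _ h1.le, List.getD_append_right _ _ _ _ h1.le]
      obtain ⟨k, hk⟩ : ∃ k, j - l₁.length = k + 1 := ⟨j - l₁.length - 1, by omega⟩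
      rw [hk, List.getD_cons_succ, List.getD_cons_succ]

theorem dt_add (E : ℕ → ℕ) (l₁ l₂ : List V) (x y : V) (h : l₁.length < m) :
    D.dt E (l₁ ++ (x + y) :: l₂) = D.dt E (l₁ ++ x :: l₂) + D.dt E (l₁ ++ y :: l₂) := by
  have h1 : ∀ v : V,
      (Matrix.of fun r j : Fin m => D.η r ((zt T.t)^[E j] ((l₁ ++ v :: l₂).getD j 0))) =
      Matrix.updateCol
        (Matrix.of fun r j : Fin m => D.η r ((zt T.t)^[E j] ((l₁ ++ 0 :: l₂).getD j 0)))
        ⟨l₁.length, h⟩ (fun r : Fin m => D.η r ((zt T.t)^[E l₁.length] v)) := by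
    intro v
    ext r j
    rw [Matrix.of_apply, getD_mid, Matrix.updateCol_apply, Matrix.of_apply]
    by_cases hj : (j : ℕ) = l₁.length
    · rw [if_pos hj, if_pos (Fin.ext hj), hj]
    · rw [if_neg hj, if_neg (fun h' => hj (congrArg Fin.val h'))]
  unfold dt
  rw [h1 (x + y), h1 x, h1 y, ← Matrix.det_updateCol_add]
  congr 2
  funext r
  rw [zt_iter_add, map_add]
  rfl

theorem isAd_PE (E : ℕ → ℕ) : IsAd (D.PE E) := by
  intro l₁ l₂ x y
  rcases l₁ with _ | ⟨a, l₁⟩
  · simp only [List.nil_append, PE]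
    by_cases h : l₂.length = m
    · rw [if_pos h, if_pos h, if_pos h, map_add, add_mul]
    · rw [if_neg h, if_neg h, if_neg h, add_zero]
  · simp only [List.cons_append, PE, List.length_append, List.length_cons]
    by_cases h : l₁.length + (l₂.length + 1) = m
    · rw [if_pos h, if_pos h, if_pos h, D.dt_add E l₁ l₂ x y (by omega), mul_add]
    · rw [if_neg h, if_neg h, if_neg h, add_zero]

theorem PE_length (E : ℕ → ℕ) (l : List V) (hl : m + 2 ≤ l.length) : D.PE E l = 0 := by
  rcases l with _ | ⟨a, l⟩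
  · rfl
  · simp only [PE]
    rw [List.length_cons] at hl
    rw [if_neg (by omega)]

theorem PE_head (E : ℕ → ℕ) (a : V) (ha : D.α a = 0) (l : List V) : D.PE E (a :: l) = 0 := by
  simp only [PE]
  rw [ha, zero_mul, ite_self]

/-- The exponents of the positions `1, ..., m`. -/
def ex (T : Twist Ω) (j : ℕ) : ℕ := T.e (j + 1)

/-- The distinguished function. -/
def Ps : List V → F := D.PE (fun _ => 0) + D.PE (ex T)

/-- The first part vanishes on repeated entries. -/
theorem PE_Lv_eq_zero (x : Fin (m + 1) → V) {i j k l : Fin (m + 1)} (hij : i ≠ j)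
    (hkl : k ≠ l) (hik : i ≠ k) (hil : i ≠ l) (hjk : j ≠ k) (hjl : j ≠ l) (h1 : x i = x j)
    (h2 : x k = x l) : Lv m x (D.PE (fun _ => 0)) = 0 := by
  have h3 := congrFun (lComm_pull (F := F) x m (fun i : Fin (m + 1) => i)
    (D.PE (fun _ => 0))) []
  rw [pull_apply, List.map_nil] at h3
  unfold Lv
  rw [← h3]
  apply lComm_vanish
  intro w hw
  rw [List.nil_append, pull_apply]
  have hnd : w.Nodup := hw.nodup_iff.2 (List.nodup_ofFn.2 Function.injective_id)
  have hmem : ∀ a, a ∈ w := fun a => hw.mem_iff.2 (by rw [List.mem_ofFn]; exact ⟨a, rfl⟩)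
  have hlen : w.length = m + 1 := by rw [hw.length_eq, List.length_ofFn]
  rcases w with _ | ⟨a, w⟩
  · simp at hlen
  · simp only [List.map_cons, PE]
    rw [List.length_cons] at hlen
    have hlen' : w.length = m := by omega
    rw [if_pos (by rw [List.length_map, hlen'])]
    have key : ∀ r s : Fin (m + 1), r ≠ s → a ≠ r → a ≠ s → x r = x s →
        D.dt (fun _ => 0) (w.map x) = 0 := by
      intro r s hrs har has hx
      have hr : r ∈ w := by
        have := hmem r
        rw [List.mem_cons] at this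
        exact this.resolve_left (Ne.symm har)
      have hs : s ∈ w := by
        have := hmem s
        rw [List.mem_cons] at this
        exact this.resolve_left (Ne.symm has)
      obtain ⟨ir, hir, er⟩ := List.mem_iff_getElem.1 hr
      obtain ⟨is, his, es⟩ := List.mem_iff_getElem.1 hs
      have hne : (⟨ir, by omega⟩ : Fin m) ≠ ⟨is, by omega⟩ := by
        intro h
        have h' : ir = is := congrArg Fin.val h
        subst h'
        exact hrs (er.symm.trans es)
      unfold dt
      refine Matrix.det_zero_of_column_eq hne ?_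
      intro q
      rw [Matrix.of_apply, Matrix.of_apply]
      congr 2
      rw [List.getD_eq_getElem _ _ (by rw [List.length_map]; exact hir),
        List.getD_eq_getElem _ _ (by rw [List.length_map]; exact his), List.getElem_map,
        List.getElem_map, er, es, hx]
    by_cases hai : a = i ∨ a = j
    · have hak : a ≠ k := by rcases hai with rfl | rfl <;> assumption
      have hal : a ≠ l := by rcases hai with rfl | rfl <;> assumption
      rw [key k l hkl hak hal h2, mul_zero]
    · rw [not_or] at hai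
      rw [key i j hij hai.1 hai.2 h1, mul_zero]

theorem PE_tw (he0 : T.e 0 = 0) (x : Fin (m + 1) → V) :
    D.PE (fun _ => 0) (List.ofFn (tw T x)) = D.PE (ex T) (List.ofFn x) := by
  rw [List.ofFn_succ, List.ofFn_succ]
  simp only [PE]
  rw [if_pos (List.length_ofFn), if_pos (List.length_ofFn)]
  have h1 : tw T x 0 = x 0 := by
    unfold tw
    rw [Fin.val_zero, he0]
    rfl
  have h2 : D.dt (fun _ => 0) (List.ofFn fun i : Fin m => tw T x i.succ) =
      D.dt (ex T) (List.ofFn fun i : Fin m => x i.succ) := by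
    unfold dt
    congr 1
    ext r j
    rw [Matrix.of_apply, Matrix.of_apply, List.getD_eq_getElem _ _ (by simp),
      List.getD_eq_getElem _ _ (by simp), List.getElem_ofFn, List.getElem_ofFn]
    rfl
  rw [h1, h2]

theorem α_iter (k : ℕ) (hk : 1 ≤ k) (v : V) : D.α ((zt T.t)^[k] v) = 0 := by
  obtain ⟨k, rfl⟩ : ∃ k', k = k' + 1 := ⟨k - 1, by omega⟩
  rw [Function.iterate_succ_apply', D.hα]

/-- The alternating part. -/
def dA (l : List V) : F := if l.length = m then D.dt (fun _ => 0) l else 0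

omit [DistribMulAction Ω V] in
theorem getD_swap (l₁ l₂ : List V) (x y : V) (j : ℕ) :
    (l₁ ++ x :: y :: l₂).getD j 0 = (l₁ ++ y :: x :: l₂).getD
      (Equiv.swap l₁.length (l₁.length + 1) j) 0 := by
  by_cases h1 : j = l₁.length
  · subst h1
    rw [Equiv.swap_apply_left, List.getD_append_right _ _ _ _ le_rfl,
      List.getD_append_right _ _ _ _ (by omega)]
    simp
  · by_cases h2 : j = l₁.length + 1
    · subst h2
      rw [Equiv.swap_apply_right, List.getD_append_right _ _ _ _ le_rfl,
        List.getD_append_right _ _ _ _ (by omega)]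
      simp
    · rw [Equiv.swap_apply_of_ne_of_ne h1 h2]
      rcases lt_or_ge j l₁.length with h3 | h3
      · rw [List.getD_append _ _ _ _ h3, List.getD_append _ _ _ _ h3]
      · rw [List.getD_append_right _ _ _ _ h3, List.getD_append_right _ _ _ _ h3]
        obtain ⟨k, hk⟩ : ∃ k, j - l₁.length = k + 1 + 1 := ⟨j - l₁.length - 2, by omega⟩
        rw [hk, List.getD_cons_succ, List.getD_cons_succ, List.getD_cons_succ,
          List.getD_cons_succ]

theorem isAlt_dA : IsAlt D.dA := by
  intro l₁ l₂ x y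
  unfold dA
  have hl : (l₁ ++ x :: y :: l₂).length = (l₁ ++ y :: x :: l₂).length := by simp
  by_cases h : (l₁ ++ x :: y :: l₂).length = m
  · rw [if_pos h, if_pos (hl ▸ h)]
    have hm : l₁.length + 1 < m := by
      rw [List.length_append, List.length_cons, List.length_cons] at h
      omega
    have h1 : (⟨l₁.length, by omega⟩ : Fin m) ≠ ⟨l₁.length + 1, hm⟩ := by
      intro h'
      have := congrArg Fin.val h'
      simp at this
    have h2 := Matrix.det_permute' (Equiv.swap (⟨l₁.length, by omega⟩ : Fin m)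
      ⟨l₁.length + 1, hm⟩) (Matrix.of fun r j : Fin m =>
        D.η r ((zt T.t)^[0] ((l₁ ++ y :: x :: l₂).getD j 0)))
    rw [Equiv.Perm.sign_swap h1] at h2
    unfold dt
    rw [← neg_one_mul]
    refine Eq.trans ?_ (h2.trans (by simp))
    congr 1
    ext r j
    rw [Matrix.of_apply, Matrix.submatrix_apply, Matrix.of_apply, getD_swap, id]
    congr 3
    rcases eq_or_ne j ⟨l₁.length, by omega⟩ with rfl | hj1
    · rw [Equiv.swap_apply_left, Equiv.swap_apply_left]
    · rcases eq_or_ne j ⟨l₁.length + 1, hm⟩ with rfl | hj2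
      · rw [Equiv.swap_apply_right, Equiv.swap_apply_right]
      · rw [Equiv.swap_apply_of_ne_of_ne hj1 hj2, Equiv.swap_apply_of_ne_of_ne
          (fun h' => hj1 (Fin.ext h')) (fun h' => hj2 (Fin.ext h'))]
  · rw [if_neg h, if_neg (hl ▸ h), neg_zero]

theorem Lv_tw (hm : 2 ≤ m) (he0 : T.e 0 = 0) (he1 : 1 ≤ T.e 1) (he2 : 1 ≤ T.e 2)
    (x : Fin (m + 1) → V) :
    Lv m (tw T x) (D.PE (fun _ => 0)) = D.PE (ex T) (List.ofFn x) := by
  rw [Lv_head_alt m hm (tw T x) D.α D.dA D.isAlt_dA, D.PE_tw he0]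
  · intro i hi
    unfold tw
    rw [hi]
    exact D.α_iter _ he1 _
  · intro i hi
    unfold tw
    rw [hi]
    exact D.α_iter _ he2 _
  · intro a l
    simp only [PE, dA]
    by_cases h : l.length = m
    · rw [if_pos h, if_pos h]
    · rw [if_neg h, if_neg h, mul_zero]

/-- The determinant vanishes if the sum of the exponents is too large. -/
theorem det_eq_zero (E : Fin m → ℕ) (v : Fin m → V) (h : ∑ r : Fin m, ex T r < ∑ j, E j) :
    Matrix.det (Matrix.of fun r j : Fin m => D.η r ((zt T.t)^[E j] (v j))) = 0 := by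
  rw [Matrix.det_apply]
  refine Finset.sum_eq_zero fun σ _ => ?_
  have h1 : ∃ j, ex T (σ j) < E j := by
    by_contra hcon
    push Not at hcon
    have h2 : ∑ j, E j ≤ ∑ j : Fin m, ex T (σ j) := Finset.sum_le_sum fun j _ => hcon j
    rw [Equiv.sum_comp σ (fun j : Fin m => ex T j)] at h2
    omega
  obtain ⟨j, hj⟩ := h1
  rw [Finset.prod_eq_zero (Finset.mem_univ j), smul_zero]
  rw [Matrix.of_apply]
  exact D.hη _ _ _ hj

theorem Lv_tw_ex (he0 : T.e 0 = 0) (he1 : 1 ≤ T.e 1) (hm : m ≠ 0) (x : Fin (m + 1) → V) :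
    Lv m (tw T x) (D.PE (ex T)) = 0 := by
  have h3 := congrFun (lComm_pull (F := F) (tw T x) m (fun i : Fin (m + 1) => i)
    (D.PE (ex T))) []
  rw [pull_apply, List.map_nil] at h3
  unfold Lv
  rw [← h3]
  apply lComm_vanish
  intro w hw
  obtain ⟨ρ, rfl⟩ := exists_perm_of_perm w hw
  rw [List.nil_append, pull_apply, List.map_ofFn, List.ofFn_succ]
  by_cases h0 : T.e (ρ 0) = 0
  · simp only [PE]
    rw [if_pos (List.length_ofFn)]
    have h1 : D.dt (ex T) (List.ofFn fun i : Fin m => (tw T x ∘ ρ) i.succ) = 0 := by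
      have h2 := D.det_eq_zero (fun j => ex T j + T.e (ρ j.succ)) (fun j => x (ρ j.succ)) ?_
      · unfold dt
        rw [← h2]
        congr 1
        ext r j
        rw [Matrix.of_apply, Matrix.of_apply, List.getD_eq_getElem _ _ (by simp),
          List.getElem_ofFn, Function.iterate_add_apply]
        rfl
      · rw [Finset.sum_add_distrib]
        have h4 : ∑ i : Fin (m + 1), T.e (ρ i) = ∑ i : Fin (m + 1), T.e i :=
          Equiv.sum_comp ρ (fun i : Fin (m + 1) => T.e i)
        rw [Fin.sum_univ_succ, Fin.sum_univ_succ, h0, Fin.val_zero, he0, zero_add, zero_add] at h4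
        rw [h4]
        have h5 : ∑ i : Fin m, T.e (i.succ : Fin (m + 1)) = ∑ r : Fin m, ex T r := rfl
        rw [h5]
        have h6 : ex T (⟨0, by omega⟩ : Fin m) ≤ ∑ r : Fin m, ex T r :=
          Finset.single_le_sum (f := fun r : Fin m => ex T r) (fun _ _ => Nat.zero_le _)
            (Finset.mem_univ _)
        have h7 : ex T (⟨0, by omega⟩ : Fin m) = T.e 1 := rfl
        omega
    rw [h1, mul_zero]
  · apply D.PE_head
    exact D.α_iter _ (by omega) _

variable (hm : 2 ≤ m) (he0 : T.e 0 = 0) (he1 : 1 ≤ T.e 1) (he2 : 1 ≤ T.e 2)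
  (hε : ∀ (x : Fin (m + 1) → V) (φ : List V → F),
    Lv m x φ = ∑ ρ : Equiv.Perm (Fin (m + 1)), T.ε m ρ • φ (List.ofFn (x ∘ ρ)))

include hm he0 he1 he2 hε

theorem Dl_Ps (x : Fin (m + 1) → V) : Dl T m x D.Ps = Lv m x (D.PE (fun _ => 0)) := by
  unfold Dl Ps
  rw [Lv_add, hε x (D.PE (ex T))]
  have h1 : ∀ ρ : Equiv.Perm (Fin (m + 1)),
      Lv m (tw T (x ∘ ρ)) (D.PE (fun _ => 0) + D.PE (ex T)) =
        D.PE (ex T) (List.ofFn (x ∘ ρ)) := by
    intro ρ
    rw [Lv_add, D.Lv_tw hm he0 he1 he2, D.Lv_tw_ex he0 he1 (by omega), add_zero]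
  simp only [h1]
  rw [add_sub_cancel_right]

theorem Ps_mem : D.Ps ∈ Fn F V T m := by
  refine ⟨?_, ?_, ?_⟩
  · intro l₁ l₂ x y
    unfold Ps
    rw [Pi.add_apply, Pi.add_apply, Pi.add_apply, D.isAd_PE, D.isAd_PE]
    ring
  · intro l hl
    unfold Ps
    rw [Pi.add_apply, D.PE_length _ l hl, D.PE_length _ l hl, add_zero]
  · intro x i j k l hij hkl hik hil hjk hjl h1 h2
    rw [D.Dl_Ps hm he0 he1 he2 hε]
    exact D.PE_Lv_eq_zero x hij hkl hik hil hjk hjl h1 h2

omit hm he0 he1 he2 hε in
/-- The value of the distinguished function at the distinguished word. -/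
theorem Ps_value (y : Fin (m + 1) → V) (h1 : D.α (y 0) = 1)
    (r₀ : Fin m) (h3 : ∀ j : Fin m, D.η r₀ (y j.succ) = 0)
    (h4 : ∀ r j : Fin m, D.η r ((zt T.t)^[T.e (j + 1)] (y j.succ)) = if r = j then 1 else 0) :
    D.Ps (List.ofFn y) = 1 := by
  unfold Ps
  rw [Pi.add_apply, List.ofFn_succ]
  simp only [PE]
  rw [if_pos (List.length_ofFn), if_pos (List.length_ofFn), h1, one_mul, one_mul]
  have e1 : D.dt (fun _ => 0) (List.ofFn fun i : Fin m => y i.succ) = 0 := by
    unfold dt
    refine Matrix.det_eq_zero_of_row_eq_zero r₀ fun j => ?_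
    rw [Matrix.of_apply, List.getD_eq_getElem _ _ (by simp), List.getElem_ofFn]
    exact h3 _
  have e2 : D.dt (ex T) (List.ofFn fun i : Fin m => y i.succ) = 1 := by
    unfold dt
    rw [← Matrix.det_one (n := Fin m) (R := F)]
    congr 1
    ext r j
    rw [Matrix.of_apply, List.getD_eq_getElem _ _ (by simp), List.getElem_ofFn,
      Matrix.one_apply]
    exact h4 r j
  rw [e1, e2, zero_add]

omit hm he0 he1 he2 hε in
theorem Ps_head (a : V) (ha : D.α a = 0) (l : List V) : D.Ps (a :: l) = 0 := by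
  unfold Ps
  rw [Pi.add_apply, D.PE_head _ _ ha, D.PE_head _ _ ha, add_zero]

end Fnl

theorem lb_append {L : Type*} [LieRing L] (y : L) (l l' : List L) :
    lb y (l ++ l') = lb (lb y l) l' := by
  unfold lb
  rw [List.foldl_append]

omit [AddCommGroup V] in
/-- The value of a special left-normed bracket in characteristic `p`. -/
theorem Lv_special {p : ℕ} (hp : p.Prime) (hp2 : p ≠ 2) (hpF : (p : F) = 0) (r m : ℕ)
    (x : Fin (m + 1) → V) (a u : V) (U : List V)
    (hx : List.ofFn x = a :: u :: (List.replicate (p ^ r - 1) a ++ U)) (φ : List V → F)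
    (h : ∀ c ∈ u :: U, ∀ w, φ (c :: w) = 0) :
    Lv m x φ = φ (List.replicate (p ^ r) a ++ u :: U) := by
  have hz : ((p : ℕ) : Module.End F (List V → F)) = 0 := by
    apply LinearMap.ext
    intro φ
    rw [← nsmul_one, LinearMap.smul_apply, LinearMap.zero_apply, Module.End.one_apply,
      ← Nat.cast_smul_eq_nsmul F, hpF, zero_smul]
  rw [List.ofFn_succ] at hx
  obtain ⟨h1, h2⟩ := List.cons.inj hx
  unfold Lv
  rw [lComm_XX, h1, h2, List.map_cons, List.map_append, List.map_replicate,
    ← List.cons_append, lb_append, lb_replicate hp hp2 hz, ← lb_cons, ← List.map_cons,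
    lb_head_pow a _ (u :: U) φ h]

end Pool.Agent.Work.MP_369e59_al
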