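import Pool.Agent.Work.MP_369e59_al.TwFilt
import Pool.Agent.Work.MP_369e59_al.TwDefs

/-!
# The group attached to a filtered ring with operators
-/

namespace Pool.Agent.Work.MP_369e59_al

open scoped commutatorElement

attribute [local instance 100] LieRing.ofAssociativeRing

/-- A filtered ring with elements `X v` of degree one and operators. -/
structure Sys (Ω V R : Type*) [Group Ω] [AddCommGroup V] [DistribMulAction Ω V] [Ring R] where
  /-- the filtration -/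
  E : ℕ → AddSubgroup R
  /-- its length -/
  N : ℕ
  hE : RFilt E N
  /-- the elements of degree one -/
  X : V →+ R
  hX : ∀ x, X x ∈ E 1
  /-- the operators -/
  O : Ω →* Rˣ
  hOX : ∀ ω x, (O ω : R) * X x * ((O ω)⁻¹ : Rˣ) = X (ω • x)
  hOE : ∀ ω i a, a ∈ E i → (O ω : R) * a * ((O ω)⁻¹ : Rˣ) ∈ E i

namespace Sys

variable {Ω V R : Type*} [Group Ω] [AddCommGroup V] [DistribMulAction Ω V] [Ring R]
  (S : Sys Ω V R)

/-- `g` is congruent to `1 + X x`. -/
def Rep (g : Rˣ) (x : V) : Prop := (g : R) - 1 - S.X x ∈ S.E 2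

variable {S}

theorem Rep.sub_mem {g : Rˣ} {x : V} (h : S.Rep g x) : (g : R) - 1 ∈ S.E 1 := by
  have h1 := add_mem (S.hE.anti _ h) (S.hX x)
  rwa [sub_add_cancel] at h1

theorem Rep.mul {g h : Rˣ} {x y : V} (hg : S.Rep g x) (hh : S.Rep h y) :
    S.Rep (g * h) (x + y) := by
  unfold Rep
  have h1 : ((g * h : Rˣ) : R) - 1 - S.X (x + y) = ((g : R) - 1) * ((h : R) - 1) +
      ((g : R) - 1 - S.X x) + ((h : R) - 1 - S.X y) := by
    rw [Units.val_mul, map_add]; noncomm_ring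
  rw [h1]
  exact add_mem (add_mem (S.hE.mul_mem' hg.sub_mem hh.sub_mem (by omega)) hg) hh

theorem Rep.inv {g : Rˣ} {x : V} (hg : S.Rep g x) : S.Rep g⁻¹ (-x) := by
  unfold Rep
  have h0 : ((g⁻¹ : Rˣ) : R) * (g : R) = 1 := Units.inv_mul g
  have h1 : ((g⁻¹ : Rˣ) : R) - 1 - S.X (-x) =
      -((g : R) - 1 - S.X x) - (((g⁻¹ : Rˣ) : R) - 1) * ((g : R) - 1) := by
    rw [map_neg, sub_mul, mul_sub, h0]; noncomm_ring
  rw [h1]
  exact _root_.sub_mem (neg_mem hg) (S.hE.mul_mem' (S.hE.inv_sub_mem le_rfl g hg.sub_mem) hg.sub_mem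
    (by omega))

theorem rep_one : S.Rep 1 0 := by
  unfold Rep
  rw [map_zero]
  simp [zero_mem]

/-- The operator `ω` on units. -/
def cj (S : Sys Ω V R) (ω : Ω) (g : Rˣ) : Rˣ := S.O ω * g * (S.O ω)⁻¹

theorem Rep.cj {g : Rˣ} {x : V} (hg : S.Rep g x) (ω : Ω) : S.Rep (S.cj ω g) (ω • x) := by
  unfold Rep Sys.cj
  have h1 : ((S.O ω * g * (S.O ω)⁻¹ : Rˣ) : R) - 1 - S.X (ω • x) =
      (S.O ω : R) * ((g : R) - 1 - S.X x) * ((S.O ω)⁻¹ : Rˣ) := by
    rw [← S.hOX, mul_sub, mul_sub, sub_mul, sub_mul, mul_one, Units.mul_inv, Units.val_mul,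
      Units.val_mul]
  rw [h1]
  exact S.hOE ω 2 _ hg

variable (S)

/-- The group. -/
def Grp : Subgroup Rˣ where
  carrier := {g | ∃ x, S.Rep g x}
  one_mem' := ⟨0, rep_one⟩
  mul_mem' := by
    rintro g h ⟨x, hx⟩ ⟨y, hy⟩
    exact ⟨x + y, hx.mul hy⟩
  inv_mem' := by
    rintro g ⟨x, hx⟩
    exact ⟨-x, hx.inv⟩

instance instAct : MulDistribMulAction Ω S.Grp where
  smul ω g := ⟨S.cj ω g, by
    obtain ⟨x, hx⟩ := g.2
    exact ⟨ω • x, hx.cj ω⟩⟩
  one_smul g := by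
    apply Subtype.ext
    change S.cj 1 g = g
    simp [Sys.cj]
  mul_smul ω ω' g := by
    apply Subtype.ext
    change S.cj (ω * ω') g = S.cj ω (S.cj ω' g)
    simp [Sys.cj, mul_assoc]
  smul_one ω := by
    apply Subtype.ext
    change S.cj ω 1 = 1
    simp [Sys.cj]
  smul_mul ω g h := by
    apply Subtype.ext
    change S.cj ω ((g : Rˣ) * h) = S.cj ω g * S.cj ω h
    simp [Sys.cj, mul_assoc]

theorem coe_smul (ω : Ω) (g : S.Grp) : ((ω • g : S.Grp) : Rˣ) = S.cj ω g := rfl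

theorem lcs_eq_bot {n : ℕ} (hn : S.N ≤ n + 1) : (⊤ : Subgroup S.Grp).lowerCentralSeries n = ⊥ :=
  S.hE.lcs_eq_bot S.Grp.subtype (fun g => by
    obtain ⟨x, hx⟩ := g.2
    exact hx.sub_mem) Subtype.coe_injective hn

/-! ### Evaluation of the twisted words -/

theorem evalO_tsh {G : Type*} [Group G] [MulDistribMulAction Ω G] (θ : ℕ → G) (t : Ω)
    (w : FreeGroup (ℕ × Ω)) : evalO θ (tsh t w) = t • evalO θ w := by
  have h1 : (evalO θ).comp (tsh t) = (MulDistribMulAction.toMonoidHom G t).comp (evalO θ) := by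
    apply FreeGroup.ext_hom
    intro x
    simp [evalO, tsh, mul_smul]
  exact DFunLike.congr_fun h1 w

/-- The operator `t - 1` on `V`. -/
def zt (t : Ω) (x : V) : V := t • x - x

theorem rep_zw (θ : ℕ → S.Grp) (t : Ω) (w : FreeGroup (ℕ × Ω)) (x : V)
    (hx : S.Rep (evalO θ w : S.Grp) x) (i : ℕ) :
    S.Rep (evalO θ (zw t i w) : S.Grp) ((zt t)^[i] x) := by
  induction i with
  | zero => exact hx
  | succ i ih =>
    rw [Function.iterate_succ_apply']
    simp only [zw]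
    rw [map_mul, map_inv, evalO_tsh, Subgroup.coe_mul, Subgroup.coe_inv, coe_smul]
    have h1 := ih.inv.mul (ih.cj t)
    rwa [neg_add_eq_sub] at h1

/-- The twisted bracket. -/
def br (T : Twist Ω) (m : ℕ) (y : Fin (m + 1) → V) : R :=
  lComm m (fun i => S.X (y i)) - ∑ ρ : Equiv.Perm (Fin (m + 1)),
    T.ε m ρ • lComm m (fun i => S.X ((zt T.t)^[T.e i] (y (ρ i))))

theorem gComm_eval (θ : ℕ → S.Grp) (m : ℕ) (hN : S.N = m + 2)
    (w : Fin (m + 1) → FreeGroup (ℕ × Ω)) (x : Fin (m + 1) → V)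
    (hx : ∀ i, S.Rep (evalO θ (w i) : S.Grp) (x i)) :
    (((evalO θ (gComm m w) : S.Grp) : Rˣ) : R) - 1 = lComm m (fun i => S.X (x i)) := by
  have h1 := S.hE.gComm_lComm m (fun i => ((evalO θ (w i) : S.Grp) : Rˣ)) (fun i => S.X (x i))
    (fun i => S.hX _) (fun i => hx i)
  have h2 := map_gComm (S.Grp.subtype.comp (evalO θ)) m w
  have h3 : ((evalO θ (gComm m w) : S.Grp) : Rˣ) =
    gComm m (fun i => ((evalO θ (w i) : S.Grp) : Rˣ)) := h2
  rw [h3]
  exact sub_eq_zero.1 (S.hE.bot _ (by rw [hN]; exact h1))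

theorem list_eval (θ : ℕ → S.Grp) {ι : Type*} (l : List ι) (c : ℕ) (hc : S.N ≤ c + c)
    (w : ι → FreeGroup (ℕ × Ω)) (a : ι → R) (k : ι → ℤ)
    (hw : ∀ i, (((evalO θ (w i) : S.Grp) : Rˣ) : R) - 1 = a i) (ha : ∀ i, a i ∈ S.E c) :
    (((evalO θ ((l.map fun i => w i ^ k i).prod) : S.Grp) : Rˣ) : R) - 1 =
      (l.map fun i => k i • a i).sum ∧ (l.map fun i => k i • a i).sum ∈ S.E c := by
  have h1 := S.hE.oneAdd_list hc l (fun i => ((evalO θ (w i) : S.Grp) : Rˣ)) a hw ha k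
  refine ⟨?_, h1.2⟩
  rw [← h1.1]
  congr 2
  rw [map_list_prod, List.map_map]
  have h2 := map_list_prod S.Grp.subtype (List.map (⇑(evalO θ) ∘ fun i => w i ^ k i) l)
  refine h2.trans ?_
  rw [List.map_map]
  congr 1
  refine List.map_congr_left fun i _ => ?_
  simp only [Function.comp, map_zpow]
  rfl

theorem br_mem (T : Twist Ω) (m : ℕ) (y : Fin (m + 1) → V) : S.br T m y ∈ S.E (m + 1) := by
  unfold br
  refine sub_mem (S.hE.lComm_mem m _ (fun i => S.hX _)) (sum_mem fun ρ _ => ?_)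
  exact zsmul_mem (S.hE.lComm_mem m _ (fun i => S.hX _)) _

theorem tComm_eval (θ : ℕ → S.Grp) (T : Twist Ω) (m : ℕ) (hN : S.N = m + 2)
    (w : Fin (m + 1) → FreeGroup (ℕ × Ω)) (x : Fin (m + 1) → V)
    (hx : ∀ i, S.Rep (evalO θ (w i) : S.Grp) (x i)) :
    (((evalO θ (tComm T m w) : S.Grp) : Rˣ) : R) - 1 = S.br T m x := by
  have hc : S.N ≤ (m + 1) + (m + 1) := by omega
  have h1 := S.gComm_eval θ m hN w x hx
  have m1 := S.hE.lComm_mem m (fun i => S.X (x i)) (fun i => S.hX _)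
  have h2 := S.list_eval θ (Finset.univ : Finset (Equiv.Perm (Fin (m + 1)))).toList (m + 1) hc
    (fun ρ => gComm m (fun i => zw T.t (T.e i) (w (ρ i))))
    (fun ρ => lComm m (fun i => S.X ((zt T.t)^[T.e i] (x (ρ i))))) (T.ε m)
    (fun ρ => S.gComm_eval θ m hN (fun i => zw T.t (T.e i) (w (ρ i)))
      (fun i => (zt T.t)^[T.e i] (x (ρ i))) (fun i => S.rep_zw θ T.t _ _ (hx _) _))
    (fun ρ => S.hE.lComm_mem m _ (fun i => S.hX _))
  rw [Finset.sum_map_toList] at h2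
  unfold tComm br
  rw [map_mul, map_inv, Subgroup.coe_mul, Subgroup.coe_inv]
  have h3 := S.hE.oneAdd_inv hc h2.1 h2.2
  rw [S.hE.oneAdd_mul hc h1 m1 h3 (neg_mem h2.2), sub_eq_add_neg]

theorem tWord_eval (θ : ℕ → S.Grp) (T : Twist Ω) (u : MultId) (hN : S.N = u.n + 2)
    (x : ℕ → V) (hx : ∀ j, S.Rep (θ j) (x j)) :
    (((evalO θ (tWord T u) : S.Grp) : Rˣ) : R) - 1 =
      ∑ σ : Equiv.Perm (Fin (u.n + 1)), u.c σ • S.br T u.n (fun i => x (σ i : ℕ)) := by
  have hc : S.N ≤ (u.n + 1) + (u.n + 1) := by omega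
  have h2 := S.list_eval θ (Finset.univ : Finset (Equiv.Perm (Fin (u.n + 1)))).toList (u.n + 1) hc
    (fun σ => tComm T u.n (fun i => FreeGroup.of ((σ i : ℕ), 1)))
    (fun σ => S.br T u.n (fun i => x (σ i : ℕ))) u.c (fun σ => by
      refine S.tComm_eval θ T u.n hN _ (fun i => x (σ i : ℕ)) (fun i => ?_)
      have h1 : evalO θ (FreeGroup.of ((σ i : ℕ), (1 : Ω))) = θ (σ i : ℕ) := by
        simp [evalO]
      rw [h1]
      exact hx _) (fun σ => S.br_mem T u.n _)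
  rw [Finset.sum_map_toList] at h2
  exact h2.1

omit [Group Ω] [AddCommGroup V] [DistribMulAction Ω V] in
theorem sum_ite_one {N : ℕ} (τ : Equiv.Perm (Fin N)) (a : ℤ) (B : Equiv.Perm (Fin N) → R) :
    ∑ σ : Equiv.Perm (Fin N), (if σ = τ then a else 0) • B σ = a • B τ := by
  rw [Finset.sum_eq_single τ]
  · rw [if_pos rfl]
  · intro σ _ hσ
    rw [if_neg hσ, zero_smul]
  · intro h
    exact absurd (Finset.mem_univ _) h

/-- The laws of the group. -/
theorem inVO (T : Twist Ω) (p m : ℕ) (hN : S.N = m + 2) (hpR : (p : R) = 0)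
    (h4 : ∀ i j k l : Fin (m + 1), i ≠ j → k ≠ l → i ≠ k → i ≠ l → j ≠ k → j ≠ l →
      ∀ y : Fin (m + 1) → V, S.br T m y + S.br T m (y ∘ Equiv.swap i j) +
        S.br T m (y ∘ Equiv.swap k l) +
        S.br T m (y ∘ ⇑(Equiv.swap i j * Equiv.swap k l : Equiv.Perm (Fin (m + 1)))) = 0) :
    InVO (WW T p m) S.Grp := by
  intro w hw θ
  rcases hw with hw | ⟨u, hu, rfl⟩
  · have h1 : ((⊤ : Subgroup (FreeGroup (ℕ × Ω))).lowerCentralSeries (m + 1)).map
        (evalO θ : FreeGroup (ℕ × Ω) →* S.Grp) ≤ (⊤ : Subgroup S.Grp).lowerCentralSeries (m + 1) := by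
      rw [Subgroup.map_lowerCentralSeries]
      exact Subgroup.lowerCentralSeries_mono _ le_top
    rw [S.lcs_eq_bot (n := m + 1) (by omega)] at h1
    exact h1 ⟨w, hw, rfl⟩
  · choose x hx using fun j => (θ j).2
    apply Subtype.ext
    apply Units.ext
    rw [Subgroup.coe_one, Units.val_one]
    apply sub_eq_zero.1
    let y : Fin (m + 1) → V := fun i => x i
    rcases hu with rfl | ⟨i, j, k, l, hij, hkl, hik, hil, hjk, hjl, rfl⟩
    · rw [S.tWord_eval θ T (uOne m p) hN x hx]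
      change ∑ σ : Equiv.Perm (Fin (m + 1)), (if σ = 1 then (p : ℤ) else 0) •
        S.br T m (y ∘ σ) = 0
      rw [sum_ite_one, natCast_zsmul, nsmul_eq_mul, hpR, zero_mul]
    · rw [S.tWord_eval θ T (uFour m i j k l) hN x hx]
      change ∑ σ : Equiv.Perm (Fin (m + 1)), ((if σ = 1 then (1 : ℤ) else 0) +
        (if σ = Equiv.swap i j then 1 else 0) + (if σ = Equiv.swap k l then 1 else 0) +
        (if σ = Equiv.swap i j * Equiv.swap k l then 1 else 0)) • S.br T m (y ∘ σ) = 0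
      simp only [add_smul, Finset.sum_add_distrib]
      rw [sum_ite_one, sum_ite_one, sum_ite_one, sum_ite_one, one_smul, one_smul, one_smul,
        one_smul]
      exact h4 i j k l hij hkl hik hil hjk hjl y

/-! ### Non-trivial commutators -/

theorem exists_rep (x : V) : ∃ g : S.Grp, S.Rep (g : Rˣ) x := by
  have h1 : IsNilpotent (S.X x) := ⟨S.N, S.hE.bot _ (S.hE.pow_mem (S.hX x) S.N)⟩
  obtain ⟨g, hg⟩ := h1.isUnit_one_add
  have h2 : S.Rep g x := by
    unfold Rep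
    rw [hg, add_sub_cancel_left, sub_self]
    exact zero_mem _
  exact ⟨⟨g, x, h2⟩, h2⟩

theorem gComm_mem_lcs {G : Type*} [Group G] (n : ℕ) (a : Fin (n + 1) → G) :
    gComm n a ∈ (⊤ : Subgroup G).lowerCentralSeries n := by
  induction n with
  | zero => exact Subgroup.mem_top _
  | succ n ih =>
    rw [Subgroup.lowerCentralSeries_succ]
    exact Subgroup.commutator_mem_commutator (ih _) (Subgroup.mem_top _)

theorem closure_lcs_ne_bot {m : ℕ} (hN : S.N = m + 2) {J : Type*} (h : J → S.Grp) (y : J → V)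
    (hy : ∀ j, S.Rep (h j) (y j)) (τ : Fin (m + 1) → J)
    (hne : lComm m (fun i => S.X (y (τ i))) ≠ 0) :
    (⊤ : Subgroup (Subgroup.closure (Set.range h))).lowerCentralSeries m ≠ ⊥ := by
  intro hbot
  let a : Fin (m + 1) → Subgroup.closure (Set.range h) := fun i =>
    ⟨h (τ i), Subgroup.subset_closure ⟨τ i, rfl⟩⟩
  have h1 := gComm_mem_lcs m a
  rw [hbot, Subgroup.mem_bot] at h1
  have h2 := map_gComm (S.Grp.subtype.comp (Subgroup.closure (Set.range h)).subtype) m a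
  rw [h1, map_one] at h2
  have h3 := S.hE.gComm_lComm m (fun i => ((h (τ i) : S.Grp) : Rˣ)) (fun i => S.X (y (τ i)))
      (fun i => S.hX _) (fun i => hy _)
  have h4 : gComm m (fun i => ((h (τ i) : S.Grp) : Rˣ)) = 1 := h2.symm
  rw [h4, Units.val_one, sub_self, zero_sub] at h3
  exact hne (neg_eq_zero.1 (S.hE.bot _ (by rw [hN]; exact h3)))

/-! ### Local nilpotency -/

theorem isPGroup {p : ℕ} [hp : Fact p.Prime] (hpR : (p : R) = 0) : IsPGroup p S.Grp := by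
  intro g
  refine ⟨S.N, ?_⟩
  obtain ⟨x, hx⟩ := g.2
  apply Subtype.ext
  apply Units.ext
  rw [Subgroup.coe_pow, Units.val_pow_eq_pow_val, Subgroup.coe_one, Units.val_one]
  have h1 := (Commute.one_left (((g : Rˣ) : R) - 1)).add_pow_prime_pow_eq hp.out S.N
  have h2 : (((g : Rˣ) : R) - 1) ^ p ^ S.N = 0 := by
    apply S.hE.bot
    exact S.hE.le (Nat.lt_pow_self hp.out.one_lt).le (S.hE.pow_mem hx.sub_mem _)
  rw [h2, one_pow, add_zero, hpR] at h1
  simpa using h1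

theorem locNilp {p : ℕ} [hp : Fact p.Prime] [Finite R] [Finite Ω] (hpR : (p : R) = 0)
    (hΩ : IsPGroup p Ω) : LocNilp (S.Grp ⋊[MulDistribMulAction.toMulAut Ω S.Grp] Ω) := by
  have hfin : Finite (S.Grp ⋊[MulDistribMulAction.toMulAut Ω S.Grp] Ω) :=
    Finite.of_equiv _ (SemidirectProduct.equivProd).symm
  obtain ⟨a, ha⟩ := IsPGroup.iff_card.1 (S.isPGroup hpR)
  obtain ⟨b, hb⟩ := IsPGroup.iff_card.1 hΩ
  have h1 : IsPGroup p (S.Grp ⋊[MulDistribMulAction.toMulAut Ω S.Grp] Ω) :=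
    IsPGroup.iff_card.2 ⟨a + b, by rw [SemidirectProduct.card, ha, hb, pow_add]⟩
  have h2 := h1.isNilpotent
  intro T
  infer_instance

end Sys

end Pool.Agent.Work.MP_369e59_al
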